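import Mathlib
import Pool.Agent.Lib.H13S.Defs

/-!
# H13Z: definitions

The algebraic half of the exact criterion for every prime l at least 5 (problem MP_f50388): a prime v of F with
l | #E(k_v) that ramifies in a Galois extension K/F of l-power degree gives a nonzero element of the l-Selmer group
of E over K. See PROOF.md.
-/

open NumberField IsDedekindDomain

namespace H13Z

open H55P H28G H55B H13S

variable {Ω : Type} [Field Ω] [DecidableEq Ω] [Algebra F Ω]

/-- pi is a primary prime element of O above the prime number l at least 5. -/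
structure Dat (π : O) (l : ℕ) : Prop where
  hl : l.Prime
  five : 5 ≤ l
  pr : Prime π
  prim : Prim π
  dvd : π ∣ (l : O)

/-- c is a continuous cocycle on the group of B with values in the points killed by the conjugate of pi. -/
structure Cc (π : O) (B : IntermediateField F Ω) (c : (Ω ≃ₐ[F] Ω) → P27 Ω) : Prop where
  mul : ∀ s ∈ B.fixingSubgroup, ∀ t ∈ B.fixingSubgroup, c (s * t) = c s + ac W27 s (c t)
  cont : ∃ N : IntermediateField F Ω, FiniteDimensional F N ∧
    ∀ s ∈ B.fixingSubgroup, s ∈ N.fixingSubgroup → c s = 0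
  val : ∀ s ∈ B.fixingSubgroup, c s ∈ Tor (cj π) Ω

/-- L is the field generated over B by the points killed by pi. -/
structure IsTB (π : O) (B L : IntermediateField F Ω) : Prop where
  fin : FiniteDimensional F L
  le : B ≤ L
  fix : ∀ s : Ω ≃ₐ[F] Ω, s ∈ L.fixingSubgroup ↔ s ∈ B.fixingSubgroup ∧ ∀ T ∈ Tor π Ω, ac W27 s T = T

theorem fix_bot (s : Ω ≃ₐ[F] Ω) : s ∈ (⊥ : IntermediateField F Ω).fixingSubgroup := by
  rw [IntermediateField.fixingSubgroup_bot]
  exact Subgroup.mem_top s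

theorem IsTB.mono {π : O} {B L : IntermediateField F Ω} (h : IsTB π B L) {s : Ω ≃ₐ[F] Ω}
    (hs : s ∈ L.fixingSubgroup) : s ∈ B.fixingSubgroup := ((h.fix s).1 hs).1

theorem Cc.one {π : O} {B : IntermediateField F Ω} {c : (Ω ≃ₐ[F] Ω) → P27 Ω} (h : Cc π B c) : c 1 = 0 := by
  have h1 := h.mul 1 (Subgroup.one_mem _) 1 (Subgroup.one_mem _)
  rw [mul_one, ac_one] at h1
  exact left_eq_add.mp h1

theorem Cc.inv {π : O} {B : IntermediateField F Ω} {c : (Ω ≃ₐ[F] Ω) → P27 Ω} (h : Cc π B c)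
    {s : Ω ≃ₐ[F] Ω} (hs : s ∈ B.fixingSubgroup) : ac W27 s (c s⁻¹) = -c s := by
  have h1 := h.mul s hs s⁻¹ (Subgroup.inv_mem _ hs)
  rw [mul_inv_cancel, h.one] at h1
  exact (neg_eq_of_add_eq_zero_right h1.symm).symm

/-- The cocycle b c, b in O. -/
theorem Cc.act {π : O} {B : IntermediateField F Ω} {c : (Ω ≃ₐ[F] Ω) → P27 Ω} (h : Cc π B c) (b : O) :
    Cc π B fun s => H28G.act b (c s) := by
  refine ⟨fun s hs t ht => ?_, ?_, fun s hs => ?_⟩
  · rw [h.mul s hs t ht, map_add, ac_act]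
  · obtain ⟨N, hN, h1⟩ := h.cont
    refine ⟨N, hN, fun s hs hsN => ?_⟩
    rw [h1 s hs hsN, map_zero]
  · have h1 := h.val s hs
    rw [mem_Tor] at h1 ⊢
    rw [← act_mul, mul_comm, act_mul, h1, map_zero]

end H13Z
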