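import Mathlib
import Pool.Agent.Lib.H13S.GI0
import Pool.Agent.Lib.H13Z.Defs

/-!
# H13Z: definitions for the local theory

V is a valuation ring of Ω. DT = the elements of the decomposition group which fix the points killed by pi,
Hx = the elements of Ω fixed by DT (the henselization of F(E[pi]) at V). See PROOF.md.
-/

open NumberField IsDedekindDomain

namespace H13Z

open H55P H28G H55B H13S

variable {Ω : Type} [Field Ω] [DecidableEq Ω] [Algebra F Ω]

/-- s lies in the decomposition group of V and fixes the points killed by pi. -/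
def DT (π : O) (V : ValuationSubring Ω) (s : Ω ≃ₐ[F] Ω) : Prop :=
  Dec V s ∧ ∀ T ∈ Tor π Ω, ac W27 s T = T

/-- x is fixed by these automorphisms. -/
def Hx (π : O) (V : ValuationSubring Ω) (x : Ω) : Prop := ∀ s, DT π V s → s x = x

/-- s lies in the inertia group of V and fixes the points killed by pi and by its conjugate. -/
def JV (π : O) (V : ValuationSubring Ω) (s : Ω ≃ₐ[F] Ω) : Prop :=
  Inert V s ∧ (∀ T ∈ Tor π Ω, ac W27 s T = T) ∧ ∀ T ∈ Tor (cj π) Ω, ac W27 s T = T

/-- c is a cocycle on the decomposition group of V with values in the points killed by the conjugate of pi. -/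
structure Dc (π : O) (V : ValuationSubring Ω) (c : (Ω ≃ₐ[F] Ω) → P27 Ω) : Prop where
  mul : ∀ s, Dec V s → ∀ t, Dec V t → c (s * t) = c s + ac W27 s (c t)
  val : ∀ s, Dec V s → c s ∈ Tor (cj π) Ω

/-- The y T are Kummer generators for c over the henselization. -/
structure KS (π : O) (V : ValuationSubring Ω) (e : P27 Ω → P27 Ω → Ω) (c : (Ω ≃ₐ[F] Ω) → P27 Ω)
    (y : P27 Ω → Ω) : Prop where
  ne : ∀ T ∈ Tor π Ω, y T ≠ 0
  act : ∀ T ∈ Tor π Ω, ∀ s, DT π V s → s (y T) = e (c s) T * y T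

/-- An additive and equivariant system of elements of the henselization modulo l-th powers. -/
structure Sys (π : O) (l : ℕ) (V : ValuationSubring Ω) (m : P27 Ω → Ω) : Prop where
  ne : ∀ T ∈ Tor π Ω, m T ≠ 0
  fx : ∀ T ∈ Tor π Ω, Hx π V (m T)
  add : ∀ T ∈ Tor π Ω, ∀ T' ∈ Tor π Ω, ∃ z, Hx π V z ∧ z ≠ 0 ∧ m (T + T') = m T * m T' * z ^ l
  act : ∀ s, Dec V s → ∀ T ∈ Tor π Ω, ∃ z, Hx π V z ∧ z ≠ 0 ∧ m (ac W27 s T) = s (m T) * z ^ l

/-- The level: m is an l-th power times an element which differs from 1 by at most r. -/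
def Lv (π : O) (l : ℕ) (V : ValuationSubring Ω) (r : V.ValueGroup) (m : Ω) : Prop :=
  ∃ z, Hx π V z ∧ z ≠ 0 ∧ V.valuation (m / z ^ l - 1) ≤ r

/-- The coefficient a of m at the level i: m = z^l (1 + a t^i + smaller terms). -/
def Co (π : O) (l : ℕ) (V : ValuationSubring Ω) (t : Ω) (i : ℕ) (m : Ω) (a : O) : Prop :=
  ∃ z, Hx π V z ∧ z ≠ 0 ∧ V.valuation (m / z ^ l - 1 - algebraMap F Ω (a : F) * t ^ i) ≤
    V.valuation t ^ (i + 1)

/-- The ramified case: V lies above pi, t is the parameter of a point killed by pi, q = Nm pi, e0 (l - 1) = q - 1. -/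
structure RV (π : O) (l : ℕ) (V : ValuationSubring Ω) (t : Ω) (e0 : ℕ) : Prop where
  D : Dat π l
  above : vo V π < 1
  pt : ∃ T ∈ Tor π Ω, T ≠ 0 ∧ t = tt T
  e0 : e0 * (l - 1) = Nm π - 1

/-- A pairing for which the adjoint of a is its conjugate. -/
structure PairA (π : O) (l : ℕ) (e : P27 Ω → P27 Ω → Ω) : Prop where
  pair : Pairing π l e
  adj : ∀ (a : O), ∀ X ∈ Tor (cj π) Ω, ∀ T ∈ Tor π Ω, e (H28G.act a X) T = e X (H28G.act (cj a) T)

end H13Z
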