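import Mathlib
import Pool.Agent.Lib.H13S.DV
import Pool.Agent.Lib.H13S.GIT
import Pool.Agent.Lib.H13S.QV
import Pool.Agent.Lib.H13Z.LDefs

open NumberField IsDedekindDomain

namespace H13Z

open H55P H28G H55B H13S

variable {Ω : Type} [Field Ω] [DecidableEq Ω] [Algebra F Ω]

variable {π : O} {V : ValuationSubring Ω}

/-- Chunk LG (S), closure properties, all direct from the definitions. -/
theorem Hx.add {x y : Ω} (hx : Hx π V x) (hy : Hx π V y) : Hx π V (x + y) := by
  intro s hs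
  rw [map_add, hx s hs, hy s hs]

theorem Hx.sub {x y : Ω} (hx : Hx π V x) (hy : Hx π V y) : Hx π V (x - y) := by
  intro s hs
  rw [map_sub, hx s hs, hy s hs]

theorem Hx.mul {x y : Ω} (hx : Hx π V x) (hy : Hx π V y) : Hx π V (x * y) := by
  intro s hs
  rw [map_mul, hx s hs, hy s hs]

theorem Hx.div {x y : Ω} (hx : Hx π V x) (hy : Hx π V y) : Hx π V (x / y) := by
  intro s hs
  rw [map_div₀, hx s hs, hy s hs]

theorem Hx.inv {x : Ω} (hx : Hx π V x) : Hx π V x⁻¹ := by
  intro s hs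
  rw [map_inv₀, hx s hs]

theorem Hx.pow {x : Ω} (hx : Hx π V x) (n : ℕ) : Hx π V (x ^ n) := by
  intro s hs
  rw [map_pow, hx s hs]

theorem Hx.zpow {x : Ω} (hx : Hx π V x) (n : ℤ) : Hx π V (x ^ n) := by
  intro s hs
  rw [map_zpow₀, hx s hs]

theorem Hx.alg (a : F) : Hx π V (algebraMap F Ω a) := by
  intro s _
  exact s.commutes a

theorem Hx.nat (n : ℕ) : Hx π V (n : Ω) := by
  intro s _
  exact map_natCast s n

theorem Hx.one : Hx π V (1 : Ω) := by
  intro s _
  exact map_one s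

/-- tt_mp, ac_eq. -/
theorem Hx.tt {T : P27 Ω} (hT : T ∈ Tor π Ω) : Hx π V (H28G.tt T) := by
  intro s hs
  have h1 : H28G.tt (ac W27 s T) = s (H28G.tt T) := tt_mp s.toAlgHom T
  rw [← h1, hs.2 T hT]

theorem Dec.mul' {s t : Ω ≃ₐ[F] Ω} (hs : Dec V s) (ht : Dec V t) : Dec V (s * t) := by
  intro x
  exact (hs (t x)).trans (ht x)

theorem Dec.inv' {s : Ω ≃ₐ[F] Ω} (hs : Dec V s) : Dec V s⁻¹ := by
  intro x
  have h1 := hs (s⁻¹ x)
  have h2 : s (s⁻¹ x) = x := s.apply_symm_apply x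
  rw [h2] at h1
  exact h1.symm

/-- Elements of the decomposition group preserve the inequalities between values (H13S.dv_le). -/
theorem Dec.lt {s : Ω ≃ₐ[F] Ω} (hs : Dec V s) (a b : Ω) :
    V.valuation (s a) < V.valuation (s b) ↔ V.valuation a < V.valuation b := by
  rw [← not_le, ← not_le, dv_le s hs b a]

theorem Dec.lt_one {s : Ω ≃ₐ[F] Ω} (hs : Dec V s) (a : Ω) : V.valuation (s a) < 1 ↔ V.valuation a < 1 := by
  have h := Dec.lt hs a 1
  rwa [map_one, map_one] at h

theorem Dec.le_one {s : Ω ≃ₐ[F] Ω} (hs : Dec V s) (a : Ω) : V.valuation (s a) ≤ 1 ↔ V.valuation a ≤ 1 := by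
  have h := dv_le s hs a 1
  rwa [map_one, map_one] at h

/-- s has a finite orbit on a: as in H13S.qv_val. -/
theorem Dec.val [Algebra.IsAlgebraic F Ω] {s : Ω ≃ₐ[F] Ω} (hs : Dec V s) (a : Ω) :
    V.valuation (s a) = V.valuation a := by
  obtain ⟨n, hn, hna⟩ := qv_orb s a
  have hstep : ∀ k : ℕ, (s ^ (k + 1)) a = s ((s ^ k) a) := by
    intro k
    rw [pow_succ']
    rfl
  rcases lt_trichotomy (V.valuation (s a)) (V.valuation a) with h | h | h
  · exfalso
    have h1 : ∀ k : ℕ, V.valuation ((s ^ (k + 1)) a) < V.valuation a := by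
      intro k
      induction k with
      | zero =>
        rw [zero_add, pow_one]
        exact h
      | succ k ih =>
        rw [hstep (k + 1)]
        exact lt_trans ((Dec.lt hs _ _).2 ih) h
    have h2 := h1 (n - 1)
    rw [Nat.sub_add_cancel hn, hna] at h2
    exact lt_irrefl _ h2
  · exact h
  · exfalso
    have h1 : ∀ k : ℕ, V.valuation a < V.valuation ((s ^ (k + 1)) a) := by
      intro k
      induction k with
      | zero =>
        rw [zero_add, pow_one]
        exact h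
      | succ k ih =>
        rw [hstep (k + 1)]
        exact lt_trans h ((Dec.lt hs _ _).2 ih)
    have h2 := h1 (n - 1)
    rw [Nat.sub_add_cancel hn, hna] at h2
    exact lt_irrefl _ h2

/-- The inertia group is contained in the decomposition group (H13S.git_dec). -/
theorem Inert.dec {s : Ω ≃ₐ[F] Ω} (hs : Inert V s) : Dec V s := git_dec V s hs

/-- Conjugation: s σ x = σ (σ⁻¹ s σ) x, and σ⁻¹ s σ is again in DT (the points killed by pi are stable: ac_mem, ac_mul). -/
theorem Hx.dec {x : Ω} (hx : Hx π V x) {σ : Ω ≃ₐ[F] Ω} (hσ : Dec V σ) : Hx π V (σ x) := by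
  intro s hs
  have h1 : DT π V (σ⁻¹ * s * σ) := by
    refine ⟨Dec.mul' (Dec.mul' (Dec.inv' hσ) hs.1) hσ, ?_⟩
    intro T hT
    rw [ac_mul, ac_mul, hs.2 _ (ac_mem σ hT), ← ac_mul, inv_mul_cancel, ac_one]
  have h2 := hx _ h1
  have h3 : s (σ x) = σ ((σ⁻¹ * s * σ) x) := by
    have h4 : (σ⁻¹ * s * σ) x = σ⁻¹ (s (σ x)) := rfl
    rw [h4]
    exact (σ.apply_symm_apply _).symm
  rw [h3, h2]

/-- Conjugates of inertia elements by decomposition elements are inertia elements. -/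
theorem Inert.conj {s σ : Ω ≃ₐ[F] Ω} (hs : Inert V s) (hσ : Dec V σ) : Inert V (σ⁻¹ * s * σ) := by
  intro x hx
  have h1 := hs (σ x) ((hσ x).2 hx)
  have h2 := (Dec.lt_one (Dec.inv' hσ) (s (σ x) - σ x)).2 h1
  rw [map_sub] at h2
  have h3 : σ⁻¹ (σ x) = x := σ.symm_apply_apply x
  rw [h3] at h2
  exact h2

/-- An automorphism acting as act a on Tor β (β prime, primary) and moving a point has no fixed point: act (a - 1) T = 0 and β does not divide a - 1 (Bezout: β and a - 1 are coprime). a from exists_chi (CH.lean) or gi_gen. -/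
theorem no_fix [IsAlgClosure F Ω] {β : O} (hβ : Prime β) (h3 : Prim β) {s : Ω ≃ₐ[F] Ω}
    (h : ∃ T ∈ Tor β Ω, ac W27 s T ≠ T) {T : P27 Ω} (hT : T ∈ Tor β Ω) (hs : ac W27 s T = T) : T = 0 := by
  obtain ⟨-, T₀, hT₀, hgen, hker⟩ := gi_gen (Ω := Ω) β hβ h3
  obtain ⟨a, ha⟩ := hgen _ (ac_mem s hT₀)
  have hall : ∀ X ∈ Tor β Ω, ac W27 s X = H28G.act a X := by
    intro X hX
    obtain ⟨b, rfl⟩ := hgen X hX
    rw [ac_act, ha, ← act_mul, ← act_mul, mul_comm]
  obtain ⟨T₁, hT₁, hne⟩ := h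
  have hnd : ¬ β ∣ a - 1 := by
    rintro ⟨c, hc⟩
    apply hne
    rw [hall T₁ hT₁, ← sub_eq_zero]
    have h1 : H28G.act (a - 1) T₁ = 0 := by
      rw [hc, mul_comm, act_mul, mem_Tor.1 hT₁]
      exact map_zero _
    rwa [act_sub, act_one] at h1
  obtain ⟨u, v, huv⟩ := (hβ.irreducible.coprime_iff_not_dvd).2 hnd
  have h1 : H28G.act (a - 1) T = 0 := by
    rw [act_sub, act_one, ← hall T hT, hs, sub_self]
  have h2 : H28G.act (u * β + v * (a - 1)) T = 0 := by
    rw [act_add, act_mul, act_mul, mem_Tor.1 hT, h1, map_zero, map_zero, add_zero]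
  rwa [huv, act_one] at h2

end H13Z
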