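import Mathlib
import Pool.Agent.Lib.H13Z.LG

open NumberField IsDedekindDomain

namespace H13Z

open H55P H28G H55B H13S

variable {Ω : Type} [Field Ω] [DecidableEq Ω] [Algebra F Ω] [IsAlgClosure F Ω]

theorem LDG_ff {k R : Type} [Field k] [Finite k] [Field R] [Finite R] (ι : k →+* R) (τ : R →+* R)
    (h : ∀ a, τ (ι a) = ι a) : ∃ j : ℕ, ∀ x, τ x = x ^ (Nat.card k ^ j) := by
  let _ : Algebra k R := ι.toAlgebra
  let _ : Fintype k := Fintype.ofFinite k
  let τ' : R →ₐ[k] R := { τ with commutes' := h }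
  obtain ⟨n, hn⟩ := (FiniteField.bijective_frobeniusAlgHom_pow k R).2 τ'
  refine ⟨n.1, fun x => ?_⟩
  have h1 := DFunLike.congr_fun hn x
  simp only [AlgHom.coe_pow, FiniteField.coe_frobeniusAlgHom, pow_iterate] at h1
  rw [Nat.card_eq_fintype_card]
  exact h1.symm

theorem LDG_pow {L : Type} [Field L] (V : ValuationSubring L) {x y : L} (hx : V.valuation x ≤ 1)
    (hy : V.valuation y ≤ 1) (h : V.valuation (x - y) < 1) (n : ℕ) : V.valuation (x ^ n - y ^ n) < 1 := by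
  induction n with
  | zero =>
    rw [pow_zero, pow_zero, sub_self, map_zero]
    exact zero_lt_one
  | succ n ih =>
    have e : x ^ (n + 1) - y ^ (n + 1) = x ^ n * (x - y) + (x ^ n - y ^ n) * y := by ring
    rw [e]
    refine V.valuation.map_add_lt ?_ ?_
    · rw [map_mul, map_pow]
      exact lt_of_le_of_lt (mul_le_of_le_one_left' (pow_le_one' hx n)) h
    · rw [map_mul]
      exact lt_of_le_of_lt (mul_le_of_le_one_right' hy) ih

theorem LDG_decpow {Ω : Type} [Field Ω] [DecidableEq Ω] [Algebra F Ω] {V : ValuationSubring Ω}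
    {φ : Ω ≃ₐ[F] Ω} (hφ : Dec V φ) (j : ℕ) : Dec V (φ ^ j) := by
  induction j with
  | zero =>
    intro x
    rw [pow_zero]
    rfl
  | succ j ih =>
    rw [pow_succ]
    exact Dec.mul' ih hφ

theorem LDG_phi {Ω : Type} [Field Ω] [DecidableEq Ω] [Algebra F Ω] {V : ValuationSubring Ω}
    {φ : Ω ≃ₐ[F] Ω} (hφ : Dec V φ) {Q : ℕ} (hφF : ∀ x ∈ V, V.valuation (φ x - x ^ Q) < 1) (j : ℕ)
    {y : Ω} (hy : y ∈ V) : V.valuation ((φ ^ j) y - y ^ (Q ^ j)) < 1 := by
  induction j with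
  | zero =>
    rw [pow_zero, pow_zero, pow_one]
    have : (1 : Ω ≃ₐ[F] Ω) y - y = 0 := sub_self y
    rw [this, map_zero]
    exact zero_lt_one
  | succ j ih =>
    have h1 : (φ ^ j) y ∈ V := (LDG_decpow hφ j y).2 hy
    have h2 := hφF _ h1
    have h3 := LDG_pow V ((V.valuation_le_one_iff _).2 h1)
      ((V.valuation_le_one_iff _).2 (V.pow_mem hy (Q ^ j))) ih Q
    have h4 : (φ ^ (j + 1)) y = φ ((φ ^ j) y) := by
      rw [pow_succ']
      rfl
    have e : (φ ^ (j + 1)) y - y ^ (Q ^ (j + 1)) = (φ ((φ ^ j) y) - ((φ ^ j) y) ^ Q) +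
        (((φ ^ j) y) ^ Q - (y ^ (Q ^ j)) ^ Q) := by
      rw [h4, pow_succ Q j, pow_mul]
      ring
    rw [e]
    exact V.valuation.map_add_lt h2 h3

theorem LDG_frobN {K : IntermediateField F Ω} [NumberField K] {V : ValuationSubring Ω}
    {w : HeightOneSpectrum (𝓞 K)} (hw : Abv K V w) (N : IntermediateField F Ω) [NumberField N]
    (W : HeightOneSpectrum (𝓞 N)) (hW : Abv N V W) (hKN : K ≤ N)
    (hN : ∀ s : Ω ≃ₐ[F] Ω, ∀ x ∈ N, s x ∈ N) {s : Ω ≃ₐ[F] Ω} (hs : s ∈ K.fixingSubgroup) (hsD : Dec V s) :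
    ∃ j : ℕ, ∀ a : 𝓞 N, V.valuation (s ((a : N) : Ω) - ((a : N) : Ω) ^ (Ideal.absNorm w.asIdeal ^ j)) < 1 := by
  let sN : N →+* N := (((s : Ω →ₐ[F] Ω).comp N.val).codRestrict N.toSubalgebra (fun x => hN s x x.2)).toRingHom
  let sO : 𝓞 N →+* 𝓞 N := RingOfIntegers.mapRingHom sN
  have hsO : ∀ a : 𝓞 N, (((sO a : 𝓞 N) : N) : Ω) = s ((a : N) : Ω) := fun a => rfl
  let iN : K →+* N := (IntermediateField.inclusion hKN).toRingHom
  let iO : 𝓞 K →+* 𝓞 N := RingOfIntegers.mapRingHom iN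
  have hiO : ∀ a : 𝓞 K, (((iO a : 𝓞 N) : N) : Ω) = ((a : K) : Ω) := fun a => rfl
  have memW : ∀ a : 𝓞 N, a ∈ W.asIdeal ↔ V.valuation ((a : N) : Ω) < 1 := by
    intro a
    rw [hW.lt]
    exact (W.valuation_lt_one_iff_mem a).symm
  have memw : ∀ a : 𝓞 K, a ∈ w.asIdeal ↔ V.valuation ((a : K) : Ω) < 1 := by
    intro a
    rw [hw.lt]
    exact (w.valuation_lt_one_iff_mem a).symm
  have hle1 : W.asIdeal ≤ W.asIdeal.comap sO := by
    intro a ha
    rw [Ideal.mem_comap, memW, hsO, Dec.lt_one hsD]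
    exact (memW a).1 ha
  have hle2 : w.asIdeal ≤ W.asIdeal.comap iO := by
    intro a ha
    rw [Ideal.mem_comap, memW, hiO]
    exact (memw a).1 ha
  have hwm := w.isMaximal
  have hWm := W.isMaximal
  let _ : Field (𝓞 K ⧸ w.asIdeal) := Ideal.Quotient.field w.asIdeal
  let _ : Field (𝓞 N ⧸ W.asIdeal) := Ideal.Quotient.field W.asIdeal
  have hfin1 : Finite (𝓞 K ⧸ w.asIdeal) := Ideal.finiteQuotientOfFreeOfNeBot _ w.ne_bot
  have hfin2 : Finite (𝓞 N ⧸ W.asIdeal) := Ideal.finiteQuotientOfFreeOfNeBot _ W.ne_bot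
  obtain ⟨j, hj⟩ := LDG_ff (Ideal.quotientMap W.asIdeal iO hle2) (Ideal.quotientMap W.asIdeal sO hle1) (by
    intro a
    obtain ⟨a, rfl⟩ := Ideal.Quotient.mk_surjective a
    rw [Ideal.quotientMap_mk, Ideal.quotientMap_mk]
    congr 1
    apply RingOfIntegers.coe_injective
    apply Subtype.ext
    rw [hsO, hiO]
    exact (IntermediateField.mem_fixingSubgroup_iff K s).1 hs _ (a : K).2)
  refine ⟨j, fun a => ?_⟩
  have h1 := hj (Ideal.Quotient.mk W.asIdeal a)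
  rw [Ideal.quotientMap_mk, ← map_pow, Ideal.Quotient.mk_eq_mk_iff_sub_mem, memW] at h1
  have h3 : Ideal.absNorm w.asIdeal = Nat.card (𝓞 K ⧸ w.asIdeal) := rfl
  rw [h3]
  exact h1

theorem LDG_ext (N : IntermediateField F Ω) [NumberField N] {V : ValuationSubring Ω}
    (W : HeightOneSpectrum (𝓞 N)) (hW : Abv N V W) {s : Ω ≃ₐ[F] Ω} (hsD : Dec V s) (q : ℕ)
    (h : ∀ a : 𝓞 N, V.valuation (s ((a : N) : Ω) - ((a : N) : Ω) ^ q) < 1) (x : Ω) (hx : x ∈ N) (hxV : x ∈ V) :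
    V.valuation (s x - x ^ q) < 1 := by
  obtain ⟨n, d, hnd⟩ := HeightOneSpectrum.exists_primeCompl_mul_eq_of_integer W (⟨x, hx⟩ : N)
    ((hW ⟨x, hx⟩).1 hxV)
  have hxd : x * (((d : 𝓞 N) : N) : Ω) = ((n : N) : Ω) := congrArg Subtype.val hnd
  have hd1 : ¬ V.valuation (((d : 𝓞 N) : N) : Ω) < 1 := by
    intro h1
    rw [hW.lt] at h1
    exact d.2 ((W.valuation_lt_one_iff_mem (d : 𝓞 N)).1 h1)
  have hsd : V.valuation (s (((d : 𝓞 N) : N) : Ω)) = 1 := by
    refine le_antisymm ?_ ?_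
    · rw [Dec.le_one hsD]
      exact vw_int N V d
    · rw [← not_lt, Dec.lt_one hsD]
      exact hd1
  have h1 := h (d : 𝓞 N)
  have h2 := h n
  have hxv : V.valuation (x ^ q) ≤ 1 := (V.valuation_le_one_iff _).2 (V.pow_mem hxV q)
  have e : (s x - x ^ q) * s (((d : 𝓞 N) : N) : Ω) = (s ((n : N) : Ω) - ((n : N) : Ω) ^ q) -
      x ^ q * (s (((d : 𝓞 N) : N) : Ω) - (((d : 𝓞 N) : N) : Ω) ^ q) := by
    rw [← hxd, map_mul, mul_pow]
    ring
  have h3 : V.valuation ((s x - x ^ q) * s (((d : 𝓞 N) : N) : Ω)) < 1 := by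
    rw [e]
    refine lt_of_le_of_lt (V.valuation.map_sub _ _) (max_lt h2 ?_)
    rw [map_mul]
    exact lt_of_le_of_lt (mul_le_of_le_one_left' hxv) h1
  rw [map_mul, hsd, mul_one] at h3
  exact h3

theorem LDG_top {K : IntermediateField F Ω} [NumberField K] {V : ValuationSubring Ω}
    {w : HeightOneSpectrum (𝓞 K)} (hw : Abv K V w) : ∃ x : K, (x : Ω) ∉ V := by
  obtain ⟨a, ha, ha0⟩ := Submodule.exists_mem_ne_zero_of_ne_bot w.ne_bot
  have h1 : V.valuation ((a : K) : Ω) < 1 := by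
    rw [hw.lt]
    exact (w.valuation_lt_one_iff_mem a).2 ha
  have ha1 : ((a : K) : Ω) ≠ 0 := by
    intro h
    apply ha0
    apply RingOfIntegers.coe_injective
    exact Subtype.ext h
  refine ⟨(a : K)⁻¹, fun h => ?_⟩
  have e : (((a : K)⁻¹ : K) : Ω) = ((a : K) : Ω)⁻¹ := rfl
  rw [e, ← V.valuation_le_one_iff, map_inv₀, inv_le_one₀ (zero_lt_iff.2 ((map_ne_zero _).2 ha1))] at h
  exact absurd h1 (not_lt.2 h)

/-- Chunk LDG1 (M). The decomposition group is generated by a Frobenius element and elements which are inertial on a given finite subfield N. N may be enlarged to a normal extension of F containing K (normalClosure). s in Dec V, s in K.fixingSubgroup. W = the prime of 𝓞 N below V (exists_below; V is not ⊤), the residue field 𝓞 N/W is finite,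
with the subfield 𝓞 K/w with Q = absNorm w elements. s and φ map 𝓞 N to itself and preserve W (Dec), s induces an automorphism of 𝓞 N/W over 𝓞 K/w, so x → x^(Q^j) for some j (FiniteField: the Galois group is generated by Frobenius; e.g. bijective_frobeniusAlgEquivOfAlgebraic_pow, or IsCyclic..), as φ^j.
So s φ^(-j) x - x has value < 1 for x in 𝓞 N, hence for x in N, x in V (x = a/b with a, b in 𝓞 N, b not in W). -/
theorem dec_frob {K : IntermediateField F Ω} [NumberField K] {V : ValuationSubring Ω}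
    {w : HeightOneSpectrum (𝓞 K)} (hw : Abv K V w) {φ : Ω ≃ₐ[F] Ω} (hφ : φ ∈ K.fixingSubgroup)
    (hφD : Dec V φ) (hφF : ∀ x ∈ V, V.valuation (φ x - x ^ Ideal.absNorm w.asIdeal) < 1)
    (N : IntermediateField F Ω) [FiniteDimensional F N] (hKN : K ≤ N)
    (hN : ∀ s : Ω ≃ₐ[F] Ω, ∀ x ∈ N, s x ∈ N) {s : Ω ≃ₐ[F] Ω} (hs : s ∈ K.fixingSubgroup) (hsD : Dec V s) :
    ∃ j : ℕ, ∀ x ∈ N, x ∈ V → V.valuation ((s * (φ ^ j)⁻¹) x - x) < 1 := by
  have hNnf : NumberField N := NumberField.of_module_finite F N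
  have hVN : ∃ x : N, (x : Ω) ∉ V := by
    obtain ⟨x, hx⟩ := LDG_top hw
    exact ⟨⟨x, hKN x.2⟩, hx⟩
  obtain ⟨W, hW⟩ := exists_below N V hVN
  obtain ⟨j, hj⟩ := LDG_frobN hw N W hW hKN hN hs hsD
  refine ⟨j, fun x hx hxV => ?_⟩
  have hy : (φ ^ j)⁻¹ x ∈ N := hN _ x hx
  have hyV : (φ ^ j)⁻¹ x ∈ V := (Dec.inv' (LDG_decpow hφD j) x).2 hxV
  have h1 := LDG_ext N W hW hsD _ hj _ hy hyV
  have h2 := LDG_phi hφD hφF j hyV
  have h3 : (φ ^ j) ((φ ^ j)⁻¹ x) = x := by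
    have h4 : ((φ ^ j) * (φ ^ j)⁻¹) x = x := by
      rw [mul_inv_cancel]
      rfl
    exact h4
  rw [h3] at h2
  have e : (s * (φ ^ j)⁻¹) x - x = (s ((φ ^ j)⁻¹ x) - ((φ ^ j)⁻¹ x) ^ (Ideal.absNorm w.asIdeal ^ j)) -
      (x - ((φ ^ j)⁻¹ x) ^ (Ideal.absNorm w.asIdeal ^ j)) := by
    have : (s * (φ ^ j)⁻¹) x = s ((φ ^ j)⁻¹ x) := rfl
    rw [this]
    ring
  rw [e]
  exact lt_of_le_of_lt (V.valuation.map_sub _ _) (max_lt h1 h2)

/-- Chunk LDG2 (S/M). A cocycle on the decomposition group over K vanishing on inertia and at Frobenius is zero. Enlarge N (from hc) to a finite normal extension of F containing K. dec_frob: s' = s φ^(-j) is inertial on N, inertia_lift: s'' with Inert V s'', s'' = s' on N; s'' is in K.fixingSubgroup (K ≤ N), n = s''⁻¹ s' is in N.fixingSubgroup and Dec V n.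
d s' = d (s'' n) = d s'' + ac s'' (d n) = 0; d (φ^j) = 0 (induction); d s = d (s' φ^j) = 0. -/
theorem dec_gen {K : IntermediateField F Ω} [NumberField K] {V : ValuationSubring Ω}
    {w : HeightOneSpectrum (𝓞 K)} (hw : Abv K V w) {d : (Ω ≃ₐ[F] Ω) → P27 Ω}
    (hd : ∀ s ∈ K.fixingSubgroup, Dec V s → ∀ t ∈ K.fixingSubgroup, Dec V t →
      d (s * t) = d s + ac W27 s (d t))
    (hc : ∃ N : IntermediateField F Ω, FiniteDimensional F N ∧
      ∀ s ∈ K.fixingSubgroup, s ∈ N.fixingSubgroup → Dec V s → d s = 0)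
    (hI : ∀ s ∈ K.fixingSubgroup, Inert V s → d s = 0) {φ : Ω ≃ₐ[F] Ω} (hφ : φ ∈ K.fixingSubgroup)
    (hφD : Dec V φ) (hφF : ∀ x ∈ V, V.valuation (φ x - x ^ Ideal.absNorm w.asIdeal) < 1) (h0 : d φ = 0)
    {s : Ω ≃ₐ[F] Ω} (hs : s ∈ K.fixingSubgroup) (hsD : Dec V s) : d s = 0 := by
  obtain ⟨N0, hN0f, hN0⟩ := hc
  have hcl0 : IsAlgClosed Ω := IsAlgClosure.isAlgClosed F
  have hal0 : Algebra.IsAlgebraic F Ω := IsAlgClosure.isAlgebraic
  have hnorm : Normal F Ω := IsAlgClosure.normal F Ω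
  have hKfin : FiniteDimensional F K := FiniteDimensional.right ℚ F K
  let M : IntermediateField F Ω := K ⊔ N0
  have hMfin : FiniteDimensional F M := IntermediateField.finiteDimensional_sup K N0
  let N : IntermediateField F Ω := IntermediateField.normalClosure F M Ω
  have hNfin : FiniteDimensional F N := normalClosure.is_finiteDimensional F M Ω
  have hNnorm : Normal F N := normalClosure.normal F M Ω
  have hMN : M ≤ N := IntermediateField.le_normalClosure M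
  have hKN : K ≤ N := le_trans le_sup_left hMN
  have hN0N : N0 ≤ N := le_trans le_sup_right hMN
  have hst : ∀ s : Ω ≃ₐ[F] Ω, ∀ x ∈ N, s x ∈ N := by
    intro s x hx
    exact (IntermediateField.normal_iff_forall_map_le'.1 hNnorm) s ⟨x, hx, rfl⟩
  obtain ⟨j, hj⟩ := dec_frob hw hφ hφD hφF N hKN hst hs hsD
  have hφj : φ ^ j ∈ K.fixingSubgroup := pow_mem hφ j
  have hφjD := LDG_decpow hφD j
  obtain ⟨s', hs'⟩ : ∃ s', s' = s * (φ ^ j)⁻¹ := ⟨_, rfl⟩
  rw [← hs'] at hj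
  have hs'K : s' ∈ K.fixingSubgroup := by
    rw [hs']
    exact mul_mem hs (inv_mem hφj)
  have hs'D : Dec V s' := by
    rw [hs']
    exact Dec.mul' hsD (Dec.inv' hφjD)
  obtain ⟨t, htI, ht⟩ := inertia_lift N V s' (fun x hx => hst s' x hx) hj
  have htD : Dec V t := Inert.dec htI
  have htK : t ∈ K.fixingSubgroup := by
    rw [IntermediateField.mem_fixingSubgroup_iff]
    intro x hx
    rw [ht x (hKN hx)]
    exact (IntermediateField.mem_fixingSubgroup_iff K s').1 hs'K x hx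
  have hnK : t⁻¹ * s' ∈ K.fixingSubgroup := mul_mem (inv_mem htK) hs'K
  have hnN : t⁻¹ * s' ∈ N0.fixingSubgroup := by
    rw [IntermediateField.mem_fixingSubgroup_iff]
    intro x hx
    have h1 : (t⁻¹ * s') x = t⁻¹ (s' x) := rfl
    rw [h1, ← ht x (hN0N hx)]
    have h2 : (t⁻¹ * t) x = x := by
      rw [inv_mul_cancel]
      rfl
    exact h2
  have hnD : Dec V (t⁻¹ * s') := Dec.mul' (Dec.inv' htD) hs'D
  have h1 : d s' = 0 := by
    have h2 := hd t htK htD (t⁻¹ * s') hnK hnD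
    rw [mul_inv_cancel_left, hI t htK htI, hN0 _ hnK hnN hnD, map_zero, add_zero] at h2
    exact h2
  have hd1 : d 1 = 0 := by
    have h2 := hd 1 (one_mem _) (LDG_decpow hφD 0 |> fun h => by rwa [pow_zero] at h) 1 (one_mem _)
      (LDG_decpow hφD 0 |> fun h => by rwa [pow_zero] at h)
    rw [mul_one, ac_one] at h2
    exact left_eq_add.1 h2
  have h3 : ∀ j : ℕ, d (φ ^ j) = 0 := by
    intro j
    induction j with
    | zero => rw [pow_zero, hd1]
    | succ j ih =>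
      rw [pow_succ, hd _ (pow_mem hφ j) (LDG_decpow hφD j) _ hφ hφD, ih, h0, map_zero, add_zero]
  have h4 : s = s' * φ ^ j := by
    rw [hs', inv_mul_cancel_right]
  rw [h4, hd s' hs'K hs'D _ hφj hφjD, h1, h3 j, map_zero, add_zero]

end H13Z
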