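import Mathlib
import Pool.Agent.Lib.H55P.Sel

open NumberField IsDedekindDomain

namespace H13Z

open H55P

theorem lf1_one {G : Type} [LinearOrderedCommGroupWithZero G] (a : G) (n : ℕ) (hn : n ≠ 0)
    (h : a ^ n = 1) : a = 1 := by
  have h0 : (0 : G) ≤ a := zero_le
  exact (pow_eq_one_iff_of_nonneg h0 hn).1 h

/-- lower bound for the value of ζ - 1 -/
theorem lf1_root {Ω : Type} [Field Ω] (V : ValuationSubring Ω) (l : ℕ) (hl : l.Prime)
    (ζ : Ω) (hζ : ζ ^ l = 1) (h1 : ζ ≠ 1) : V.valuation (l : Ω) ≤ V.valuation (ζ - 1) ^ (l - 1) := by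
  have hl2 := hl.two_le
  have hv1 : V.valuation ζ = 1 := by
    apply lf1_one _ l hl.ne_zero
    rw [← map_pow, hζ, map_one]
  have hpr : IsPrimitiveRoot ζ l := by
    have : Fact l.Prime := ⟨hl⟩
    have := orderOf_eq_prime hζ h1
    rw [← this]
    exact IsPrimitiveRoot.orderOf ζ
  have key : ∀ j ∈ Finset.range (l - 1), V.valuation (1 - ζ ^ (j + 1)) ≤ V.valuation (1 - ζ) := by
    intro j _
    have e1 : (1 - ζ ^ (j + 1) : Ω) = (1 - ζ) * ∑ i ∈ Finset.range (j + 1), ζ ^ i := by
      rw [mul_comm, geom_sum_mul_neg]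
    rw [e1, map_mul]
    have e2 : V.valuation (∑ i ∈ Finset.range (j + 1), ζ ^ i) ≤ 1 := by
      apply Valuation.map_sum_le
      intro i _
      rw [map_pow, hv1, one_pow]
    calc V.valuation (1 - ζ) * V.valuation (∑ i ∈ Finset.range (j + 1), ζ ^ i)
        ≤ V.valuation (1 - ζ) * 1 := by gcongr
      _ = _ := mul_one _
  have hprod : ∏ k ∈ Finset.range (l - 1), (1 - ζ ^ (k + 1)) = (l : Ω) := by
    have hpr' : IsPrimitiveRoot ζ ((l - 1) + 1) := by
      have : l - 1 + 1 = l := by omega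
      rw [this]; exact hpr
    rw [hpr'.prod_one_sub_pow_eq_order]
    have : ((l - 1 : ℕ) : Ω) + 1 = ((l - 1 + 1 : ℕ) : Ω) := by push_cast; ring
    rw [this]
    congr 1
    omega
  rw [← hprod, map_prod, Valuation.map_sub_swap]
  calc ∏ k ∈ Finset.range (l - 1), V.valuation (1 - ζ ^ (k + 1))
      ≤ ∏ _k ∈ Finset.range (l - 1), V.valuation (1 - ζ) := Finset.prod_le_prod' key
    _ = _ := by rw [Finset.prod_const, Finset.card_range]

theorem fix_eq {F₀ Ω : Type} [Field F₀] [Field Ω] [Algebra F₀ Ω] [CharZero Ω] (V : ValuationSubring Ω)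
    {l : ℕ} (hl : l.Prime) (h3 : 3 ≤ l) (hV : V.valuation (l : Ω) < 1) {τ u y : Ω}
    (hτ : V.valuation τ ^ (l - 1) = V.valuation (l : Ω)) (hy : y ^ l = u)
    (hu : V.valuation (u - 1) ≤ V.valuation τ ^ l) {s : Ω ≃ₐ[F₀] Ω} (hs : Inert V s) (h1 : s τ = τ)
    (h2 : s u = u) : s y = y := by
  have hl0 : V.valuation (l : Ω) ≠ 0 := by
    rw [Valuation.ne_zero_iff]
    exact_mod_cast hl.ne_zero
  have hτ0 : V.valuation τ ≠ 0 := by
    intro h
    rw [h, zero_pow (by omega)] at hτ
    exact hl0 hτ.symm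
  have hτne : τ ≠ 0 := (Valuation.ne_zero_iff _).1 hτ0
  have hτ1 : V.valuation τ < 1 := by
    by_contra h
    have := one_le_pow₀ (not_lt.1 h) (n := l - 1)
    rw [hτ] at this
    exact absurd hV (not_lt.2 this)
  have hu1 : V.valuation u = 1 := by
    have h4 : V.valuation (u - 1) < V.valuation 1 := by
      rw [map_one]
      exact lt_of_le_of_lt hu (pow_lt_one₀ zero_le hτ1 hl.ne_zero)
    rw [Valuation.map_eq_of_sub_lt _ h4, map_one]
  have hy1 : V.valuation y = 1 := by
    apply lf1_one _ l hl.ne_zero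
    rw [← map_pow, hy, hu1]
  have hy0 : y ≠ 0 := by
    rintro rfl
    rw [map_zero] at hy1
    exact zero_ne_one hy1
  by_contra hne
  have hζ : (s y / y) ^ l = 1 := by
    rw [div_pow, ← map_pow, hy, h2, div_self]
    rw [← hy]
    exact pow_ne_zero _ hy0
  have hζ1 : s y / y ≠ 1 := by
    intro h
    rw [div_eq_one_iff_eq hy0] at h
    exact hne h
  have hroot := lf1_root V l hl _ hζ hζ1
  have hge : V.valuation τ ≤ V.valuation (s y / y - 1) := by
    by_contra h
    push Not at h
    have h5 := pow_lt_pow_left₀ h zero_le (n := l - 1) (by omega)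
    rw [hτ] at h5
    exact absurd hroot (not_le.2 h5)
  obtain ⟨Z, hZ⟩ : ∃ Z, Z = y - 1 := ⟨_, rfl⟩
  have hZV : Z ∈ V := by
    rw [← V.valuation_le_one_iff, hZ]
    refine (Valuation.map_sub _ _ _).trans ?_
    rw [hy1, map_one, max_self]
  have hZτ : V.valuation Z ≤ V.valuation τ := by
    by_contra h
    push Not at h
    obtain ⟨r, hr⟩ := exists_add_pow_prime_eq hl (⟨Z, hZV⟩ : V) 1
    have hr' := congrArg (fun x : V => (x : Ω)) hr
    push_cast at hr'
    have e1 : Z ^ l = (u - 1) - (l : Ω) * Z * (r : Ω) := by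
      have e2 : Z + 1 = y := by rw [hZ]; ring
      rw [e2, hy, one_pow] at hr'
      linear_combination -hr'
    have hZ0 : V.valuation Z ≠ 0 := (lt_of_le_of_lt zero_le h).ne'
    have h6 : V.valuation (Z ^ l) < V.valuation Z ^ l := by
      rw [e1]
      apply Valuation.map_sub_lt
      · exact lt_of_le_of_lt hu (pow_lt_pow_left₀ h zero_le hl.ne_zero)
      · rw [map_mul, map_mul]
        have hr1 : V.valuation (r : Ω) ≤ 1 := V.valuation_le_one r
        have h7 : V.valuation (l : Ω) < V.valuation Z ^ (l - 1) := by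
          rw [← hτ]
          exact pow_lt_pow_left₀ h zero_le (by omega)
        calc V.valuation (l : Ω) * V.valuation Z * V.valuation (r : Ω)
            ≤ V.valuation (l : Ω) * V.valuation Z * 1 := by gcongr
          _ = V.valuation (l : Ω) * V.valuation Z := mul_one _
          _ < V.valuation Z ^ (l - 1) * V.valuation Z :=
            mul_lt_mul_of_pos_right h7 (zero_lt_iff.2 hZ0)
          _ = V.valuation Z ^ l := by
            rw [← pow_succ]
            congr 1
            omega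
    rw [map_pow] at h6
    exact lt_irrefl _ h6
  have hx : Z / τ ∈ V := by
    rw [← V.valuation_le_one_iff, map_div₀]
    exact div_le_one_of_le₀ hZτ zero_le
  have h8 := hs _ hx
  have e3 : s (Z / τ) - Z / τ = (s y / y - 1) * y / τ := by
    rw [map_div₀, h1, hZ, map_sub, map_one]
    field_simp
    ring
  rw [e3, map_div₀, map_mul, hy1, mul_one, div_lt_one₀ (zero_lt_iff.2 hτ0)] at h8
  exact absurd hge (not_le.2 h8)

end H13Z
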