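import Mathlib

namespace H13Z

/-- Chunk CZ4 (M), pure group theory: extension of a cocycle from a normal subgroup N of finite index prime to l. Corestriction: choose representatives r q of the left cosets (q in G/N, s r q = r (s q) n(s, q), n(s, q) in N; Quotient.out). cor(s) = sum over q of a (r (s q)) (c₀ (n(s, q))).
It is a cocycle: n(s t, q) = n(s, t q) n(t, q). For s in N: s q = q (N normal), n(s, q) = (r q)⁻¹ s (r q), so cor s = sum of a (r q) (c₀ ((r q)⁻¹ s (r q))) = index c₀ s + a s X - X, X = sum of the X_(r q) (hconj). c = u cor with u index = 1 modulo l (hl: values in B, killed by l).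
If U is normal in G, contained in N, c₀ = 0 on U and U acts trivially on B then c = 0 on U. (Lib/H16C/C1, C2 contain a corestriction; look whether they can be used.) -/
theorem ext_cocycle {G M : Type} [Group G] [AddCommGroup M] (a : G → M →+ M)
    (ha1 : ∀ m, a 1 m = m) (ha : ∀ s t m, a (s * t) m = a s (a t m)) (B : AddSubgroup M)
    (haB : ∀ g, ∀ m ∈ B, a g m ∈ B) (l : ℕ) (hl : ∀ m ∈ B, l • m = 0) (N : Subgroup G) [N.Normal]
    (hN : N.index ≠ 0) (hlN : l.Coprime N.index) (c₀ : G → M) (hB : ∀ s ∈ N, c₀ s ∈ B)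
    (hc : ∀ s ∈ N, ∀ t ∈ N, c₀ (s * t) = c₀ s + a s (c₀ t))
    (hconj : ∀ g, ∃ X ∈ B, ∀ s ∈ N, a g (c₀ (g⁻¹ * s * g)) = c₀ s + a s X - X) :
    ∃ c : G → M, (∀ s, c s ∈ B) ∧ (∀ s t, c (s * t) = c s + a s (c t)) ∧
      (∃ X ∈ B, ∀ s ∈ N, c s = c₀ s + a s X - X) ∧
      ∀ U : Subgroup G, U.Normal → U ≤ N → (∀ s ∈ U, c₀ s = 0) → (∀ s ∈ U, ∀ m ∈ B, a s m = m) →
        ∀ s ∈ U, c s = 0 := by
  classical
  have : Fintype (G ⧸ N) := Subgroup.fintypeOfIndexNeZero hN
  have hcard : Fintype.card (G ⧸ N) = N.index := by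
    rw [Subgroup.index, Nat.card_eq_fintype_card]
  obtain ⟨r, hr⟩ : ∃ r : G ⧸ N → G, ∀ q, ((r q : G) : G ⧸ N) = q :=
    ⟨Quotient.out, fun q => Quotient.out_eq' q⟩
  obtain ⟨n, hn⟩ : ∃ n : G → G ⧸ N → G, ∀ s q, n s q = (r ((s : G ⧸ N) * q))⁻¹ * s * r q :=
    ⟨fun s q => (r ((s : G ⧸ N) * q))⁻¹ * s * r q, fun _ _ => rfl⟩
  have hnN : ∀ s q, n s q ∈ N := by
    intro s q
    rw [hn, ← QuotientGroup.eq_one_iff]
    simp [hr]
  have hnr : ∀ (s : G) (q : G ⧸ N), r ((s : G ⧸ N) * q) * n s q = s * r q := by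
    intro s q
    rw [hn]; group
  have hnm : ∀ (s t : G) (q : G ⧸ N), n (s * t) q = n s ((t : G ⧸ N) * q) * n t q := by
    intro s t q
    rw [hn, hn, hn]
    have : (((s * t : G) : G ⧸ N)) * q = (s : G ⧸ N) * ((t : G ⧸ N) * q) := by
      rw [QuotientGroup.mk_mul, mul_assoc]
    rw [this]; group
  let cor : G → M := fun s => ∑ q : G ⧸ N, a (r ((s : G ⧸ N) * q)) (c₀ (n s q))
  have hcorB : ∀ s, cor s ∈ B := fun s => AddSubgroup.sum_mem _ fun q _ =>
    haB _ _ (hB _ (hnN s q))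
  have hcor : ∀ s t, cor (s * t) = cor s + a s (cor t) := by
    intro s t
    have h1 : cor s = ∑ q : G ⧸ N, a (r ((s : G ⧸ N) * ((t : G ⧸ N) * q)))
        (c₀ (n s ((t : G ⧸ N) * q))) := by
      exact (Equiv.sum_comp (Equiv.mulLeft (t : G ⧸ N))
        (fun q => a (r ((s : G ⧸ N) * q)) (c₀ (n s q)))).symm
    have h2 : a s (cor t) = ∑ q : G ⧸ N, a s (a (r ((t : G ⧸ N) * q)) (c₀ (n t q))) :=
      map_sum _ _ _
    rw [h1, h2, ← Finset.sum_add_distrib]
    refine Finset.sum_congr rfl fun q _ => ?_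
    rw [hnm, hc _ (hnN _ _) _ (hnN _ _), map_add]
    have h3 : (((s * t : G) : G ⧸ N)) * q = (s : G ⧸ N) * ((t : G ⧸ N) * q) := by
      rw [QuotientGroup.mk_mul, mul_assoc]
    rw [h3]
    congr 1
    rw [← ha, hnr, ha]
  have hs1 : ∀ s ∈ N, ∀ q : G ⧸ N, (s : G ⧸ N) * q = q := by
    intro s hs q
    rw [(QuotientGroup.eq_one_iff s).2 hs, one_mul]
  choose X hXB hX using hconj
  have hcorN : ∀ s ∈ N, cor s = (N.index : ℤ) • c₀ s +
      a s (∑ q : G ⧸ N, X (r q)) - ∑ q : G ⧸ N, X (r q) := by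
    intro s hs
    have h1 : cor s = ∑ q : G ⧸ N, (c₀ s + a s (X (r q)) - X (r q)) := by
      refine Finset.sum_congr rfl fun q _ => ?_
      rw [hn, hs1 s hs q, hX (r q) s hs]
    rw [h1, Finset.sum_sub_distrib, Finset.sum_add_distrib, Finset.sum_const, map_sum,
      Finset.card_univ, hcard, natCast_zsmul]
  obtain ⟨u, v, huv⟩ := Nat.isCoprime_iff_coprime.2 hlN
  have hu : ∀ m ∈ B, v • ((N.index : ℤ) • m) = m := by
    intro m hm
    have h1 : u • ((l : ℤ) • m) = 0 := by rw [natCast_zsmul, hl m hm, smul_zero]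
    calc v • ((N.index : ℤ) • m) = u • ((l : ℤ) • m) + v • ((N.index : ℤ) • m) := by
          rw [h1, zero_add]
      _ = (u * l + v * N.index) • m := by rw [add_smul, mul_smul, mul_smul]
      _ = m := by rw [huv, one_smul]
  refine ⟨fun s => v • cor s, fun s => AddSubgroup.zsmul_mem _ (hcorB s) _, fun s t => ?_,
    ⟨v • ∑ q : G ⧸ N, X (r q), AddSubgroup.zsmul_mem _ (AddSubgroup.sum_mem _ fun q _ => hXB _) _,
      fun s hs => ?_⟩, fun U hU hUN hc0 _ s hs => ?_⟩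
  · show v • cor (s * t) = v • cor s + a s (v • cor t)
    rw [hcor, smul_add, map_zsmul]
  · show v • cor s = _
    rw [hcorN s hs, smul_sub, smul_add, hu _ (hB s hs), map_zsmul]
  · show v • cor s = 0
    have : cor s = 0 := by
      refine Finset.sum_eq_zero fun q _ => ?_
      rw [hn, hs1 s (hUN hs) q]
      have h1 : (r q)⁻¹ * s * r q ∈ U := by
        have := hU.conj_mem s hs (r q)⁻¹
        simpa using this
      rw [hc0 _ h1, map_zero]
    rw [this, smul_zero]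

end H13Z
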