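import Mathlib
import Pool.Agent.Lib.H13S.GIA
import Pool.Agent.Lib.H13Z.Defs

open NumberField IsDedekindDomain

namespace H13Z

open H55P H28G H55B H13S

variable {Ω : Type} [Field Ω] [DecidableEq Ω] [Algebra F Ω] [IsAlgClosure F Ω]

/-- An additive map modulo l-th powers, evaluated on a combination. -/
theorem cz1_quot {A G : Type} [AddCommGroup A] [CommGroup G] (l : ℕ) (m : A → G)
    (hadd : ∀ T T', ∃ z : G, m (T + T') = m T * m T' * z ^ l) {ι : Type} [Fintype ι] (b : ι → A)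
    (c : ι → ℕ) : ∃ z : G, (∏ i, m (b i) ^ c i) = m (∑ i, c i • b i) * z ^ l := by
  classical
  let N : Subgroup G := (powMonoidHom l : G →* G).range
  let μ : A →+ Additive (G ⧸ N) :=
    { toFun := fun T => Additive.ofMul (QuotientGroup.mk' N (m T))
      map_zero' := by
        obtain ⟨z, hz⟩ := hadd 0 0
        have h1 : m 0 = (z⁻¹) ^ l := by
          rw [add_zero] at hz
          have h2 : m 0 * z ^ l = 1 := by
            have h3 : m 0 * 1 = m 0 * (m 0 * z ^ l) := by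
              rw [mul_one, ← mul_assoc]
              exact hz
            exact (mul_left_cancel h3).symm
          rw [inv_pow]
          exact eq_inv_of_mul_eq_one_left h2
        have h2 : QuotientGroup.mk' N (m 0) = 1 := by
          rw [QuotientGroup.mk'_apply, QuotientGroup.eq_one_iff]
          exact ⟨z⁻¹, h1.symm⟩
        rw [h2]
        rfl
      map_add' := fun T T' => by
        obtain ⟨z, hz⟩ := hadd T T'
        have h2 : QuotientGroup.mk' N (z ^ l) = 1 := by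
          rw [QuotientGroup.mk'_apply, QuotientGroup.eq_one_iff]
          exact ⟨z, rfl⟩
        have h3 : QuotientGroup.mk' N (m (T + T')) = QuotientGroup.mk' N (m T) * QuotientGroup.mk' N (m T') := by
          rw [hz, map_mul, map_mul, h2, mul_one]
        rw [h3]
        rfl }
  have h1 : μ (∑ i, c i • b i) = ∑ i, c i • μ (b i) := by
    rw [map_sum]
    exact Finset.sum_congr rfl fun i _ => map_nsmul μ _ _
  have h2 : QuotientGroup.mk' N (m (∑ i, c i • b i)) = QuotientGroup.mk' N (∏ i, m (b i) ^ c i) := by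
    have h3 : Additive.ofMul (QuotientGroup.mk' N (∏ i, m (b i) ^ c i)) = ∑ i, c i • μ (b i) := by
      rw [map_prod, ofMul_prod]
      refine Finset.sum_congr rfl fun i _ => ?_
      rw [map_pow, ofMul_pow]
      rfl
    have h4 : Additive.ofMul (QuotientGroup.mk' N (m (∑ i, c i • b i))) = ∑ i, c i • μ (b i) := h1
    exact Additive.ofMul.injective (h4.trans h3.symm)
  rw [QuotientGroup.mk'_apply, QuotientGroup.mk'_apply, QuotientGroup.eq] at h2
  obtain ⟨z, hz⟩ := h2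
  refine ⟨z, ?_⟩
  change z ^ l = _ at hz
  rw [hz, mul_inv_cancel_left]

/-- Chunk CZ1 (M). Additive system of l-th roots. -/
theorem y_system {π : O} {l : ℕ} (D : Dat π l) (L : IntermediateField F Ω) (m : P27 Ω → (L)ˣ)
    (hadd : ∀ T ∈ Tor π Ω, ∀ T' ∈ Tor π Ω, ∃ z : (L)ˣ, m (T + T') = m T * m T' * z ^ l) :
    ∃ y : P27 Ω → Ω, (∀ T ∈ Tor π Ω, y T ≠ 0 ∧ ∃ z : (L)ˣ, y T ^ l = ((m T * z ^ l : (L)ˣ) : L)) ∧
      ∀ T ∈ Tor π Ω, ∀ T' ∈ Tor π Ω, ∃ z : (L)ˣ, y (T + T') = y T * y T' * ((z : L) : Ω) := by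
  classical
  have hl : Fact l.Prime := ⟨D.hl⟩
  have hl0 : l ≠ 0 := D.hl.ne_zero
  have hAC : IsAlgClosed Ω := IsAlgClosure.isAlgClosed F
  have hfull := (gi_gen (Ω := Ω) π D.pr D.prim).1
  have hfin : Finite (Tor π Ω) := (show Full π Ω from hfull).finite D.pr.ne_zero
  have hkill : ∀ T : Tor π Ω, l • T = 0 := by
    rintro ⟨T, hT⟩
    apply Subtype.ext
    change l • T = 0
    obtain ⟨c, hc⟩ := D.dvd
    rw [← act_nat, hc, mul_comm, act_mul, mem_Tor.1 hT, map_zero]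
  obtain ⟨iM⟩ : Nonempty (Module (ZMod l) (Tor π Ω)) := ⟨AddCommGroup.zmodModule hkill⟩
  have iF : Module.Finite (ZMod l) (Tor π Ω) := Module.Finite.of_finite
  obtain ⟨n, b⟩ : Σ n : ℕ, Module.Basis (Fin n) (ZMod l) (Tor π Ω) := ⟨_, Module.finBasis (ZMod l) ↥(Tor π Ω)⟩
  have hrep : ∀ T : Tor π Ω, T = ∑ i, (b.repr T i).val • b i := by
    intro T
    conv_lhs => rw [← b.sum_repr T]
    refine Finset.sum_congr rfl fun i _ => ?_
    conv_lhs => rw [← ZMod.natCast_zmod_val (b.repr T i)]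
    exact Nat.cast_smul_eq_nsmul (ZMod l) _ _
  have hroot : ∀ i : Fin n, ∃ w : Ω, w ^ l = ((m (b i) : L) : Ω) := fun i =>
    IsAlgClosed.exists_pow_nat_eq _ (Nat.pos_of_ne_zero hl0)
  choose w hw using hroot
  have hw0 : ∀ i, w i ≠ 0 := by
    intro i h
    have h1 := hw i
    rw [h, zero_pow hl0] at h1
    have h2 : ((m (b i) : L)) ≠ 0 := Units.ne_zero _
    apply h2
    exact_mod_cast h1.symm
  let cc : P27 Ω → Fin n → ℕ := fun T i => if h : T ∈ Tor π Ω then (b.repr ⟨T, h⟩ i).val else 0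
  let y : P27 Ω → Ω := fun T => ∏ i, w i ^ cc T i
  have hcc : ∀ T (h : T ∈ Tor π Ω) i, cc T i = (b.repr ⟨T, h⟩ i).val := fun T h i => dif_pos h
  have hprod : ∀ (e : Fin n → ℕ), (∏ i, (w i ^ l) ^ e i) = (((∏ i, m (b i) ^ e i : (L)ˣ) : L) : Ω) := by
    intro e
    rw [Units.coe_prod]
    rw [show ((((∏ i, ((m (b i) ^ e i : (L)ˣ) : L)) : L)) : Ω) = L.val (∏ i, ((m (b i) ^ e i : (L)ˣ) : L)) from rfl,
      map_prod]
    refine Finset.prod_congr rfl fun i _ => ?_
    rw [hw i, Units.val_pow_eq_pow_val, map_pow]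
    rfl
  refine ⟨y, fun T hT => ⟨Finset.prod_ne_zero_iff.2 fun i _ => pow_ne_zero _ (hw0 i), ?_⟩,
    fun T hT T' hT' => ?_⟩
  · obtain ⟨z, hz⟩ := cz1_quot (A := Tor π Ω) l (fun T => m T) (fun T T' => hadd T T.2 T' T'.2) b (cc T)
    refine ⟨z, ?_⟩
    have h1 : (∑ i, cc T i • b i) = ⟨T, hT⟩ := by
      conv_rhs => rw [hrep ⟨T, hT⟩]
      exact Finset.sum_congr rfl fun i _ => by rw [hcc T hT i]
    rw [h1] at hz
    change (∏ i, w i ^ cc T i) ^ l = _
    rw [← Finset.prod_pow]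
    have h2 : (∏ i, (w i ^ cc T i) ^ l) = ∏ i, (w i ^ l) ^ cc T i :=
      Finset.prod_congr rfl fun i _ => by rw [← pow_mul, ← pow_mul, mul_comm]
    rw [h2, hprod, hz]
  · let q : Fin n → ℕ := fun i => (cc T i + cc T' i) / l
    refine ⟨(∏ i, m (b i) ^ q i)⁻¹, ?_⟩
    have h1 : ∀ i, cc T i + cc T' i = cc (T + T') i + l * q i := by
      intro i
      have h2 : cc (T + T') i = (cc T i + cc T' i) % l := by
        rw [hcc _ ((Tor π Ω).add_mem hT hT'), hcc T hT, hcc T' hT']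
        rw [← ZMod.val_add]
        congr 1
        have h3 : (⟨T + T', (Tor π Ω).add_mem hT hT'⟩ : Tor π Ω) = ⟨T, hT⟩ + ⟨T', hT'⟩ := rfl
        rw [h3, map_add]
        rfl
      rw [h2]
      exact (Nat.mod_add_div _ _).symm
    have h2 : y T * y T' = y (T + T') * (((∏ i, m (b i) ^ q i : (L)ˣ) : L) : Ω) := by
      change (∏ i, w i ^ cc T i) * (∏ i, w i ^ cc T' i) = (∏ i, w i ^ cc (T + T') i) * _
      rw [← hprod, ← Finset.prod_mul_distrib, ← Finset.prod_mul_distrib]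
      refine Finset.prod_congr rfl fun i _ => ?_
      rw [← pow_add, ← pow_mul, ← pow_add, h1 i]
    rw [h2, mul_assoc]
    have h3 : (((∏ i, m (b i) ^ q i : (L)ˣ) : L) : Ω) * ((((∏ i, m (b i) ^ q i : (L)ˣ)⁻¹ : (L)ˣ) : L) : Ω) = 1 := by
      have h4 : ((∏ i, m (b i) ^ q i : (L)ˣ) : L) * (((∏ i, m (b i) ^ q i : (L)ˣ)⁻¹ : (L)ˣ) : L) = 1 :=
        Units.mul_inv _
      have h5 := congrArg (fun x : L => (x : Ω)) h4
      simpa using h5
    rw [h3, mul_one]

end H13Z
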