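import Mathlib
import Pool.Agent.Lib.H55P.Sel

open NumberField IsDedekindDomain

namespace H13Z

open H55P

/-- Chunk LF3 (S). At the places outside l. s y = ζ y, ζ^l = 1; z = y/x has value 1, s z - z = (ζ - 1) z: V (ζ - 1) < 1. If ζ ≠ 1 then l = product of the 1 - ζ^j (0 < j < l) has value < 1 (all factors have value ≤ 1; V (1 - ζ) < 1), contradiction. -/
theorem unr_val {F₀ Ω : Type} [Field F₀] [Field Ω] [Algebra F₀ Ω] [CharZero Ω] (V : ValuationSubring Ω)
    {l : ℕ} (hl : l.Prime) (hV : V.valuation (l : Ω) = 1) {x y : Ω} (hy : y ≠ 0)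
    (hxy : V.valuation y = V.valuation x) {s : Ω ≃ₐ[F₀] Ω} (hs : Inert V s) (h1 : s x = x)
    (h2 : s (y ^ l) = y ^ l) : s y = y := by
  have hvy : V.valuation y ≠ 0 := by
    rw [Ne, map_eq_zero]
    exact hy
  have hx : x ≠ 0 := by
    rintro rfl
    rw [map_zero] at hxy
    exact hvy hxy
  obtain ⟨ζ, hζ⟩ : ∃ ζ : Ω, ζ = s y / y := ⟨_, rfl⟩
  have hsy : s y = ζ * y := by rw [hζ, div_mul_cancel₀ _ hy]
  have hζl : ζ ^ l = 1 := by
    rw [hζ, div_pow, ← map_pow, h2, div_self (pow_ne_zero l hy)]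
  have hz1 : V.valuation (y / x) = 1 := by
    rw [map_div₀, hxy, div_self]
    rw [← hxy]
    exact hvy
  have hzV : y / x ∈ V := by
    rw [← V.valuation_le_one_iff, hz1]
  have h3 := hs _ hzV
  have h4 : s (y / x) - y / x = (ζ - 1) * (y / x) := by
    rw [map_div₀, h1, hsy]
    ring
  rw [h4, map_mul, hz1, mul_one] at h3
  have hv1 : V.valuation ζ = 1 := by
    have h5 : V.valuation ζ ^ l = 1 := by rw [← map_pow, hζl, map_one]
    exact (pow_eq_one_iff_of_nonneg zero_le hl.ne_zero).1 h5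
  by_cases hne : ζ = 1
  · rw [hsy, hne, one_mul]
  · exfalso
    have hsum : ∑ i ∈ Finset.range l, ζ ^ i = 0 := by
      have h5 := geom_sum_mul ζ l
      rw [hζl, sub_self] at h5
      exact (mul_eq_zero.1 h5).resolve_right (sub_ne_zero.2 hne)
    have hlt : ∀ i ∈ Finset.range l, V.valuation (ζ ^ i - 1) < 1 := by
      intro i _
      rw [← geom_sum_mul, map_mul]
      have h6 : V.valuation (∑ j ∈ Finset.range i, ζ ^ j) ≤ 1 := by
        apply Valuation.map_sum_le
        intro j _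
        rw [map_pow, hv1, one_pow]
      calc V.valuation (∑ j ∈ Finset.range i, ζ ^ j) * V.valuation (ζ - 1)
          ≤ 1 * V.valuation (ζ - 1) := by gcongr
        _ = V.valuation (ζ - 1) := one_mul _
        _ < 1 := h3
    have h7 : V.valuation (∑ i ∈ Finset.range l, (ζ ^ i - 1)) < 1 :=
      Valuation.map_sum_lt _ one_ne_zero hlt
    rw [Finset.sum_sub_distrib, hsum, Finset.sum_const, Finset.card_range, nsmul_eq_mul, mul_one,
      zero_sub, Valuation.map_neg, hV] at h7
    exact lt_irrefl _ h7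

end H13Z
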