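import Mathlib
import Pool.Agent.Lib.H13Z.Defs
import Pool.Agent.Lib.H13S.DC
import Pool.Agent.Lib.H28G.K14

open NumberField IsDedekindDomain

namespace H13Z

open H55P H28G H55B H13S

/-- an additive and multiplicative map fixes the prime field -/
theorem lpa_fix {K : Type} [Field K] {l : ℕ} [Fact l.Prime] [CharP K l] (f : K →+* K) {a : K}
    (ha : a ^ l = a) : f a = a := by
  have h1 : a ∈ (⊥ : Subfield K) := (Subfield.mem_bot_iff_pow_eq_self K l).2 ha
  have h2 : (⊥ : Subfield K) ≤ f.eqLocusField (RingHom.id K) := bot_le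
  exact h2 h1

theorem lpa_field {K : Type} [Field K] [Finite K] {l : ℕ} [Fact l.Prime] [CharP K l] {i : ℕ}
    (f : K →+* K) (hf : ∀ x, f x = x ^ i) (hc : Nat.card K = l ∨ Nat.card K = l ^ 2) :
    ((Nat.card K : ℤ) - 1) ∣ (i : ℤ) - 1 ∨
      (Nat.card K = l ^ 2 ∧ ((Nat.card K : ℤ) - 1) ∣ (i : ℤ) - l) := by
  have hft : Fintype K := Fintype.ofFinite K
  have hcard : Nat.card K = Fintype.card K := Nat.card_eq_fintype_card
  obtain ⟨g, hg⟩ := IsCyclic.exists_generator (α := Kˣ)
  have ho : orderOf g = Nat.card K - 1 := by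
    rw [orderOf_eq_card_of_forall_mem_zpowers hg, Nat.card_units]
  have hc1 : 1 ≤ Nat.card K := Nat.card_pos
  have hcast : ((Nat.card K : ℤ) - 1) = ((orderOf g : ℕ) : ℤ) := by
    rw [ho]
    push_cast [hc1]
    ring
  have hpow : ∀ j : ℕ, (g : K) ^ i = (g : K) ^ j → ((Nat.card K : ℤ) - 1) ∣ (i : ℤ) - j := by
    intro j hj
    have h1 : g ^ j = g ^ i := by
      apply Units.ext
      rw [Units.val_pow_eq_pow_val, Units.val_pow_eq_pow_val]
      exact hj.symm
    rw [pow_eq_pow_iff_modEq] at h1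
    rw [hcast]
    exact Nat.modEq_iff_dvd.1 h1
  rcases hc with hc | hc
  · left
    have h1 : (g : K) ^ i = (g : K) ^ 1 := by
      rw [← hf, pow_one]
      apply lpa_fix (l := l) f
      rw [← hc, hcard]
      exact FiniteField.pow_card _
    have h2 := hpow 1 h1
    rwa [Nat.cast_one] at h2
  · have hq : ∀ x : K, x ^ (l ^ 2) = x := by
      intro x
      rw [← hc, hcard]
      exact FiniteField.pow_card x
    obtain ⟨x, hx⟩ : ∃ x : K, x = (g : K) := ⟨_, rfl⟩
    have hxl : (x ^ l) ^ l = x := by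
      rw [← pow_mul, ← sq]
      exact hq x
    have ha : f (x + x ^ l) = x + x ^ l := by
      apply lpa_fix (l := l) f
      rw [add_pow_char, hxl, add_comm]
    have hb : f (x * x ^ l) = x * x ^ l := by
      apply lpa_fix (l := l) f
      rw [mul_pow, hxl, mul_comm]
    rw [map_add] at ha
    rw [map_mul] at hb
    have h0 : (f x - x) * (f x - x ^ l) = 0 := by
      have e1 : (f x - x) * (f x - x ^ l) = f x * f x - (x + x ^ l) * f x + x * x ^ l := by ring
      rw [e1, ← ha, ← hb]
      ring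
    rcases mul_eq_zero.1 h0 with h1 | h1
    · left
      have h2 := hpow 1 (by rw [← hx, ← hf, pow_one]; exact sub_eq_zero.1 h1)
      rwa [Nat.cast_one] at h2
    · right
      exact ⟨hc, hpow l (by rw [← hx, ← hf]; exact sub_eq_zero.1 h1)⟩

/-- Chunk LPA (S/M), pure algebra. K = O/π is a field with l or l^2 elements, x → x^i is an additive and multiplicative map, so a ring homomorphism f : K → K; for x in K the polynomial (X - x)(X - x^l) (or X - x if Nm π = l) has coefficients fixed by Frobenius, that is in the prime field (natural numbers), so f x is a root of it: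
f x = x or f x = x^l. For a generator x of K^*: q - 1 divides i - 1 or i - l. If Nm π = l: x^l = x, so q - 1 = l - 1 divides i - 1. -/
theorem pow_add_class {π : O} {l : ℕ} (D : Dat π l) {i : ℕ} (hi : 1 ≤ i)
    (h : ∀ x y : O, π ∣ (x + y) ^ i - x ^ i - y ^ i) :
    ((Nm π : ℤ) - 1) ∣ (i : ℤ) - 1 ∨ (Nm π = l ^ 2 ∧ ((Nm π : ℤ) - 1) ∣ (i : ℤ) - l) := by
  have hfp : Fact l.Prime := ⟨D.hl⟩
  have hmax := K14_max D.pr
  let _ : Field (O ⧸ Ideal.span {π}) := Ideal.Quotient.field _
  let q : O →+* O ⧸ Ideal.span {π} := Ideal.Quotient.mk _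
  have hq : Function.Surjective q := Ideal.Quotient.mk_surjective
  have hk : ∀ x, q x = 0 ↔ π ∣ x := by
    intro x
    rw [← Ideal.mem_span_singleton]
    exact Ideal.Quotient.eq_zero_iff_mem
  have hcd : Nat.card (O ⧸ Ideal.span {π}) = Nm π := K14_card q hq hk
  have hNm : Nm π = l ∨ Nm π = l ^ 2 := by
    rcases dichotomy π l D.hl D.five D.pr D.prim D.dvd with h1 | h1
    · exact Or.inr h1.2
    · exact Or.inl h1.2.1
  have hl1 := D.hl.pos
  have hNpos : Nm π ≠ 0 := by
    rcases hNm with h1 | h1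
    · rw [h1]; omega
    · rw [h1]; positivity
  have hfin : Finite (O ⧸ Ideal.span {π}) := Nat.finite_of_card_ne_zero (by rw [hcd]; exact hNpos)
  have hchar : CharP (O ⧸ Ideal.span {π}) l := by
    rw [CharP.charP_iff_prime_eq_zero D.hl]
    have h1 := (hk (l : O)).2 D.dvd
    rwa [map_natCast] at h1
  let f : (O ⧸ Ideal.span {π}) →+* (O ⧸ Ideal.span {π}) :=
    { toFun := fun x => x ^ i
      map_one' := one_pow i
      map_mul' := fun x y => mul_pow x y i
      map_zero' := zero_pow (by omega)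
      map_add' := fun x y => by
        obtain ⟨a, rfl⟩ := hq x
        obtain ⟨b, rfl⟩ := hq y
        have h1 := (hk _).2 (h a b)
        rw [map_sub, map_sub, map_pow, map_pow, map_pow, map_add, sub_sub, sub_eq_zero] at h1
        exact h1 }
  have h1 := lpa_field f (fun x => rfl) (l := l) (i := i) (by rw [hcd]; exact hNm)
  rw [hcd] at h1
  exact h1

end H13Z
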