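import Mathlib
import Pool.Agent.Lib.H13S.QR
import Pool.Agent.Lib.H13Z.LG

open NumberField IsDedekindDomain

namespace H13Z

open H55P H28G H55B H13S

variable {Ω : Type} [Field Ω] [DecidableEq Ω] [Algebra F Ω] [IsAlgClosure F Ω]

variable {β : O} {V : ValuationSubring Ω}

theorem li_zpow {Γ : Type} [LinearOrderedCommGroupWithZero Γ] {r : Γ} (h0 : r ≠ 0) (h1 : r < 1) (k : ℤ) {n : ℕ}
    (hn : 2 ≤ n) : (r ^ k) ^ n ≠ r := by
  intro h
  have h2 : r ^ (k * (n : ℤ)) = r ^ (1 : ℤ) := by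
    rw [zpow_mul, zpow_natCast, zpow_one, h]
  have h3 := zpow_right_injective₀ (zero_lt_iff.2 h0) h1.ne h2
  have h4 : (n : ℤ) ∣ 1 := ⟨k, by rw [mul_comm]; exact h3.symm⟩
  have h5 := Int.le_of_dvd one_pos h4
  omega

/-- the value of the parameter of a point fixed by inertia -/
theorem li_val (hβ : Prime β) (hV : vo V β < 1) {P : P27 Ω} (hP : Kr V P) (h0 : P ≠ 0)
    (h : ∀ s : Ω ≃ₐ[F] Ω, Inert V s → ac W27 s P = P) : ∃ k : ℤ, V.valuation (tt P) = vo V β ^ k := by
  have ht : tt P ≠ 0 := fun hc => h0 ((kr_tt_zero V hP).1 hc)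
  have hfix : ∀ s ∈ (⊥ : IntermediateField F Ω).fixingSubgroup, Inert V s → s (tt P) = tt P := by
    intro s _ hs
    rw [← qv_tt, h s hs]
  have hnf : NumberField (⊥ : IntermediateField F Ω) := NumberField.of_module_finite F _
  obtain ⟨a, ha0, ha⟩ := value_fixed (⊥ : IntermediateField F Ω) V (tt P) ht hfix
  obtain ⟨b, hb⟩ := IntermediateField.mem_bot.1 a.2
  have hb0 : b ≠ 0 := by
    rintro rfl
    rw [map_zero] at hb
    exact ha0 (Subtype.ext hb.symm)
  rw [ha, ← hb]
  exact qv_intpow V hβ hV b hb0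

/-- Chunk LI1 (S/M). T₁ ≠ 0 in Tor β (gi_gen). If all inertia elements fixed all points of Tor β then tt T₁ would be fixed by the inertia group: value_fixed for K = ⊥ and qv_intpow: V (tt T₁) = (V β)^n; V (tt T₁)^(Nm β - 1) = V β (kr_tor_ram), so n (Nm β - 1) = 1, impossible. no_fix. -/
theorem moved_ram (hβ : Prime β) (h3 : Prim β) (hN : 4 ≤ Nm β) (hV : vo V β < 1) :
    ∃ s : Ω ≃ₐ[F] Ω, Inert V s ∧ ∀ T ∈ Tor β Ω, ac W27 s T = T → T = 0 := by
  have key : ∃ s : Ω ≃ₐ[F] Ω, Inert V s ∧ ∃ T ∈ Tor β Ω, ac W27 s T ≠ T := by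
    by_contra hcon
    push Not at hcon
    obtain ⟨-, T, hT, -, hT0⟩ := gi_gen (Ω := Ω) β hβ h3
    have hTne : T ≠ 0 := by
      intro h0
      apply hβ.not_isUnit
      rw [isUnit_iff_dvd_one]
      apply (hT0 1).1
      rw [h0, map_zero]
    obtain ⟨hK, hv⟩ := kr_tor_ram β hβ h3 V hV hT hTne
    obtain ⟨k, hk⟩ := li_val hβ hV hK hTne (fun s hs => hcon s hs T hT)
    rw [hk] at hv
    exact li_zpow (qv_pos V hβ.ne_zero) hV k (by omega) hv
  obtain ⟨s, hs, h⟩ := key
  exact ⟨s, hs, fun T hT hTs => no_fix hβ h3 h hT hTs⟩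

/-- Chunk LI2 (S/M). Copy of H13S.gi_three (GIT.lean): its proof uses only that fc T is fixed by the inertia group (value_fixed), so the element can be taken in the inertia group. Then no_fix. -/
theorem moved_three (hβ : Prime β) (h3 : Prim β) (h2 : ¬ β ∣ 2) (hV : V.valuation (3 : Ω) < 1) :
    ∃ s : Ω ≃ₐ[F] Ω, Inert V s ∧ ∀ T ∈ Tor β Ω, ac W27 s T = T → T = 0 := by
  have key : ∃ s : Ω ≃ₐ[F] Ω, Inert V s ∧ ∃ T ∈ Tor β Ω, ac W27 s T ≠ T := by
    by_contra hcon
    push Not at hcon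
    obtain ⟨-, T, hT, -, hT0⟩ := gi_gen (Ω := Ω) β hβ h3
    have hTne : T ≠ 0 := by
      intro h0
      apply hβ.not_isUnit
      rw [isUnit_iff_dvd_one]
      apply (hT0 1).1
      rw [h0, map_zero]
    have hcop : IsCoprime β 6 := by
      have h6 : (6 : O) = 2 * 3 := by norm_num
      rw [h6]
      refine IsCoprime.mul_right (hβ.coprime_iff_not_dvd.2 h2) ?_
      obtain ⟨c, hc⟩ := h3
      exact ⟨1, -c, by linear_combination hc⟩
    have hval := D_val V.valuation hV hcop hT hTne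
    have hch : CharZero Ω := H28G.char0 (k := Ω)
    have h30 : V.valuation (3 : Ω) ≠ 0 := by
      rw [Valuation.ne_zero_iff]
      norm_num
    have hf0 : fc T ≠ 0 := by
      intro h0
      rw [h0, map_zero, zero_pow (by norm_num)] at hval
      exact pow_ne_zero 3 h30 hval.symm
    have hfix : ∀ s ∈ (⊥ : IntermediateField F Ω).fixingSubgroup, Inert V s → s (fc T) = fc T := by
      intro s _ hs
      have h4 := hcon s hs T hT
      have h5 : fc (ac W27 s T) = s (fc T) := fc_mp s.toAlgHom T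
      rw [h4] at h5
      exact h5.symm
    have hnf : NumberField (⊥ : IntermediateField F Ω) := NumberField.of_module_finite F _
    obtain ⟨a, ha0, ha⟩ := value_fixed (⊥ : IntermediateField F Ω) V (fc T) hf0 hfix
    obtain ⟨b, hb⟩ := IntermediateField.mem_bot.1 a.2
    have hb0 : b ≠ 0 := by
      rintro rfl
      rw [map_zero] at hb
      exact ha0 (Subtype.ext hb.symm)
    rw [ha, ← hb] at hval
    obtain ⟨x, y, hy, rfl⟩ := IsFractionRing.div_surjective (A := O) b
    have hy0 : y ≠ 0 := nonZeroDivisors.ne_zero hy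
    have hx0 : x ≠ 0 := by
      rintro rfl
      apply hb0
      rw [map_zero, zero_div]
    obtain ⟨i, hi⟩ := git_pow (k := Ω) V.valuation hV hx0
    obtain ⟨j, hj⟩ := git_pow (k := Ω) V.valuation hV hy0
    have hyv : V.valuation (ak Ω y) ≠ 0 := by
      rw [Valuation.ne_zero_iff]
      unfold ak
      rw [RingHom.comp_apply, Ne, map_eq_zero_iff _ (algebraMap F Ω).injective,
        map_eq_zero_iff _ (FaithfulSMul.algebraMap_injective O F)]
      exact hy0
    have hd : V.valuation ((algebraMap F Ω) (algebraMap O F x / algebraMap O F y)) =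
        V.valuation (ak Ω x) / V.valuation (ak Ω y) := by
      rw [map_div₀, map_div₀]
      rfl
    rw [hd, hi, hj, div_pow, div_eq_iff (by rw [← hj]; exact pow_ne_zero 4 hyv)] at hval
    have hr : V.valuation (ak Ω (2 * om + 1)) ^ 2 = V.valuation (3 : Ω) := by
      rw [← map_pow, ← map_pow, GV10_s_sq, map_neg, Valuation.map_neg]
      congr 1
      exact map_ofNat _ 3
    rw [← hr, ← pow_mul, ← pow_mul, ← pow_mul, ← pow_add] at hval
    have hr1 : V.valuation (ak Ω (2 * om + 1)) < 1 := by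
      by_contra h4
      rw [not_lt] at h4
      have h5 : 1 ≤ V.valuation (ak Ω (2 * om + 1)) ^ 2 := one_le_pow₀ h4
      rw [hr] at h5
      exact absurd hV (not_lt.2 h5)
    have hr0 : 0 < V.valuation (ak Ω (2 * om + 1)) := by
      rw [zero_lt_iff]
      intro h4
      rw [h4] at hr
      exact h30 (by rw [← hr]; exact zero_pow (by norm_num))
    have h5 := pow_right_injective₀ hr0 hr1.ne hval
    omega
  obtain ⟨s, hs, h⟩ := key
  exact ⟨s, hs, fun T hT hTs => no_fix hβ h3 h hT hTs⟩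

/-- Chunk LN (S/M). P - X would be fixed by the inertia group, V (tt (P - X)) = V (tt P) (H13S.val_ratio with R = -X, if X ≠ 0), and it is a power of V β (value_fixed for K = ⊥, qv_intpow; tt ≠ 0): n * Nm β = 1, impossible. -/
theorem pt_nontriv (hβ : Prime β) (h3 : Prim β) (hN : 4 ≤ Nm β) (hV : vo V β < 1) {P : P27 Ω} (hP : Kr V P)
    (hv : V.valuation (tt P) ^ Nm β = vo V β) :
    ¬ ∃ X ∈ Tor β Ω, ∀ s : Ω ≃ₐ[F] Ω, Inert V s → ac W27 s P - P = ac W27 s X - X := by
  rintro ⟨X, hX, h⟩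
  have hfix : ∀ s : Ω ≃ₐ[F] Ω, Inert V s → ac W27 s (P - X) = P - X := by
    intro s hs
    have h1 := h s hs
    rw [map_sub, sub_eq_sub_iff_sub_eq_sub.1 h1]
  have hval : Kr V (P - X) ∧ V.valuation (tt (P - X)) = V.valuation (tt P) := by
    by_cases h0 : X = 0
    · rw [h0, sub_zero]
      exact ⟨hP, rfl⟩
    · have hnX : -X ∈ Tor β Ω := neg_mem hX
      have hn0 : -X ≠ 0 := neg_ne_zero.2 h0
      rw [sub_eq_add_neg]
      exact ⟨kr_add V hP (kr_tor_ram β hβ h3 V hV hnX hn0).1,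
        (val_ratio hβ h3 (by omega) V hV P hP hv (-X) hnX hn0).1⟩
  have hβ0 := qv_pos V hβ.ne_zero
  have hne : P - X ≠ 0 := by
    intro hc
    have h1 := hval.2
    rw [hc, gia_tt0, map_zero] at h1
    rw [← h1, zero_pow (by omega)] at hv
    exact hβ0 hv.symm
  obtain ⟨k, hk⟩ := li_val hβ hV hval.1 hne hfix
  rw [← hval.2, hk] at hv
  exact li_zpow hβ0 hV k (by omega) hv

end H13Z
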