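import Mathlib
import Pool.Agent.Lib.H13S.DV

open NumberField IsDedekindDomain

namespace H13Z

open H55P

theorem lf2_one {Ω : Type} [Field Ω] (V : ValuationSubring Ω) {l : ℕ} (hl : l ≠ 0) {ζ : Ω}
    (h : ζ ^ l = 1) : V.valuation ζ = 1 := by
  have h5 : V.valuation ζ ^ l = 1 := by rw [← map_pow, h, map_one]
  exact (pow_eq_one_iff_of_nonneg zero_le hl).1 h5

/-- all nontrivial roots of unity have the same distance from one -/
theorem lf2_le {Ω : Type} [Field Ω] (V : ValuationSubring Ω) {l : ℕ} (hl : l.Prime) {ζ ξ : Ω}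
    (hζ : IsPrimitiveRoot ζ l) (hξ : ξ ^ l = 1) : V.valuation (ξ - 1) ≤ V.valuation (ζ - 1) := by
  have hNZ : NeZero l := ⟨hl.ne_zero⟩
  obtain ⟨i, _, hi⟩ := hζ.eq_pow_of_pow_eq_one hξ
  rw [← hi, ← geom_sum_mul, map_mul]
  have h6 : V.valuation (∑ j ∈ Finset.range i, ζ ^ j) ≤ 1 := by
    apply Valuation.map_sum_le
    intro j _
    rw [map_pow, lf2_one V hl.ne_zero hζ.pow_eq_one, one_pow]
  calc V.valuation (∑ j ∈ Finset.range i, ζ ^ j) * V.valuation (ζ - 1)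
      ≤ 1 * V.valuation (ζ - 1) := by gcongr
    _ = V.valuation (ζ - 1) := one_mul _

theorem lf2_prim {Ω : Type} [Field Ω] {l : ℕ} (hl : l.Prime) {ξ : Ω} (hξ : ξ ^ l = 1) (h1 : ξ ≠ 1) :
    IsPrimitiveRoot ξ l := by
  have : Fact l.Prime := ⟨hl⟩
  have h2 := orderOf_eq_prime hξ h1
  rw [← h2]
  exact IsPrimitiveRoot.orderOf ξ

/-- the value of l -/
theorem lf2_l {Ω : Type} [Field Ω] [CharZero Ω] (V : ValuationSubring Ω) {l : ℕ} (hl : l.Prime) {ζ : Ω}
    (hζ : IsPrimitiveRoot ζ l) : V.valuation (l : Ω) = V.valuation (ζ - 1) ^ (l - 1) := by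
  have hprod : ∏ k ∈ Finset.range (l - 1), (1 - ζ ^ (k + 1)) = (l : Ω) := by
    have hl2 := hl.two_le
    have hpr' : IsPrimitiveRoot ζ ((l - 1) + 1) := by
      have : l - 1 + 1 = l := by omega
      rw [this]; exact hζ
    rw [hpr'.prod_one_sub_pow_eq_order]
    have : ((l - 1 : ℕ) : Ω) + 1 = ((l - 1 + 1 : ℕ) : Ω) := by push_cast; ring
    rw [this]
    congr 1
    omega
  rw [← hprod, map_prod]
  have h : ∀ k ∈ Finset.range (l - 1), V.valuation (1 - ζ ^ (k + 1)) = V.valuation (ζ - 1) := by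
    intro k hk
    rw [Finset.mem_range] at hk
    have h1 : (ζ ^ (k + 1)) ^ l = 1 := by rw [← pow_mul, mul_comm, pow_mul, hζ.pow_eq_one, one_pow]
    have h2 : ζ ^ (k + 1) ≠ 1 := hζ.pow_ne_one_of_pos_of_lt (by omega) (by omega)
    rw [Valuation.map_sub_swap]
    exact le_antisymm (lf2_le V hl hζ h1) (lf2_le V hl (lf2_prim hl h1 h2) hζ.pow_eq_one)
  rw [Finset.prod_congr rfl h, Finset.prod_const, Finset.card_range]

/-- Chunk LF2 (M). A root of higher level is fixed by the decomposition group, if the l-th roots of unity are. V (y - 1) < 1: (y - 1)^l = y^l - 1 modulo l. λ = V (1 - ζ) for all ζ ≠ 1, ζ^l = 1; λ^(l-1) = V l, so V l < λ (l ≥ 3). y^l - 1 = product of the (y - ζ) over ζ^l = 1 (X^l - 1 splits: Ω algebraically closed; X_pow_sub_one_eq_prod), value ≤ V l^2 < λ^l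
(λ^l = V l * λ), so some V (y - ζ₀) < λ. s y = ξ y, ξ^l = 1. V (s y - ζ₀) < V (s (1 - ζ)) = λ (Dec preserves inequalities, s fixes the roots of unity). ξ y - ζ₀ and ξ (y - ζ₀) have values < λ, so V (ξ ζ₀ - ζ₀) < λ, ξ = 1. -/
theorem fix_strict {F₀ Ω : Type} [Field F₀] [Field Ω] [Algebra F₀ Ω] [CharZero Ω] [IsAlgClosed Ω]
    (V : ValuationSubring Ω) {l : ℕ} (hl : l.Prime) (h3 : 3 ≤ l) (hV : V.valuation (l : Ω) < 1) {u y : Ω}
    (hy : y ^ l = u) (hu : V.valuation (u - 1) ≤ V.valuation (l : Ω) ^ 2) {s : Ω ≃ₐ[F₀] Ω} (hs : Dec V s)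
    (h1 : ∀ ζ : Ω, ζ ^ l = 1 → s ζ = ζ) (h2 : s u = u) : s y = y := by
  have hlz : ((l : ℕ) : Ω) ≠ 0 := by exact_mod_cast hl.ne_zero
  have hNZ : NeZero ((l : ℕ) : Ω) := ⟨hlz⟩
  obtain ⟨ζ, hζ0⟩ := IsAlgClosed.exists_root (Polynomial.cyclotomic l Ω) (by
    rw [Polynomial.degree_cyclotomic]
    have := Nat.totient_pos.2 hl.pos
    intro h
    have h' : Nat.totient l = 0 := by exact_mod_cast h
    omega)
  have hζ : IsPrimitiveRoot ζ l := Polynomial.isRoot_cyclotomic_iff.1 hζ0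
  have hvl := lf2_l V hl hζ
  obtain ⟨c, hc⟩ : ∃ c, c = V.valuation (ζ - 1) := ⟨_, rfl⟩
  have hvl0 : V.valuation (l : Ω) ≠ 0 := by
    rw [Ne, map_eq_zero]
    exact hlz
  rw [← hc] at hvl
  have hc0 : c ≠ 0 := by
    intro h
    rw [h, zero_pow (by omega)] at hvl
    exact hvl0 hvl
  have hcpos : 0 < c := zero_lt_iff.2 hc0
  have hc1 : c < 1 := by
    by_contra hcon
    rw [not_lt] at hcon
    rw [hvl] at hV
    exact absurd (one_le_pow₀ hcon) (not_le.2 hV)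
  -- some root of unity is close to y
  have hlt : V.valuation (l : Ω) ^ 2 < c ^ l := by
    rw [hvl, ← pow_mul]
    exact pow_lt_pow_right_of_lt_one₀ hcpos hc1 (by omega)
  have hprod := hζ.pow_sub_pow_eq_prod_sub_mul y 1 hl.pos
  rw [one_pow, hy] at hprod
  have hclose : ∃ ζ₀ : Ω, ζ₀ ^ l = 1 ∧ V.valuation (y - ζ₀) < c := by
    by_contra hcon
    push Not at hcon
    have h4 : c ^ l ≤ V.valuation (u - 1) := by
      rw [hprod, map_prod]
      calc c ^ l = ∏ _ζ ∈ Polynomial.nthRootsFinset l (1 : Ω), c := by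
            rw [Finset.prod_const, hζ.card_nthRootsFinset]
        _ ≤ _ := by
          apply Finset.prod_le_prod'
          intro ξ hξ
          rw [mul_one]
          exact hcon ξ ((Polynomial.mem_nthRootsFinset hl.pos _).1 hξ)
    exact absurd (h4.trans hu) (not_le.2 hlt)
  obtain ⟨ζ₀, hζ₀, hcl⟩ := hclose
  have hy0 : y ≠ 0 := by
    rintro rfl
    rw [zero_pow hl.ne_zero] at hy
    rw [← hy, zero_sub, Valuation.map_neg, map_one] at hu
    have h4 : V.valuation (l : Ω) ^ 2 < 1 := pow_lt_one₀ zero_le hV (by norm_num)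
    exact absurd hu (not_le.2 h4)
  obtain ⟨ξ, hξ⟩ : ∃ ξ : Ω, ξ = s y / y := ⟨_, rfl⟩
  have hsy : s y = ξ * y := by rw [hξ, div_mul_cancel₀ _ hy0]
  have hξl : ξ ^ l = 1 := by
    rw [hξ, div_pow, ← map_pow, hy, h2, div_self]
    rw [← hy]
    exact pow_ne_zero l hy0
  have h5 : V.valuation (ξ * y - ζ₀) < c := by
    have h6 : V.valuation (s (y - ζ₀)) < V.valuation (s (ζ - 1)) := by
      rw [← not_le, H13S.dv_le s hs, not_le, ← hc]
      exact hcl
    have e1 : s (y - ζ₀) = ξ * y - ζ₀ := by rw [map_sub s, hsy, h1 ζ₀ hζ₀]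
    have e2 : s (ζ - 1) = ζ - 1 := by rw [map_sub s, h1 ζ hζ.pow_eq_one, map_one]
    rw [e1, e2, ← hc] at h6
    exact h6
  have h7 : V.valuation (ξ * (y - ζ₀)) < c := by
    rw [map_mul, lf2_one V hl.ne_zero hξl, one_mul]
    exact hcl
  have h8 : V.valuation ((ξ - 1) * ζ₀) < c := by
    have h9 : (ξ - 1) * ζ₀ = (ξ * y - ζ₀) - ξ * (y - ζ₀) := by ring
    rw [h9]
    exact (V.valuation.map_sub _ _).trans_lt (max_lt h5 h7)
  rw [map_mul, lf2_one V hl.ne_zero hζ₀, mul_one] at h8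
  by_cases hne : ξ = 1
  · rw [hsy, hne, one_mul]
  · exfalso
    have h9 := lf2_le V hl (lf2_prim hl hξl hne) hζ.pow_eq_one
    rw [← hc] at h9
    exact absurd h9 (not_le.2 h8)

end H13Z
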