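import Mathlib
import Pool.Agent.Lib.H99B.E1

open NumberField IsDedekindDomain

namespace H13Z

open H55B H55R H99B

open scoped WithZero

theorem GA4_g1 {G : Type} [CommGroup G] (p q x : G) : p * q * (x * p⁻¹) = x * q := by
  have h : p * q * (x * p⁻¹) = x * q * (p * p⁻¹) := by ac_rfl
  rw [h, mul_inv_cancel, mul_one]

theorem GA4_g2 {G : Type} [CommGroup G] (p q s u v : G) :
    p * q * s * (u⁻¹ * v⁻¹ * s⁻¹) = p * u⁻¹ * (q * v⁻¹) := by
  have h : p * q * s * (u⁻¹ * v⁻¹ * s⁻¹) = p * u⁻¹ * (q * v⁻¹) * (s * s⁻¹) := by ac_rfl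
  rw [h, mul_inv_cancel, mul_one]

theorem GA4_g3 {G : Type} [CommGroup G] (x p q : G) : x * (p⁻¹ * q⁻¹) * q = x * p⁻¹ := by
  have h : x * (p⁻¹ * q⁻¹) * q = x * p⁻¹ * (q * q⁻¹) := by ac_rfl
  rw [h, mul_inv_cancel, mul_one]
theorem GA4_lift {L : Type} [Field L] [NumberField L] [Algebra F L]
    {k : Type} [Field k] {χ : Gal(L/F) →* kˣ} {w : Pl L} {t : Lˣ}
    {r : 𝓞 L →+* k} (hloc : Loc χ w t r) (x : L) (hx : w.valuation L x ≤ 1) :
    ∃ y0 : 𝓞 F, w.valuation L (x - algebraMap F L (y0 : F)) ≤ WithZero.exp (-1 : ℤ) := by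
  obtain ⟨n, d, h⟩ := HeightOneSpectrum.exists_primeCompl_mul_eq_of_integer w x hx
  have hd : (d : 𝓞 L) ∉ w.asIdeal := d.2
  have hd1 : w.valuation L (algebraMap (𝓞 L) L (d : 𝓞 L)) = 1 :=
    (HeightOneSpectrum.valuation_eq_one_iff_notMem (K := L) w).2 hd
  have hrd : r (d : 𝓞 L) ≠ 0 := fun h => hd ((hloc.ker _).1 h)
  obtain ⟨y0, hy0⟩ := hloc.surj (r n / r (d : 𝓞 L))
  refine ⟨y0, e1_lt ?_⟩
  have hmem : n - (d : 𝓞 L) * algebraMap (𝓞 F) (𝓞 L) y0 ∈ w.asIdeal := by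
    rw [← hloc.ker, map_sub, map_mul, hy0, mul_div_cancel₀ _ hrd, sub_self]
  have hlt : w.valuation L (algebraMap (𝓞 L) L (n - (d : 𝓞 L) * algebraMap (𝓞 F) (𝓞 L) y0)) < 1 :=
    (w.valuation_lt_one_iff_mem (K := L) _).2 hmem
  have e : algebraMap (𝓞 L) L (n - (d : 𝓞 L) * algebraMap (𝓞 F) (𝓞 L) y0) =
      (x - algebraMap F L (y0 : F)) * algebraMap (𝓞 L) L (d : 𝓞 L) := by
    have h2 : algebraMap (𝓞 L) L (algebraMap (𝓞 F) (𝓞 L) y0) = algebraMap F L (y0 : F) := rfl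
    rw [map_sub, map_mul, ← h, h2]
    ring
  rw [e, map_mul, hd1, mul_one] at hlt
  exact hlt

theorem GA4_vl {L : Type} [Field L] [NumberField L] [Algebra F L] {l : ℕ}
    {k : Type} [Field k] [CharP k l] {χ : Gal(L/F) →* kˣ} {w : Pl L} {t : Lˣ}
    {r : 𝓞 L →+* k} (hloc : Loc χ w t r) :
    w.valuation L ((l : ℕ) : L) ≤ WithZero.exp (-2 : ℤ) := by
  have h3 := hloc.ram ((l : ℕ) : 𝓞 F) (by rw [map_natCast, map_natCast, CharP.cast_eq_zero])
  have e1 : algebraMap F L (((l : ℕ) : 𝓞 F) : F) = ((l : ℕ) : L) := by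
    have : (((l : ℕ) : 𝓞 F) : F) = ((l : ℕ) : F) := map_natCast (algebraMap (𝓞 F) F) l
    rw [this, map_natCast]
  rw [e1] at h3
  exact h3

theorem GA4_21 : WithZero.exp (-2 : ℤ) ≤ WithZero.exp (-1 : ℤ) := by
  rw [WithZero.exp_le_exp]
  norm_num

theorem GA4_1 : WithZero.exp (-1 : ℤ) < 1 := by
  rw [← WithZero.exp_zero, WithZero.exp_lt_exp]
  norm_num

theorem GA4_t {L : Type} [Field L] [NumberField L] [Algebra F L]
    {k : Type} [Field k] {χ : Gal(L/F) →* kˣ} {w : Pl L} {t : Lˣ}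
    {r : 𝓞 L →+* k} (hloc : Loc χ w t r) : w.valuation L (t : L) = WithZero.exp (-1 : ℤ) := by
  rw [BF1_val, hloc.unif]

/-- An l-th power congruent to 1 modulo w is congruent to 1 modulo the square. -/
theorem GA4_root {L : Type} [Field L] [NumberField L] [Algebra F L] {l : ℕ} [Fact l.Prime]
    {k : Type} [Field k] [CharP k l] {χ : Gal(L/F) →* kˣ} {w : Pl L} {t : Lˣ}
    {r : 𝓞 L →+* k} (hloc : Loc χ w t r) (y : L) (hy : w.valuation L y ≤ 1)
    (h : w.valuation L (y ^ l - 1) ≤ WithZero.exp (-1 : ℤ)) :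
    w.valuation L (y ^ l - 1) ≤ WithZero.exp (-2 : ℤ) := by
  obtain ⟨y0, hy0⟩ := GA4_lift hloc y hy
  have hpow := e1_lpow (w.valuation L) (Fact.out : l.Prime) (GA4_vl hloc) (e1_val hloc y0).1 hy0
  have e3 : algebraMap F L (y0 : F) + (y - algebraMap F L (y0 : F)) = y := by ring
  rw [e3] at hpow
  have e5 : algebraMap F L (y0 : F) ^ l - 1 = algebraMap F L ((y0 ^ l - 1 : 𝓞 F) : F) := by
    have : ((y0 ^ l - 1 : 𝓞 F) : F) = (y0 : F) ^ l - 1 := rfl
    rw [this, map_sub, map_pow, map_one]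
  have hlt : w.valuation L (algebraMap F L ((y0 ^ l - 1 : 𝓞 F) : F)) < 1 := by
    rw [← e5]
    have e6 : algebraMap F L (y0 : F) ^ l - 1 = (y ^ l - 1) -
        (y ^ l - algebraMap F L (y0 : F) ^ l) := by ring
    rw [e6]
    exact lt_of_le_of_lt (Valuation.map_sub_le _ h (hpow.trans GA4_21)) GA4_1
  have h7 := hloc.ram _ ((e1_val hloc _).2 hlt)
  rw [← e5] at h7
  have e6 : y ^ l - 1 = (y ^ l - algebraMap F L (y0 : F) ^ l) + (algebraMap F L (y0 : F) ^ l - 1) := by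
    ring
  rw [e6]
  exact Valuation.map_add_le _ hpow h7

/-- An element congruent to 1 + c t is a unit, congruent to 1. -/
theorem GA4_one {L : Type} [Field L] [NumberField L] [Algebra F L]
    {k : Type} [Field k] {χ : Gal(L/F) →* kˣ} {w : Pl L} {t : Lˣ}
    {r : 𝓞 L →+* k} (hloc : Loc χ w t r) (u : L) (c : 𝓞 F)
    (h : w.valuation L (u - 1 - algebraMap F L (c : F) * (t : L)) ≤ WithZero.exp (-2 : ℤ)) :
    w.valuation L (u - 1) ≤ WithZero.exp (-1 : ℤ) ∧ w.valuation L u = 1 := by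
  have h1 : w.valuation L (u - 1) ≤ WithZero.exp (-1 : ℤ) := by
    have e : u - 1 = (u - 1 - algebraMap F L (c : F) * (t : L)) + algebraMap F L (c : F) * (t : L) := by
      ring
    rw [e]
    refine Valuation.map_add_le _ (h.trans GA4_21) ?_
    rw [map_mul, GA4_t hloc]
    calc _ ≤ 1 * WithZero.exp (-1 : ℤ) := mul_le_mul' (e1_val hloc c).1 le_rfl
      _ = _ := one_mul _
  refine ⟨h1, ?_⟩
  have e : u = 1 + (u - 1) := by ring
  rw [e]
  exact Valuation.map_one_add_of_lt _ (lt_of_le_of_lt h1 GA4_1)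

/-- Chunk GA4 (M), three lemmas on the level one component c of an element x = z^l (1 + c t + ..), c in 𝓞 F modulo w. First: existence. y = x/s^l with ord w y = 0 (s = power of t, hloc.unif); y or its inverse is a unit at w; the residue field is k (finite of characteristic l, Frobenius surjective, hloc.surj): b in 𝓞 F,
b not in w, with w.valuation (y - b^l) < 1 (write y as a quotient of integers prime to w: H55R.HB1, or exists_frac). u = y/b^l is congruent to 1; (u - 1)/t is w-integral, congruent to an element c of 𝓞 F (hloc.surj, hloc.ker; again through a quotient of integers). -/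
theorem lev_exists {L : Type} [Field L] [NumberField L] [Algebra F L] {l : ℕ} [Fact l.Prime]
    {k : Type} [Field k] [Fintype k] [DecidableEq k] [CharP k l] {χ : Gal(L/F) →* kˣ} {w : Pl L} {t : Lˣ}
    {r : 𝓞 L →+* k} (hloc : Loc χ w t r) (x : Lˣ) (hx : (l : ℤ) ∣ ord w x) :
    ∃ (c : 𝓞 F) (z : Lˣ), w.valuation L (((x * (z ^ l)⁻¹ : Lˣ) : L) - 1 -
      algebraMap F L (c : F) * (t : L)) ≤ WithZero.exp (-2 : ℤ) := by
  have hlp : l.Prime := Fact.out
  obtain ⟨n, hn⟩ := hx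
  have ht := GA4_t hloc
  obtain ⟨y, hy⟩ : ∃ y : Lˣ, y = x * ((t ^ n) ^ l)⁻¹ := ⟨_, rfl⟩
  have hoy : ord w y = 0 := by
    rw [hy, ord_mul, ord_inv, ← zpow_natCast, ← zpow_mul, ord_zpow, hloc.unif, hn]
    ring
  have hvy : w.valuation L (y : L) = 1 := by
    rw [BF1_val, hoy, neg_zero, WithZero.exp_zero]
  obtain ⟨y0, hy0⟩ := GA4_lift hloc (y : L) hvy.le
  have hvy0 : w.valuation L (algebraMap F L (y0 : F)) = 1 := by
    have e : algebraMap F L (y0 : F) = (y : L) - ((y : L) - algebraMap F L (y0 : F)) := by ring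
    refine le_antisymm (e1_val hloc y0).1 (not_lt.1 fun hlt => ?_)
    have e2 : (y : L) = ((y : L) - algebraMap F L (y0 : F)) + algebraMap F L (y0 : F) := by ring
    have h3 := Valuation.map_add_lt _ (lt_of_le_of_lt hy0 GA4_1) hlt
    rw [← e2, hvy] at h3
    exact lt_irrefl _ h3
  obtain ⟨b0, hb0⟩ : ∃ b0 : k, b0 ^ l = r (algebraMap (𝓞 F) (𝓞 L) y0) := by
    have : ExpChar k l := ExpChar.prime hlp
    have hsur : Function.Surjective (frobenius k l) :=
      Finite.surjective_of_injective (frobenius k l).injective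
    obtain ⟨b0, hb0⟩ := hsur (r (algebraMap (𝓞 F) (𝓞 L) y0))
    exact ⟨b0, hb0⟩
  obtain ⟨b, hb⟩ := hloc.surj b0
  have e5 : algebraMap F L (b : F) ^ l - algebraMap F L (y0 : F) =
      algebraMap F L ((b ^ l - y0 : 𝓞 F) : F) := by
    have : ((b ^ l - y0 : 𝓞 F) : F) = (b : F) ^ l - (y0 : F) := rfl
    rw [this, map_sub, map_pow]
  have hby := hloc.ram (b ^ l - y0) (by rw [map_sub, map_sub, map_pow, map_pow, hb, hb0, sub_self])
  rw [← e5] at hby
  have hyb : w.valuation L ((y : L) - algebraMap F L (b : F) ^ l) ≤ WithZero.exp (-1 : ℤ) := by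
    have e : (y : L) - algebraMap F L (b : F) ^ l = ((y : L) - algebraMap F L (y0 : F)) -
        (algebraMap F L (b : F) ^ l - algebraMap F L (y0 : F)) := by ring
    rw [e]
    exact Valuation.map_sub_le _ hy0 (hby.trans GA4_21)
  have hvbl : w.valuation L (algebraMap F L (b : F) ^ l) = 1 := by
    have h1 : w.valuation L (algebraMap F L (b : F) ^ l) ≤ 1 := by
      rw [map_pow]
      exact pow_le_one' (e1_val hloc b).1 l
    refine le_antisymm h1 (not_lt.1 fun hlt => ?_)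
    have e2 : (y : L) = ((y : L) - algebraMap F L (b : F) ^ l) + algebraMap F L (b : F) ^ l := by ring
    have h3 := Valuation.map_add_lt _ (lt_of_le_of_lt hyb GA4_1) hlt
    rw [← e2, hvy] at h3
    exact lt_irrefl _ h3
  have hb0' : algebraMap F L (b : F) ≠ 0 := by
    intro h0
    rw [h0, zero_pow hlp.ne_zero, map_zero] at hvbl
    exact zero_ne_one hvbl
  obtain ⟨B, hB⟩ : ∃ B : Lˣ, (B : L) = algebraMap F L (b : F) := ⟨Units.mk0 _ hb0', rfl⟩
  obtain ⟨u, hu⟩ : ∃ u : Lˣ, u = x * ((t ^ n * B) ^ l)⁻¹ := ⟨_, rfl⟩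
  have huy : (u : L) * algebraMap F L (b : F) ^ l = (y : L) := by
    have h1 : u * B ^ l = y := by
      rw [hu, hy, mul_pow, mul_inv]
      exact GA4_g3 _ _ _
    rw [← h1, Units.val_mul, Units.val_pow_eq_pow_val, hB]
  have hu1 : w.valuation L ((u : L) - 1) ≤ WithZero.exp (-1 : ℤ) := by
    have e : ((u : L) - 1) * algebraMap F L (b : F) ^ l = (y : L) - algebraMap F L (b : F) ^ l := by
      rw [← huy]
      ring
    have h2 := congrArg (w.valuation L) e
    rw [map_mul, hvbl, mul_one] at h2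
    rw [h2]
    exact hyb
  have ht0 : (t : L) ≠ 0 := t.ne_zero
  have hvt0 : w.valuation L (t : L) ≠ 0 := by
    rw [ht]
    exact WithZero.exp_ne_zero
  have hut : w.valuation L (((u : L) - 1) / (t : L)) ≤ 1 := by
    rw [map_div₀]
    refine div_le_one_of_le₀ ?_ zero_le
    rw [ht]
    exact hu1
  obtain ⟨c, hc⟩ := GA4_lift hloc (((u : L) - 1) / (t : L)) hut
  refine ⟨c, t ^ n * B, ?_⟩
  rw [← hu]
  have e : (u : L) - 1 - algebraMap F L (c : F) * (t : L) =
      (((u : L) - 1) / (t : L) - algebraMap F L (c : F)) * (t : L) := by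
    rw [sub_mul, div_mul_cancel₀ _ ht0]
  rw [e, map_mul, ht]
  calc _ ≤ WithZero.exp (-1 : ℤ) * WithZero.exp (-1 : ℤ) := mul_le_mul' hc le_rfl
    _ = _ := by
      rw [← WithZero.exp_add]
      norm_num

/-- Uniqueness: (z'/z)^l = u/u' is congruent to 1 modulo w, so z'/z is congruent to 1 modulo w (Frobenius injective: (z'/z - 1)^l = (z'/z)^l - 1 modulo l), (z'/z)^l is congruent to 1 modulo the square (e1_lpow, hloc.ram for l), so u = u' modulo the square. -/
theorem lev_unique {L : Type} [Field L] [NumberField L] [Algebra F L] {l : ℕ} [Fact l.Prime]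
    {k : Type} [Field k] [Fintype k] [DecidableEq k] [CharP k l] {χ : Gal(L/F) →* kˣ} {w : Pl L} {t : Lˣ}
    {r : 𝓞 L →+* k} (hloc : Loc χ w t r) (x : Lˣ) (c c' : 𝓞 F) (z z' : Lˣ)
    (h : w.valuation L (((x * (z ^ l)⁻¹ : Lˣ) : L) - 1 - algebraMap F L (c : F) * (t : L)) ≤
      WithZero.exp (-2 : ℤ))
    (h' : w.valuation L (((x * (z' ^ l)⁻¹ : Lˣ) : L) - 1 - algebraMap F L (c' : F) * (t : L)) ≤
      WithZero.exp (-2 : ℤ)) :
    r (algebraMap (𝓞 F) (𝓞 L) c) = r (algebraMap (𝓞 F) (𝓞 L) c') := by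
  have hlp : l.Prime := Fact.out
  obtain ⟨u, hu⟩ : ∃ u : Lˣ, u = x * (z ^ l)⁻¹ := ⟨_, rfl⟩
  obtain ⟨u', hu'⟩ : ∃ u' : Lˣ, u' = x * (z' ^ l)⁻¹ := ⟨_, rfl⟩
  rw [← hu] at h
  rw [← hu'] at h'
  obtain ⟨h1, h2⟩ := GA4_one hloc (u : L) c h
  obtain ⟨h1', h2'⟩ := GA4_one hloc (u' : L) c' h'
  obtain ⟨y, hy⟩ : ∃ y : Lˣ, y = z' * z⁻¹ := ⟨_, rfl⟩
  have hyu : (y : L) ^ l * (u' : L) = (u : L) := by
    have h3 : y ^ l * u' = u := by
      rw [hy, hu, hu', mul_pow, inv_pow]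
      exact GA4_g1 _ _ _
    rw [← h3, Units.val_mul, Units.val_pow_eq_pow_val]
  have hvyl : w.valuation L ((y : L) ^ l) = 1 := by
    have h4 := congrArg (w.valuation L) hyu
    rw [map_mul, h2', mul_one, h2] at h4
    exact h4
  have hvy : w.valuation L (y : L) = 1 := by
    rw [map_pow] at hvyl
    exact (pow_eq_one_iff_of_nonneg zero_le hlp.ne_zero).1 hvyl
  have huu : ((y : L) ^ l - 1) * (u' : L) = (u : L) - (u' : L) := by
    rw [← hyu]
    ring
  have hvuu := congrArg (w.valuation L) huu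
  rw [map_mul, h2', mul_one] at hvuu
  have h5 : w.valuation L ((y : L) ^ l - 1) ≤ WithZero.exp (-1 : ℤ) := by
    rw [hvuu]
    have e : (u : L) - (u' : L) = ((u : L) - 1) - ((u' : L) - 1) := by ring
    rw [e]
    exact Valuation.map_sub_le _ h1 h1'
  have h6 := GA4_root hloc (y : L) hvy.le h5
  rw [hvuu] at h6
  have h7 : w.valuation L (algebraMap F L ((c - c' : 𝓞 F) : F) * (t : L)) ≤ WithZero.exp (-2 : ℤ) := by
    have e : algebraMap F L ((c - c' : 𝓞 F) : F) * (t : L) = (((u : L) - (u' : L)) -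
        ((u : L) - 1 - algebraMap F L (c : F) * (t : L))) +
        ((u' : L) - 1 - algebraMap F L (c' : F) * (t : L)) := by
      have : ((c - c' : 𝓞 F) : F) = (c : F) - (c' : F) := rfl
      rw [this, map_sub]
      ring
    rw [e]
    exact Valuation.map_add_le _ (Valuation.map_sub_le _ h6 h) h'
  have h8 : w.valuation L (algebraMap F L ((c - c' : 𝓞 F) : F)) < 1 := by
    rw [map_mul, GA4_t hloc] at h7
    refine not_le.1 fun hge => ?_
    have h9 : WithZero.exp (-1 : ℤ) ≤ WithZero.exp (-2 : ℤ) := by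
      calc WithZero.exp (-1 : ℤ) = 1 * WithZero.exp (-1 : ℤ) := (one_mul _).symm
        _ ≤ w.valuation L (algebraMap F L ((c - c' : 𝓞 F) : F)) * WithZero.exp (-1 : ℤ) :=
          mul_le_mul' hge le_rfl
        _ ≤ _ := h7
    rw [WithZero.exp_le_exp] at h9
    norm_num at h9
  have h10 := (e1_val hloc _).2 h8
  rw [map_sub, map_sub] at h10
  exact sub_eq_zero.1 h10

/-- The level map of an equivariant homomorphism is k-linear: there is f in k with: x = m a implies r c = f a. Put g a = the level of m a (lev_exists, well defined by lev_unique). Additive: hm.add, products (e1_mul), l-th powers have level 0 (or use z z'). Equivariant: hm.equiv, σ(1 + c t + ..) = 1 + c σ t + ..,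
σ t = y t modulo the square with r y = χ σ (hloc.act, hloc.surj), hloc.inv for the valuation (e1_gal). So g(χ σ a) = χ σ g a, χ is surjective onto kˣ: g a = g 1 * a. -/
theorem lev_linear {L : Type} [Field L] [NumberField L] [Algebra F L] {l : ℕ} [Fact l.Prime]
    {k : Type} [Field k] [Fintype k] [DecidableEq k] [CharP k l] {χ : Gal(L/F) →* kˣ}
    (hχ : Function.Bijective χ) {w : Pl L} {t : Lˣ} {r : 𝓞 L →+* k} (hloc : Loc χ w t r) {m : k → Lˣ}
    (hm : EqHom l χ m) (hw : ∀ a, (l : ℤ) ∣ ord w (m a)) :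
    ∃ f : k, ∀ (a : k) (c : 𝓞 F) (z : Lˣ),
      w.valuation L (((m a * (z ^ l)⁻¹ : Lˣ) : L) - 1 - algebraMap F L (c : F) * (t : L)) ≤
        WithZero.exp (-2 : ℤ) → r (algebraMap (𝓞 F) (𝓞 L) c) = f * a := by
  choose C Z hC using fun a => lev_exists hloc (m a) (hw a)
  have ht := GA4_t hloc
  have hadd : ∀ a b : k, r (algebraMap (𝓞 F) (𝓞 L) (C (a + b))) =
      r (algebraMap (𝓞 F) (𝓞 L) (C a)) + r (algebraMap (𝓞 F) (𝓞 L) (C b)) := by
    intro a b
    obtain ⟨z, hz⟩ := hm.add a b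
    have e1 : m (a + b) * ((Z a * Z b * z) ^ l)⁻¹ = (m a * (Z a ^ l)⁻¹) * (m b * (Z b ^ l)⁻¹) := by
      rw [hz, mul_pow, mul_pow, mul_inv, mul_inv]
      exact GA4_g2 _ _ _ _ _
    have h1 := e1_mul (w.valuation L) ht.le (e1_val hloc (C a)).1 (e1_val hloc (C b)).1 (hC a) (hC b)
    rw [← Units.val_mul, ← e1] at h1
    have e2 : algebraMap F L (C a : F) + algebraMap F L (C b : F) =
        algebraMap F L ((C a + C b : 𝓞 F) : F) := by
      have : ((C a + C b : 𝓞 F) : F) = (C a : F) + (C b : F) := rfl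
      rw [this, map_add]
    rw [e2] at h1
    have h2 := lev_unique hloc (m (a + b)) (C (a + b)) (C a + C b) (Z (a + b)) (Z a * Z b * z)
      (hC (a + b)) h1
    rw [h2, map_add, map_add]
  have hequiv : ∀ (σ : Gal(L/F)) (a : k), r (algebraMap (𝓞 F) (𝓞 L) (C (χ σ * a))) =
      (χ σ : k) * r (algebraMap (𝓞 F) (𝓞 L) (C a)) := by
    intro σ a
    obtain ⟨z, hz⟩ := hm.equiv σ a
    obtain ⟨X, hX⟩ := hloc.surj (χ σ : k)
    have e1 : m (χ σ * a) * ((gu σ (Z a) * z) ^ l)⁻¹ = gu σ (m a * (Z a ^ l)⁻¹) := by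
      rw [hz, map_mul, map_inv, map_pow, mul_pow, mul_inv, mul_assoc]
      congr 1
      rw [mul_comm ((gu σ (Z a) ^ l)⁻¹), mul_inv_cancel_left]
    have h1 : w.valuation L (σ (((m a * (Z a ^ l)⁻¹ : Lˣ) : L) - 1 -
        algebraMap F L (C a : F) * (t : L))) ≤ WithZero.exp (-2 : ℤ) := by
      rw [e1_gal (hloc.inv σ)]
      exact hC a
    have h0 : σ (((m a * (Z a ^ l)⁻¹ : Lˣ) : L) - 1 - algebraMap F L (C a : F) * (t : L)) =
        σ ((m a * (Z a ^ l)⁻¹ : Lˣ) : L) - 1 - algebraMap F L (C a : F) * σ (t : L) := by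
      rw [map_sub, map_sub, map_mul, map_one, AlgEquiv.commutes]
    rw [h0, ← gu_apply, ← e1] at h1
    have h2 := hloc.act σ X hX
    have h3 : w.valuation L (((m (χ σ * a) * ((gu σ (Z a) * z) ^ l)⁻¹ : Lˣ) : L) - 1 -
        algebraMap F L ((C a * X : 𝓞 F) : F) * (t : L)) ≤ WithZero.exp (-2 : ℤ) := by
      have e : ((m (χ σ * a) * ((gu σ (Z a) * z) ^ l)⁻¹ : Lˣ) : L) - 1 -
          algebraMap F L ((C a * X : 𝓞 F) : F) * (t : L) =
          (((m (χ σ * a) * ((gu σ (Z a) * z) ^ l)⁻¹ : Lˣ) : L) - 1 -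
          algebraMap F L (C a : F) * σ (t : L)) +
          algebraMap F L (C a : F) * (σ (t : L) - algebraMap F L (X : F) * (t : L)) := by
        have : ((C a * X : 𝓞 F) : F) = (C a : F) * (X : F) := rfl
        rw [this, map_mul]
        ring
      rw [e]
      refine Valuation.map_add_le _ h1 ?_
      rw [map_mul]
      calc _ ≤ 1 * WithZero.exp (-2 : ℤ) := mul_le_mul' (e1_val hloc (C a)).1 h2
        _ = _ := one_mul _
    have h4 := lev_unique hloc (m (χ σ * a)) (C (χ σ * a)) (C a * X) (Z (χ σ * a)) (gu σ (Z a) * z)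
      (hC (χ σ * a)) h3
    rw [h4, map_mul, map_mul, hX, mul_comm]
  have h0 : r (algebraMap (𝓞 F) (𝓞 L) (C 0)) = 0 := by
    have h1 := hadd 0 0
    rw [add_zero] at h1
    exact left_eq_add.1 h1
  refine ⟨r (algebraMap (𝓞 F) (𝓞 L) (C 1)), fun a c z h => ?_⟩
  rw [lev_unique hloc (m a) c (C a) z (Z a) h (hC a)]
  by_cases ha : a = 0
  · rw [ha, h0, mul_zero]
  · obtain ⟨σ, hσ⟩ := hχ.2 (Units.mk0 a ha)
    have h1 := hequiv σ 1
    rw [hσ, Units.val_mk0, mul_one] at h1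
    rw [h1, mul_comm]

end H13Z
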