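import Mathlib
import Pool.Agent.Lib.H13Z.LG
import Pool.Agent.Lib.H13S.CH
import Pool.Agent.Lib.H13S.CO2

open NumberField IsDedekindDomain

namespace H13Z

open H55P H28G H55B H13S

variable {Ω : Type} [Field Ω] [DecidableEq Ω] [Algebra F Ω] [IsAlgClosure F Ω]

variable {π : O} {l : ℕ} {V : ValuationSubring Ω} {c : (Ω ≃ₐ[F] Ω) → P27 Ω}

theorem lcb_mul {s t : Ω ≃ₐ[F] Ω} (hs : Inert V s) (ht : Inert V t) : Inert V (s * t) := by
  intro x hx
  have h1 := hs (t x) ((Inert.dec ht x).2 hx)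
  have h2 := ht x hx
  have h3 : (s * t) x - x = (s (t x) - t x) + (t x - x) := by
    change s (t x) - x = _
    ring
  rw [h3]
  exact (V.valuation.map_add _ _).trans_lt (max_lt h1 h2)

theorem lcb_inv {s : Ω ≃ₐ[F] Ω} (hs : Inert V s) : Inert V s⁻¹ := by
  intro x hx
  have e : s (s⁻¹ x) = x := AlgEquiv.apply_symm_apply s x
  have h1 : s⁻¹ x ∈ V := by
    rw [← Inert.dec hs, e]
    exact hx
  have h2 := hs _ h1
  rw [e] at h2
  rw [← V.valuation.map_neg, neg_sub]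
  exact h2

theorem lcb_one : Inert V (1 : Ω ≃ₐ[F] Ω) := by
  intro x _
  have : (1 : Ω ≃ₐ[F] Ω) x - x = 0 := sub_self x
  rw [this, map_zero]
  exact zero_lt_one

theorem lcb_l (D : Dat π l) {P : P27 Ω} (hP : P ∈ Tor (cj π) Ω) : l • P = 0 := by
  obtain ⟨u, hu⟩ := D.dvd
  have h1 : (l : O) = cj u * cj π := by
    have h2 := congrArg cj hu
    rw [map_natCast, map_mul] at h2
    rw [h2, mul_comm]
  have h3 : H28G.act (cj π) P = 0 := mem_Tor.1 hP
  rw [← act_nat, h1, act_mul, h3, map_zero]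

/-- Chunk LCB1 (M). cob_of_vanish for the group I = the inertia elements (a subgroup of Ω ≃ₐ[F] Ω: H13S.ld3_mul, ld3_inv), N = the elements of I fixing Tor π and Tor (cj π): intersection of I with the two subgroups of stab_index (normal, index dividing Nm π - 1 and Nm (cj π) - 1 = Nm π - 1),
so the index of N in I divides (Nm π - 1)^2 (relIndex), prime to l (CO2_Nm, CO2_cop: l divides Nm π). B = Tor (cj π), killed by l (cj π divides l: s0_dvd or act_mul). -/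
theorem cob_inert (D : Dat π l) (hc : Dc π V c) (h : ∀ s, JV π V s → c s = 0) :
    ∃ X ∈ Tor (cj π) Ω, ∀ s, Inert V s → c s = ac W27 s X - X := by
  obtain ⟨N₁, hN₁, hn₁, hd₁, h0₁⟩ := stab_index (Ω := Ω) π D.pr D.prim
  obtain ⟨N₂, hN₂, hn₂, hd₂, h0₂⟩ := stab_index (Ω := Ω) (cj π) (CO2_cj_prime D.pr) (CO2_cj_prim D.prim)
  have hlN : l ∣ Nm π := CO2_Nm D.hl D.pr D.dvd
  have hN0 : Nm π ≠ 0 := fun h => D.pr.ne_zero (Nm_eq_zero.1 h)
  rw [CO2_Nm_cj] at hd₂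
  have hidx : (N₁ ⊓ N₂).index = N₁.relIndex N₂ * N₂.index := by
    rw [← Subgroup.relIndex_mul_index (inf_le_right : N₁ ⊓ N₂ ≤ N₂), Subgroup.inf_relIndex_right]
  have hrel : N₁.relIndex N₂ ∣ N₁.index := Subgroup.relIndex_dvd_index_of_normal N₁ N₂
  have hcop : l.Coprime (N₁ ⊓ N₂).index := by
    rw [hidx]
    exact Nat.Coprime.mul_right (CO2_cop D.hl hlN hN0 (hrel.trans hd₁)) (CO2_cop D.hl hlN hN0 hd₂)
  have hne : (N₁ ⊓ N₂).index ≠ 0 := by
    rw [hidx]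
    refine mul_ne_zero (fun h => h0₁ ?_) h0₂
    rw [h] at hrel
    exact Nat.eq_zero_of_zero_dvd hrel
  let I : Subgroup (Ω ≃ₐ[F] Ω) :=
    { carrier := {s | Inert V s}
      mul_mem' := fun hs ht => lcb_mul hs ht
      one_mem' := lcb_one
      inv_mem' := fun hs => lcb_inv hs }
  have hI : ∀ s : I, Inert V s.1 := fun s => s.2
  have hdvd : (N₁ ⊓ N₂).relIndex I ∣ (N₁ ⊓ N₂).index := Subgroup.relIndex_dvd_index_of_normal _ _
  have hcop' : l.Coprime ((N₁ ⊓ N₂).subgroupOf I).index := Nat.Coprime.coprime_dvd_right hdvd hcop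
  have hne' : ((N₁ ⊓ N₂).subgroupOf I).index ≠ 0 := by
    intro h1
    have h2 : (N₁ ⊓ N₂).relIndex I = 0 := h1
    rw [h2] at hdvd
    exact hne (Nat.eq_zero_of_zero_dvd hdvd)
  have hvan : ∀ n ∈ (N₁ ⊓ N₂).subgroupOf I, c n.1 = 0 := by
    intro s hs
    rw [Subgroup.mem_subgroupOf] at hs
    obtain ⟨hs₁, hs₂⟩ := Subgroup.mem_inf.1 hs
    rw [hN₁] at hs₁
    rw [hN₂] at hs₂
    exact h s.1 ⟨hI s, hs₁, hs₂⟩
  obtain ⟨X, hX, hX2⟩ := cob_of_vanish (G := I) (fun s => (ac W27 s.1 : P27 Ω →+ P27 Ω))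
    (fun s t P => ac_mul s.1 t.1 P) (fun s => c s.1)
    (fun s t => hc.mul s.1 (Inert.dec (hI s)) t.1 (Inert.dec (hI t)))
    ((N₁ ⊓ N₂).subgroupOf I) hne' hvan l hcop' (fun s => lcb_l D (hc.val s.1 (Inert.dec (hI s)))) (Tor (cj π) Ω)
    (fun s => hc.val s.1 (Inert.dec (hI s)))
  exact ⟨X, hX, fun s hs => hX2 ⟨s, hs⟩⟩

/-- Chunk LCB2 (S). c - coboundary is again in Dc. -/
theorem Dc.sub_cob (hc : Dc π V c) {X : P27 Ω} (hX : X ∈ Tor (cj π) Ω) :
    Dc π V fun s => c s - (ac W27 s X - X) := by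
  refine ⟨fun s hs t ht => ?_, fun s hs => ?_⟩
  · rw [hc.mul s hs t ht, map_sub, map_sub, ac_mul]
    abel
  · exact sub_mem (hc.val s hs) (sub_mem (ac_mem s hX) hX)

/-- σ s = s (s⁻¹ σ s): c (σ s) = c σ + ac σ (c s) = ac σ (c s) and c (s (s⁻¹ σ s)) = c s (Inert.conj). So c s is a fixed point of σ. -/
theorem cob_dec_ram (hc : Dc π V c) (h : ∀ s, Inert V s → c s = 0)
    (hσ : ∃ s : Ω ≃ₐ[F] Ω, Inert V s ∧ ∀ T ∈ Tor (cj π) Ω, ac W27 s T = T → T = 0) :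
    ∀ s, Dec V s → c s = 0 := by
  obtain ⟨σ, hσi, hσ0⟩ := hσ
  intro s hs
  refine hσ0 _ (hc.val s hs) ?_
  have h1 := hc.mul σ (Inert.dec hσi) s hs
  rw [h σ hσi, zero_add] at h1
  have hconj : Inert V (s⁻¹ * σ * s) := Inert.conj hσi hs
  have h2 := hc.mul s hs (s⁻¹ * σ * s) (Inert.dec hconj)
  rw [h _ hconj, map_zero, add_zero] at h2
  have h3 : s * (s⁻¹ * σ * s) = σ * s := by group
  rw [h3, h1] at h2
  exact h2

/-- Chunk LCB3 (S/M). Sah's lemma. For s in Dec V: φ (s x) and s (φ x) are congruent ((s x)^n modulo the maximal ideal), so i = (s φ)⁻¹ (φ s) is in the inertia group; c (φ s) = c (s φ i) = c (s φ) + ac (s φ) (c i) = c (s φ). Hence c φ + ac φ (c s) = c s + ac s (c φ).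
φ - 1 is injective on the finite group Tor (cj π) (gi_gen), so c φ = ac φ X - X. The actions of s and φ on Tor (cj π) commute (exists_chi: both act through O). So (φ - 1) (c s - (ac s X - X)) = 0. -/
theorem cob_frob (D : Dat π l) (hc : Dc π V c) (h : ∀ s, Inert V s → c s = 0) {φ : Ω ≃ₐ[F] Ω}
    (hφ : Dec V φ) {n : ℕ} (hn : ∀ x ∈ V, V.valuation (φ x - x ^ n) < 1)
    (h0 : ∀ T ∈ Tor (cj π) Ω, ac W27 φ T = T → T = 0) :
    ∃ X ∈ Tor (cj π) Ω, ∀ s, Dec V s → c s = ac W27 s X - X := by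
  have hpr := CO2_cj_prime D.pr
  have hprim := CO2_cj_prim D.prim
  have hcard := (gi_gen (Ω := Ω) (cj π) hpr hprim).1
  have hN0 : Nm (cj π) ≠ 0 := fun h => hpr.ne_zero (Nm_eq_zero.1 h)
  have hfin : Finite (Tor (cj π) Ω) := Nat.finite_of_card_ne_zero (by rw [hcard]; exact hN0)
  let f : Tor (cj π) Ω → Tor (cj π) Ω := fun T => ⟨ac W27 φ T.1 - T.1, sub_mem (ac_mem φ T.2) T.2⟩
  have hinj : Function.Injective f := by
    intro T T' hTT
    have h1 : ac W27 φ T.1 - T.1 = ac W27 φ T'.1 - T'.1 := congrArg Subtype.val hTT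
    have h2 : ac W27 φ (T.1 - T'.1) = T.1 - T'.1 := by
      rw [map_sub, sub_eq_sub_iff_sub_eq_sub.1 h1]
    exact Subtype.ext (sub_eq_zero.1 (h0 _ (sub_mem T.2 T'.2) h2))
  obtain ⟨⟨X, hX⟩, hfX⟩ := Finite.surjective_of_injective hinj ⟨c φ, hc.val φ hφ⟩
  have hφX : ac W27 φ X - X = c φ := congrArg Subtype.val hfX
  obtain ⟨χ, hχ, -⟩ := exists_chi (Ω := Ω) (cj π) hpr hprim
  have hact : ∀ s : Ω ≃ₐ[F] Ω, ∃ a : O, ∀ T ∈ Tor (cj π) Ω, ac W27 s T = H28G.act a T := by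
    intro s
    obtain ⟨a, ha⟩ := Ideal.Quotient.mk_surjective (χ s : O ⧸ Ideal.span {cj π})
    exact ⟨a, hχ s a ha⟩
  refine ⟨X, hX, fun s hs => ?_⟩
  have hi : Inert V ((s * φ)⁻¹ * (φ * s)) := by
    intro x hx
    have hd : Dec V (s * φ)⁻¹ := Dec.inv' (Dec.mul' hs hφ)
    have e1 : ((s * φ)⁻¹ * (φ * s)) x - x = (s * φ)⁻¹ (φ (s x) - s (φ x)) := by
      rw [map_sub]
      have e2 : (s * φ)⁻¹ (s (φ x)) = x := AlgEquiv.symm_apply_apply (s * φ) x
      rw [e2]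
      rfl
    rw [e1, Dec.lt_one hd]
    have hsx : s x ∈ V := (hs x).2 hx
    have e3 : φ (s x) - s (φ x) = (φ (s x) - s x ^ n) - s (φ x - x ^ n) := by
      rw [map_sub, map_pow]
      ring
    rw [e3]
    exact V.valuation.map_sub_lt (hn _ hsx) ((Dec.lt_one hs _).2 (hn x hx))
  have h1 : c (φ * s) = c (s * φ) := by
    have e : φ * s = (s * φ) * ((s * φ)⁻¹ * (φ * s)) := by group
    rw [e, hc.mul _ (Dec.mul' hs hφ) _ (Inert.dec hi), h _ hi, map_zero, add_zero]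
  rw [hc.mul φ hφ s hs, hc.mul s hs φ hφ, ← hφX] at h1
  obtain ⟨a, ha⟩ := hact s
  obtain ⟨b, hb⟩ := hact φ
  have hcomm : ac W27 s (ac W27 φ X) = ac W27 φ (ac W27 s X) := by
    rw [ha _ (ac_mem φ hX), hb _ hX, ha _ hX, ac_act, hb _ hX]
  have h2 : ac W27 φ (c s - (ac W27 s X - X)) = c s - (ac W27 s X - X) := by
    rw [map_sub, map_sub]
    rw [map_sub, hcomm] at h1
    have h3 : ac W27 φ (c s) = c s + (ac W27 φ (ac W27 s X) - ac W27 s X) - (ac W27 φ X - X) := by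
      rw [← h1]
      abel
    rw [h3]
    abel
  exact sub_eq_zero.1 (h0 _ (sub_mem (hc.val s hs) (sub_mem (ac_mem s hX) hX)) h2)

/-- Chunk LCB4 (S). Elements of JV fix the l-th roots of unity: gi_gen: X ≠ 0 in Tor (cj π), he.nondeg: T with e X T ≠ 1, a primitive l-th root of unity (l prime), s (e X T) = e (ac s X) (ac s T) = e X T. -/
theorem JV.mu (D : Dat π l) {e : P27 Ω → P27 Ω → Ω} (he : Pairing π l e) {s : Ω ≃ₐ[F] Ω} (hs : JV π V s)
    (ζ : Ω) (hζ : ζ ^ l = 1) : s ζ = ζ := by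
  have hpr := CO2_cj_prime D.pr
  obtain ⟨-, X, hX, -, hX0⟩ := gi_gen (Ω := Ω) (cj π) hpr (CO2_cj_prim D.prim)
  have hXne : X ≠ 0 := by
    intro h0
    apply hpr.not_isUnit
    rw [isUnit_iff_dvd_one]
    apply (hX0 1).1
    rw [h0, map_zero]
  have hex : ∃ T ∈ Tor π Ω, e X T ≠ 1 := by
    by_contra hcon
    push Not at hcon
    exact hXne (he.nondeg X hX hcon)
  obtain ⟨T, hT, hne1⟩ := hex
  have hroot := he.root X hX T hT
  have hprim : IsPrimitiveRoot (e X T) l := by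
    have h1 : Fact l.Prime := ⟨D.hl⟩
    rw [← orderOf_eq_prime hroot hne1]
    exact IsPrimitiveRoot.orderOf _
  have hfix : s (e X T) = e X T := by
    rw [he.act s _ hX T hT, hs.2.2 _ hX, hs.2.1 T hT]
  have hl0 : NeZero l := ⟨D.hl.ne_zero⟩
  obtain ⟨i, -, hi⟩ := hprim.eq_pow_of_pow_eq_one hζ
  rw [← hi, map_pow, hfix]

/-- From cocycles and Kummer generators over a base field B to the local notions. -/
theorem dc_of_cc {B : IntermediateField F Ω} (hc : Cc π B c) (hB : ∀ s, Dec V s → s ∈ B.fixingSubgroup) :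
    Dc π V c :=
  ⟨fun s hs t ht => hc.mul s (hB s hs) t (hB t ht), fun s hs => hc.val s (hB s hs)⟩

theorem ks_of_kum {B L : IntermediateField F Ω} (hL : IsTB π B L)
    (hB : ∀ s, Dec V s → s ∈ B.fixingSubgroup) {e : P27 Ω → P27 Ω → Ω} {y : P27 Ω → Ω}
    (hy : ∀ T ∈ Tor π Ω, Kum L e c T (y T)) : KS π V e c y :=
  ⟨fun T hT => (hy T hT).1, fun T hT s hs => (hy T hT).2 s ((hL.fix s).2 ⟨hB s hs.1, hs.2⟩)⟩

end H13Z
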