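import Mathlib
import Pool.Agent.Lib.H13Z.LG
import Pool.Agent.Lib.H28G.K14
import Pool.Agent.Lib.H13S.LD3
import Pool.Agent.Lib.H13S.LV
import Pool.Agent.Lib.H13S.QV

open NumberField IsDedekindDomain

namespace H13Z

open H55P H28G H55B H13S H55R H99B

variable {Ω : Type} [Field Ω] [DecidableEq Ω] [Algebra F Ω] [IsAlgClosure F Ω]

variable {π : O} {l : ℕ} {V : ValuationSubring Ω} {t : Ω} {e0 : ℕ}

/-- Chunk LR1 (S/M). Basic facts. Dichotomy (H13S.dichotomy): V l = V π: if cj π = π then l = π u with u a unit (Nm l = l^2; H13S.ld3_l); otherwise l is a unit times π cj π and V (cj π) = 1 (LV.lean: lv_coprime, lv_unit). kr_tor_ram: V t^(q-1) = V π. -/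
theorem RV.val_l (R : RV π l V t e0) : V.valuation (l : Ω) = vo V π ∧ V.valuation t ^ (Nm π - 1) = vo V π ∧
    V.valuation t < 1 ∧ V.valuation t ≠ 0 ∧ V.valuation t ^ (e0 * (l - 1)) = V.valuation (l : Ω) ∧
    (Nm π = l ∧ e0 = 1 ∨ Nm π = l ^ 2 ∧ e0 = l + 1 ∧ cj π = π) := by
  have D := R.D
  have hV := R.above
  have he := R.e0
  obtain ⟨T, hT, hT0, ht⟩ := R.pt
  obtain ⟨hK, hv⟩ := kr_tor_ram π D.pr D.prim V hV hT hT0
  rw [← ht] at hv
  have h1 : V.valuation t < 1 := by
    rw [ht]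
    exact kr_tt_lt V hK
  have h5 := D.five
  have hNmul : (((Nm π : ℕ) : O)) = π * cj π := (mul_cj π).symm
  have hlo : V.valuation (l : Ω) = vo V (l : O) := by
    unfold vo
    simp
  have hq : 2 ≤ Nm π := by
    rcases dichotomy π l D.hl D.five D.pr D.prim D.dvd with ⟨-, h⟩ | ⟨-, h, -⟩
    · rw [h]
      nlinarith
    · omega
  have h2 : V.valuation t ≠ 0 := by
    intro h
    rw [h, zero_pow (by omega)] at hv
    exact qv_pos V D.pr.ne_zero hv.symm
  have hl : V.valuation (l : Ω) = vo V π := by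
    rcases dichotomy π l D.hl D.five D.pr D.prim D.dvd with ⟨-, h⟩ | ⟨hn, h, -⟩
    · exact ld3_l D.hl D.dvd h V
    · rw [hlo]
      have e1 : (l : O) = π * cj π := by
        rw [← hNmul, h]
      rw [e1, qv_mul, qv_unit V D.pr hV hn, mul_one]
  refine ⟨hl, hv, h1, h2, ?_, ?_⟩
  · rw [he, hl]
    exact hv
  · rcases dichotomy π l D.hl D.five D.pr D.prim D.dvd with ⟨hc, h⟩ | ⟨-, h, -⟩
    · right
      refine ⟨h, ?_, hc⟩
      rw [h] at he
      obtain ⟨m, rfl⟩ : ∃ m, l = m + 1 := ⟨l - 1, by omega⟩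
      have e2 : (m + 1) ^ 2 - 1 = (m + 1 + 1) * (m + 1 - 1) := by
        have : (m + 1) ^ 2 = (m + 1 + 1) * m + 1 := by ring
        rw [this]
        simp
      rw [e2] at he
      exact Nat.eq_of_mul_eq_mul_right (by omega) he
    · left
      refine ⟨h, ?_⟩
      rw [h] at he
      have : e0 * (l - 1) = 1 * (l - 1) := by omega
      exact Nat.eq_of_mul_eq_mul_right (by omega) this

/-- H13S.qv_unit and π = a unit or: π divides a iff the value is < 1. -/
theorem RV.vo_lt (R : RV π l V t e0) (a : O) : vo V a < 1 ↔ π ∣ a := by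
  constructor
  · intro h
    by_contra hn
    exact absurd (qv_unit V R.D.pr R.above hn) h.ne
  · rintro ⟨b, rfl⟩
    rw [qv_mul]
    exact (mul_le_of_le_one_right' (qv_O V b)).trans_lt R.above

end H13Z
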