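import Mathlib
import Pool.Agent.Lib.H13Z.LR1
import Pool.Agent.Lib.H28G.K1
import Pool.Agent.Lib.H28G.K3
import Pool.Agent.Lib.H28G.K7
import Pool.Agent.Lib.H13S.IN2
import Pool.Agent.Lib.H13S.IN4
import Pool.Agent.Lib.H13S.VW

open NumberField IsDedekindDomain

namespace H13Z

open H55P H28G H55B H13S H55R H99B

variable {Ω : Type} [Field Ω] [DecidableEq Ω] [Algebra F Ω] [IsAlgClosure F Ω]

variable {π : O} {l : ℕ} {V : ValuationSubring Ω} {t : Ω} {e0 : ℕ}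

omit [IsAlgClosure F Ω] in
theorem lr2_mem {π : O} {R : P27 Ω} (hR : R ∈ Tor π Ω) :
    xc R ∈ TF F Ω π ∧ yc R ∈ TF F Ω π :=
  ⟨IntermediateField.subset_adjoin _ _ ⟨R, hR, Or.inl rfl⟩,
    IntermediateField.subset_adjoin _ _ ⟨R, hR, Or.inr rfl⟩⟩

omit [IsAlgClosure F Ω] in
theorem lr2_fix {π : O} (s : Ω ≃ₐ[F] Ω) (hs : s ∈ (TF F Ω π).fixingSubgroup) :
    ∀ T ∈ Tor π Ω, ac W27 s T = T := by
  intro T hT
  rw [ac_eq]
  by_cases h0 : T = 0
  · rw [h0, map_zero]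
  · refine pt_ext (mp_ne _ h0) h0 ?_ ?_
    · rw [xc_mp]
      exact (IntermediateField.mem_fixingSubgroup_iff _ _).1 hs _ (lr2_mem hT).1
    · rw [yc_mp]
      exact (IntermediateField.mem_fixingSubgroup_iff _ _).1 hs _ (lr2_mem hT).2

omit [IsAlgClosure F Ω] in
theorem lr2_lift {π : O} [DecidableEq (TF F Ω π)] {R : P27 Ω} (hR : R ∈ Tor π Ω) :
    ∃ R' ∈ Tor π (TF F Ω π), mp (TF F Ω π).val R' = R := by
  by_cases h0 : R = 0
  · exact ⟨0, zero_mem _, by rw [map_zero, h0]⟩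
  · have he : (⟨yc R, (lr2_mem hR).2⟩ : TF F Ω π) ^ 2 + ⟨yc R, (lr2_mem hR).2⟩ =
        (⟨xc R, (lr2_mem hR).1⟩ : TF F Ω π) ^ 3 := Subtype.ext (eqn R)
    have h1 : mp (TF F Ω π).val (pt _ _ he) = R :=
      pt_ext (mp_ne _ (pt_ne _ _ _)) h0 (by rw [xc_mp]; rfl) (by rw [yc_mp]; rfl)
    refine ⟨pt _ _ he, ?_, h1⟩
    rw [← mp_mem_Tor (TF F Ω π).val, h1]
    exact hR

/-- The prime of the torsion field below V. -/
theorem lr2_base (R : RV π l V t e0) : ∃ (_ : NumberField (TF F Ω π)) (w : Pl (TF F Ω π))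
    (t' : TF F Ω π), Abv (TF F Ω π) V w ∧ (t' : Ω) = t ∧
      w.valuation (TF F Ω π) t' = WithZero.exp (-1 : ℤ) ∧
      ∀ a : 𝓞 (TF F Ω π), ∃ b : O, a - algebraMap O (𝓞 (TF F Ω π)) b ∈ w.asIdeal := by
  classical
  have hp := R.D.pr
  have halg : IsAlgClosed Ω := IsAlgClosure.isAlgClosed F
  have hint : Algebra.IsAlgebraic F Ω := IsAlgClosure.isAlgebraic
  have hfin : FiniteDimensional F (TF F Ω π) := TF_fin F Ω π hp.ne_zero
  have hnf : NumberField (TF F Ω π) := NumberField.of_module_finite F _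
  have hL : TFld F (TF F Ω π) π := TF_TFld F Ω π hp.ne_zero
  have hgal : IsGalois F (TF F Ω π) := hL.gal
  have hV := R.above
  have hpi : V.valuation (((algebraMap F (TF F Ω π) (π : F) : TF F Ω π)) : Ω) < 1 := hV
  have hpi0 : (algebraMap F (TF F Ω π) (π : F)) ≠ 0 := by
    rw [Ne, map_eq_zero_iff _ (algebraMap F (TF F Ω π)).injective]
    intro h
    apply hp.ne_zero
    exact RingOfIntegers.coe_injective (h.trans (map_zero _).symm)
  obtain ⟨w, hw⟩ := exists_below (TF F Ω π) V ⟨(algebraMap F (TF F Ω π) (π : F))⁻¹, by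
    intro hin
    rw [← V.valuation_le_one_iff] at hin
    have e : (((algebraMap F (TF F Ω π) (π : F))⁻¹ : TF F Ω π) : Ω) =
      (((algebraMap F (TF F Ω π) (π : F) : TF F Ω π)) : Ω)⁻¹ := rfl
    rw [e, map_inv₀] at hin
    have h0 : 0 < V.valuation (((algebraMap F (TF F Ω π) (π : F) : TF F Ω π)) : Ω) :=
      zero_lt_iff.2 ((map_ne_zero _).2 fun h => hpi0 (Subtype.ext h))
    rw [inv_le_one₀ h0] at hin
    exact absurd hin (not_le.2 hpi)⟩
  have hwpi := (hw.lt _).1 hpi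
  have hmem : algebraMap O (𝓞 (TF F Ω π)) π ∈ w.asIdeal := by
    have h1 : algebraMap F (TF F Ω π) (π : F) =
        algebraMap (𝓞 (TF F Ω π)) (TF F Ω π) (algebraMap O (𝓞 (TF F Ω π)) π) := rfl
    rw [h1, HeightOneSpectrum.valuation_lt_one_iff_mem] at hwpi
    exact hwpi
  obtain ⟨v, hv, hwv⟩ := below hp w hmem
  have tr := tot_ram hp R.D.prim hL v (val_gen v hv)
  obtain ⟨T, hT, hT0, hTt⟩ := R.pt
  obtain ⟨T', hT', hTT⟩ := lr2_lift hT
  have hT'0 : T' ≠ 0 := by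
    rintro rfl
    apply hT0
    rw [← hTT, map_zero]
  refine ⟨hnf, w, tt T', hw, ?_, (tr.val w hwv T' hT' hT'0).2, ?_⟩
  · rw [hTt, ← hTT, tt_mp]
    rfl
  · intro a
    have hmax : v.asIdeal.IsMaximal := v.isMaximal
    let _ : Field (O ⧸ v.asIdeal) := Ideal.Quotient.field v.asIdeal
    obtain ⟨r, hr, hr2⟩ := K7_res v w hwv tr.fs (k := O ⧸ v.asIdeal) (Ideal.Quotient.mk v.asIdeal)
      (fun x => Ideal.Quotient.eq_zero_iff_mem)
    obtain ⟨b, hb⟩ := Ideal.Quotient.mk_surjective (r a)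
    refine ⟨b, ?_⟩
    rw [← hr, map_sub, hr2, hb, sub_self]

/-- Chunk LR2 (M). Values and residues in the henselization. N = TF F Ω π: TF_TFld, tot_ram at v = span {π} (val_gen), exists_below: w below V (tt T not in ... : V t < 1, so 1/t not in V), w.under = v. IsTF π N: s in N.fixingSubgroup iff s fixes Tor π (adjoin of the coordinates; see H99B/Geom or PS for an existing lemma),
so s in N.fixingSubgroup with Inert V s (Dec V s) is in DT. value_fixed for K = N: V x = V a, a in N; w (tt T) = exp(-1) (TotRam.val), w a = exp(-n) = w (t^n), Abv.le. -/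
theorem RV.values (R : RV π l V t e0) {x : Ω} (hx : Hx π V x) (h0 : x ≠ 0) :
    ∃ n : ℤ, V.valuation x = V.valuation t ^ n := by
  obtain ⟨hnf, w, t', hw, ht, hwt, -⟩ := lr2_base R
  obtain ⟨a, ha0, ha⟩ := value_fixed (TF F Ω π) V x h0 fun s hs hi =>
    hx s ⟨fun y => qv_dec V s hi y, lr2_fix s hs⟩
  have ht0 : t' ≠ 0 := by
    rintro rfl
    rw [map_zero] at hwt
    exact WithZero.exp_ne_zero hwt.symm
  have hwa : w.valuation (TF F Ω π) a ≠ 0 := (map_ne_zero _).2 ha0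
  obtain ⟨m, hm⟩ : ∃ m : ℤ, w.valuation (TF F Ω π) a = WithZero.exp m :=
    ⟨WithZero.log (w.valuation (TF F Ω π) a), (WithZero.exp_log hwa).symm⟩
  have h1 : w.valuation (TF F Ω π) a = w.valuation (TF F Ω π) (t' ^ (-m)) := by
    rw [hm, map_zpow₀, hwt, ← WithZero.exp_zsmul]
    congr 1
    simp
  have h2 : V.valuation (a : Ω) = V.valuation ((t' ^ (-m) : TF F Ω π) : Ω) :=
    le_antisymm ((hw.le _ _).2 h1.le) ((hw.le _ _).2 h1.ge)
  refine ⟨-m, ?_⟩
  rw [ha, h2]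
  have e : ((t' ^ (-m) : TF F Ω π) : Ω) = (t' : Ω) ^ (-m) := rfl
  rw [e, map_zpow₀, ht]

/-- So the value of x is at most V t^(i+1) if it is less than V t^i. -/
theorem RV.step (R : RV π l V t e0) {x : Ω} (hx : Hx π V x) {i : ℕ}
    (h : V.valuation x < V.valuation t ^ i) : V.valuation x ≤ V.valuation t ^ (i + 1) := by
  by_cases h0 : x = 0
  · rw [h0, map_zero]
    exact zero_le
  obtain ⟨n, hn⟩ := R.values hx h0
  obtain ⟨-, -, ht1, ht0, -, -⟩ := R.val_l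
  have htp : 0 < V.valuation t := zero_lt_iff.2 ht0
  rw [hn] at h ⊢
  have h2 : (i : ℤ) < n := by
    by_contra hc
    rw [not_lt] at hc
    have h3 : V.valuation t ^ (i : ℤ) ≤ V.valuation t ^ n :=
      zpow_le_zpow_right_of_le_one₀ htp ht1.le hc
    rw [zpow_natCast] at h3
    exact absurd h (not_lt.2 h3)
  have h3 : V.valuation t ^ n ≤ V.valuation t ^ ((i + 1 : ℕ) : ℤ) :=
    zpow_le_zpow_right_of_le_one₀ htp ht1.le (by push_cast; omega)
  rw [zpow_natCast] at h3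
  exact h3

/-- residue_fixed for K = N (V ≠ ⊤): a in 𝓞 N with V (x - a) < 1; the residue field of w is the one of v (TotRam.fs = 1; K7_res: r : 𝓞 N → k compatible with q : O → k surjective with kernel π): b in O with r b = r a, a - b in w, V (a - b) < 1. -/
theorem RV.residue (R : RV π l V t e0) {x : Ω} (hx : Hx π V x) (h1 : V.valuation x ≤ 1) :
    ∃ a : O, V.valuation (x - algebraMap F Ω (a : F)) < 1 := by
  obtain ⟨hnf, w, t', hw, ht, hwt, hres⟩ := lr2_base R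
  obtain ⟨-, -, ht1, ht0, -, -⟩ := R.val_l
  have htp : 0 < V.valuation t := zero_lt_iff.2 ht0
  have hV : V ≠ ⊤ := by
    intro h
    have h2 : t⁻¹ ∈ V := by rw [h]; trivial
    rw [← V.valuation_le_one_iff, map_inv₀, inv_le_one₀ htp] at h2
    exact absurd h2 (not_le.2 ht1)
  obtain ⟨a, ha⟩ := residue_fixed (TF F Ω π) V hV x ((V.valuation_le_one_iff _).1 h1)
    fun s hs hd => hx s ⟨hd, lr2_fix s hs⟩
  obtain ⟨b, hb⟩ := hres a
  refine ⟨b, ?_⟩
  have h3 : w.valuation (TF F Ω π) (algebraMap (𝓞 (TF F Ω π)) (TF F Ω π)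
      (a - algebraMap O (𝓞 (TF F Ω π)) b)) < 1 :=
    (HeightOneSpectrum.valuation_lt_one_iff_mem w _).2 hb
  have h4 := (hw.lt _).2 h3
  have e : (((algebraMap (𝓞 (TF F Ω π)) (TF F Ω π)
      (a - algebraMap O (𝓞 (TF F Ω π)) b) : TF F Ω π)) : Ω) =
      ((a : TF F Ω π) : Ω) - algebraMap F Ω (b : F) := rfl
  rw [e] at h4
  have e2 : x - algebraMap F Ω (b : F) =
      (x - ((a : TF F Ω π) : Ω)) + (((a : TF F Ω π) : Ω) - algebraMap F Ω (b : F)) := by ring
  rw [e2]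
  exact V.valuation.map_add_lt ha h4

end H13Z
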