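import Mathlib
import Pool.Agent.Lib.H13Z.LR2
import Pool.Agent.Lib.H13S.IN1
import Pool.Agent.Lib.H99B.Geom

open NumberField IsDedekindDomain

namespace H13Z

open H55P H28G H55B H13S H55R H99B

variable {Ω : Type} [Field Ω] [DecidableEq Ω] [Algebra F Ω] [IsAlgClosure F Ω]

variable {π : O} {l : ℕ} {V : ValuationSubring Ω} {t : Ω} {e0 : ℕ}

theorem lr3_Hx {x : Ω} (hx : x ∈ TF F Ω π) : Hx π V x := by
  intro s hs
  exact (IntermediateField.mem_fixingSubgroup_iff _ _).1 ((H99B.tf_fix s).2 hs.2) x hx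

/-- Chunk LR3 (M). The inertia group acts through all of (O/π)^*. TotRam.orb: σ in Gal(N/F) with sp σ T = act a T (T ≠ 0 a point of Tor π N; act a T ≠ 0), then sp σ R = act a R for all R (R = act b T: gi_gen). Extend σ to s in Gal(Ω/F). For x in N, x in V: b in O with V (x - b) < 1 (RV.residue: elements of N are in Hx), s preserves V on N
(w is the only prime of N above v: TotRam.one, or: s x in V iff x in V because Algebra norm ..; dec: choose σ w = w by TotRam.one), so V (s x - x) = V (s (x - b) - (x - b)) < 1. inertia_lift. -/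
theorem RV.exists_inert (R : RV π l V t e0) {a : O} (ha : ¬ π ∣ a) :
    ∃ s : Ω ≃ₐ[F] Ω, Inert V s ∧ ∀ T ∈ Tor π Ω, ac W27 s T = H28G.act a T := by
  classical
  have hp : Prime π := R.D.pr
  have hπ : Prim π := R.D.prim
  have halg : IsAlgClosed Ω := IsAlgClosure.isAlgClosed F
  have hint : Algebra.IsAlgebraic F Ω := IsAlgClosure.isAlgebraic
  have hL : TFld F (TF F Ω π) π := TF_TFld F Ω π hp.ne_zero
  have hfin : FiniteDimensional F (TF F Ω π) := TF_fin F Ω π hp.ne_zero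
  have hnf : NumberField (TF F Ω π) := NumberField.of_module_finite F _
  obtain ⟨T₁, hT₁, hT₁0, ht⟩ := R.pt
  obtain ⟨-, -, ht1, ht0, -⟩ := R.val_l
  have htN : t ∈ TF F Ω π := by
    rw [ht]
    unfold tt
    exact div_mem (neg_mem (tf_mem hT₁).1) (tf_mem hT₁).2
  obtain ⟨w, hw⟩ := H13S.exists_below (TF F Ω π) V ⟨(⟨t, htN⟩ : TF F Ω π)⁻¹, by
    rw [← V.valuation_le_one_iff]
    have e : (((⟨t, htN⟩ : TF F Ω π)⁻¹ : TF F Ω π) : Ω) = t⁻¹ := rfl
    rw [e, map_inv₀, not_le]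
    exact (one_lt_inv₀ (zero_lt_iff.2 ht0)).2 ht1⟩
  have hwπ : algebraMap O (𝓞 (TF F Ω π)) π ∈ w.asIdeal := by
    rw [← HeightOneSpectrum.valuation_lt_one_iff_mem (K := TF F Ω π), ← hw.lt]
    exact R.above
  obtain ⟨v, hv, hwv⟩ := below hp w hwπ
  have TR := tot_ram hp hπ hL v (val_gen v hv)
  obtain ⟨R', hR', hRe⟩ := lift_pt (π := π) hT₁
  have hR0 : R' ≠ 0 := by
    rintro rfl
    rw [map_zero] at hRe
    exact hT₁0 hRe.symm
  have hmem : ∀ S ∈ Tor π (TF F Ω π), act a S ∈ Tor π (TF F Ω π) := fun S hS => by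
    rw [mem_Tor, ← act_mul, mul_comm, act_mul, mem_Tor.1 hS, map_zero]
  have haR : act a R' ≠ 0 := by
    rw [Ne, act_eq_zero hp hR' hR0]
    exact ha
  obtain ⟨σ, hσ⟩ := TR.orb R' hR' hR0 (act a R') (hmem R' hR') haR
  have hσ' : ∀ S ∈ Tor π (TF F Ω π), sp σ S = act a S := by
    intro S hS
    obtain ⟨c, hc⟩ := tor_gen hp hL.full hR' hS hR0
    rw [← hc, sp_act, hσ, ← act_mul, mul_comm, act_mul]
  have hn : Normal F Ω := IsAlgClosure.normal F Ω
  obtain ⟨s, hs⟩ : ∃ s : Ω ≃ₐ[F] Ω, ∀ x : TF F Ω π, s (x : Ω) = (σ x : TF F Ω π) :=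
    ⟨σ.liftNormal Ω, fun x => σ.liftNormal_commutes Ω x⟩
  have hpt : ∀ T ∈ Tor π Ω, ac W27 s T = act a T := by
    intro T hT
    obtain ⟨S, hS, rfl⟩ := lift_pt (π := π) hT
    have h1 : mp (TF F Ω π).val (sp σ S) = ac W27 s (mp (TF F Ω π).val S) := by
      rw [ac_eq]
      by_cases hS0 : S = 0
      · rw [hS0, map_zero, map_zero, map_zero]
      · refine pt_ext (mp_ne _ (sp_ne σ hS0)) (mp_ne _ (mp_ne _ hS0)) ?_ ?_
        · rw [xc_mp, xc_sp, xc_mp, xc_mp]
          exact (hs _).symm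
        · rw [yc_mp, yc_sp, yc_mp, yc_mp]
          exact (hs _).symm
    rw [← h1, hσ' S hS, mp_act]
  have hN : ∀ x ∈ TF F Ω π, s x ∈ TF F Ω π := by
    intro x hx
    rw [hs ⟨x, hx⟩]
    exact (σ _).2
  have hsm : smulP σ w = w := TR.one _ _ ((under_smulP σ w).trans hwv) hwv
  have hval : ∀ x : TF F Ω π, w.valuation (TF F Ω π) (σ x) = w.valuation (TF F Ω π) x := by
    intro x
    have h1 := T3_val σ w (σ x)
    rw [hsm] at h1
    rw [← h1]
    congr 1
    exact σ.symm_apply_apply x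
  have hI : ∀ x ∈ TF F Ω π, x ∈ V → V.valuation (s x - x) < 1 := by
    intro x hx hxV
    obtain ⟨b, hb⟩ := R.residue (lr3_Hx hx) ((V.valuation_le_one_iff _).2 hxV)
    have e : s x - x = s (x - algebraMap F Ω (b : F)) - (x - algebraMap F Ω (b : F)) := by
      rw [map_sub, s.commutes]
      ring
    have hy : x - algebraMap F Ω (b : F) ∈ TF F Ω π :=
      sub_mem hx ((TF F Ω π).algebraMap_mem _)
    rw [e]
    refine lt_of_le_of_lt (V.valuation.map_sub _ _) (max_lt ?_ hb)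
    rw [hs ⟨_, hy⟩, hw.lt, hval, ← hw.lt]
    exact hb
  obtain ⟨s', hs'1, hs'2⟩ := inertia_lift (TF F Ω π) V s hN hI
  refine ⟨s', hs'1, fun T hT => ?_⟩
  rw [← hpt T hT]
  have h1 : s⁻¹ * s' ∈ (TF F Ω π).fixingSubgroup := by
    rw [IntermediateField.mem_fixingSubgroup_iff]
    intro x hx
    show s.symm (s' x) = x
    rw [hs'2 x hx, s.symm_apply_apply]
  have h2 := (tf_fix _).1 h1 T hT
  rw [ac_mul] at h2
  have h3 := congrArg (ac W27 s) h2
  rw [ac_inv] at h3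
  exact h3

/-- s t = a t modulo V t^2 if s acts as act a on Tor π (kr_tt_act, tt_mp). -/
theorem RV.act_t (R : RV π l V t e0) {a : O} {s : Ω ≃ₐ[F] Ω}
    (hs : ∀ T ∈ Tor π Ω, ac W27 s T = H28G.act a T) :
    V.valuation (s t - algebraMap F Ω (a : F) * t) ≤ V.valuation t ^ 2 := by
  obtain ⟨T₁, hT₁, hT₁0, rfl⟩ := R.pt
  have hK := (kr_tor_ram π R.D.pr R.D.prim V R.above hT₁ hT₁0).1
  have h1 : s (tt T₁) = tt (act a T₁) := by
    rw [← hs T₁ hT₁, ac_eq, tt_mp]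
    rfl
  rw [h1]
  exact kr_tt_act V a hK

end H13Z
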