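import Mathlib
import Pool.Agent.Lib.H13Z.Defs
import Pool.Agent.Lib.H13S.DC

open NumberField IsDedekindDomain

namespace H13Z

open H55P H28G H55B H13S

variable {Ω : Type} [Field Ω] [DecidableEq Ω] [Algebra F Ω] [IsAlgClosure F Ω]

theorem cz2_prime_cj {x : O} (h : Prime x) : Prime (cj x) := (MulEquiv.prime_iff cj).2 h

/-- Chunk CZ2 (M). The pairing is perfect. Let A be the group Hom(Multiplicative (Tor π), Ωˣ) (or into the l-th roots of unity); Tor π is a finite group of exponent l and Ω has enough roots of unity, so card A = card Tor π = Nm π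
(CommGroup.card_monoidHom_of_hasEnoughRootsOfUnity or the like; HasEnoughRootsOfUnity for an algebraically closed field of characteristic 0). X -> e X · is an injective (he.nondeg, he.add_left) map from Tor (cj π), which has Nm (cj π) = Nm π elements (gi_gen), to A, hence surjective. -/
theorem pair_surj {π : O} {l : ℕ} (D : Dat π l) {e : P27 Ω → P27 Ω → Ω} (he : Pairing π l e)
    (κ : P27 Ω → Ω) (hκ : ∀ T ∈ Tor π Ω, κ T ^ l = 1)
    (hadd : ∀ T ∈ Tor π Ω, ∀ T' ∈ Tor π Ω, κ (T + T') = κ T * κ T') :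
    ∃ X ∈ Tor (cj π) Ω, ∀ T ∈ Tor π Ω, e X T = κ T := by
  classical
  have hchar : CharZero Ω := charZero_of_injective_algebraMap (algebraMap F Ω).injective
  have : IsAlgClosed Ω := IsAlgClosure.isAlgClosed F
  have hl0 : l ≠ 0 := D.hl.ne_zero
  have hNc : Nm (cj π) = Nm π := dc_Nm_cj π
  have hπc : Prime (cj π) := cz2_prime_cj D.pr
  obtain ⟨hc1, -⟩ := gi_gen (Ω := Ω) π D.pr D.prim
  obtain ⟨hc2, -⟩ := gi_gen (Ω := Ω) (cj π) hπc (dc_prim_cj D.prim)
  have hN0 : Nm π ≠ 0 := fun h => D.pr.ne_zero (Nm_eq_zero.1 h)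
  have hf1 : Finite (Tor π Ω) := Nat.finite_of_card_ne_zero (by rw [hc1]; exact hN0)
  have hf2 : Finite (Tor (cj π) Ω) := Nat.finite_of_card_ne_zero (by rw [hc2, hNc]; exact hN0)
  -- the characters
  let G := Multiplicative (Tor π Ω)
  have : Finite G := hf1
  have hex : NeZero (Monoid.exponent G) := ⟨Monoid.exponent_ne_zero_of_finite⟩
  have : NeZero ((Monoid.exponent G : ℕ) : Ω) := ⟨Nat.cast_ne_zero.2 hex.out⟩
  have hcard : Nat.card (G →* Ωˣ) = Nm π := by
    rw [CommGroup.card_monoidHom_of_hasEnoughRootsOfUnity]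
    exact hc1
  have : Finite (G →* Ωˣ) := Nat.finite_of_card_ne_zero (by rw [hcard]; exact hN0)
  -- the character of a function
  have hunit : ∀ f : P27 Ω → Ω, (∀ T ∈ Tor π Ω, f T ^ l = 1) →
      (∀ T ∈ Tor π Ω, ∀ T' ∈ Tor π Ω, f (T + T') = f T * f T') →
      ∃ χ : G →* Ωˣ, ∀ T : Tor π Ω, (χ (Multiplicative.ofAdd T) : Ω) = f T := by
    intro f hf hm
    have hne : ∀ T : Tor π Ω, f T ≠ 0 := by
      intro T h
      have h1 := hf T T.2
      rw [h, zero_pow hl0] at h1
      exact zero_ne_one h1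
    refine ⟨MonoidHom.mk' (fun T => Units.mk0 (f (Multiplicative.toAdd T : Tor π Ω)) (hne _)) ?_, ?_⟩
    · intro a b
      apply Units.ext
      rw [Units.val_mul, Units.val_mk0, Units.val_mk0, Units.val_mk0]
      exact hm _ (Multiplicative.toAdd a : Tor π Ω).2 _ (Multiplicative.toAdd b : Tor π Ω).2
    · intro T
      rfl
  choose ψ hψ using fun X : Tor (cj π) Ω => hunit (e X) (fun T hT => he.root X X.2 T hT)
    (fun T hT T' hT' => he.add_right X X.2 T hT T' hT')
  have hinj : Function.Injective ψ := by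
    intro X Y hXY
    have h1 : ∀ T ∈ Tor π Ω, e X T = e Y T := by
      intro T hT
      rw [← hψ X ⟨T, hT⟩, ← hψ Y ⟨T, hT⟩, hXY]
    have h2 : (X - Y : P27 Ω) = 0 := by
      refine he.nondeg _ (AddSubgroup.sub_mem _ X.2 Y.2) fun T hT => ?_
      have h3 := he.add_left (X - Y) (AddSubgroup.sub_mem _ X.2 Y.2) Y Y.2 T hT
      rw [sub_add_cancel, h1 T hT] at h3
      have h4 : e (Y : P27 Ω) T ≠ 0 := by
        intro h
        have h5 := he.root Y Y.2 T hT
        rw [h, zero_pow hl0] at h5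
        exact zero_ne_one h5
      exact (mul_eq_right₀ h4).1 h3.symm
    exact Subtype.ext (sub_eq_zero.1 h2)
  have hbij : Function.Bijective ψ :=
    (Nat.bijective_iff_injective_and_card ψ).2 ⟨hinj, by rw [hcard, hc2, hNc]⟩
  obtain ⟨χ, hχ⟩ := hunit κ hκ hadd
  obtain ⟨X, hX⟩ := hbij.2 χ
  refine ⟨X, X.2, fun T hT => ?_⟩
  rw [← hψ X ⟨T, hT⟩, ← hχ ⟨T, hT⟩, hX]

end H13Z
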