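import Mathlib
import Pool.Agent.Lib.H13Z.Defs
import Pool.Agent.Lib.H13Z.CZ2
import Pool.Agent.Lib.H13S.LD3
import Pool.Agent.Lib.H13S.KU2

open NumberField IsDedekindDomain

namespace H13Z

open H55P H28G H55B H13S

variable {Ω : Type} [Field Ω] [DecidableEq Ω] [Algebra F Ω] [IsAlgClosure F Ω]

omit [IsAlgClosure F Ω] in
theorem cz3_ne {π : O} {l : ℕ} (hl : l ≠ 0) {e : P27 Ω → P27 Ω → Ω} (he : Pairing π l e) {X T : P27 Ω}
    (hX : X ∈ Tor (cj π) Ω) (hT : T ∈ Tor π Ω) : e X T ≠ 0 := by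
  intro h
  have h1 := he.root X hX T hT
  rw [h, zero_pow hl] at h1
  exact zero_ne_one h1

omit [IsAlgClosure F Ω] in
theorem cz3_uniq {π : O} {l : ℕ} (hl : l ≠ 0) {e : P27 Ω → P27 Ω → Ω} (he : Pairing π l e) {X Y : P27 Ω}
    (hX : X ∈ Tor (cj π) Ω) (hY : Y ∈ Tor (cj π) Ω) (h : ∀ T ∈ Tor π Ω, e X T = e Y T) : X = Y := by
  have h1 : X - Y = 0 := by
    refine he.nondeg _ (sub_mem hX hY) fun T hT => ?_
    have h2 := he.add_left (X - Y) (sub_mem hX hY) Y hY T hT
    rw [sub_add_cancel, h T hT] at h2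
    exact (mul_eq_right₀ (cz3_ne hl he hY hT)).1 h2.symm
  exact sub_eq_zero.1 h1

/-- Either all l-th roots of unity are in L or only the trivial one. -/
theorem cz3_dich {l : ℕ} (hl : l.Prime) (L : IntermediateField F Ω) :
    (∀ x : Ω, x ^ l = 1 → x ∈ L) ∨ ∀ x : Ω, x ^ l = 1 → x ∈ L → x = 1 := by
  by_cases h : ∃ x : Ω, x ^ l = 1 ∧ x ∈ L ∧ x ≠ 1
  · left
    have hlf : Fact l.Prime := ⟨hl⟩
    have hln : NeZero l := ⟨hl.ne_zero⟩
    obtain ⟨x, hx, hxL, hx1⟩ := h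
    intro t ht
    have hp : IsPrimitiveRoot x l := by
      have h1 : orderOf x = l := orderOf_eq_prime hx hx1
      rw [← h1]
      exact IsPrimitiveRoot.orderOf x
    obtain ⟨i, -, hi⟩ := hp.eq_pow_of_pow_eq_one ht
    rw [← hi]
    exact pow_mem hxL i
  · right
    intro x hx hxL
    by_contra h1
    exact h ⟨x, hx, hxL, h1⟩

/-- Chunk CZ3 (M/L). The Kummer cocycle on the group of L = F(E[pi]). -/
theorem c0_exists {π : O} {l : ℕ} (D : Dat π l) {e : P27 Ω → P27 Ω → Ω} (he : Pairing π l e)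
    {L : IntermediateField F Ω} (hL : IsTF π L) (m : P27 Ω → (L)ˣ)
    (hact : ∀ σ : Ω ≃ₐ[F] Ω, ∀ T ∈ Tor π Ω, ∃ z : (L)ˣ,
      ((m (ac W27 σ T) : L) : Ω) = σ ((m T : L) : Ω) * ((z : L) : Ω) ^ l)
    (y : P27 Ω → Ω) (hy : ∀ T ∈ Tor π Ω, y T ≠ 0 ∧ ∃ z : (L)ˣ, y T ^ l = ((m T * z ^ l : (L)ˣ) : L))
    (hy2 : ∀ T ∈ Tor π Ω, ∀ T' ∈ Tor π Ω, ∃ z : (L)ˣ, y (T + T') = y T * y T' * ((z : L) : Ω)) :
    ∃ c₀ : (Ω ≃ₐ[F] Ω) → P27 Ω,
      (∀ s ∈ L.fixingSubgroup, c₀ s ∈ Tor (cj π) Ω ∧ ∀ T ∈ Tor π Ω, s (y T) = e (c₀ s) T * y T) ∧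
      (∀ s ∈ L.fixingSubgroup, ∀ t ∈ L.fixingSubgroup, c₀ (s * t) = c₀ s + ac W27 s (c₀ t)) ∧
      (∃ N : IntermediateField F Ω, FiniteDimensional F N ∧
        ∀ s ∈ L.fixingSubgroup, s ∈ N.fixingSubgroup → c₀ s = 0) ∧
      ∀ g : Ω ≃ₐ[F] Ω, ∃ X ∈ Tor (cj π) Ω, ∀ s ∈ L.fixingSubgroup,
        ac W27 g (c₀ (g⁻¹ * s * g)) = c₀ s + ac W27 s X - X := by
  classical
  have hl0 : l ≠ 0 := D.hl.ne_zero
  have hfixL : ∀ s ∈ L.fixingSubgroup, ∀ x : Ω, x ∈ L → s x = x := fun s hs x hx =>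
    (IntermediateField.mem_fixingSubgroup_iff L _).1 hs x hx
  have hTfix : ∀ s ∈ L.fixingSubgroup, ∀ R ∈ Tor π Ω, ac W27 s R = R := fun s hs => (hL.2 s).1 hs
  have hun : ∀ z : (L)ˣ, ((z : L) : Ω) ≠ 0 := fun z h => z.ne_zero (by exact_mod_cast h)
  -- existence
  have hex : ∀ s ∈ L.fixingSubgroup, ∃ X ∈ Tor (cj π) Ω, ∀ T ∈ Tor π Ω, s (y T) = e X T * y T := by
    intro s hs
    obtain ⟨X, hX, h⟩ := pair_surj D he (fun T => s (y T) / y T) (by
      intro T hT
      obtain ⟨h0, z, hz⟩ := hy T hT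
      rw [div_pow, ← map_pow, hz, hfixL s hs _ (SetLike.coe_mem _), ← hz]
      exact div_self (pow_ne_zero _ h0)) (by
      intro T hT T' hT'
      obtain ⟨z, hz⟩ := hy2 T hT T' hT'
      have h0 := (hy T hT).1
      have h0' := (hy T' hT').1
      have hz0 := hun z
      rw [hz, map_mul, map_mul, hfixL s hs _ (SetLike.coe_mem (z : L))]
      field_simp)
    refine ⟨X, hX, fun T hT => ?_⟩
    rw [h T hT, div_mul_cancel₀ _ (hy T hT).1]
  let c₀ : (Ω ≃ₐ[F] Ω) → P27 Ω := fun s => if h : s ∈ L.fixingSubgroup then (hex s h).choose else 0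
  have hc : ∀ s ∈ L.fixingSubgroup, c₀ s ∈ Tor (cj π) Ω ∧ ∀ T ∈ Tor π Ω, s (y T) = e (c₀ s) T * y T := by
    intro s hs
    have h1 : c₀ s = (hex s hs).choose := dif_pos hs
    rw [h1]
    exact (hex s hs).choose_spec
  refine ⟨c₀, hc, fun s hs t ht => ?_, ?_, fun g => ?_⟩
  · -- cocycle
    have hst : s * t ∈ L.fixingSubgroup := Subgroup.mul_mem _ hs ht
    have h1 : ac W27 s (c₀ t) ∈ Tor (cj π) Ω := ac_mem s (hc t ht).1
    refine cz3_uniq hl0 he (hc _ hst).1 (add_mem (hc s hs).1 h1) fun T hT => ?_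
    have h2 := (hc _ hst).2 T hT
    have h3 : (s * t) (y T) = s (t (y T)) := rfl
    rw [h3, (hc t ht).2 T hT, map_mul, he.act s _ (hc t ht).1 T hT, hTfix s hs T hT, (hc s hs).2 T hT] at h2
    rw [he.add_left _ (hc s hs).1 _ h1 T hT]
    have h4 : e (c₀ (s * t)) T * y T = (e (c₀ s) T * e (ac W27 s (c₀ t)) T) * y T := by
      rw [← h2]
      ring
    exact mul_right_cancel₀ (hy T hT).1 h4
  · -- continuity
    have hfin : Finite (Tor π Ω) :=
      (show Full π Ω from (gi_gen (Ω := Ω) π D.pr D.prim).1).finite D.pr.ne_zero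
    have hfs : (y '' (Tor π Ω : Set (P27 Ω))).Finite := (Set.toFinite _).image y
    have hfs' := hfs.to_subtype
    refine ⟨IntermediateField.adjoin F (y '' (Tor π Ω : Set (P27 Ω))), ?_, fun s hs hsN => ?_⟩
    · apply IntermediateField.finiteDimensional_adjoin
      intro x _
      exact (Algebra.IsAlgebraic.isAlgebraic (R := F) x).isIntegral
    · refine he.nondeg _ (hc s hs).1 fun T hT => ?_
      have h1 : s (y T) = y T := (IntermediateField.mem_fixingSubgroup_iff _ _).1 hsN (y T)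
        (IntermediateField.subset_adjoin _ _ ⟨T, hT, rfl⟩)
      have h2 := (hc s hs).2 T hT
      rw [h1] at h2
      exact (mul_eq_right₀ (hy T hT).1).1 h2.symm
  · -- conjugation
    have hst : ∀ x : Ω, x ∈ L → g x ∈ L := fun x hx => tf_stable hL g ⟨x, hx⟩
    have hgT : ∀ T ∈ Tor π Ω, ac W27 g T ∈ Tor π Ω := fun T hT => ac_mem g hT
    have hgi : ∀ T ∈ Tor π Ω, ac W27 g⁻¹ T ∈ Tor π Ω := fun T hT => ac_mem g⁻¹ hT
    have hgg : ∀ T : P27 Ω, ac W27 g (ac W27 g⁻¹ T) = T := fun T => ac_inv g T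
    have hgg' : ∀ T : P27 Ω, ac W27 g⁻¹ (ac W27 g T) = T := fun T => by
      rw [← ac_mul, inv_mul_cancel, ac_one]
    have hη : ∀ T ∈ Tor π Ω, ∃ η z : Ω, η ^ l = 1 ∧ z ∈ L ∧ z ≠ 0 ∧ g (y T) = η * y (ac W27 g T) * z := by
      intro T hT
      obtain ⟨h0, z, hz⟩ := hy T hT
      obtain ⟨h0', z', hz'⟩ := hy _ (hgT T hT)
      obtain ⟨z'', hz''⟩ := hact g T hT
      have e1 : ((((m T * z ^ l : (L)ˣ) : L)) : Ω) = ((m T : L) : Ω) * ((z : L) : Ω) ^ l := by
        push_cast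
        ring
      have e2 : ((((m (ac W27 g T) * z' ^ l : (L)ˣ) : L)) : Ω) =
          ((m (ac W27 g T) : L) : Ω) * ((z' : L) : Ω) ^ l := by
        push_cast
        ring
      rw [e1] at hz
      rw [e2, hz''] at hz'
      have hgz : g ((z : L) : Ω) ≠ 0 := by
        rw [Ne, map_eq_zero]
        exact hun z
      have hm0 : g ((m T : L) : Ω) ≠ 0 := by
        rw [Ne, map_eq_zero]
        exact hun _
      have h1 : g (y T) ^ l = g ((m T : L) : Ω) * g ((z : L) : Ω) ^ l := by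
        rw [← map_pow, hz, map_mul, map_pow]
      have hw := hun z'
      have hw'' := hun z''
      have hgy : g (y T) ≠ 0 := by
        rw [Ne, map_eq_zero]
        exact h0
      have hzz : g ((z : L) : Ω) / (((z'' : L) : Ω) * ((z' : L) : Ω)) ≠ 0 :=
        div_ne_zero hgz (mul_ne_zero hw'' hw)
      refine ⟨g (y T) / (y (ac W27 g T) * (g ((z : L) : Ω) / (((z'' : L) : Ω) * ((z' : L) : Ω)))),
        g ((z : L) : Ω) / (((z'' : L) : Ω) * ((z' : L) : Ω)), ?_,
        div_mem (hst _ (SetLike.coe_mem _)) (mul_mem (SetLike.coe_mem _) (SetLike.coe_mem _)), hzz, ?_⟩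
      · rw [div_pow, mul_pow, div_pow, mul_pow, h1, hz']
        have p1 := pow_ne_zero l hgz
        have p2 := pow_ne_zero l hw
        have p3 := pow_ne_zero l hw''
        field_simp
      · field_simp
    have hconj : ∀ s ∈ L.fixingSubgroup, ∀ T ∈ Tor π Ω,
        e (ac W27 g (c₀ (g⁻¹ * s * g))) (ac W27 g T) * g (y T) = s (g (y T)) := by
      intro s hs T hT
      have hs' := ku2_conj hL g hs
      have h1 := (hc _ hs').2 T hT
      have h2 : g ((g⁻¹ * s * g) (y T)) = s (g (y T)) := by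
        have e1 : g * (g⁻¹ * s * g) = s * g := by group
        exact congrArg (fun t : Ω ≃ₐ[F] Ω => t (y T)) e1
      rw [← h2, h1, map_mul, he.act g _ (hc _ hs').1 T hT]
    rcases cz3_dich (Ω := Ω) D.hl L with hA | hB
    · refine ⟨0, zero_mem _, fun s hs => ?_⟩
      have hs' := ku2_conj hL g hs
      rw [map_zero, add_zero, sub_zero]
      refine cz3_uniq hl0 he (ac_mem g (hc _ hs').1) (hc s hs).1 fun R hR => ?_
      have h1 := hconj s hs _ (hgi R hR)
      obtain ⟨η, z, hη1, hzL, hz0, h2⟩ := hη _ (hgi R hR)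
      rw [hgg] at h1 h2
      have hgy : g (y (ac W27 g⁻¹ R)) ≠ 0 := by
        rw [Ne, map_eq_zero]
        exact (hy _ (hgi R hR)).1
      have h3 : s (g (y (ac W27 g⁻¹ R))) = e (c₀ s) R * g (y (ac W27 g⁻¹ R)) := by
        rw [h2, map_mul, map_mul, hfixL s hs η (hA η hη1), hfixL s hs z hzL, (hc s hs).2 R hR]
        ring
      rw [h3] at h1
      exact mul_right_cancel₀ hgy h1
    · choose! η z hη1 hzL hz0 hη2 using hη
      have hη0 : ∀ T ∈ Tor π Ω, η T ≠ 0 := fun T hT h => by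
        have := hη1 T hT
        rw [h, zero_pow hl0] at this
        exact zero_ne_one this
      have hadd : ∀ T ∈ Tor π Ω, ∀ T' ∈ Tor π Ω, η (T + T') = η T * η T' := by
        intro T hT T' hT'
        obtain ⟨u, hu⟩ := hy2 T hT T' hT'
        obtain ⟨v, hv⟩ := hy2 _ (hgT T hT) _ (hgT T' hT')
        have h1 := hη2 _ (add_mem hT hT')
        rw [hu, map_mul, map_mul, hη2 T hT, hη2 T' hT', map_add, hv] at h1
        have a1 := (hy _ (hgT T hT)).1
        have a2 := (hy _ (hgT T' hT')).1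
        have a3 := hη0 T hT
        have a4 := hη0 T' hT'
        have a5 := hz0 _ (add_mem hT hT')
        have a6 := hun v
        have h2 : η (T + T') * (((v : L) : Ω) * z (T + T')) = η T * η T' * (z T * z T' * g ((u : L) : Ω)) := by
          have h3 : (y (ac W27 g T) * y (ac W27 g T')) * (η (T + T') * (((v : L) : Ω) * z (T + T'))) =
              (y (ac W27 g T) * y (ac W27 g T')) * (η T * η T' * (z T * z T' * g ((u : L) : Ω))) := by
            linear_combination -h1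
          exact mul_left_cancel₀ (mul_ne_zero a1 a2) h3
        have h4 : η (T + T') / (η T * η T') = 1 := by
          apply hB
          · rw [div_pow, mul_pow, hη1 _ (add_mem hT hT'), hη1 T hT, hη1 T' hT', mul_one, div_one]
          · have h5 : η (T + T') / (η T * η T') =
                (z T * z T' * g ((u : L) : Ω)) / (((v : L) : Ω) * z (T + T')) := by
              rw [div_eq_div_iff (mul_ne_zero a3 a4) (mul_ne_zero a6 a5), h2]
              ring
            rw [h5]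
            exact div_mem (mul_mem (mul_mem (hzL T hT) (hzL T' hT')) (hst _ (SetLike.coe_mem _)))
              (mul_mem (SetLike.coe_mem _) (hzL _ (add_mem hT hT')))
        rw [div_eq_one_iff_eq (mul_ne_zero a3 a4)] at h4
        exact h4
      obtain ⟨X, hX, hXe⟩ := pair_surj D he (fun R => η (ac W27 g⁻¹ R)) (fun R hR => hη1 _ (hgi R hR))
        (fun R hR R' hR' => by rw [map_add]; exact hadd _ (hgi R hR) _ (hgi R' hR'))
      refine ⟨X, hX, fun s hs => ?_⟩
      have hs' := ku2_conj hL g hs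
      rw [eq_sub_iff_add_eq]
      refine cz3_uniq hl0 he (add_mem (ac_mem g (hc _ hs').1) hX)
        (add_mem (hc s hs).1 (ac_mem s hX)) fun R hR => ?_
      rw [he.add_left _ (ac_mem g (hc _ hs').1) _ hX R hR, he.add_left _ (hc s hs).1 _ (ac_mem s hX) R hR]
      have h1 := hconj s hs _ (hgi R hR)
      have h2 := hη2 _ (hgi R hR)
      rw [hgg] at h1 h2
      have h3 : s (η (ac W27 g⁻¹ R)) = e (ac W27 s X) R := by
        have h4 := he.act s X hX R hR
        rw [hXe R hR, hTfix s hs R hR] at h4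
        exact h4
      rw [h2, map_mul, map_mul, h3, hfixL s hs _ (hzL _ (hgi R hR)), (hc s hs).2 R hR] at h1
      rw [hXe R hR]
      have b1 := (hy R hR).1
      have b2 := hz0 _ (hgi R hR)
      have h5 : (y R * z (ac W27 g⁻¹ R)) * (e (ac W27 g (c₀ (g⁻¹ * s * g))) R * η (ac W27 g⁻¹ R)) =
          (y R * z (ac W27 g⁻¹ R)) * (e (c₀ s) R * e (ac W27 s X) R) := by
        linear_combination h1
      exact mul_left_cancel₀ (mul_ne_zero b1 b2) h5

end H13Z
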