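import Mathlib
import Pool.Agent.Lib.H13Z.Defs
import Pool.Agent.Lib.H13S.KU2
import Pool.Agent.Lib.H13S.LD3

open NumberField IsDedekindDomain

namespace H13Z

open H55P H28G H55B H13S

variable {Ω : Type} [Field Ω] [DecidableEq Ω] [Algebra F Ω] [IsAlgClosure F Ω]

variable {π : O} {l : ℕ} {B L : IntermediateField F Ω} {c : (Ω ≃ₐ[F] Ω) → P27 Ω}
  {e : P27 Ω → P27 Ω → Ω}

omit [IsAlgClosure F Ω] in
theorem kb2_ne (he : Pairing π l e) {X Y T : P27 Ω} (hX : X ∈ Tor (cj π) Ω) (hY : Y ∈ Tor (cj π) Ω)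
    (hT : T ∈ Tor π Ω) (h : e Y T ≠ 0) : e X T ≠ 0 := by
  intro h0
  have h1 := he.add_left (Y - X) (sub_mem hY hX) X hX T hT
  rw [sub_add_cancel, h0, mul_zero] at h1
  exact h h1

omit [IsAlgClosure F Ω] in
theorem kb2_ne1 (C : Cc π B c) (he : Pairing π l e) {X T : P27 Ω} (hX : X ∈ Tor (cj π) Ω)
    (hT : T ∈ Tor π Ω) {y : Ω} (hy : Kum L e c T y) : e X T ≠ 0 := by
  have h1 := hy.2 1 (Subgroup.one_mem _)
  have h2 : e (c 1) T ≠ 0 := by
    intro h3
    rw [h3, zero_mul] at h1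
    exact hy.1 h1
  exact kb2_ne he hX (C.val 1 (Subgroup.one_mem _)) hT h2

omit [IsAlgClosure F Ω] in
theorem kb2_sub (he : Pairing π l e) {X Y T : P27 Ω} (hX : X ∈ Tor (cj π) Ω)
    (hY : Y ∈ Tor (cj π) Ω) (hT : T ∈ Tor π Ω) (h : e Y T ≠ 0) : e (X - Y) T = e X T / e Y T := by
  have h1 := he.add_left (X - Y) (sub_mem hX hY) Y hY T hT
  rw [sub_add_cancel] at h1
  rw [h1, mul_div_assoc, div_self h, mul_one]

omit [IsAlgClosure F Ω] in
theorem kb2_conj (hL : IsTB π B L) {σ s : Ω ≃ₐ[F] Ω} (hσ : σ ∈ B.fixingSubgroup)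
    (hs : s ∈ L.fixingSubgroup) : σ⁻¹ * s * σ ∈ L.fixingSubgroup := by
  rw [hL.fix]
  refine ⟨mul_mem (mul_mem (inv_mem hσ) (hL.mono hs)) hσ, fun T hT => ?_⟩
  rw [ac_mul, ac_mul, ((hL.fix s).1 hs).2 _ (ac_mem σ hT), ← ac_mul, inv_mul_cancel, ac_one]

/-- Chunk KB2 (S/M), ports of H13S/KU2.lean to a base field B, and the product of Kummer generators. -/
theorem kumB_pow (C : Cc π B c) (he : Pairing π l e) (hL : IsTB π B L) {T : P27 Ω} (hT : T ∈ Tor π Ω)
    {y : Ω} (hy : Kum L e c T y) : ∃ m : L, (m : Ω) = y ^ l ∧ m ≠ 0 := by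
  have h1 : y ^ l ∈ L := by
    apply ku2_mem
    intro s hs
    rw [map_pow, hy.2 s hs, mul_pow, he.root _ (C.val s (hL.mono hs)) _ hT, one_mul]
  refine ⟨⟨y ^ l, h1⟩, rfl, fun h => ?_⟩
  have h2 : y ^ l = 0 := congrArg (fun z : L => (z : Ω)) h
  exact pow_ne_zero l hy.1 h2

theorem kumB_mul (C : Cc π B c) (he : Pairing π l e) (hL : IsTB π B L) {T T' : P27 Ω} (hT : T ∈ Tor π Ω)
    (hT' : T' ∈ Tor π Ω) {y y' : Ω} (hy : Kum L e c T y) (hy' : Kum L e c T' y') :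
    Kum L e c (T + T') (y * y') := by
  refine ⟨mul_ne_zero hy.1 hy'.1, fun s hs => ?_⟩
  rw [map_mul, hy.2 s hs, hy'.2 s hs, he.add_right _ (C.val s (hL.mono hs)) _ hT _ hT']
  ring

theorem kumB_ratio {T : P27 Ω} {y y' : Ω} (hy : Kum L e c T y) (hy' : Kum L e c T y') :
    ∃ z : L, z ≠ 0 ∧ y = (z : Ω) * y' := by
  have h1 : y / y' ∈ L := by
    apply ku2_mem
    intro s hs
    have h2 : e (c s) T ≠ 0 := by
      intro h3
      have h4 := hy.2 s hs
      rw [h3, zero_mul] at h4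
      exact hy.1 ((map_eq_zero_iff s s.injective).1 h4)
    rw [map_div₀, hy.2 s hs, hy'.2 s hs, mul_div_mul_left _ _ h2]
  refine ⟨⟨y / y', h1⟩, fun h => ?_, ?_⟩
  · have h2 : y / y' = 0 := congrArg (fun z : L => (z : Ω)) h
    exact div_ne_zero hy.1 hy'.1 h2
  · show y = y / y' * y'
    rw [div_mul_cancel₀ _ hy'.1]

/-- σ in the group of B with σ L contained in L and σ⁻¹ L contained in L. -/
theorem kumB_act (C : Cc π B c) (he : Pairing π l e) (hL : IsTB π B L) (σ : Ω ≃ₐ[F] Ω)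
    (hσ : σ ∈ B.fixingSubgroup) {T : P27 Ω} (hT : T ∈ Tor π Ω) {y : Ω} (hy : Kum L e c T y) :
    Kum L e c (ac W27 σ T) (σ y / e (c σ) (ac W27 σ T)) := by
  have hT' := ac_mem σ hT
  have hne : ∀ X ∈ Tor (cj π) Ω, e X (ac W27 σ T) ≠ 0 := by
    intro X hX
    have h1 : e (c 1) T ≠ 0 := kb2_ne1 C he (C.val 1 (Subgroup.one_mem _)) hT hy
    have h2 := he.act σ _ (C.val 1 (Subgroup.one_mem _)) _ hT
    refine kb2_ne he hX (ac_mem σ (C.val 1 (Subgroup.one_mem _))) hT' ?_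
    rw [← h2]
    exact (map_ne_zero_iff σ σ.injective).2 h1
  have hg := hne _ (C.val σ hσ)
  have hy0 : σ y ≠ 0 := by
    rw [Ne, map_eq_zero_iff σ σ.injective]
    exact hy.1
  refine ⟨div_ne_zero hy0 hg, fun s hs => ?_⟩
  have hsB := hL.mono hs
  have hs' := kb2_conj hL hσ hs
  have e1 : σ * (σ⁻¹ * s * σ) = s * σ := by group
  have e2 : ac W27 σ (c (σ⁻¹ * s * σ)) = c s + ac W27 s (c σ) - c σ := by
    have h1 := C.mul σ hσ (σ⁻¹ * s * σ) (hL.mono hs')
    rw [e1, C.mul s hsB σ hσ] at h1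
    rw [h1, add_sub_cancel_left]
  have e3 : s (σ y) = e (c s + ac W27 s (c σ) - c σ) (ac W27 σ T) * σ y := by
    have h1 : s (σ y) = σ ((σ⁻¹ * s * σ) y) := by
      show (s * σ) y = (σ * (σ⁻¹ * s * σ)) y
      rw [e1]
    rw [h1, hy.2 _ hs', map_mul, he.act σ _ (C.val _ (hL.mono hs')) _ hT, e2]
  have hXs := ac_mem s (C.val σ hσ)
  have e4 : s (e (c σ) (ac W27 σ T)) = e (ac W27 s (c σ)) (ac W27 σ T) := by
    rw [he.act s _ (C.val σ hσ) _ hT', ((hL.fix s).1 hs).2 _ hT']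
  have hg2 := hne _ hXs
  rw [map_div₀, e3, e4, kb2_sub he (add_mem (C.val s hsB) hXs) (C.val σ hσ) hT' hg,
    he.add_left _ (C.val s hsB) _ hXs _ hT']
  field_simp

/-- L is stable under the automorphisms over B. -/
theorem tb_stable (hL : IsTB π B L) (σ : Ω ≃ₐ[F] Ω) (hσ : σ ∈ B.fixingSubgroup) (x : L) : σ (x : Ω) ∈ L := by
  apply ku2_mem
  intro s hs
  have hs' := kb2_conj hL hσ hs
  have h1 : (σ⁻¹ * s * σ) (x : Ω) = (x : Ω) :=
    (IntermediateField.mem_fixingSubgroup_iff L _).1 hs' x x.2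
  have e1 : σ * (σ⁻¹ * s * σ) = s * σ := by group
  show (s * σ) (x : Ω) = σ (x : Ω)
  rw [← e1]
  show σ ((σ⁻¹ * s * σ) (x : Ω)) = σ (x : Ω)
  rw [h1]

/-- Existence of L: L = B(coordinates of Tor π). -/
theorem exists_TB (π : O) (hπ : Prime π) (h3 : Prim π) (B : IntermediateField F Ω) [FiniteDimensional F B] :
    ∃ L : IntermediateField F Ω, IsTB π B L := by
  classical
  obtain ⟨hcard, -⟩ := gi_gen (Ω := Ω) π hπ h3
  have hN : Nm π ≠ 0 := fun h => hπ.ne_zero (Nm_eq_zero.1 h)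
  have hfin : Finite (Tor π Ω) := by
    apply Nat.finite_of_card_ne_zero
    rw [hcard]
    exact hN
  have hint : ∀ x : Ω, IsIntegral F x := fun x =>
    (Algebra.IsAlgebraic.isAlgebraic x).isIntegral
  let A : Set Ω := (xc '' (Tor π Ω : Set (P27 Ω))) ∪ (yc '' (Tor π Ω : Set (P27 Ω)))
  have hAf : A.Finite := ((Set.toFinite (Tor π Ω : Set (P27 Ω))).image _).union
    ((Set.toFinite (Tor π Ω : Set (P27 Ω))).image _)
  have hAf' : Finite A := hAf
  have hLf : FiniteDimensional F (IntermediateField.adjoin F A) :=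
    IntermediateField.finiteDimensional_adjoin fun x _ => hint x
  refine ⟨B ⊔ IntermediateField.adjoin F A, inferInstance, le_sup_left, fun s => ?_⟩
  rw [IntermediateField.fixingSubgroup_sup, Subgroup.mem_inf]
  refine and_congr_right fun _ => ?_
  constructor
  · intro hs T hT
    have hfix : ∀ x ∈ A, s x = x := fun x hx =>
      (IntermediateField.mem_fixingSubgroup_iff _ _).1 hs x (IntermediateField.subset_adjoin F A hx)
    by_cases hT0 : T = 0
    · rw [hT0, map_zero]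
    · refine pt_ext (mp_ne s.toAlgHom hT0) hT0 ?_ ?_
      · rw [ac_eq, xc_mp]
        exact hfix _ (Or.inl ⟨T, hT, rfl⟩)
      · rw [ac_eq, yc_mp]
        exact hfix _ (Or.inr ⟨T, hT, rfl⟩)
  · intro hs
    rw [IntermediateField.mem_fixingSubgroup_iff]
    intro x hx
    have hA : ∀ x ∈ A, s x = x := by
      rintro x (⟨T, hT, rfl⟩ | ⟨T, hT, rfl⟩)
      · have h1 := congrArg xc (hs T hT)
        rw [ac_eq, xc_mp] at h1
        exact h1
      · have h1 := congrArg yc (hs T hT)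
        rw [ac_eq, yc_mp] at h1
        exact h1
    induction hx using IntermediateField.adjoin_induction with
    | mem x hx => exact hA x hx
    | algebraMap x => exact s.commutes x
    | add x y _ _ h1 h2 => rw [map_add, h1, h2]
    | inv x _ h1 => rw [map_inv₀, h1]
    | mul x y _ _ h1 h2 => rw [map_mul, h1, h2]

end H13Z
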