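import Mathlib
import Pool.Agent.Lib.H13Z.CZ1
import Pool.Agent.Lib.H13Z.CZ3
import Pool.Agent.Lib.H13Z.CZ4
import Pool.Agent.Lib.H13S.CO2

open NumberField IsDedekindDomain

namespace H13Z

open H55P H28G H55B H13S

variable {Ω : Type} [Field Ω] [DecidableEq Ω] [Algebra F Ω] [IsAlgClosure F Ω]

/-- Chunk CZ5 (M). From elements of L to cocycles on the whole group (converse of partS). y_system, c0_exists. N = L.fixingSubgroup = pointwise stabilizer of Tor π: normal of index dividing Nm π - 1 (stab_index), prime to l (Nm π = l or l^2). ext_cocycle with B = Tor (cj π), a = ac W27: c. Continuity: U = the fixing subgroup of the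
normal closure of L, the N of c0_exists and the coordinates of Tor (cj π) (finite over F, so normal subgroup U ≤ L.fixingSubgroup; ∃ IntermediateField normalClosure finite). Kummer generators: c s = c₀ s + ac s X - X on L.fixingSubgroup, y' T = e X T * y T: s (y' T) = e (ac s X) T e (c₀ s) T y T = e (c s) T y' T (ac s T = T),
y' T^l = y T^l. -/
theorem cocycle_of_m {π : O} {l : ℕ} (D : Dat π l) {e : P27 Ω → P27 Ω → Ω} (he : Pairing π l e)
    {L : IntermediateField F Ω} (hL : IsTF π L) (m : P27 Ω → (L)ˣ)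
    (hadd : ∀ T ∈ Tor π Ω, ∀ T' ∈ Tor π Ω, ∃ z : (L)ˣ, m (T + T') = m T * m T' * z ^ l)
    (hact : ∀ σ : Ω ≃ₐ[F] Ω, ∀ T ∈ Tor π Ω, ∃ z : (L)ˣ,
      ((m (ac W27 σ T) : L) : Ω) = σ ((m T : L) : Ω) * ((z : L) : Ω) ^ l) :
    ∃ c : (Ω ≃ₐ[F] Ω) → P27 Ω, Cc π ⊥ c ∧ ∀ T ∈ Tor π Ω, ∃ y : Ω, Kum L e c T y ∧
      ∃ z : (L)ˣ, y ^ l = ((m T * z ^ l : (L)ˣ) : L) := by
  obtain ⟨y, hy, hy2⟩ := y_system D L m hadd
  obtain ⟨c₀, h1, h2, ⟨N₀, hN₀, h3⟩, h4⟩ := c0_exists D he hL m hact y hy hy2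
  obtain ⟨N₁, hN₁, hn₁, hd₁, h0₁⟩ := stab_index (Ω := Ω) π D.pr D.prim
  have hNL : ∀ s, s ∈ N₁ ↔ s ∈ L.fixingSubgroup := fun s => by rw [hN₁, ← hL.2]
  have hlN : l ∣ Nm π := CO2_Nm D.hl D.pr D.dvd
  have hN0 : Nm π ≠ 0 := fun h => D.pr.ne_zero (Nm_eq_zero.1 h)
  have hcop : l.Coprime N₁.index := CO2_cop D.hl hlN hN0 hd₁
  have hlB : ∀ P ∈ Tor (cj π) Ω, l • P = 0 := by
    intro P hP
    obtain ⟨u, hu⟩ := D.dvd
    have h5 : (l : O) = cj u * cj π := by
      have h6 := congrArg cj hu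
      rw [map_natCast, map_mul] at h6
      rw [h6, mul_comm]
    have h7 : act (cj π) P = 0 := hP
    rw [← act_nat, h5, act_mul, h7, map_zero]
  obtain ⟨c, hcB, hcm, ⟨X, hX, hcX⟩, hcU⟩ := ext_cocycle (fun s : Ω ≃ₐ[F] Ω => ac W27 s)
    (fun P => ac_one P) (fun s t P => ac_mul s t P) (Tor (cj π) Ω) (fun g P hP => ac_mem g hP)
    l hlB N₁ h0₁ hcop c₀ (fun s hs => (h1 s ((hNL s).1 hs)).1)
    (fun s hs t ht => h2 s ((hNL s).1 hs) t ((hNL t).1 ht))
    (fun g => by
      obtain ⟨X, hX, h5⟩ := h4 g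
      exact ⟨X, hX, fun s hs => h5 s ((hNL s).1 hs)⟩)
  -- the field of the coordinates of the points killed by the conjugate
  obtain ⟨-, T₀, hT₀, hgen, -⟩ := gi_gen (Ω := Ω) (cj π) (CO2_cj_prime D.pr) (CO2_cj_prim D.prim)
  have hint : ∀ x : Ω, IsIntegral F x := fun x => (Algebra.IsAlgebraic.isAlgebraic x).isIntegral
  let A : Set Ω := {xc T₀, yc T₀}
  have hAf : A.Finite := Set.toFinite A
  have hAf' : Finite A := hAf
  have hLf : FiniteDimensional F (IntermediateField.adjoin F A) :=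
    IntermediateField.finiteDimensional_adjoin fun x _ => hint x
  have hfix : ∀ t ∈ (IntermediateField.adjoin F A).fixingSubgroup, ∀ P ∈ Tor (cj π) Ω,
      ac W27 t P = P := by
    intro t ht
    have hfx : ∀ x ∈ A, t x = x := fun x hx =>
      ht ⟨x, IntermediateField.subset_adjoin F A hx⟩
    have e1 : ac W27 t T₀ = T₀ := by
      by_cases hT0 : T₀ = 0
      · rw [hT0, map_zero]
      · refine pt_ext (mp_ne t.toAlgHom hT0) hT0 ?_ ?_
        · rw [ac_eq, xc_mp]
          exact hfx _ (by simp [A])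
        · rw [ac_eq, yc_mp]
          exact hfx _ (by simp [A])
    intro P hP
    obtain ⟨a, rfl⟩ := hgen P hP
    rw [ac_act, e1]
  have hLfin : FiniteDimensional F L := hL.1
  let M : IntermediateField F Ω := L ⊔ N₀ ⊔ IntermediateField.adjoin F A
  have hMf : FiniteDimensional F M := inferInstance
  let N : IntermediateField F Ω := IntermediateField.normalClosure F M Ω
  have hNn : Normal F N := normalClosure.normal F M Ω
  have hNf : FiniteDimensional F N := normalClosure.is_finiteDimensional F M Ω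
  have hMN : M ≤ N := IntermediateField.le_normalClosure M
  have hLN : L ≤ N := (le_sup_left.trans le_sup_left).trans hMN
  have hN₀N : N₀ ≤ N := (le_sup_right.trans le_sup_left).trans hMN
  have hAN : IntermediateField.adjoin F A ≤ N := le_sup_right.trans hMN
  have hUn : N.fixingSubgroup.Normal := inferInstance
  have hmono : ∀ {E : IntermediateField F Ω}, E ≤ N → ∀ s ∈ N.fixingSubgroup, s ∈ E.fixingSubgroup :=
    fun h s hs => IntermediateField.fixingSubgroup_antitone h hs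
  refine ⟨c, ⟨fun s _ t _ => hcm s t, ⟨N, hNf, fun s _ hs => ?_⟩, fun s _ => hcB s⟩, fun T hT => ?_⟩
  · refine hcU N.fixingSubgroup hUn (fun t ht => (hNL t).2 (hmono hLN t ht))
      (fun t ht => h3 t (hmono hLN t ht) (hmono hN₀N t ht))
      (fun t ht P hP => hfix t (hmono hAN t ht) P hP) s hs
  · obtain ⟨hy0, z, hz⟩ := hy T hT
    have hr := he.root X hX T hT
    have he0 : e X T ≠ 0 := by
      intro h
      rw [h, zero_pow D.hl.ne_zero] at hr
      exact zero_ne_one hr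
    refine ⟨e X T * y T, ⟨mul_ne_zero he0 hy0, fun s hs => ?_⟩, z, ?_⟩
    · have hs1 : s ∈ N₁ := (hNL s).2 hs
      have hsT : ac W27 s T = T := (hN₁ s).1 hs1 T hT
      obtain ⟨hc0B, hc0⟩ := h1 s hs
      have h6 : c s + X = c₀ s + ac W27 s X := by rw [hcX s hs1]; abel
      have h7 := he.add_left (c s) (hcB s) X hX T hT
      have h8 := he.add_left (c₀ s) hc0B (ac W27 s X) (ac_mem s hX) T hT
      rw [h6, h8] at h7
      rw [map_mul, he.act s X hX T hT, hsT, hc0 T hT]
      linear_combination y T * h7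
    · rw [mul_pow, hr, one_mul, hz]

end H13Z
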