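import Mathlib
import Pool.Agent.Lib.H13Z.Defs
import Pool.Agent.Lib.H13S.GIF
import Pool.Agent.Lib.H13S.QI
import Pool.Agent.Lib.H13S.IZ
import Pool.Agent.Lib.H13S.FR
import Pool.Agent.Lib.H13S.VW
import Pool.Agent.Lib.H16C.T1
import Pool.Agent.Lib.H55P.S5

open NumberField IsDedekindDomain

namespace H13Z

open H55P H28G H55B H13S

variable {Ω : Type} [Field Ω] [DecidableEq Ω] [Algebra F Ω] [IsAlgClosure F Ω]

variable {V : ValuationSubring Ω}

/-- Chunk LE1 (S/M). As H13S.gi_frob, with γ^f in place of γ (H13S.qi_iter in place of kr_kron) and any a in O which is a unit at V in place of β: T ≠ 0 is not in Kr V (kr_tor), so xc T, yc T are in V; s T is congruent to (xc T^(Nm γ^f), yc T^(Nm γ^f)), and so is act (γ^f) T;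
kr_congr: the difference is in Kr V, killed by a: kr_tor. V 3 = 1 is a hypothesis. -/
theorem frob_tors (h3 : V.valuation (3 : Ω) = 1) {γ : O} (hγ : Prime γ) (hγ3 : Prim γ) (hV : vo V γ < 1)
    {a : O} (ha : vo V a = 1) {f : ℕ} {s : Ω ≃ₐ[F] Ω}
    (hs : ∀ x ∈ V, V.valuation (s x - x ^ Nm γ ^ f) < 1) {T : P27 Ω} (hT : T ∈ Tor a Ω) :
    ac W27 s T = H28G.act (γ ^ f) T := by
  by_cases hT0 : T = 0
  · rw [hT0, map_zero, map_zero]
  have hKr : ¬ Kr V T := fun hK => hT0 (kr_tor V a ha hT hK)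
  have hx1 : V.valuation (xc T) ≤ 1 := by
    by_contra hc
    push Not at hc
    exact hKr (Or.inr hc)
  have hy1 : V.valuation (yc T) ≤ 1 := int_y V.valuation hx1
  obtain ⟨hg0, hg1, hgx, hgy⟩ := qi_iter hγ hγ3 V hV hT0 hx1 f
  have hsx := hs (xc T) ((V.valuation_le_one_iff _).1 hx1)
  have hsy := hs (yc T) ((V.valuation_le_one_iff _).1 hy1)
  have hxs : xc (ac W27 s T) = s (xc T) := IZ_xc s T
  have hys : yc (ac W27 s T) = s (yc T) := IZ_yc s T
  have hQ0 : ac W27 s T ≠ 0 := IZ_ne s hT0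
  have hx : V.valuation (xc (H28G.act (γ ^ f) T) - xc (ac W27 s T)) < 1 := by
    rw [hxs]
    have e : xc (H28G.act (γ ^ f) T) - s (xc T) =
        (xc (H28G.act (γ ^ f) T) - xc T ^ Nm γ ^ f) - (s (xc T) - xc T ^ Nm γ ^ f) := by ring
    rw [e]
    exact V.valuation.map_sub_lt hgx hsx
  have hy : V.valuation (yc (H28G.act (γ ^ f) T) - yc (ac W27 s T)) < 1 := by
    rw [hys]
    have e : yc (H28G.act (γ ^ f) T) - s (yc T) =
        (yc (H28G.act (γ ^ f) T) - yc T ^ Nm γ ^ f) - (s (yc T) - yc T ^ Nm γ ^ f) := by ring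
    rw [e]
    exact V.valuation.map_sub_lt hgy hsy
  have hK := kr_congr V h3 hg0 hQ0 hg1 hx hy
  have hgT : H28G.act (γ ^ f) T ∈ Tor a Ω := by
    rw [mem_Tor, ← act_mul, mul_comm, act_mul, mem_Tor.1 hT, map_zero]
  have hmem : H28G.act (γ ^ f) T - ac W27 s T ∈ Tor a Ω := sub_mem hgT (ac_mem s hT)
  exact (sub_eq_zero.1 (kr_tor V a ha hmem hK)).symm

/-- Chunk LE2 (S). Inertia fixes the torsion of order prime to V (as in H13S.c_inert_zero: kr_congr, kr_tor). -/
theorem inert_tors (h3 : V.valuation (3 : Ω) = 1) {a : O} (ha : vo V a = 1) {s : Ω ≃ₐ[F] Ω}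
    (hs : Inert V s) {T : P27 Ω} (hT : T ∈ Tor a Ω) : ac W27 s T = T := by
  by_cases hT0 : T = 0
  · rw [hT0, map_zero]
  have hKr : ¬ Kr V T := fun hK => hT0 (kr_tor V a ha hT hK)
  have hx : V.valuation (xc T) ≤ 1 := by
    by_contra hc
    push Not at hc
    exact hKr (Or.inr hc)
  have hy : V.valuation (yc T) ≤ 1 := int_y V.valuation hx
  have hx2 := hs _ ((V.valuation_le_one_iff _).1 hx)
  have hy2 := hs _ ((V.valuation_le_one_iff _).1 hy)
  have hx3 : V.valuation (s (xc T)) ≤ 1 := by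
    have e : s (xc T) = (s (xc T) - xc T) + xc T := by ring
    rw [e]
    exact (Valuation.map_add _ _ _).trans (max_le hx2.le hx)
  have hK : Kr V (ac W27 s T - T) := by
    refine kr_congr V h3 (IZ_ne s hT0) hT0 ?_ ?_ ?_
    · rw [IZ_xc]
      exact hx3
    · rw [IZ_xc]
      exact hx2
    · rw [IZ_yc]
      exact hy2
  exact sub_eq_zero.1 (kr_tor V a ha (sub_mem (ac_mem s hT) hT) hK)

theorem le_ell : W27.IsElliptic := by
  refine ⟨?_⟩
  rw [isUnit_iff_ne_zero]
  simp only [W27, WeierstrassCurve.Δ, WeierstrassCurve.b₂, WeierstrassCurve.b₄, WeierstrassCurve.b₆,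
    WeierstrassCurve.b₈]
  norm_num

/-- Chunk LE3 (S/M). Multiplication by a is surjective: H16C.T1 divisible (n = Nm a > 0): Nm a • P' = Q, Nm a = a * cj a (H55B.mul_cj), P = act (cj a) P'. (W27 over Ω is an elliptic curve; Ω is algebraically closed.) -/
theorem act_div {a : O} (ha : a ≠ 0) (Q : P27 Ω) : ∃ P : P27 Ω, H28G.act a P = Q := by
  have hac : IsAlgClosed Ω := IsAlgClosure.isAlgClosed F
  have hal : Algebra.IsAlgebraic F Ω := IsAlgClosure.isAlgebraic
  have hcz : CharZero Ω := charZero_of_injective_algebraMap (algebraMap F Ω).injective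
  have hE := le_ell
  have hN : 0 < Nm a := Nat.pos_of_ne_zero fun h => ha (Nm_eq_zero.1 h)
  obtain ⟨P, hP⟩ := div_pt W27 (Nm a) hN Q
  refine ⟨H28G.act (cj a) P, ?_⟩
  rw [← act_mul, mul_cj, act_nat, hP]

/-- Chunk LE4 (S/M). Frobenius elements over K: H13S.exists_frob with K in place of F₀ (Ω is an algebraic closure of K), restrictScalars F. -/
theorem exists_frobK (K : IntermediateField F Ω) [NumberField K] {w : HeightOneSpectrum (𝓞 K)}
    (hw : Abv K V w) : ∃ s ∈ K.fixingSubgroup, Dec V s ∧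
      ∀ x ∈ V, V.valuation (s x - x ^ Ideal.absNorm w.asIdeal) < 1 := by
  have hac : IsAlgClosed Ω := IsAlgClosure.isAlgClosed F
  have hal : Algebra.IsAlgebraic F Ω := IsAlgClosure.isAlgebraic
  have hK : IsAlgClosure K Ω := ⟨hac, Algebra.IsAlgebraic.tower_top (K := F) K⟩
  obtain ⟨s, hs1, hs2⟩ := exists_frob w V (fun a ha => by
    rw [← HeightOneSpectrum.valuation_lt_one_iff_mem (K := K)] at ha
    exact (hw.lt _).2 ha)
  refine ⟨s.restrictScalars F, ?_, hs1, hs2⟩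
  rw [IntermediateField.mem_fixingSubgroup_iff]
  intro x hx
  exact s.commutes ⟨x, hx⟩

/-- The residue field of w is an extension of degree f of the one of γ (w contains γ by Abv.lt; absNorm of w is the cardinality of 𝓞 K/w, a finite extension of O/γ, which has Nm γ elements). -/
theorem norm_above (K : IntermediateField F Ω) [NumberField K] {w : HeightOneSpectrum (𝓞 K)}
    (hw : Abv K V w) {γ : O} (hγ : Prime γ) (hV : vo V γ < 1) :
    ∃ f : ℕ, 0 < f ∧ Ideal.absNorm w.asIdeal = Nm γ ^ f := by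
  have hmem : algebraMap O (𝓞 K) γ ∈ w.asIdeal := by
    rw [← HeightOneSpectrum.valuation_lt_one_iff_mem (K := K), ← hw.lt]
    exact hV
  have hle : Ideal.span {γ} ≤ w.asIdeal.comap (algebraMap O (𝓞 K)) := by
    rw [Ideal.span_singleton_le_iff_mem, Ideal.mem_comap]
    exact hmem
  have hbot : Ideal.span {γ} ≠ ⊥ := by
    rw [Ne, Ideal.span_singleton_eq_bot]
    exact hγ.ne_zero
  have hp : (Ideal.span {γ}).IsPrime := (Ideal.span_singleton_prime hγ.ne_zero).2 hγ
  have hm : (Ideal.span {γ}).IsMaximal := hp.isMaximal hbot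
  have hfin : Finite (O ⧸ Ideal.span {γ}) := Ideal.finiteQuotientOfFreeOfNeBot _ hbot
  have hfin2 : Finite (𝓞 K ⧸ w.asIdeal) := Ideal.finiteQuotientOfFreeOfNeBot _ w.ne_bot
  have hwm := w.isMaximal
  letI : Field (O ⧸ Ideal.span {γ}) := Ideal.Quotient.field _
  letI : Algebra (O ⧸ Ideal.span {γ}) (𝓞 K ⧸ w.asIdeal) := Ideal.Quotient.algebraQuotientOfLEComap hle
  have hnt : Nontrivial (𝓞 K ⧸ w.asIdeal) := Ideal.Quotient.nontrivial_iff.2 hwm.ne_top
  have hft1 : Fintype (O ⧸ Ideal.span {γ}) := Fintype.ofFinite _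
  have hft2 : Fintype (𝓞 K ⧸ w.asIdeal) := Fintype.ofFinite _
  have hmf : Module.Finite (O ⧸ Ideal.span {γ}) (𝓞 K ⧸ w.asIdeal) := Module.Finite.of_finite
  have hcard := Module.card_eq_pow_finrank (K := O ⧸ Ideal.span {γ}) (V := 𝓞 K ⧸ w.asIdeal)
  refine ⟨Module.finrank (O ⧸ Ideal.span {γ}) (𝓞 K ⧸ w.asIdeal), Module.finrank_pos, ?_⟩
  have e1 : Ideal.absNorm w.asIdeal = Nat.card (𝓞 K ⧸ w.asIdeal) := rfl
  have e2 : Nm γ = Nat.card (O ⧸ Ideal.span {γ}) := rfl
  rw [e1, e2, Nat.card_eq_fintype_card, Nat.card_eq_fintype_card, hcard]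

end H13Z
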