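import Mathlib
import Pool.Agent.Lib.H13Z.LR2

open NumberField IsDedekindDomain

namespace H13Z

open H55P H28G H55B H13S

variable {Ω : Type} [Field Ω] [DecidableEq Ω] [Algebra F Ω] [IsAlgClosure F Ω]

variable {π : O} {l : ℕ} {V : ValuationSubring Ω} {t : Ω} {e0 : ℕ}

omit [DecidableEq Ω] [Algebra F Ω] [IsAlgClosure F Ω] in
/-- The binomial formula modulo l. -/
theorem lu_add_pow (V : ValuationSubring Ω) (hl : l.Prime) {x y : Ω} (hx : V.valuation x ≤ 1)
    (hy : V.valuation y ≤ 1) : ∃ r, V.valuation r ≤ 1 ∧ (x + y) ^ l = x ^ l + y ^ l + l * x * y * r := by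
  have hx' := (V.valuation_le_one_iff x).1 hx
  have hy' := (V.valuation_le_one_iff y).1 hy
  obtain ⟨r, hr⟩ := exists_add_pow_prime_eq hl (⟨x, hx'⟩ : V) (⟨y, hy'⟩ : V)
  refine ⟨r, (V.valuation_le_one_iff _).2 r.2, ?_⟩
  have h1 := congrArg (fun a : V => (a : Ω)) hr
  simpa using h1

theorem lu_frob {π : O} (hp : Prime π) (a : O) : π ∣ a ^ Nm π - a := by
  classical
  haveI := K14_max hp
  letI := Ideal.Quotient.field (Ideal.span {π})
  have hc : Nat.card (O ⧸ Ideal.span {π}) = Nm π :=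
    K14_card (Ideal.Quotient.mk (Ideal.span {π})) Ideal.Quotient.mk_surjective fun x => by
      rw [Ideal.Quotient.eq_zero_iff_mem, Ideal.mem_span_singleton]
  have h0 : Nm π ≠ 0 := fun h => hp.ne_zero (Nm_eq_zero.1 h)
  haveI : Finite (O ⧸ Ideal.span {π}) := Nat.finite_of_card_ne_zero (by rw [hc]; exact h0)
  letI := Fintype.ofFinite (O ⧸ Ideal.span {π})
  have h1 := FiniteField.pow_card (Ideal.Quotient.mk (Ideal.span {π}) a)
  rw [← Nat.card_eq_fintype_card, hc, ← map_pow, ← sub_eq_zero, ← map_sub,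
    Ideal.Quotient.eq_zero_iff_mem, Ideal.mem_span_singleton] at h1
  exact h1

/-- Chunk LU (M). l-th powers and levels, v = V.valuation, r = v t, v l = r^(e0 (l-1)). (1) v z = 1 and v (z - 1) < 1: (z - 1)^l = z^l - 1 modulo l (add_pow / Commute.add_pow, choose l k divisible by l). Let v (z - 1) = r^j, j ≥ 1 (RV.values; z = 1 trivial). z^l - 1 = δ^l + l δ (1 + ...), δ = z - 1:
value of the second part r^(e0 (l-1) + j) (≤). If j < e0: l j < e0 (l-1) + j, so v (z^l - 1) = r^(l j) and l j ≥ i, l does not divide i: l j ≥ i + 1. If j ≥ e0: v (z^l - 1) ≤ r^(l e0) ≤ r^(i+1). -/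
theorem RV.pow_unit (R : RV π l V t e0) {z : Ω} (hz : Hx π V z) {i : ℕ} (hi : 1 ≤ i) (h2 : i < l * e0)
    (h3 : ¬ l ∣ i) (h : V.valuation (z ^ l - 1) ≤ V.valuation t ^ i) :
    V.valuation (z ^ l - 1) ≤ V.valuation t ^ (i + 1) := by
  obtain ⟨hl1, hq, ht1, ht0, he, -⟩ := R.val_l
  have hlp := R.D.hl
  have hl2 : 2 ≤ l := hlp.two_le
  set r := V.valuation t with hr
  have hr0 : 0 < r := zero_lt_iff.2 ht0
  have hle : ∀ {a b : ℕ}, a ≤ b → r ^ b ≤ r ^ a := fun {a b} hab => pow_le_pow_right_of_le_one' ht1.le hab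
  have hlt : ∀ {a b : ℕ}, a < b → r ^ b < r ^ a := fun {a b} hab => pow_lt_pow_right_of_lt_one₀ hr0 ht1 hab
  have hw1 : V.valuation (z ^ l - 1) < 1 := lt_of_le_of_lt h (pow_lt_one₀ zero_le ht1 (by omega))
  have hvl : V.valuation (l : Ω) < 1 := by
    rw [hl1]
    exact R.above
  have hz1 : V.valuation z = 1 := by
    have h4 : V.valuation (z ^ l) = 1 := by
      have h5 : z ^ l = (z ^ l - 1) + 1 := by ring
      rw [h5]
      rw [Valuation.map_add_eq_of_lt_right]
      · exact map_one V.valuation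
      · rw [map_one]
        exact hw1
    rw [map_pow] at h4
    exact (pow_eq_one_iff.1 h4).resolve_right (by omega)
  obtain ⟨d, hd⟩ : ∃ d, d = z - 1 := ⟨_, rfl⟩
  have hzd : z = d + 1 := by rw [hd]; ring
  have hd1 : V.valuation d ≤ 1 := by
    rw [hd]
    exact V.valuation.map_sub_le hz1.le (map_one _).le
  obtain ⟨b, hb, hexp⟩ := lu_add_pow (l := l) V hlp hd1 (y := 1) (map_one _).le
  rw [← hzd, one_pow] at hexp
  have hexp' : z ^ l - 1 = d ^ l + l * d * b := by rw [hexp]; ring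
  have hrest : V.valuation (l * d * b) ≤ V.valuation (l : Ω) * V.valuation d := by
    rw [map_mul, map_mul]
    exact mul_le_of_le_one_right' hb
  have hdlt : V.valuation d < 1 := by
    have h5 : d ^ l = (z ^ l - 1) - l * d * b := by rw [hexp']; ring
    have h6 : V.valuation (d ^ l) < 1 := by
      rw [h5]
      refine lt_of_le_of_lt (Valuation.map_sub _ _ _) (max_lt hw1 (lt_of_le_of_lt hrest ?_))
      exact lt_of_le_of_lt (mul_le_of_le_one_right' hd1) hvl
    rw [map_pow] at h6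
    by_contra hcon
    exact absurd h6 (not_lt.2 (one_le_pow_of_one_le' (not_lt.1 hcon) l))
  by_cases hd0 : d = 0
  · have : z ^ l - 1 = 0 := by
      rw [hexp', hd0, zero_pow (by omega)]
      ring
    rw [this, map_zero]
    exact zero_le
  have hHd : Hx π V d := by
    rw [hd]
    exact hz.sub Hx.one
  obtain ⟨n, hn⟩ := R.values hHd hd0
  rw [← hr] at hn
  have hn0 : 0 < n := by
    by_contra hcon
    have h5 : n ≤ 0 := not_lt.1 hcon
    obtain ⟨k, hk⟩ := Int.exists_eq_neg_ofNat h5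
    rw [hn, hk, zpow_neg, zpow_natCast] at hdlt
    have h6 : r ^ k ≤ 1 := pow_le_one₀ zero_le ht1.le
    have h7 : 1 ≤ (r ^ k)⁻¹ := by
      rw [one_le_inv₀ (pow_pos hr0 k)]
      exact h6
    exact absurd hdlt (not_lt.2 h7)
  obtain ⟨j, hj⟩ : ∃ j : ℕ, n = j := ⟨n.toNat, (Int.toNat_of_nonneg hn0.le).symm⟩
  rw [hj, zpow_natCast] at hn
  have hj0 : 1 ≤ j := by omega
  have hrest' : V.valuation (l * d * b) ≤ r ^ (e0 * (l - 1) + j) := by
    rw [pow_add, he, ← hn]
    exact hrest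
  have hdl : V.valuation (d ^ l) = r ^ (l * j) := by
    rw [map_pow, hn, ← pow_mul, mul_comm]
  by_cases hje : j < e0
  · have h5 : l * j < e0 * (l - 1) + j := by
      obtain ⟨k, rfl⟩ : ∃ k, l = k + 1 := ⟨l - 1, by omega⟩
      rw [Nat.add_sub_cancel]
      have h6 : k * j < k * e0 := Nat.mul_lt_mul_of_pos_left hje (by omega)
      have e1 : (k + 1) * j = k * j + j := by ring
      rw [e1, mul_comm e0 k]
      omega
    have h6 : V.valuation (z ^ l - 1) = r ^ (l * j) := by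
      rw [hexp', Valuation.map_add_eq_of_lt_left]
      · exact hdl
      · rw [hdl]
        exact lt_of_le_of_lt hrest' (hlt h5)
    rw [h6] at h ⊢
    apply hle
    have h7 : i ≤ l * j := by
      by_contra hcon
      exact absurd h (not_le.2 (hlt (not_le.1 hcon)))
    rcases Nat.eq_or_lt_of_le h7 with h8 | h8
    · exact absurd ⟨j, h8⟩ h3
    · exact h8
  · have h5 : l * e0 ≤ l * j := Nat.mul_le_mul_left l (not_lt.1 hje)
    have h6 : l * e0 ≤ e0 * (l - 1) + j := by
      obtain ⟨k, rfl⟩ : ∃ k, l = k + 1 := ⟨l - 1, by omega⟩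
      rw [Nat.add_sub_cancel]
      have e1 : (k + 1) * e0 = e0 * k + e0 := by ring
      rw [e1]
      omega
    rw [hexp']
    refine Valuation.map_add_le _ ?_ ?_
    · rw [hdl]
      exact hle (by omega)
    · exact hrest'.trans (hle (by omega))

/-- Removal of the coefficient at a level divisible by l. a in O with v (x - a) < 1 for x = (m/z^l - 1)/t^(l j) (RV.residue); b in O with π | b^l - a (Frobenius of the finite field O/π is surjective: b = a^(l) if Nm π = l^2, b = a if Nm π = l: a^(Nm π) = a modulo π).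
z' = z (1 + b t^j): (1 + b t^j)^l = 1 + b^l t^(l j) + terms of value ≤ r^(e0 (l-1) + j) < r^(l j). So v (m/z'^l - 1) < r^(l j), RV.step. -/
theorem RV.raise_mul (R : RV π l V t e0) {m : Ω} (hm : Hx π V m) (h0 : m ≠ 0) {j : ℕ} (hj : 1 ≤ j)
    (h2 : j < e0) (h : Lv π l V (V.valuation t ^ (l * j)) m) : Lv π l V (V.valuation t ^ (l * j + 1)) m := by
  obtain ⟨hl1, hq, ht1, ht0, he, hcase⟩ := R.val_l
  have hlp := R.D.hl
  have hl2 : 2 ≤ l := hlp.two_le
  obtain ⟨hN, -⟩ : Nm π = l ^ 2 ∧ True := by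
    rcases hcase with h3 | h3
    · omega
    · exact ⟨h3.1, trivial⟩
  have hHt : Hx π V t := by
    obtain ⟨T, hT, -, e⟩ := R.pt
    rw [e]
    exact Hx.tt hT
  have ht : t ≠ 0 := fun e => ht0 (by rw [e, map_zero])
  obtain ⟨z, hz, hz0, hv⟩ := h
  obtain ⟨w, hw⟩ : ∃ w, w = m / z ^ l - 1 := ⟨_, rfl⟩
  rw [← hw] at hv
  have hHw : Hx π V w := by
    rw [hw]
    exact (hm.div (hz.pow l)).sub Hx.one
  have htp : t ^ (l * j) ≠ 0 := pow_ne_zero _ ht
  have hHx : Hx π V (w / t ^ (l * j)) := hHw.div (hHt.pow _)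
  have hx1 : V.valuation (w / t ^ (l * j)) ≤ 1 := by
    rw [map_div₀, map_pow]
    exact div_le_one_of_le₀ hv zero_le
  obtain ⟨a, ha⟩ := R.residue hHx hx1
  obtain ⟨b, hb⟩ : ∃ b, b = a ^ l := ⟨_, rfl⟩
  have hab : V.valuation (algebraMap F Ω (a : F) - algebraMap F Ω (b : F) ^ l) < 1 := by
    have h3 : π ∣ a - b ^ l := by
      have h4 := lu_frob R.D.pr a
      rw [hN, pow_two, pow_mul, ← hb] at h4
      rw [← dvd_neg, neg_sub]
      exact h4
    have h5 := (R.vo_lt (a - b ^ l)).2 h3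
    have e1 : algebraMap F Ω (((a - b ^ l : O)) : F) = algebraMap F Ω (a : F) - algebraMap F Ω (b : F) ^ l := by
      rw [← map_pow, ← map_sub]
      rfl
    unfold vo at h5
    rw [e1] at h5
    exact h5
  obtain ⟨β, hβ⟩ : ∃ β, β = algebraMap F Ω (b : F) := ⟨_, rfl⟩
  obtain ⟨α, hα⟩ : ∃ α, α = algebraMap F Ω (a : F) := ⟨_, rfl⟩
  rw [← hβ, ← hα] at hab
  rw [← hα] at ha
  have hβ1 : V.valuation β ≤ 1 := by
    rw [hβ]
    exact qv_O V b
  have hHβ : Hx π V β := by
    rw [hβ]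
    exact Hx.alg _
  have htj : V.valuation (t ^ j) < 1 := by
    rw [map_pow]
    exact pow_lt_one₀ zero_le ht1 (by omega)
  have hd : V.valuation (β * t ^ j) < 1 := by
    rw [map_mul]
    exact lt_of_le_of_lt (mul_le_of_le_one_left' hβ1) htj
  obtain ⟨c, hc, hexp⟩ := lu_add_pow (l := l) V hlp hd.le (y := 1) (map_one _).le
  rw [one_pow] at hexp
  obtain ⟨u, hu⟩ : ∃ u, u = β * t ^ j + 1 := ⟨_, rfl⟩
  rw [← hu] at hexp
  have hu1 : V.valuation u = 1 := by
    rw [hu, Valuation.map_add_eq_of_lt_right]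
    · exact map_one V.valuation
    · rw [map_one]
      exact hd
  have hu0 : u ≠ 0 := fun e => by
    rw [e, map_zero] at hu1
    exact zero_ne_one hu1
  have hHu : Hx π V u := by
    rw [hu]
    exact (hHβ.mul (hHt.pow j)).add Hx.one
  have hr0 : 0 < V.valuation t := zero_lt_iff.2 ht0
  have hrp : 0 < V.valuation t ^ (l * j) := pow_pos hr0 _
  -- the error terms
  have e1 : V.valuation (w - α * t ^ (l * j)) < V.valuation t ^ (l * j) := by
    have e2 : w - α * t ^ (l * j) = (w / t ^ (l * j) - α) * t ^ (l * j) := by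
      rw [sub_mul, div_mul_cancel₀ _ htp]
    rw [e2, map_mul, map_pow]
    calc V.valuation (w / t ^ (l * j) - α) * V.valuation t ^ (l * j) < 1 * V.valuation t ^ (l * j) :=
          mul_lt_mul_of_pos_right ha hrp
      _ = _ := one_mul _
  have e2 : V.valuation ((α - β ^ l) * t ^ (l * j)) < V.valuation t ^ (l * j) := by
    rw [map_mul, map_pow]
    calc V.valuation (α - β ^ l) * V.valuation t ^ (l * j) < 1 * V.valuation t ^ (l * j) :=
          mul_lt_mul_of_pos_right hab hrp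
      _ = _ := one_mul _
  have e3 : V.valuation (l * (β * t ^ j) * 1 * c) < V.valuation t ^ (l * j) := by
    have h5 : l * j < e0 * (l - 1) + j := by
      obtain ⟨k, rfl⟩ : ∃ k, l = k + 1 := ⟨l - 1, by omega⟩
      rw [Nat.add_sub_cancel]
      have h6 : k * j < k * e0 := Nat.mul_lt_mul_of_pos_left h2 (by omega)
      have e1 : (k + 1) * j = k * j + j := by ring
      rw [e1, mul_comm e0 k]
      omega
    refine lt_of_le_of_lt ?_ (pow_lt_pow_right_of_lt_one₀ hr0 ht1 h5)
    rw [pow_add, he, mul_one, map_mul, map_mul, map_mul, map_pow]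
    exact (mul_le_of_le_one_right' hc).trans (mul_le_mul_right (mul_le_of_le_one_left' hβ1) _)
  have e4 : w - (u ^ l - 1) = (w - α * t ^ (l * j)) + (α - β ^ l) * t ^ (l * j) - l * (β * t ^ j) * 1 * c := by
    rw [hexp, mul_pow, ← pow_mul, mul_comm j l]
    ring
  have e5 : V.valuation (w - (u ^ l - 1)) < V.valuation t ^ (l * j) := by
    rw [e4]
    refine lt_of_le_of_lt (Valuation.map_sub _ _ _) (max_lt (lt_of_le_of_lt (Valuation.map_add _ _ _) (max_lt e1 e2)) e3)
  refine ⟨z * u, hz.mul hHu, mul_ne_zero hz0 hu0, ?_⟩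
  have e6 : m / (z * u) ^ l - 1 = (w - (u ^ l - 1)) / u ^ l := by
    rw [hw, mul_pow]
    have := pow_ne_zero l hz0
    have := pow_ne_zero l hu0
    field_simp
    ring
  refine R.step ((hm.div ((hz.mul hHu).pow l)).sub Hx.one) ?_
  rw [e6, map_div₀, map_pow, hu1, one_pow, div_one]
  exact e5

end H13Z
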