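import Mathlib
import Pool.Agent.Lib.H13Z.LU
import Pool.Agent.Lib.H13Z.LR3

open NumberField IsDedekindDomain

namespace H13Z

open H55P H28G H55B H13S

variable {Ω : Type} [Field Ω] [DecidableEq Ω] [Algebra F Ω] [IsAlgClosure F Ω]

variable {π : O} {l : ℕ} {V : ValuationSubring Ω} {t : Ω} {e0 : ℕ}

theorem lc1_hx (R : RV π l V t e0) : Hx π V t := by
  obtain ⟨T, hT, -, rfl⟩ := R.pt
  exact Hx.tt hT

theorem lc1_le (V : ValuationSubring Ω) (a : O) : V.valuation (algebraMap F Ω (a : F)) ≤ 1 := lv_le V a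

theorem lc1_mul (a b : O) : algebraMap F Ω ((a * b : O) : F) =
    algebraMap F Ω (a : F) * algebraMap F Ω (b : F) := by
  rw [← map_mul]
  congr 1

theorem lc1_pow (a : O) (n : ℕ) : algebraMap F Ω ((a ^ n : O) : F) = algebraMap F Ω (a : F) ^ n := by
  rw [← map_pow]
  congr 1

theorem lc1_add (a b : O) : algebraMap F Ω ((a + b : O) : F) =
    algebraMap F Ω (a : F) + algebraMap F Ω (b : F) := by
  rw [← map_add]
  congr 1

theorem lc1_sub (a b : O) : algebraMap F Ω ((a - b : O) : F) =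
    algebraMap F Ω (a : F) - algebraMap F Ω (b : F) := by
  rw [← map_sub]
  congr 1

theorem lc1_neg (a : O) : algebraMap F Ω ((-a : O) : F) = -algebraMap F Ω (a : F) := by
  rw [← map_neg]
  congr 1

theorem lc1_pow_le {V : ValuationSubring Ω} {t : Ω} (ht : V.valuation t < 1) {m n : ℕ} (h : m ≤ n) :
    V.valuation t ^ n ≤ V.valuation t ^ m :=
  pow_le_pow_right_of_le_one' ht.le h

/-- The value of the main term. -/
theorem lc1_term (V : ValuationSubring Ω) (t : Ω) (a : O) (i : ℕ) :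
    V.valuation (algebraMap F Ω (a : F) * t ^ i) ≤ V.valuation t ^ i := by
  rw [map_mul, map_pow]
  exact mul_le_of_le_one_left' (lc1_le V a)

/-- m/z^l is at most 1 away from 1 by the value of t^i. -/
theorem lc1_one {V : ValuationSubring Ω} {t : Ω} (ht : V.valuation t < 1) {A : Ω} {a : O} {i : ℕ}
    (h : V.valuation (A - 1 - algebraMap F Ω (a : F) * t ^ i) ≤ V.valuation t ^ (i + 1)) :
    V.valuation (A - 1) ≤ V.valuation t ^ i := by
  have e : A - 1 = (A - 1 - algebraMap F Ω (a : F) * t ^ i) + algebraMap F Ω (a : F) * t ^ i := by ring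
  rw [e]
  exact Valuation.map_add_le _ (h.trans (lc1_pow_le ht (Nat.le_succ i))) (lc1_term V t a i)

theorem lc1_unit {V : ValuationSubring Ω} {t : Ω} (ht : V.valuation t < 1) {A : Ω} {i : ℕ} (hi : 1 ≤ i)
    (h : V.valuation (A - 1) ≤ V.valuation t ^ i) : V.valuation A = 1 := by
  have h1 : V.valuation (A - 1) < 1 := by
    refine h.trans_lt (lt_of_le_of_lt (lc1_pow_le ht hi) ?_)
    rw [pow_one]
    exact ht
  have h2 := Valuation.map_one_add_of_lt V.valuation h1
  have e : 1 + (A - 1) = A := by ring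
  rwa [e] at h2

theorem lc1_ne {V : ValuationSubring Ω} {A : Ω} (h : V.valuation A = 1) : A ≠ 0 := by
  rintro rfl
  rw [map_zero] at h
  exact zero_ne_one h

theorem lc1_pow_sub {V : ValuationSubring Ω} {r : V.ValueGroup} {x y : Ω} (hx : V.valuation x ≤ r)
    (hy : V.valuation y ≤ r) (h : V.valuation (x - y) ≤ r ^ 2) (i : ℕ) :
    V.valuation (x ^ i - y ^ i) ≤ r ^ (i + 1) := by
  induction i with
  | zero => simp
  | succ i ih =>
    have e : x ^ (i + 1) - y ^ (i + 1) = x * (x ^ i - y ^ i) + (x - y) * y ^ i := by ring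
    rw [e]
    refine Valuation.map_add_le _ ?_ ?_
    · rw [map_mul]
      calc V.valuation x * V.valuation (x ^ i - y ^ i) ≤ r * r ^ (i + 1) := mul_le_mul' hx ih
        _ = r ^ (i + 1 + 1) := by rw [pow_succ' r (i + 1)]
    · rw [map_mul, map_pow]
      calc V.valuation (x - y) * V.valuation y ^ i ≤ r ^ 2 * r ^ i :=
            mul_le_mul' h (pow_le_pow_left' hy i)
        _ = r ^ (i + 1 + 1) := by rw [← pow_add, Nat.add_comm 2 i]

/-- Chunk LC1 (M), six lemmas on coefficients, r = V.valuation t. Existence: x = (m/z^l - 1)/t^i is in Hx with value ≤ 1: RV.residue; then RV.step for x - a. -/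
theorem RV.co_exists (R : RV π l V t e0) {m : Ω} (hm : Hx π V m) {i : ℕ}
    (h : Lv π l V (V.valuation t ^ i) m) : ∃ a : O, Co π l V t i m a := by
  obtain ⟨-, -, ht1, ht0, -, -⟩ := R.val_l
  obtain ⟨z, hz, z0, h1⟩ := h
  have htx := lc1_hx R
  have t0 : t ^ i ≠ 0 := by
    intro h2
    apply pow_ne_zero i ht0
    rw [← map_pow, h2, map_zero]
  have hx : Hx π V ((m / z ^ l - 1) / t ^ i) := ((hm.div (hz.pow l)).sub Hx.one).div (htx.pow i)
  have hx1 : V.valuation ((m / z ^ l - 1) / t ^ i) ≤ 1 := by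
    rw [map_div₀, map_pow]
    exact div_le_one_of_le₀ h1 zero_le
  obtain ⟨a, ha⟩ := R.residue hx hx1
  refine ⟨a, z, hz, z0, ?_⟩
  refine R.step (((hm.div (hz.pow l)).sub Hx.one).sub ((Hx.alg _).mul (htx.pow i))) ?_
  have e : m / z ^ l - 1 - algebraMap F Ω (a : F) * t ^ i =
      ((m / z ^ l - 1) / t ^ i - algebraMap F Ω (a : F)) * t ^ i := by
    rw [sub_mul, div_mul_cancel₀ _ t0]
  rw [e, map_mul, map_pow]
  exact mul_lt_of_lt_one_left (pow_pos (zero_lt_iff.2 ht0) i) ha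

/-- m/z^l = 1 + a t^i + .., m/z'^l = 1 + a' t^i + ..: (z'/z)^l = 1 + (a - a') t^i + .. modulo r^(i+1), pow_unit: v ((a - a') t^i) ≤ r^(i+1), so vo V (a - a') < 1, RV.vo_lt. -/
theorem RV.co_unique (R : RV π l V t e0) {m : Ω} (h0 : m ≠ 0) {i : ℕ} (hi : 1 ≤ i) (h2 : i < l * e0)
    (h3 : ¬ l ∣ i) {a a' : O} (h : Co π l V t i m a) (h' : Co π l V t i m a') : π ∣ a - a' := by
  obtain ⟨-, -, ht1, ht0, -, -⟩ := R.val_l
  obtain ⟨z, hz, z0, h4⟩ := h
  obtain ⟨z', hz', z0', h4'⟩ := h'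
  set A := m / z ^ l with hA
  set A' := m / z' ^ l with hA'
  have h5 := lc1_one ht1 h4
  have h5' := lc1_one ht1 h4'
  have h6' := lc1_unit ht1 hi h5'
  have n' := lc1_ne h6'
  have e1 : (z' / z) ^ l - 1 = (A - A') / A' := by
    have e2 : (z' / z) ^ l = A / A' := by
      rw [hA, hA', div_pow]
      have := pow_ne_zero l z0
      have := pow_ne_zero l z0'
      field_simp
    rw [e2, sub_div, div_self n']
  have e3 : V.valuation ((z' / z) ^ l - 1) = V.valuation (A - A') := by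
    rw [e1, map_div₀, h6', div_one]
  have h7 : V.valuation (A - A') ≤ V.valuation t ^ i := by
    have e : A - A' = (A - 1) - (A' - 1) := by ring
    rw [e]
    exact Valuation.map_sub_le _ h5 h5'
  have h8 := R.pow_unit (hz'.div hz) hi h2 h3 (e3.le.trans h7)
  rw [e3] at h8
  have h9 : V.valuation (algebraMap F Ω ((a - a' : O) : F) * t ^ i) ≤ V.valuation t ^ (i + 1) := by
    have e : algebraMap F Ω ((a - a' : O) : F) * t ^ i = (A - A') -
        ((A - 1 - algebraMap F Ω (a : F) * t ^ i) - (A' - 1 - algebraMap F Ω (a' : F) * t ^ i)) := by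
      rw [lc1_sub]
      ring
    rw [e]
    exact Valuation.map_sub_le _ h8 (Valuation.map_sub_le _ h4 h4')
  rw [← R.vo_lt]
  rw [map_mul, map_pow, pow_succ', mul_le_mul_iff_left₀ (pow_pos (zero_lt_iff.2 ht0) i)] at h9
  exact h9.trans_lt ht1

theorem RV.co_mul (R : RV π l V t e0) {m m' z : Ω} {i : ℕ} (hi : 1 ≤ i) {a a' : O} (h : Co π l V t i m a)
    (h' : Co π l V t i m' a') (hz : Hx π V z) (h0 : z ≠ 0) : Co π l V t i (m * m' * z ^ l) (a + a') := by
  obtain ⟨-, -, ht1, ht0, -, -⟩ := R.val_l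
  obtain ⟨z1, hz1, z10, h4⟩ := h
  obtain ⟨z2, hz2, z20, h4'⟩ := h'
  refine ⟨z1 * z2 * z, (hz1.mul hz2).mul hz, mul_ne_zero (mul_ne_zero z10 z20) h0, ?_⟩
  set A := m / z1 ^ l with hA
  set A' := m' / z2 ^ l with hA'
  have e1 : m * m' * z ^ l / (z1 * z2 * z) ^ l = A * A' := by
    rw [hA, hA', mul_pow, mul_pow]
    have := pow_ne_zero l z10
    have := pow_ne_zero l z20
    have := pow_ne_zero l h0
    field_simp
  have h5 := lc1_one ht1 h4
  have h5' := lc1_one ht1 h4'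
  have e2 : A * A' - 1 - algebraMap F Ω ((a + a' : O) : F) * t ^ i = (A - 1) * (A' - 1) +
      ((A - 1 - algebraMap F Ω (a : F) * t ^ i) + (A' - 1 - algebraMap F Ω (a' : F) * t ^ i)) := by
    rw [lc1_add]
    ring
  rw [e1, e2]
  refine Valuation.map_add_le _ ?_ (Valuation.map_add_le _ h4 h4')
  rw [map_mul]
  calc V.valuation (A - 1) * V.valuation (A' - 1) ≤ V.valuation t ^ i * V.valuation t ^ i :=
        mul_le_mul' h5 h5'
    _ = V.valuation t ^ (i + i) := by rw [pow_add]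
    _ ≤ V.valuation t ^ (i + 1) := lc1_pow_le ht1 (by omega)

/-- s t = b t modulo r^2 (RV.act_t), so s (t^i) = b^i t^i modulo r^(i+1); s preserves values (Dec.val), s (algebraMap a) = algebraMap a. -/
theorem RV.co_act (R : RV π l V t e0) {m z : Ω} {i : ℕ} {a b : O} (h : Co π l V t i m a)
    {s : Ω ≃ₐ[F] Ω} (hs : Dec V s) (hb : ∀ T ∈ Tor π Ω, ac W27 s T = H28G.act b T) (hz : Hx π V z)
    (h0 : z ≠ 0) : Co π l V t i (s m * z ^ l) (a * b ^ i) := by
  haveI : Algebra.IsAlgebraic F Ω := IsAlgClosure.isAlgebraic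
  obtain ⟨-, -, ht1, ht0, -, -⟩ := R.val_l
  obtain ⟨z1, hz1, z10, h4⟩ := h
  have z10' : s z1 ≠ 0 := by
    intro h5
    exact z10 (s.injective (h5.trans (map_zero s).symm))
  refine ⟨s z1 * z, (hz1.dec hs).mul hz, mul_ne_zero z10' h0, ?_⟩
  set A := m / z1 ^ l with hA
  have e1 : s m * z ^ l / (s z1 * z) ^ l = s A := by
    rw [hA, map_div₀, map_pow, mul_pow]
    have := pow_ne_zero l z10'
    have := pow_ne_zero l h0
    field_simp
  have h5 : V.valuation (s A - 1 - algebraMap F Ω (a : F) * (s t) ^ i) ≤ V.valuation t ^ (i + 1) := by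
    have e2 : s A - 1 - algebraMap F Ω (a : F) * (s t) ^ i =
        s (A - 1 - algebraMap F Ω (a : F) * t ^ i) := by
      rw [map_sub, map_sub, map_mul, map_pow, map_one, AlgEquiv.commutes]
    rw [e2, Dec.val hs]
    exact h4
  have h6 : V.valuation ((s t) ^ i - (algebraMap F Ω (b : F) * t) ^ i) ≤ V.valuation t ^ (i + 1) := by
    refine lc1_pow_sub (Dec.val hs t).le ?_ (R.act_t hb) i
    rw [map_mul]
    exact mul_le_of_le_one_left' (lc1_le V b)
  have e3 : s A - 1 - algebraMap F Ω ((a * b ^ i : O) : F) * t ^ i =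
      (s A - 1 - algebraMap F Ω (a : F) * (s t) ^ i) +
        algebraMap F Ω (a : F) * ((s t) ^ i - (algebraMap F Ω (b : F) * t) ^ i) := by
    rw [lc1_mul, lc1_pow]
    ring
  rw [e1, e3]
  refine Valuation.map_add_le _ h5 ?_
  rw [map_mul]
  exact (mul_le_of_le_one_left' (lc1_le V a)).trans h6

theorem RV.co_inv (R : RV π l V t e0) {m : Ω} (h0 : m ≠ 0) {i : ℕ} (hi : 1 ≤ i) {a : O}
    (h : Co π l V t i m a) : Co π l V t i m⁻¹ (-a) := by
  obtain ⟨-, -, ht1, ht0, -, -⟩ := R.val_l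
  obtain ⟨z1, hz1, z10, h4⟩ := h
  refine ⟨z1⁻¹, hz1.inv, inv_ne_zero z10, ?_⟩
  set A := m / z1 ^ l with hA
  have e1 : m⁻¹ / z1⁻¹ ^ l = A⁻¹ := by
    rw [hA, inv_pow, inv_div, div_inv_eq_mul, div_eq_mul_inv, mul_comm]
  have h5 := lc1_one ht1 h4
  have h6 := lc1_unit ht1 hi h5
  have n := lc1_ne h6
  have e2 : A⁻¹ - 1 - algebraMap F Ω ((-a : O) : F) * t ^ i =
      (algebraMap F Ω (a : F) * t ^ i * (A - 1) - (A - 1 - algebraMap F Ω (a : F) * t ^ i)) / A := by
    rw [lc1_neg]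
    field_simp
    ring
  rw [e1, e2, map_div₀, h6, div_one]
  refine Valuation.map_sub_le _ ?_ h4
  rw [map_mul]
  calc V.valuation (algebraMap F Ω (a : F) * t ^ i) * V.valuation (A - 1) ≤
        V.valuation t ^ i * V.valuation t ^ i := mul_le_mul' (lc1_term V t a i) h5
    _ = V.valuation t ^ (i + i) := by rw [pow_add]
    _ ≤ V.valuation t ^ (i + 1) := lc1_pow_le ht1 (by omega)

theorem lc1_small (R : RV π l V t e0) {d : O} (hd : π ∣ d) (i : ℕ) :
    V.valuation (algebraMap F Ω (d : F) * t ^ i) ≤ V.valuation t ^ (i + 1) := by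
  obtain ⟨-, -, ht1, ht0, -, -⟩ := R.val_l
  refine R.step ((Hx.alg _).mul ((lc1_hx R).pow i)) ?_
  rw [map_mul, map_pow]
  exact mul_lt_of_lt_one_left (pow_pos (zero_lt_iff.2 ht0) i) ((R.vo_lt d).2 hd)

theorem RV.co_cong (R : RV π l V t e0) {m : Ω} {i : ℕ} {a a' : O} (h : Co π l V t i m a)
    (hd : π ∣ a - a') : Co π l V t i m a' := by
  obtain ⟨z1, hz1, z10, h4⟩ := h
  refine ⟨z1, hz1, z10, ?_⟩
  have e : m / z1 ^ l - 1 - algebraMap F Ω (a' : F) * t ^ i =
      (m / z1 ^ l - 1 - algebraMap F Ω (a : F) * t ^ i) + algebraMap F Ω ((a - a' : O) : F) * t ^ i := by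
    rw [lc1_sub]
    ring
  rw [e]
  exact Valuation.map_add_le _ h4 (lc1_small R hd i)

theorem RV.co_zero (R : RV π l V t e0) {m : Ω} {i : ℕ} {a : O} (h : Co π l V t i m a) (hd : π ∣ a) :
    Lv π l V (V.valuation t ^ (i + 1)) m := by
  obtain ⟨z1, hz1, z10, h4⟩ := h
  refine ⟨z1, hz1, z10, ?_⟩
  have e : m / z1 ^ l - 1 = (m / z1 ^ l - 1 - algebraMap F Ω (a : F) * t ^ i) +
      algebraMap F Ω (a : F) * t ^ i := by ring
  rw [e]
  exact Valuation.map_add_le _ h4 (lc1_small R hd i)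

end H13Z
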