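import Mathlib
import Pool.Agent.Lib.H13Z.LC1

open NumberField IsDedekindDomain

namespace H13Z

open H55P H28G H55B H13S

variable {Ω : Type} [Field Ω] [DecidableEq Ω] [Algebra F Ω] [IsAlgClosure F Ω]

variable {π : O} {l : ℕ} {V : ValuationSubring Ω} {t : Ω} {e0 : ℕ}

theorem lc2_mem {T : P27 Ω} (hT : T ∈ Tor π Ω) (x : O) : H28G.act x T ∈ Tor π Ω := by
  rw [mem_Tor] at hT ⊢
  rw [← act_mul, mul_comm, act_mul, hT, map_zero]

/-- Chunk LC2 (M). The coefficient at a level i prime to l is determined by the one at T₀: if π does not divide x take s with ac s T = act x T (RV.exists_inert), Sys.act, co_act. If π divides x: act x T₀ = 0, m 0 = m (0 + 0) = m 0 * m 0 * z^l, so m 0 = (z⁻¹)^l has the coefficient 0, and π divides a x^i. -/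
theorem RV.lin (R : RV π l V t e0) {m : P27 Ω → Ω} (hm : Sys π l V m) {T₀ : P27 Ω} (hT : T₀ ∈ Tor π Ω)
    {i : ℕ} (hi : 1 ≤ i) {a : O} (h : Co π l V t i (m T₀) a) (x : O) :
    Co π l V t i (m (H28G.act x T₀)) (a * x ^ i) := by
  by_cases hx : π ∣ x
  · have e0 : H28G.act x T₀ = 0 := by
      obtain ⟨k, rfl⟩ := hx
      rw [mul_comm, act_mul, mem_Tor.1 hT, map_zero]
    rw [e0]
    have hT0 : (0 : P27 Ω) ∈ Tor π Ω := AddSubgroup.zero_mem _
    have hm0 := hm.ne 0 hT0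
    obtain ⟨z, hz, z0, h1⟩ := hm.add 0 hT0 0 hT0
    rw [add_zero] at h1
    have h2 : m 0 * z ^ l = 1 := by
      have h3 : m 0 * (m 0 * z ^ l) = m 0 * 1 := by
        rw [mul_one, ← mul_assoc]
        exact h1.symm
      exact mul_left_cancel₀ hm0 h3
    have h3 : Co π l V t i (m 0) 0 := by
      refine ⟨z⁻¹, hz.inv, inv_ne_zero z0, ?_⟩
      have e1 : m 0 / z⁻¹ ^ l = 1 := by
        rw [inv_pow, div_inv_eq_mul, h2]
      have e2 : algebraMap F Ω ((0 : O) : F) = 0 := by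
        rw [show ((0 : O) : F) = 0 from map_zero (algebraMap O F), map_zero]
      rw [e1, e2, zero_mul, sub_self, sub_self, map_zero]
      exact zero_le
    refine R.co_cong h3 ?_
    rw [zero_sub, dvd_neg]
    exact (hx.trans (dvd_pow_self x (by omega))).mul_left a
  · obtain ⟨s, hs, hsT⟩ := R.exists_inert hx
    obtain ⟨z, hz, z0, h1⟩ := hm.act s (Inert.dec hs) T₀ hT
    rw [← hsT T₀ hT, h1]
    exact R.co_act h (Inert.dec hs) hsT hz z0

/-- If the coefficient a at T₀ is not divisible by π then x → x^i is additive modulo π: Sys.add, co_mul, co_unique for act (x + y) T₀: π divides a ((x + y)^i - x^i - y^i). -/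
theorem RV.pow_add (R : RV π l V t e0) {m : P27 Ω → Ω} (hm : Sys π l V m) {T₀ : P27 Ω} (hT : T₀ ∈ Tor π Ω)
    {i : ℕ} (hi : 1 ≤ i) (h2 : i < l * e0) (h3 : ¬ l ∣ i) {a : O} (h : Co π l V t i (m T₀) a)
    (ha : ¬ π ∣ a) (x y : O) : π ∣ (x + y) ^ i - x ^ i - y ^ i := by
  have hx := R.lin hm hT hi h x
  have hy := R.lin hm hT hi h y
  have hxy := R.lin hm hT hi h (x + y)
  obtain ⟨z, hz, z0, h1⟩ := hm.add _ (lc2_mem hT x) _ (lc2_mem hT y)
  have h4 := R.co_mul hi hx hy hz z0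
  rw [← h1, ← act_add] at h4
  have h5 := R.co_unique (hm.ne _ (lc2_mem hT (x + y))) hi h2 h3 hxy h4
  have e : a * (x + y) ^ i - (a * x ^ i + a * y ^ i) = a * ((x + y) ^ i - x ^ i - y ^ i) := by ring
  rw [e] at h5
  exact (R.D.pr.dvd_or_dvd h5).resolve_left ha

end H13Z
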