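import Mathlib
import Pool.Agent.Lib.H13Z.LC2
import Pool.Agent.Lib.H13Z.LPA

open NumberField IsDedekindDomain

namespace H13Z

open H55P H28G H55B H13S

variable {Ω : Type} [Field Ω] [DecidableEq Ω] [Algebra F Ω] [IsAlgClosure F Ω]

variable {π : O} {l : ℕ} {V : ValuationSubring Ω} {t : Ω} {e0 : ℕ}

/-- Chunk LC3 (S/M). The level is raised from 2 to l if Nm π = l and to l^2 + l - 1 if Nm π = l^2. One step i → i + 1 for i ≥ 2: if l | i, i = l j with j < e0: raise_mul. Otherwise: coefficient a at T₀ (co_exists); if π does not divide a then pow_add, pow_add_class: l - 1 | i - 1 with 2 ≤ i < l: impossible if Nm π = l;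
if Nm π = l^2: l^2 - 1 divides i - 1 (1 < i < l^2 + l - 1: i = l^2, but l | i) or i - l (i = l, or i ≥ l^2 + l - 1, or i < l: l - i < l^2 - 1): impossible. So π | a, lin: the coefficients at all T = act x T₀ are divisible by π (gi_gen / PA1_gen: T₀ generates), co_zero. -/
theorem RV.levels (R : RV π l V t e0) {m : P27 Ω → Ω} (hm : Sys π l V m) {n : ℕ}
    (hn : Nm π = l ∧ n = l ∨ Nm π = l ^ 2 ∧ n = l ^ 2 + l - 1)
    (h : ∀ T ∈ Tor π Ω, Lv π l V (V.valuation t ^ 2) (m T)) :
    ∀ T ∈ Tor π Ω, Lv π l V (V.valuation t ^ n) (m T) := by
  have h5 := R.D.five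
  have hcase := R.val_l.2.2.2.2.2
  have hn2 : 2 ≤ n := by
    rcases hn with ⟨-, h1⟩ | ⟨-, h1⟩
    · omega
    · have : l ≤ l ^ 2 := Nat.le_self_pow (by norm_num) l
      omega
  have key : ∀ i, 2 ≤ i → i ≤ n → ∀ T ∈ Tor π Ω, Lv π l V (V.valuation t ^ i) (m T) := by
    intro i hi2
    induction i, hi2 using Nat.le_induction with
    | base => exact fun _ => h
    | succ i hi ih =>
      intro hin T hT
      have ih' := ih (by omega)
      have hi1 : 1 ≤ i := by omega
      have hie : i < l * e0 := by
        rcases hn with ⟨h1, h2⟩ | ⟨h1, h2⟩
        · rcases hcase with ⟨-, h4⟩ | ⟨h3, -, -⟩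
          · rw [h4]
            omega
          · exfalso
            rw [h1] at h3
            have : l * 1 < l * l := Nat.mul_lt_mul_of_pos_left (by omega) (by omega)
            rw [sq] at h3
            omega
        · rcases hcase with ⟨h3, -⟩ | ⟨-, h4, -⟩
          · exfalso
            rw [h1] at h3
            have : l * 1 < l * l := Nat.mul_lt_mul_of_pos_left (by omega) (by omega)
            rw [sq] at h3
            omega
          · rw [h4, mul_add, mul_one, ← sq]
            omega
      by_cases hli : l ∣ i
      · obtain ⟨j, rfl⟩ := hli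
        have hj : 1 ≤ j := by
          rcases Nat.eq_zero_or_pos j with h6 | h6
          · rw [h6] at hi
            omega
          · exact h6
        exact R.raise_mul (hm.fx T hT) (hm.ne T hT) hj (lt_of_mul_lt_mul_left hie (Nat.zero_le l))
          (ih' T hT)
      · obtain ⟨-, T₀, hT₀, hgen, -⟩ := gi_gen (Ω := Ω) π R.D.pr R.D.prim
        obtain ⟨a, ha⟩ := R.co_exists (hm.fx T₀ hT₀) (ih' T₀ hT₀)
        by_cases hpa : π ∣ a
        · obtain ⟨x, rfl⟩ := hgen T hT
          exact R.co_zero (R.lin hm hT₀ hi1 ha x) (hpa.mul_right _)
        · exfalso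
          have h7 := pow_add_class R.D hi1 (R.pow_add hm hT₀ hi1 hie hli ha hpa)
          rcases hn with ⟨h1, h2⟩ | ⟨h1, h2⟩
          · rcases h7 with h8 | ⟨h8, -⟩
            · rw [h1] at h8
              have h9 := Int.le_of_dvd (by omega) h8
              omega
            · rw [h1] at h8
              have : l * 1 < l * l := Nat.mul_lt_mul_of_pos_left (by omega) (by omega)
              rw [sq] at h8
              omega
          · have hll : l * 5 ≤ l * l := Nat.mul_le_mul_left l h5
            rw [sq] at h1 h2
            rw [h1] at h7
            rcases h7 with h8 | ⟨-, h8⟩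
            · obtain ⟨k, hk⟩ := h8
              have hk1 : k = 1 := by
                have e1 : 0 < (i : ℤ) - 1 := by omega
                have e2 : (i : ℤ) - 1 < 2 * (((l * l : ℕ) : ℤ) - 1) := by omega
                have e3 : 0 < ((l * l : ℕ) : ℤ) - 1 := by omega
                have e4 : 0 < k := by
                  by_contra h9
                  have : (((l * l : ℕ) : ℤ) - 1) * k ≤ 0 :=
                    mul_nonpos_of_nonneg_of_nonpos e3.le (not_lt.1 h9)
                  omega
                have e5 : k < 2 := by
                  by_contra h9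
                  have : (((l * l : ℕ) : ℤ) - 1) * 2 ≤ (((l * l : ℕ) : ℤ) - 1) * k :=
                    mul_le_mul_of_nonneg_left (not_lt.1 h9) e3.le
                  omega
                omega
              rw [hk1, mul_one] at hk
              apply hli
              have : i = l * l := by omega
              rw [this]
              exact dvd_mul_right l l
            · obtain ⟨k, hk⟩ := h8
              have hk1 : k = 0 := by
                have e1 : -(((l * l : ℕ) : ℤ) - 1) < (i : ℤ) - l := by omega
                have e2 : (i : ℤ) - l < ((l * l : ℕ) : ℤ) - 1 := by omega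
                have e3 : 0 < ((l * l : ℕ) : ℤ) - 1 := by omega
                have e4 : -1 < k := by
                  by_contra h9
                  have : (((l * l : ℕ) : ℤ) - 1) * k ≤ (((l * l : ℕ) : ℤ) - 1) * (-1) :=
                    mul_le_mul_of_nonneg_left (not_lt.1 h9) e3.le
                  omega
                have e5 : k < 1 := by
                  by_contra h9
                  have : (((l * l : ℕ) : ℤ) - 1) * 1 ≤ (((l * l : ℕ) : ℤ) - 1) * k :=
                    mul_le_mul_of_nonneg_left (not_lt.1 h9) e3.le
                  omega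
                omega
              rw [hk1, mul_zero] at hk
              apply hli
              have : i = l := by omega
              rw [this]
  exact key n hn2 le_rfl

end H13Z
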