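import Mathlib
import Pool.Agent.Lib.H13Z.LR2
import Pool.Agent.Lib.H13Z.KB2
import Pool.Agent.Lib.H13S.LD3

open NumberField IsDedekindDomain

namespace H13Z

open H55P H28G H55B H13S

variable {Ω : Type} [Field Ω] [DecidableEq Ω] [Algebra F Ω] [IsAlgClosure F Ω]

variable {π : O} {l : ℕ} {V : ValuationSubring Ω} {t : Ω} {e0 : ℕ} {e : P27 Ω → P27 Ω → Ω}

/-- the roots of unity are in L -/
theorem lv_mu (D : Dat π l) (hin : cj π = π) (he : Pairing π l e) {B L : IntermediateField F Ω}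
    (hL : IsTB π B L) (ζ : Ω) (hζ : ζ ^ l = 1) : ζ ∈ L := by
  have hl := D.hl
  obtain ⟨-, X, hX, -, hX0⟩ := gi_gen (Ω := Ω) π D.pr D.prim
  have hXne : X ≠ 0 := by
    intro h
    have h1 : H28G.act (1 : O) X = 0 := by rw [h, map_zero]
    exact D.pr.not_isUnit (isUnit_of_dvd_one ((hX0 1).1 h1))
  have hX' : X ∈ Tor (cj π) Ω := by rw [hin]; exact hX
  obtain ⟨T, hT, hTe⟩ : ∃ T ∈ Tor π Ω, e X T ≠ 1 := by
    by_contra h
    push Not at h
    exact hXne (he.nondeg X hX' h)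
  have hprim : IsPrimitiveRoot (e X T) l := by
    have : Fact l.Prime := ⟨hl⟩
    have h1 := orderOf_eq_prime (he.root X hX' T hT) hTe
    rw [← h1]
    exact IsPrimitiveRoot.orderOf _
  have : NeZero l := ⟨hl.ne_zero⟩
  obtain ⟨i, -, hi⟩ := hprim.eq_pow_of_pow_eq_one hζ
  have hmem : e X T ∈ L := by
    apply ku2_mem
    intro s hs
    rw [he.act s X hX' T hT, ((hL.fix s).1 hs).2 T hT, ((hL.fix s).1 hs).2 X hX]
  rw [← hi]
  exact pow_mem hmem i

theorem level_gen (D : Dat π l) (hin : cj π = π) (hq : Nm π = l ^ 2) (he : Pairing π l e)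
    {B L : IntermediateField F Ω} [NumberField L] (hL : IsTB π B L) (V : ValuationSubring Ω)
    (hV : vo V π < 1) (w : HeightOneSpectrum (𝓞 L)) (hw : Abv L V w) {P : P27 Ω} (hP : Kr V P)
    (hPv : V.valuation (tt P) ^ Nm π = vo V π) (C : Cc π B fun s => ac W27 s P - P)
    (T : P27 Ω) (hT : T ∈ Tor π Ω) (m : L) (hm : m ≠ 0) (y : Ω)
    (hyk : Kum L e (fun s => ac W27 s P - P) T y) (hy : y ^ l = (m : Ω)) :
    ∃ z : L, z ≠ 0 ∧ w.valuation L (m / z ^ l - 1) ≤ WithZero.exp (-2 : ℤ) := by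
  obtain ⟨c, hcdef⟩ : ∃ c : (Ω ≃ₐ[F] Ω) → P27 Ω, c = fun s => ac W27 s P - P := ⟨_, rfl⟩
  rw [← hcdef] at C hyk
  classical
  have hchar : CharZero Ω := charZero_of_injective_algebraMap (algebraMap F Ω).injective
  have hl0 : l ≠ 0 := D.hl.ne_zero
  have hVl : V.valuation (l : Ω) = vo V π := ld3_l D.hl D.dvd hq V
  have hVl1 : V.valuation (l : Ω) < 1 := hVl ▸ hV
  by_contra hlev
  have hex : ∃ s ∈ L.fixingSubgroup, Inert V s ∧ s y ≠ y := by
    by_contra hcon
    push Not at hcon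
    exact hlev (level_unr L V w hw l D.hl hVl1 m hm y hy hcon)
  obtain ⟨s₁, hs1, hi1, hne1⟩ := hex
  have hTfix : ∀ s ∈ L.fixingSubgroup, ∀ R ∈ Tor π Ω, ac W27 s R = R := fun s hs => ((hL.fix s).1 hs).2
  have hcT : ∀ s ∈ L.fixingSubgroup, c s ∈ Tor π Ω := fun s hs => by
    have := C.val s (hL.mono hs)
    rwa [hin] at this
  have hc1 : c s₁ ≠ 0 := by
    intro h0
    apply hne1
    rw [hyk.2 s₁ hs1, h0, ld3_e0 hl0 he hT, one_mul]
  have hT0 : T ≠ 0 := by
    intro h0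
    apply hne1
    rw [hyk.2 s₁ hs1, h0, ld3_e0' hl0 he (C.val _ (hL.mono hs1)), one_mul]
  have hQc : ∀ h : Ω ≃ₐ[F] Ω, c h = ac W27 h P - P := fun h => by rw [hcdef]
  have hr := hPv
  have hq3 : 3 ≤ Nm π := by
    rw [hq]
    nlinarith [D.five]
  have hvr := fun R (hR : R ∈ Tor π Ω) (h0 : R ≠ 0) => val_ratio D.pr D.prim hq3 V hV P hP hr R hR h0
  have hcard : Nat.card (Tor π Ω) = Nm π := (gi_gen π D.pr D.prim).1
  have hfin : Finite (Tor π Ω) := Nat.finite_of_card_ne_zero (by rw [hcard]; omega)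
  have hV0 : vo V π ≠ 0 := by
    unfold vo
    rw [Ne, map_eq_zero, map_eq_zero]
    exact_mod_cast D.pr.ne_zero
  have hQ0 : V.valuation (tt P) ≠ 0 := by
    intro h0
    rw [h0, zero_pow (by omega)] at hr
    exact hV0 hr.symm
  -- the set J
  have hJfin : {R : P27 Ω | ∃ h ∈ L.fixingSubgroup, Inert V h ∧ h y = y ∧ c h = R}.Finite := by
    refine Set.Finite.subset (Set.toFinite (Tor π Ω : Set (P27 Ω))) ?_
    rintro R ⟨h, hh, -, -, rfl⟩
    exact hcT h hh
  set J : Finset (P27 Ω) := hJfin.toFinset with hJ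
  have hJmem : ∀ R, R ∈ J ↔ ∃ h ∈ L.fixingSubgroup, Inert V h ∧ h y = y ∧ c h = R := fun R => by
    rw [hJ, Set.Finite.mem_toFinset]
    rfl
  have hJT : ∀ R ∈ J, R ∈ Tor π Ω := fun R hR => by
    obtain ⟨h, hh, -, -, rfl⟩ := (hJmem R).1 hR
    exact hcT h hh
  have hJcard : J.card ≤ Nm π := by
    rw [← hcard]
    have h1 : (J : Set (P27 Ω)) ⊆ (Tor π Ω : Set (P27 Ω)) := fun R hR => hJT R hR
    calc J.card = Set.ncard (J : Set (P27 Ω)) := (Set.ncard_coe_finset J).symm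
      _ ≤ Set.ncard (Tor π Ω : Set (P27 Ω)) := Set.ncard_le_ncard h1 (Set.toFinite _)
      _ = Nat.card (Tor π Ω) := rfl
  have hJ0 : (0 : P27 Ω) ∈ J := (hJmem 0).2 ⟨1, Subgroup.one_mem _, fun x _ => by simp, rfl, C.one⟩
  have hcadd : ∀ h ∈ L.fixingSubgroup, ∀ h' ∈ L.fixingSubgroup, c (h * h') = c h + c h' := fun h hh h' hh' => by
    rw [C.mul h (hL.mono hh) h' (hL.mono hh'), hTfix h hh _ (hcT h' hh')]
  have hcinv : ∀ h ∈ L.fixingSubgroup, c h⁻¹ = -c h := fun h hh => by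
    have h1 := hcadd h hh h⁻¹ (Subgroup.inv_mem _ hh)
    rw [mul_inv_cancel, C.one] at h1
    exact (neg_eq_of_add_eq_zero_right h1.symm).symm
  -- values
  have hval : ∀ R ∈ Tor π Ω, V.valuation (tt (P + R)) = V.valuation (tt P) := fun R hR => by
    by_cases h0 : R = 0
    · rw [h0, add_zero]
    · exact (hvr R hR h0).1
  have htau : ∀ R ∈ Tor π Ω, R ≠ 0 → V.valuation (tt R) = V.valuation (tt T) := fun R hR h0 => by
    have h1 := (kr_tor_ram π D.pr D.prim V hV hR h0).2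
    have h2 := (kr_tor_ram π D.pr D.prim V hV hT hT0).2
    exact (pow_left_inj₀ zero_le zero_le (by omega)).1 (h1.trans h2.symm)
  have hTQ : V.valuation (tt T) < V.valuation (tt P) := (hvr T hT hT0).2.2
  have hTv : V.valuation (tt T) ^ (Nm π - 1) = vo V π := (kr_tor_ram π D.pr D.prim V hV hT hT0).2
  have hT0' : V.valuation (tt T) ≠ 0 := by
    intro h0
    rw [h0, zero_pow (by omega)] at hTv
    exact hV0 hTv.symm
  obtain ⟨a, ha⟩ : ∃ a, a = V.valuation (tt T) / V.valuation (tt P) := ⟨_, rfl⟩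
  have ha1 : a < 1 := by
    rw [ha]
    exact (div_lt_one₀ (zero_lt_iff.2 hQ0)).2 hTQ
  have ha0 : 0 < a := by
    rw [ha, zero_lt_iff]
    exact div_ne_zero hT0' hQ0
  have haq : a ^ (Nm π * (Nm π - 1)) = vo V π := by
    have h1 : V.valuation (tt T) ^ (Nm π * (Nm π - 1)) = vo V π ^ Nm π := by
      rw [mul_comm, pow_mul, hTv]
    have h2 : V.valuation (tt P) ^ (Nm π * (Nm π - 1)) = vo V π ^ (Nm π - 1) := by
      rw [pow_mul, hr]
    have h3 : vo V π ^ Nm π = vo V π ^ (Nm π - 1) * vo V π := by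
      rw [← pow_succ]
      congr 1
      omega
    rw [ha, div_pow, h1, h2, h3]
    exact mul_div_cancel_left₀ _ (pow_ne_zero _ hV0)
  -- the bound
  have hbd := prod_bound V J hJ0 (fun R => tt T / tt (P + R))
    (fun R hR => by
      rw [map_div₀, hval R (hJT R hR), ← ha]
      exact ha1.le)
    {σ : Ω ≃+* Ω | ∃ h ∈ L.fixingSubgroup, Inert V h ∧ h y = y ∧ σ = (h : Ω ≃+* Ω)}
    (by
      rintro σ ⟨h, hh, hih, hhy, rfl⟩
      refine ⟨c h, fun R hR => ?_, fun R => ⟨fun hR => ?_, fun hR => ?_⟩⟩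
      · change h (tt T / tt (P + R)) = tt T / tt (P + (R + c h))
        rw [map_div₀, ← ld3_tt, ← ld3_tt, hTfix h hh T hT, map_add, hTfix h hh R (hJT R hR)]
        have h1 : ac W27 h P = c h + P := by
          rw [hQc h, sub_add_cancel]
        rw [h1]
        congr 2
        abel
      · obtain ⟨k, hk, hik, hky, rfl⟩ := (hJmem R).1 hR
        refine (hJmem _).2 ⟨k * h, Subgroup.mul_mem _ hk hh, ld3_mul hik hih, ?_, hcadd k hk h hh⟩
        change k (h y) = y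
        rw [hhy, hky]
      · obtain ⟨k, hk, hik, hky, hkc⟩ := (hJmem _).1 hR
        refine (hJmem _).2 ⟨k * h⁻¹, Subgroup.mul_mem _ hk (Subgroup.inv_mem _ hh),
          ld3_mul hik (ld3_inv hih), ?_, ?_⟩
        · change k (h⁻¹ y) = y
          have h1 : h⁻¹ y = y := by
            have h2 : h⁻¹ (h y) = y := AlgEquiv.symm_apply_apply h y
            rwa [hhy] at h2
          rw [h1, hky]
        · rw [hcadd k hk h⁻¹ (Subgroup.inv_mem _ hh), hcinv h hh, hkc, add_neg_cancel_right])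
    (s₁ : Ω ≃+* Ω) (l - 1) (V.valuation (l : Ω))
    (fun b hb hf => coef_bound L V w hw l D.hl (by have := D.five; omega) hVl1
      (lv_mu D hin he hL) m hm y hy hlev b hb
      (fun s hs hi hsy => hf (s : Ω ≃+* Ω) ⟨s, hs, hi, hsy, rfl⟩) s₁ hs1 hi1)
  have hterm : ∀ R ∈ J, V.valuation (tt T / tt (P + 0) - (s₁ : Ω ≃+* Ω) (tt T / tt (P + R))) = a ^ 2 := by
    intro R hR
    have hR' := hJT R hR
    have h0 : R + c s₁ ≠ 0 := by
      intro h0
      obtain ⟨k, hk, hik, hky, hkc⟩ := (hJmem R).1 hR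
      apply hne1
      have h1 : c s₁ = c k⁻¹ := by
        rw [hcinv k hk, hkc]
        exact eq_neg_of_add_eq_zero_right h0
      have h2 : k⁻¹ y = y := by
        have h3 : k⁻¹ (k y) = y := AlgEquiv.symm_apply_apply k y
        rwa [hky] at h3
      rw [hyk.2 s₁ hs1, h1, ← hyk.2 k⁻¹ (Subgroup.inv_mem _ hk), h2]
    have hT' : R + c s₁ ∈ Tor π Ω := AddSubgroup.add_mem _ hR' (hcT s₁ hs1)
    have e1 : (s₁ : Ω ≃+* Ω) (tt T / tt (P + R)) = tt T / tt (P + (R + c s₁)) := by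
      change s₁ (tt T / tt (P + R)) = _
      rw [map_div₀, ← ld3_tt, ← ld3_tt, hTfix s₁ hs1 T hT, map_add, hTfix s₁ hs1 R hR']
      have h1 : ac W27 s₁ P = c s₁ + P := by
        rw [hQc s₁, sub_add_cancel]
      rw [h1]
      congr 2
      abel
    rw [e1, add_zero]
    have hv1 := hvr _ hT' h0
    have hne2 : tt (P + (R + c s₁)) ≠ 0 := by
      intro h1
      rw [h1, map_zero] at hv1
      exact hQ0 hv1.1.symm
    have hne3 : tt P ≠ 0 := by
      intro h1
      rw [h1, map_zero] at hQ0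
      exact hQ0 rfl
    have e2 : tt T / tt P - tt T / tt (P + (R + c s₁)) =
        tt T * (tt (P + (R + c s₁)) - tt P) / (tt P * tt (P + (R + c s₁))) := by
      field_simp
    rw [e2, map_div₀, map_mul, map_mul, hv1.1, hv1.2.1, htau _ hT' h0, ha, div_pow, sq, sq]
  rw [Finset.prod_congr rfl (fun R hR => rfl), map_prod] at hbd
  rw [Finset.prod_congr rfl hterm, Finset.prod_const, hVl, ← haq, ← pow_mul, ← pow_mul] at hbd
  have h1 := (pow_le_pow_iff_right_of_lt_one₀ ha0 ha1).1 hbd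
  have h2 : 2 * J.card * (l - 1) ≤ 2 * Nm π * (l - 1) := by
    exact Nat.mul_le_mul_right _ (Nat.mul_le_mul_left _ hJcard)
  have h3 : Nm π * (Nm π - 1) ≤ Nm π * (2 * (l - 1)) := by
    calc Nm π * (Nm π - 1) ≤ 2 * (J.card * (l - 1)) := h1
      _ = 2 * J.card * (l - 1) := by ring
      _ ≤ 2 * Nm π * (l - 1) := h2
      _ = Nm π * (2 * (l - 1)) := by ring
  have h4 := Nat.le_of_mul_le_mul_left h3 (by omega)
  rw [hq] at h4
  have h5 := D.five
  have h6 : l * l = l ^ 2 := by ring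
  have h7 : 5 * l ≤ l ^ 2 := by
    rw [← h6]
    exact Nat.mul_le_mul_right l h5
  omega


theorem lv_hx {B L : IntermediateField F Ω} (hL : IsTB π B L)
    (hB : ∀ s, Dec V s → s ∈ B.fixingSubgroup) (x : L) : Hx π V (x : Ω) := by
  intro s hs
  have h1 : s ∈ L.fixingSubgroup := (hL.fix s).2 ⟨hB s hs.1, hs.2⟩
  exact (IntermediateField.mem_fixingSubgroup_iff L _).1 h1 x x.2

theorem level_pt (R : RV π l V t e0) (hin : cj π = π) (hq : Nm π = l ^ 2) (he : Pairing π l e)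
    {B L : IntermediateField F Ω} [NumberField L] (hL : IsTB π B L)
    (hB : ∀ s, Dec V s → s ∈ B.fixingSubgroup) {P : P27 Ω} (hP : Kr V P)
    (hPv : V.valuation (tt P) ^ Nm π = vo V π) (C : Cc π B fun s => ac W27 s P - P)
    (T : P27 Ω) (hT : T ∈ Tor π Ω) (y : Ω) (hyk : Kum L e (fun s => ac W27 s P - P) T y) :
    Lv π l V (V.valuation t ^ 2) (y ^ l) := by
  obtain ⟨-, -, ht1, ht0, -, -⟩ := R.val_l
  have htne : t ≠ 0 := (Valuation.ne_zero_iff _).1 ht0
  have htL : t ∈ L := by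
    obtain ⟨T₀, hT₀, -, rfl⟩ := R.pt
    apply ku2_mem
    intro s hs
    rw [← ld3_tt, ((hL.fix s).1 hs).2 _ hT₀]
  obtain ⟨tL, htL'⟩ : ∃ tL : L, (tL : Ω) = t := ⟨⟨t, htL⟩, rfl⟩
  obtain ⟨w, hw⟩ := exists_below L V ⟨tL⁻¹, by
    rw [← V.valuation_le_one_iff]
    push_cast
    rw [htL', map_inv₀, not_le]
    exact (one_lt_inv₀ (zero_lt_iff.2 ht0)).2 ht1⟩
  obtain ⟨m, hm, hm0⟩ := kumB_pow C he hL hT hyk
  obtain ⟨z, hz0, hz⟩ := level_gen R.D hin hq he hL V R.above w hw hP hPv C T hT m hm0 y hyk hm.symm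
  have htL0 : tL ≠ 0 := by
    rintro rfl
    exact htne (by rw [← htL']; simp)
  have hwt0 : w.valuation L tL ≠ 0 := (Valuation.ne_zero_iff _).2 htL0
  obtain ⟨j, hj⟩ : ∃ j : ℤ, w.valuation L tL = WithZero.exp j :=
    ⟨WithZero.log (w.valuation L tL), (WithZero.exp_log hwt0).symm⟩
  have hj1 : j < 0 := by
    have h1 : w.valuation L tL < 1 := by
      rw [← hw.lt, htL']
      exact ht1
    rw [hj, ← WithZero.exp_zero, WithZero.exp_lt_exp] at h1
    exact h1
  obtain ⟨u, hu⟩ := w.valuation_exists_uniformizer L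
  have hu' : w.valuation L u = WithZero.exp (-1 : ℤ) := hu
  have hu0 : u ≠ 0 := by
    rintro rfl
    rw [map_zero] at hu'
    exact WithZero.exp_ne_zero hu'.symm
  obtain ⟨n, hn⟩ := R.values (lv_hx hL hB u) (by exact_mod_cast hu0)
  have hzc : ((tL ^ n : L) : Ω) = t ^ n := by
    rw [← htL']
    exact map_zpow₀ (algebraMap L Ω) tL n
  have h2 : w.valuation L u = w.valuation L (tL ^ n) := by
    have h3 : V.valuation (u : Ω) = V.valuation ((tL ^ n : L) : Ω) := by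
      rw [hzc, map_zpow₀]
      exact hn
    exact le_antisymm ((hw.le _ _).1 h3.le) ((hw.le _ _).1 h3.ge)
  rw [hu', map_zpow₀, hj, ← WithZero.exp_zsmul, WithZero.exp_inj, smul_eq_mul] at h2
  have hjm : j = -1 := by
    have h4 : j ∣ -1 := ⟨n, by rw [h2]; ring⟩
    have h5 : IsUnit j := Int.isUnit_iff.2 (by
      have h6 : j ∣ 1 := (dvd_neg).1 h4
      have h7 := Int.isUnit_iff.1 (isUnit_of_dvd_one h6)
      exact h7)
    rcases Int.isUnit_iff.1 h5 with h6 | h6 <;> omega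
  refine ⟨z, lv_hx hL hB z, by exact_mod_cast hz0, ?_⟩
  have h6 : w.valuation L (m / z ^ l - 1) ≤ w.valuation L (tL ^ 2) := by
    rw [map_pow, hj, hjm, ← WithZero.exp_nsmul]
    refine hz.trans ?_
    rw [WithZero.exp_le_exp]
    norm_num
  have h7 := (hw.le _ _).2 h6
  push_cast at h7
  rw [hm, htL', map_pow] at h7
  exact h7

end H13Z
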