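import Mathlib
import Pool.Agent.Lib.H13Z.Defs
import Pool.Agent.Lib.H13S.KU1

open NumberField IsDedekindDomain

namespace H13Z

open H55P H28G H55B H13S

variable {Ω : Type} [Field Ω] [DecidableEq Ω] [Algebra F Ω] [IsAlgClosure F Ω]

variable {π : O} {l : ℕ} {B L : IntermediateField F Ω} {c : (Ω ≃ₐ[F] Ω) → P27 Ω}
  {e : P27 Ω → P27 Ω → Ω}

/-- Chunk KB1 (M), port of H13S.exists_kum (KU1.lean) to a base field B (all elements s, t in L.fixingSubgroup lie in B.fixingSubgroup: IsTB.mono). -/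
theorem exists_kumB (D : Dat π l) (C : Cc π B c) (he : Pairing π l e) (hL : IsTB π B L) {T : P27 Ω}
    (hT : T ∈ Tor π Ω) : ∃ y : Ω, Kum L e c T y := by
  classical
  obtain ⟨E₁, hE₁, hc₁⟩ := C.cont
  have hNF : Normal F Ω := IsAlgClosure.normal F Ω
  have hNL : Normal L Ω := Normal.tower_top_of_normal F L Ω
  let b := Module.finBasis F E₁
  let S : Set Ω := Set.range (fun i => ((b i : E₁) : Ω)) ∪ {x : Ω | x ^ l = 1}
  have hl0 : 0 < l := D.hl.pos
  have hfr : {x : Ω | x ^ l = 1}.Finite := by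
    have h1 := (Polynomial.nthRoots l (1 : Ω)).toFinset.finite_toSet
    refine h1.subset fun x hx => ?_
    rw [Finset.mem_coe, Multiset.mem_toFinset, Polynomial.mem_nthRoots hl0]
    exact hx
  have hSf : Finite S := ((Set.finite_range _).union hfr).to_subtype
  -- the inclusion of the automorphism groups
  have hmem : ∀ s : Ω ≃ₐ[L] Ω, s.restrictScalars F ∈ L.fixingSubgroup := by
    intro s
    rw [IntermediateField.mem_fixingSubgroup_iff]
    intro x hx
    exact s.commutes ⟨x, hx⟩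
  have hmB : ∀ s : Ω ≃ₐ[L] Ω, s.restrictScalars F ∈ B.fixingSubgroup := fun s => hL.mono (hmem s)
  have hacT : ∀ s : Ω ≃ₐ[L] Ω, ac W27 (s.restrictScalars F) T = T := fun s =>
    ((hL.fix _).1 (hmem s)).2 T hT
  have h0 : ∀ s : Ω ≃ₐ[L] Ω, e (c (s.restrictScalars F)) T ≠ 0 := by
    intro s h0
    have h1 := he.root _ (C.val (s.restrictScalars F) (hmB s)) T hT
    rw [h0, zero_pow hl0.ne'] at h1
    exact zero_ne_one h1
  have hcoc : ∀ s t : Ω ≃ₐ[L] Ω, e (c ((s * t).restrictScalars F)) T =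
      e (c (s.restrictScalars F)) T * s (e (c (t.restrictScalars F)) T) := by
    intro s t
    have h1 : (s * t).restrictScalars F = s.restrictScalars F * t.restrictScalars F := rfl
    rw [h1, C.mul _ (hmB s) _ (hmB t), he.add_left _ (C.val _ (hmB s)) _ (ac_mem _ (C.val _ (hmB t))) T hT]
    congr 1
    have h2 := he.act (s.restrictScalars F) _ (C.val (t.restrictScalars F) (hmB t)) T hT
    rw [hacT] at h2
    exact h2.symm
  have htriv : ∀ n : Ω ≃ₐ[L] Ω, (∀ x ∈ S, n x = x) → e (c (n.restrictScalars F)) T = 1 := by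
    intro n hn
    have h1 : n.restrictScalars F ∈ E₁.fixingSubgroup := by
      rw [IntermediateField.mem_fixingSubgroup_iff]
      intro x hx
      have h2 := b.sum_repr ⟨x, hx⟩
      have h3 : x = ∑ i, (b.repr ⟨x, hx⟩ i) • ((b i : E₁) : Ω) := by
        have h4 := congrArg (fun z : E₁ => (z : Ω)) h2
        refine h4.symm.trans ?_
        push_cast
        rfl
      rw [h3, map_sum]
      refine Finset.sum_congr rfl fun i _ => ?_
      rw [map_smul]
      congr 1
      exact hn _ (Or.inl ⟨i, rfl⟩)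
    have h2 := hc₁ _ (hmB n) h1
    rw [h2]
    have h3 := he.add_left 0 (zero_mem _) 0 (zero_mem _) T hT
    rw [add_zero] at h3
    have h4 := he.root 0 (zero_mem _) T hT
    have h5 : e 0 T ≠ 0 := by
      intro h0
      rw [h0, zero_pow hl0.ne'] at h4
      exact zero_ne_one h4
    exact (mul_eq_left₀ h5).1 h3.symm
  obtain ⟨y, hy0, hy⟩ := ku1_h90 (k := L) (Ω := Ω) (fun s => e (c (s.restrictScalars F)) T) h0 hcoc S
    (fun s => Or.inr (he.root _ (C.val _ (hmB s)) T hT)) htriv
  refine ⟨y, hy0, fun s hs => ?_⟩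
  exact hy (IntermediateField.fixingSubgroupEquiv L ⟨s, hs⟩)

end H13Z
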