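import Mathlib
import Pool.Agent.Lib.H13Z.LDefs
import Pool.Agent.Lib.H13S.PA2

open NumberField IsDedekindDomain

namespace H13Z

open H55P H28G H55B H13S

variable {Ω : Type} [Field Ω] [DecidableEq Ω] [Algebra F Ω] [IsAlgClosure F Ω]

/-- Chunk LA1 (S). The pairing of H13S/PA2.lean (exists_pairing; copy its proof) has the adjoint property: e X T = ζ^(ρ(cj a' b)) if X = act a' T₀', T = act b T₀: e (act a X) T = ζ^(ρ(cj (a a') b)) = ζ^(ρ(cj a' (cj a b))) = e X (act (cj a) T). -/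
theorem exists_pairA (π : O) (l : ℕ) (D : Dat π l) : ∃ e : P27 Ω → P27 Ω → Ω, PairA π l e := by
  classical
  have hl := D.hl
  have h5 := D.five
  have hπ := D.pr
  have h3 := D.prim
  have hd := D.dvd
  have := Fact.mk hl
  have : NeZero l := ⟨hl.ne_zero⟩
  have hΩ : IsAlgClosed Ω := IsAlgClosure.isAlgClosed F
  have hc0 : CharZero Ω := char0
  obtain ⟨ζ, hζ⟩ := HasEnoughRootsOfUnity.exists_primitiveRoot Ω l
  obtain ⟨_, T₀, hT₀, hgen, hz⟩ := gi_gen (Ω := Ω) π hπ h3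
  obtain ⟨_, T₀', hT₀', hgen', hz'⟩ := gi_gen (Ω := Ω) (cj π) (PA2_prime hπ) (PA2_prim h3)
  obtain ⟨ρ, hρ⟩ := PA2_rho π l hl hπ hd
  -- the character
  set Z : ZMod l → Ω := fun z => ζ ^ z.val with hZ
  have Z_nat : ∀ n : ℕ, Z (n : ZMod l) = ζ ^ n := by
    intro n
    show ζ ^ (n : ZMod l).val = ζ ^ n
    rw [ZMod.val_natCast]
    conv_rhs => rw [← Nat.mod_add_div n l, pow_add, pow_mul, hζ.pow_eq_one, one_pow, mul_one]
  have Z_add : ∀ x y : ZMod l, Z (x + y) = Z x * Z y := by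
    intro x y
    have h1 : x + y = ((x.val + y.val : ℕ) : ZMod l) := by
      rw [Nat.cast_add, ZMod.natCast_zmod_val, ZMod.natCast_zmod_val]
    rw [h1, Z_nat, pow_add]
  have Z_root : ∀ x : ZMod l, Z x ^ l = 1 := by
    intro x
    show (ζ ^ x.val) ^ l = 1
    rw [← pow_mul, mul_comm, pow_mul, hζ.pow_eq_one, one_pow]
  have Z_one : ∀ x : ZMod l, Z x = 1 → x = 0 := by
    intro x hx
    have h1 : l ∣ x.val := (hζ.pow_eq_one_iff_dvd _).1 hx
    have h2 : x.val < l := ZMod.val_lt x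
    have h4 : x.val = 0 := Nat.eq_zero_of_dvd_of_lt h1 h2
    exact (ZMod.val_eq_zero x).1 h4
  have Z_cmul : ∀ (c : ℕ) (x : ZMod l), Z ((c : ZMod l) * x) = Z x ^ c := by
    intro c x
    have h1 : (c : ZMod l) * x = ((c * x.val : ℕ) : ZMod l) := by
      rw [Nat.cast_mul, ZMod.natCast_zmod_val]
    rw [h1, Z_nat]
    show _ = (ζ ^ x.val) ^ c
    rw [← pow_mul, mul_comm]
  have hmk : ∀ x y : O, π ∣ x - y → Ideal.Quotient.mk (Ideal.span {π}) x =
      Ideal.Quotient.mk (Ideal.span {π}) y := by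
    intro x y h
    rw [Ideal.Quotient.mk_eq_mk_iff_sub_mem, Ideal.mem_span_singleton]
    exact h
  have hact : ∀ a b : O, act a T₀ = act b T₀ → π ∣ a - b := by
    intro a b h
    rw [← hz, act_sub, h, sub_self]
  have hact' : ∀ a b : O, act a T₀' = act b T₀' → π ∣ cj a - cj b := by
    intro a b h
    rw [← map_sub, ← PA2_dvd, ← hz', act_sub, h, sub_self]
  let e : P27 Ω → P27 Ω → Ω := fun X T =>
    if h : ∃ a b : O, X = act a T₀' ∧ T = act b T₀ then
      Z (ρ (Ideal.Quotient.mk (Ideal.span {π}) (cj h.choose * h.choose_spec.choose))) else 1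
  have he : ∀ a b : O, e (act a T₀') (act b T₀) =
      Z (ρ (Ideal.Quotient.mk (Ideal.span {π}) (cj a * b))) := by
    intro a b
    have h : ∃ a₁ b₁ : O, act a T₀' = act a₁ T₀' ∧ act b T₀ = act b₁ T₀ := ⟨a, b, rfl, rfl⟩
    show (if h : ∃ a₁ b₁ : O, act a T₀' = act a₁ T₀' ∧ act b T₀ = act b₁ T₀ then
      Z (ρ (Ideal.Quotient.mk (Ideal.span {π}) (cj h.choose * h.choose_spec.choose))) else 1) = _
    rw [dif_pos h]
    obtain ⟨h1, h2⟩ := h.choose_spec.choose_spec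
    have h4 := hact' _ _ h1
    have h6 := hact _ _ h2
    rw [map_mul (Ideal.Quotient.mk (Ideal.span {π})), map_mul (Ideal.Quotient.mk (Ideal.span {π})),
      ← hmk _ _ h4, ← hmk _ _ h6]
  have hT1 : T₀ ≠ 0 := by
    intro h
    have h1 := (hz 1).1 (by rw [act_one, h])
    exact hπ.not_isUnit (isUnit_of_dvd_one h1)
  have hT1' : T₀' ≠ 0 := by
    intro h
    have h1 := (hz' 1).1 (by rw [act_one, h])
    exact (PA2_prime hπ).not_isUnit (isUnit_of_dvd_one h1)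
  refine ⟨e, ⟨?_, ?_, ?_, ?_, ?_⟩, ?_⟩
  · intro X hX X' hX' T hT
    obtain ⟨a, rfl⟩ := hgen' X hX
    obtain ⟨a', rfl⟩ := hgen' X' hX'
    obtain ⟨b, rfl⟩ := hgen T hT
    rw [← act_add, he, he, he, ← Z_add, ← map_add, ← map_add, map_add cj, add_mul]
  · intro X hX T hT T' hT'
    obtain ⟨a, rfl⟩ := hgen' X hX
    obtain ⟨b, rfl⟩ := hgen T hT
    obtain ⟨b', rfl⟩ := hgen T' hT'
    rw [← act_add, he, he, he, ← Z_add, ← map_add, ← map_add, mul_add]
  · intro X hX T hT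
    obtain ⟨a, rfl⟩ := hgen' X hX
    obtain ⟨b, rfl⟩ := hgen T hT
    rw [he]
    exact Z_root _
  · intro s X hX T hT
    obtain ⟨a', rfl⟩ := hgen' X hX
    obtain ⟨b, rfl⟩ := hgen T hT
    obtain ⟨a, ha⟩ := hgen _ (ac_mem s hT₀)
    obtain ⟨b₁, hb₁⟩ := hgen' _ (ac_mem s hT₀')
    have hs : (s ζ) ^ l = 1 := by rw [← map_pow, hζ.pow_eq_one, map_one]
    obtain ⟨c, _, hc⟩ := hζ.eq_pow_of_pow_eq_one hs
    have h1 := char_id π l hl h5 hπ h3 hd ζ hζ s a b₁ c T₀ T₀' hT₀ hT1 hT₀' hT1' ha hb₁ hc.symm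
    rw [ac_act, ac_act, ha, hb₁, ← act_mul, ← act_mul, he, he]
    have h2 : Ideal.Quotient.mk (Ideal.span {π}) (cj (a' * b₁) * (b * a)) =
        ((c : ℕ) : O ⧸ Ideal.span {π}) * Ideal.Quotient.mk (Ideal.span {π}) (cj a' * b) := by
      have h4 : cj (a' * b₁) * (b * a) = (cj b₁ * a) * (cj a' * b) := by
        rw [map_mul]
        ring
      rw [h4, map_mul, hmk _ _ h1, map_natCast]
    rw [h2, ← nsmul_eq_mul, map_nsmul, nsmul_eq_mul, Z_cmul]
    show s (ζ ^ _) = _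
    rw [map_pow, ← hc, ← pow_mul, mul_comm, pow_mul]
  · intro X hX h
    obtain ⟨a', rfl⟩ := hgen' X hX
    rw [hz', PA2_dvd]
    by_contra hcon
    have hmax : (Ideal.span {π}).IsMaximal :=
      PrincipalIdealRing.isMaximal_of_irreducible hπ.irreducible
    let : Field (O ⧸ Ideal.span {π}) := Ideal.Quotient.field _
    have h1 : Ideal.Quotient.mk (Ideal.span {π}) (cj a') ≠ 0 := by
      rw [Ne, Ideal.Quotient.eq_zero_iff_mem, Ideal.mem_span_singleton]
      exact hcon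
    obtain ⟨b, hb⟩ := Ideal.Quotient.mk_surjective (Ideal.Quotient.mk (Ideal.span {π}) (cj a'))⁻¹
    have h2 := h (act b T₀) (by
      rw [mem_Tor, ← act_mul, mul_comm, act_mul, mem_Tor.1 hT₀, map_zero])
    rw [he] at h2
    have h4 := Z_one _ h2
    rw [map_mul, hb, mul_inv_cancel₀ h1] at h4
    exact hρ h4
  · intro a X hX T hT
    obtain ⟨a', rfl⟩ := hgen' X hX
    obtain ⟨b, rfl⟩ := hgen T hT
    rw [← act_mul, ← act_mul, he, he]
    have h4 : cj (a * a') * b = cj a' * (cj a * b) := by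
      rw [map_mul]
      ring
    rw [h4]

end H13Z
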