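import Mathlib
import Pool.Agent.Lib.H13Z.LC2

open NumberField IsDedekindDomain

namespace H13Z

open H55P H28G H55B H13S

variable {Ω : Type} [Field Ω] [DecidableEq Ω] [Algebra F Ω] [IsAlgClosure F Ω]

variable {π : O} {l : ℕ} {V : ValuationSubring Ω} {t : Ω} {e0 : ℕ}

/-- an element b with a₁ b^i = a modulo π, i = l^2 + l - 1 -/
theorem lc4_root {π : O} {l : ℕ} (hπ : Prime π) (hl : 1 ≤ l) (hq : Nm π = l ^ 2) {a a₁ : O} (ha : ¬ π ∣ a₁) :
    ∃ b : O, π ∣ a - a₁ * b ^ (l ^ 2 + l - 1) := by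
  have hmax : (Ideal.span {π}).IsMaximal := K14_max hπ
  letI : Field (O ⧸ Ideal.span {π}) := Ideal.Quotient.field _
  have hfin : Finite (O ⧸ Ideal.span {π}) := by
    apply Ideal.finiteQuotientOfFreeOfNeBot
    rw [Ne, Ideal.span_singleton_eq_bot]
    exact hπ.ne_zero
  letI : Fintype (O ⧸ Ideal.span {π}) := Fintype.ofFinite _
  have hcard : Fintype.card (O ⧸ Ideal.span {π}) = l ^ 2 := by
    rw [← Nat.card_eq_fintype_card, ← hq]
    unfold Nm
    rw [Ideal.absNorm_apply, Submodule.cardQuot_apply]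
  have hmk : ∀ x : O, Ideal.Quotient.mk (Ideal.span {π}) x = 0 ↔ π ∣ x := fun x => by
    rw [Ideal.Quotient.eq_zero_iff_mem, Ideal.mem_span_singleton]
  have hpow : ∀ x : O ⧸ Ideal.span {π}, x ^ (l ^ 2) = x := fun x => by
    rw [← hcard]
    exact FiniteField.pow_card x
  have ha1 : Ideal.Quotient.mk (Ideal.span {π}) a₁ ≠ 0 := fun h => ha ((hmk _).1 h)
  obtain ⟨b, hb⟩ := Ideal.Quotient.mk_surjective
    ((Ideal.Quotient.mk (Ideal.span {π}) a / Ideal.Quotient.mk (Ideal.span {π}) a₁) ^ l)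
  refine ⟨b, ?_⟩
  rw [← hmk, map_sub, map_mul, map_pow, hb]
  set y := Ideal.Quotient.mk (Ideal.span {π}) a / Ideal.Quotient.mk (Ideal.span {π}) a₁ with hy
  have h1 : (y ^ l) ^ (l ^ 2 + l - 1) = y := by
    have e1 : l ^ 2 + l - 1 = (l ^ 2 - 1) + l := by
      have : 1 ≤ l ^ 2 := Nat.one_le_pow _ _ hl
      omega
    have e2 : ∀ x : O ⧸ Ideal.span {π}, x ^ (l ^ 2 - 1 + l) = x ^ l := by
      intro x
      by_cases hx : x = 0
      · rw [hx, zero_pow (by omega), zero_pow (by omega)]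
      · have h3 : x ^ (l ^ 2 - 1) = 1 := by
          have h4 := hpow x
          have h5 : l ^ 2 = (l ^ 2 - 1) + 1 := by
            have : 1 ≤ l ^ 2 := Nat.one_le_pow _ _ hl
            omega
          rw [h5, pow_succ] at h4
          exact mul_right_cancel₀ hx (h4.trans (one_mul x).symm)
        rw [pow_add, h3, one_mul]
    rw [e1, e2, ← pow_mul, ← sq, hpow]
  rw [h1, hy, mul_div_cancel₀ _ ha1, sub_self]

/-- the quotient system -/
theorem lc4_sys {m m₁ : P27 Ω → Ω} (hm : Sys π l V m)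
    (hm₁ : Sys π l V m₁) (b : O) : Sys π l V (fun T => m T / m₁ (H28G.act b T)) := by
  have hb : ∀ T ∈ Tor π Ω, H28G.act b T ∈ Tor π Ω := by
    intro T hT
    rw [mem_Tor] at hT ⊢
    rw [← act_mul, mul_comm, act_mul, hT, map_zero]
  constructor
  · intro T hT
    exact div_ne_zero (hm.ne T hT) (hm₁.ne _ (hb T hT))
  · intro T hT
    exact (hm.fx T hT).div (hm₁.fx _ (hb T hT))
  · intro T hT T' hT'
    obtain ⟨z, hz, hz0, h⟩ := hm.add T hT T' hT'
    obtain ⟨z', hz', hz0', h'⟩ := hm₁.add _ (hb T hT) _ (hb T' hT')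
    refine ⟨z / z', hz.div hz', div_ne_zero hz0 hz0', ?_⟩
    have n1 := hm₁.ne _ (hb T hT)
    have n2 := hm₁.ne _ (hb T' hT')
    simp only [map_add]
    rw [h, h', div_pow]
    field_simp
  · intro s hs T hT
    obtain ⟨z, hz, hz0, h⟩ := hm.act s hs T hT
    obtain ⟨z', hz', hz0', h'⟩ := hm₁.act s hs _ (hb T hT)
    refine ⟨z / z', hz.div hz', div_ne_zero hz0 hz0', ?_⟩
    rw [← ac_act, h, h', map_div₀, div_pow]
    have n1 : s (m₁ (H28G.act b T)) ≠ 0 := by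
      rw [Ne, map_eq_zero]
      exact hm₁.ne _ (hb T hT)
    field_simp

/-- Chunk LC4 (S/M). Comparison at the level i = l^2 + l - 1 in the inert case. a, a₁ = coefficients at T₀ of m, m₁, π does not divide a₁. b in O with b^i a₁ = a modulo π: b^i = b^l for b in O/π (i = l + (l^2 - 1)), and x → x^l is bijective on the field O/π: b = (a/a₁)^l. m₁ (act b T₀) has the coefficient a₁ b^i (lin),
m T₀ / m₁ (act b T₀) the coefficient a - a₁ b^i (co_inv, co_mul), divisible by π. T → m T / m₁ (act b T) is again a Sys (ac_act; quotients of the z's), so by lin all its coefficients are divisible by π, co_zero. -/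
theorem RV.compare (R : RV π l V t e0) (hq : Nm π = l ^ 2) {m m₁ : P27 Ω → Ω} (hm : Sys π l V m)
    (hm₁ : Sys π l V m₁) {T₀ : P27 Ω} (hT : T₀ ∈ Tor π Ω) (h0 : T₀ ≠ 0) {a a₁ : O}
    (h : Co π l V t (l ^ 2 + l - 1) (m T₀) a) (h₁ : Co π l V t (l ^ 2 + l - 1) (m₁ T₀) a₁)
    (ha : ¬ π ∣ a₁) : ∃ b : O, ∀ T ∈ Tor π Ω,
      Lv π l V (V.valuation t ^ (l ^ 2 + l)) (m T / m₁ (H28G.act b T)) := by
  have hl1 : 1 ≤ l := by have := R.D.five; omega
  have hi : 1 ≤ l ^ 2 + l - 1 := by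
    have : 1 ≤ l ^ 2 := Nat.one_le_pow _ _ hl1
    omega
  obtain ⟨b, hb⟩ := lc4_root R.D.pr hl1 hq (a := a) ha
  refine ⟨b, fun T hT' => ?_⟩
  have hbT : H28G.act b T₀ ∈ Tor π Ω := by
    have hT2 := hT
    rw [mem_Tor] at hT2 ⊢
    rw [← act_mul, mul_comm, act_mul, hT2, map_zero]
  have c1 := R.lin hm₁ hT hi h₁ b
  have c2 := R.co_inv (hm₁.ne _ hbT) hi c1
  have c3 := R.co_mul hi h c2 Hx.one one_ne_zero
  have c4 : Co π l V t (l ^ 2 + l - 1) (m T₀ / m₁ (H28G.act b T₀)) (a + -(a₁ * b ^ (l ^ 2 + l - 1))) := by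
    rw [one_pow, mul_one] at c3
    rw [div_eq_mul_inv]
    exact c3
  obtain ⟨x, hx⟩ := tor_gen R.D.pr (gia_full Ω R.D.pr.ne_zero) hT hT' h0
  have c5 := R.lin (lc4_sys hm hm₁ b) hT hi c4 x
  rw [hx] at c5
  have c6 := R.co_zero c5 (by
    rw [← sub_eq_add_neg]
    exact Dvd.dvd.mul_right hb _)
  have e : l ^ 2 + l - 1 + 1 = l ^ 2 + l := by omega
  rw [e] at c6
  exact c6

end H13Z
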