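import Mathlib
import Pool.Agent.Lib.H13Z.LR1
import Pool.Agent.Lib.H13Z.LF1

open NumberField IsDedekindDomain

namespace H13Z

open H55P H28G H55B H13S

variable {Ω : Type} [Field Ω] [DecidableEq Ω] [Algebra F Ω] [IsAlgClosure F Ω]

variable {π : O} {l : ℕ} {V : ValuationSubring Ω} {t : Ω} {e0 : ℕ}

/-- Chunk LC5 (S). The top level: fix_eq for τ = t^e0 and u = m / z^l, y/z: V τ^(l-1) = V l (RV.val_l), s fixes z (Hx), τ, u. So s (y/z) = y/z and s y = y. -/
theorem RV.top (R : RV π l V t e0) {m y : Ω} (hm : Hx π V m) (hy : y ^ l = m)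
    (h : Lv π l V (V.valuation t ^ (l * e0)) m) {s : Ω ≃ₐ[F] Ω} (hs : Inert V s)
    (hT : ∀ T ∈ Tor π Ω, ac W27 s T = T) : s y = y := by
  have hchar : CharZero Ω := charZero_of_injective_algebraMap (algebraMap F Ω).injective
  obtain ⟨z, hz, hz0, hv⟩ := h
  obtain ⟨v1, v2, v3, v4, v5, v6⟩ := R.val_l
  have hDT : DT π V s := ⟨Inert.dec hs, hT⟩
  have hsm : s m = m := hm s hDT
  have hsz : s z = z := hz s hDT
  have hst : s t = t := by
    obtain ⟨T, hT', -, rfl⟩ := R.pt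
    exact (Hx.tt hT') s hDT
  have h1 := fix_eq V R.D.hl (by have := R.D.five; omega) (by rw [v1]; exact R.above)
    (τ := t ^ e0) (u := m / z ^ l) (y := y / z) (by rw [map_pow, ← pow_mul]; exact v5)
    (by rw [div_pow, hy]) (by rw [map_pow, ← pow_mul, mul_comm e0]; exact hv) hs
    (by rw [map_pow, hst]) (by rw [map_div₀, map_pow, hsm, hsz])
  rw [map_div₀, hsz] at h1
  exact (div_left_inj' hz0).1 h1

end H13Z
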