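import Mathlib
import Pool.Agent.Lib.H13Z.LG

open NumberField IsDedekindDomain

namespace H13Z

open H55P H28G H55B H13S

variable {Ω : Type} [Field Ω] [DecidableEq Ω] [Algebra F Ω]

variable {π : O} {l : ℕ} {V : ValuationSubring Ω} {e : P27 Ω → P27 Ω → Ω} {c : (Ω ≃ₐ[F] Ω) → P27 Ω}
  {y : P27 Ω → Ω}

theorem lk_ne (D : Dat π l) (he : Pairing π l e) {X T : P27 Ω} (hX : X ∈ Tor (cj π) Ω)
    (hT : T ∈ Tor π Ω) : e X T ≠ 0 := by
  intro h
  have h1 := he.root X hX T hT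
  rw [h, zero_pow (by have := D.five; omega)] at h1
  exact zero_ne_one h1

theorem lk_sub (D : Dat π l) (he : Pairing π l e) {X Y T : P27 Ω} (hX : X ∈ Tor (cj π) Ω)
    (hY : Y ∈ Tor (cj π) Ω) (hT : T ∈ Tor π Ω) : e (X - Y) T = e X T / e Y T := by
  have h1 := he.add_left (X - Y) (sub_mem hX hY) Y hY T hT
  rw [sub_add_cancel] at h1
  rw [h1, mul_div_assoc, div_self (lk_ne D he hY hT), mul_one]

/-- conjugates of elements of DT -/
theorem lk_conj {σ : Ω ≃ₐ[F] Ω} (hσ : Dec V σ) {s : Ω ≃ₐ[F] Ω} (hs : DT π V s) :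
    DT π V (σ⁻¹ * s * σ) := by
  refine ⟨Dec.mul' (Dec.mul' (Dec.inv' hσ) hs.1) hσ, fun T hT => ?_⟩
  rw [ac_mul, ac_mul, hs.2 _ (ac_mem σ hT), ← ac_mul, inv_mul_cancel, ac_one]

theorem lk_act (D : Dat π l) (he : Pairing π l e) (hc : Dc π V c) (hy : KS π V e c y)
    {σ : Ω ≃ₐ[F] Ω} (hσ : Dec V σ) {T : P27 Ω} (hT : T ∈ Tor π Ω) {s : Ω ≃ₐ[F] Ω} (hs : DT π V s) :
    s (σ (y T) / e (c σ) (ac W27 σ T)) = e (c s) (ac W27 σ T) * (σ (y T) / e (c σ) (ac W27 σ T)) := by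
  have hT' := ac_mem σ hT
  have hg := lk_ne D he (hc.val σ hσ) hT'
  have hs' := lk_conj hσ hs
  have e1 : σ * (σ⁻¹ * s * σ) = s * σ := by group
  have e2 : ac W27 σ (c (σ⁻¹ * s * σ)) = c s + ac W27 s (c σ) - c σ := by
    have h1 := hc.mul σ hσ (σ⁻¹ * s * σ) hs'.1
    rw [e1, hc.mul s hs.1 σ hσ] at h1
    rw [h1, add_sub_cancel_left]
  have e3 : s (σ (y T)) = e (c s + ac W27 s (c σ) - c σ) (ac W27 σ T) * σ (y T) := by
    have h1 : s (σ (y T)) = σ ((σ⁻¹ * s * σ) (y T)) := by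
      show (s * σ) (y T) = (σ * (σ⁻¹ * s * σ)) (y T)
      rw [e1]
    rw [h1, hy.act T hT _ hs', map_mul, he.act σ _ (hc.val _ hs'.1) _ hT, e2]
  have hXs := ac_mem s (hc.val σ hσ)
  have e4 : s (e (c σ) (ac W27 σ T)) = e (ac W27 s (c σ)) (ac W27 σ T) := by
    rw [he.act s _ (hc.val σ hσ) _ hT', hs.2 _ hT']
  have hg2 := lk_ne D he hXs hT'
  rw [map_div₀, e3, e4, lk_sub D he (add_mem (hc.val s hs.1) hXs) (hc.val σ hσ) hT',
    he.add_left _ (hc.val s hs.1) _ hXs _ hT']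
  field_simp

theorem sys_of (D : Dat π l) (he : Pairing π l e) (hc : Dc π V c) (hy : KS π V e c y) :
    Sys π l V fun T => y T ^ l := by
  refine ⟨fun T hT => pow_ne_zero l (hy.ne T hT), fun T hT s hs => ?_, fun T hT T' hT' => ?_,
    fun σ hσ T hT => ?_⟩
  · rw [map_pow, hy.act T hT s hs, mul_pow, he.root _ (hc.val s hs.1) _ hT, one_mul]
  · have h1 := hy.ne T hT
    have h2 := hy.ne T' hT'
    have h3 := hy.ne (T + T') (add_mem hT hT')
    refine ⟨y (T + T') / (y T * y T'), fun s hs => ?_, div_ne_zero h3 (mul_ne_zero h1 h2), ?_⟩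
    · have h4 := lk_ne D he (hc.val s hs.1) hT
      have h5 := lk_ne D he (hc.val s hs.1) hT'
      rw [map_div₀, map_mul, hy.act _ (add_mem hT hT') s hs, hy.act T hT s hs, hy.act T' hT' s hs,
        he.add_right _ (hc.val s hs.1) _ hT _ hT']
      field_simp
    · rw [div_pow, mul_pow]
      field_simp
  · have hT' := ac_mem σ hT
    have hg := lk_ne D he (hc.val σ hσ) hT'
    have h1 : σ (y T) ≠ 0 := by
      rw [Ne, map_eq_zero_iff σ σ.injective]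
      exact hy.ne T hT
    have h2 := hy.ne _ hT'
    have h3 : σ (y T) / e (c σ) (ac W27 σ T) ≠ 0 := div_ne_zero h1 hg
    refine ⟨y (ac W27 σ T) / (σ (y T) / e (c σ) (ac W27 σ T)), fun s hs => ?_, div_ne_zero h2 h3, ?_⟩
    · have h4 := lk_ne D he (hc.val s hs.1) hT'
      rw [map_div₀, lk_act D he hc hy hσ hT hs, hy.act _ hT' s hs, mul_div_mul_left _ _ h4]
    · show y (ac W27 σ T) ^ l = σ (y T ^ l) * _
      rw [div_pow, div_pow, he.root _ (hc.val σ hσ) _ hT', div_one, map_pow]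
      field_simp

theorem ks_sub (D : Dat π l) (he : PairA π l e) (hc : Dc π V c) (hy : KS π V e c y)
    {c₁ : (Ω ≃ₐ[F] Ω) → P27 Ω} {y₁ : P27 Ω → Ω} (hc₁ : Dc π V c₁) (hy₁ : KS π V e c₁ y₁) (b : O) :
    Dc π V (fun s => c s - H28G.act (cj b) (c₁ s)) ∧
      KS π V e (fun s => c s - H28G.act (cj b) (c₁ s)) (fun T => y T / y₁ (H28G.act b T)) := by
  have hact : ∀ (β a : O) (P : P27 Ω), P ∈ Tor β Ω → H28G.act a P ∈ Tor β Ω := by
    intro β a P hP
    rw [mem_Tor] at hP ⊢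
    rw [← act_mul, mul_comm, act_mul, hP, map_zero]
  have hval : ∀ s, Dec V s → H28G.act (cj b) (c₁ s) ∈ Tor (cj π) Ω := fun s hs => hact _ _ _ (hc₁.val s hs)
  refine ⟨⟨fun s hs t ht => ?_, fun s hs => sub_mem (hc.val s hs) (hval s hs)⟩,
    ⟨fun T hT => div_ne_zero (hy.ne T hT) (hy₁.ne _ (hact _ _ _ hT)), fun T hT s hs => ?_⟩⟩
  · show c (s * t) - H28G.act (cj b) (c₁ (s * t)) = _
    rw [hc.mul s hs t ht, hc₁.mul s hs t ht, map_add, map_sub, ac_act]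
    abel
  · have hb : cj (cj b) = b := cj_cj b
    have h1 : e (H28G.act (cj b) (c₁ s)) T = e (c₁ s) (H28G.act b T) := by
      rw [he.adj (cj b) _ (hc₁.val s hs.1) T hT, hb]
    have h2 := lk_ne D he.pair (hc₁.val s hs.1) (hact _ b _ hT)
    have h3 := hy₁.ne _ (hact _ b _ hT)
    show s (y T / y₁ (H28G.act b T)) = e (c s - H28G.act (cj b) (c₁ s)) T * (y T / y₁ (H28G.act b T))
    rw [map_div₀, hy.act T hT s hs, hy₁.act _ (hact _ b _ hT) s hs,
      lk_sub D he.pair (hc.val s hs.1) (hval s hs.1) hT, h1]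
    field_simp

theorem c_zero (D : Dat π l) (he : Pairing π l e) (hc : Dc π V c) (hy : KS π V e c y) {s : Ω ≃ₐ[F] Ω}
    (hs : DT π V s) (h : ∀ T ∈ Tor π Ω, s (y T) = y T) : c s = 0 := by
  apply he.nondeg _ (hc.val s hs.1)
  intro T hT
  have h1 := hy.act T hT s hs
  rw [h T hT] at h1
  have h2 := hy.ne T hT
  field_simp at h1
  exact h1.symm

end H13Z
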