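import Mathlib
import Pool.Agent.Lib.H13Z.LG
import Pool.Agent.Lib.H13Z.LE
import Pool.Agent.Lib.H13S.QR

open NumberField IsDedekindDomain

namespace H13Z

open H55P H28G H55B H13S

variable {Ω : Type} [Field Ω] [DecidableEq Ω] [Algebra F Ω] [IsAlgClosure F Ω]

variable {V : ValuationSubring Ω}

theorem lp_fix (s : Ω ≃ₐ[F] Ω) {P : P27 Ω} (hx : s (xc P) = xc P) (hy : s (yc P) = yc P) : ac W27 s P = P := by
  by_cases hP : P = 0
  · rw [hP, map_zero]
  · refine pt_ext (IZ_ne s hP) hP ?_ ?_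
    · rw [IZ_xc, hx]
    · rw [IZ_yc, hy]

theorem lp_adj (s : Ω ≃ₐ[F] Ω) (P : P27 Ω)
    (hs : s ∈ (IntermediateField.adjoin F {xc P, yc P}).fixingSubgroup) : ac W27 s P = P := by
  rw [IntermediateField.mem_fixingSubgroup_iff] at hs
  refine lp_fix s (hs _ ?_) (hs _ ?_)
  · exact IntermediateField.subset_adjoin F _ (by simp)
  · exact IntermediateField.subset_adjoin F _ (by simp)

theorem lp_fin (P : P27 Ω) : FiniteDimensional F (IntermediateField.adjoin F {xc P, yc P}) := by
  have hal : Algebra.IsAlgebraic F Ω := IsAlgClosure.isAlgebraic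
  have hfin : Finite ({xc P, yc P} : Set Ω) := Set.Finite.to_subtype (Set.toFinite _)
  exact IntermediateField.finiteDimensional_adjoin fun x _ => (hal.isAlgebraic x).isIntegral

theorem lp_adjoin (s : Ω ≃ₐ[F] Ω) (S : Set Ω) (h : ∀ x ∈ S, s x = x) :
    s ∈ (IntermediateField.adjoin F S).fixingSubgroup := by
  rw [IntermediateField.mem_fixingSubgroup_iff]
  intro x hx
  induction hx using IntermediateField.adjoin_induction with
  | mem x hx => exact h x hx
  | algebraMap a => exact s.commutes a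
  | add x y _ _ hx hy => rw [map_add, hx, hy]
  | inv x _ hx => rw [map_inv₀, hx]
  | mul x y _ _ hx hy => rw [map_mul, hx, hy]

theorem lp_root {l : ℕ} (hl : l.Prime) (hV : V.valuation (l : Ω) < 1) :
    ∃ w w' : Ω, w + w' = 1 ∧ w * w' = (l : Ω) ^ 3 ∧ V.valuation w < 1 ∧ V.valuation w' = 1 := by
  have hac : IsAlgClosed Ω := IsAlgClosure.isAlgClosed F
  have hch : CharZero Ω := charZero_of_injective_algebraMap (algebraMap F Ω).injective
  obtain ⟨r, hr⟩ := IsAlgClosed.exists_pow_nat_eq (1 - 4 * (l : Ω) ^ 3) (two_pos : 0 < 2)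
  have h2 : (2 : Ω) ≠ 0 := two_ne_zero
  have hmain : ∀ a b : Ω, a + b = 1 → a * b = (l : Ω) ^ 3 → V.valuation a ≤ 1 := by
    intro a b hab hab2
    by_contra h
    rw [not_le] at h
    have h3 : a ^ 2 = a - (l : Ω) ^ 3 := by
      have h4 : b = 1 - a := by linear_combination hab
      rw [h4] at hab2
      linear_combination -hab2
    have h4 : V.valuation a ^ 2 ≤ V.valuation a := by
      rw [← map_pow, h3]
      refine (Valuation.map_sub _ _ _).trans (max_le le_rfl ?_)
      rw [map_pow]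
      exact (pow_le_one₀ zero_le hV.le).trans h.le
    have h5 : V.valuation a * 1 < V.valuation a * V.valuation a :=
      mul_lt_mul_of_pos_left h (zero_lt_one.trans h)
    rw [mul_one, ← sq] at h5
    exact absurd h4 (not_le.2 h5)
  have h1 : ((1 + r) / 2) + ((1 - r) / 2) = 1 := by
    field_simp
    ring
  have h3 : ((1 + r) / 2) * ((1 - r) / 2) = (l : Ω) ^ 3 := by
    field_simp
    linear_combination -hr
  have ha := hmain _ _ h1 h3
  have hb := hmain ((1 - r) / 2) ((1 + r) / 2) (by rw [add_comm]; exact h1) (by rw [mul_comm]; exact h3)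
  have hl3 : V.valuation ((l : Ω) ^ 3) < 1 := by
    rw [map_pow]
    exact pow_lt_one₀ zero_le hV (by norm_num)
  have hsum : 1 ≤ max (V.valuation ((1 + r) / 2)) (V.valuation ((1 - r) / 2)) := by
    have h6 := V.valuation.map_add ((1 + r) / 2) ((1 - r) / 2)
    rwa [h1, map_one] at h6
  rcases lt_or_eq_of_le ha with h4 | h4
  · refine ⟨(1 + r) / 2, (1 - r) / 2, h1, h3, h4, ?_⟩
    refine le_antisymm hb ?_
    rcases le_max_iff.1 hsum with h5 | h5
    · exact absurd h5 (not_le.2 h4)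
    · exact h5
  · refine ⟨(1 - r) / 2, (1 + r) / 2, by rw [add_comm]; exact h1, by rw [mul_comm]; exact h3, ?_, h4⟩
    rw [← h3, map_mul, h4, one_mul] at hl3
    exact hl3

/-- Chunk LP1 (M). A point in the kernel of reduction defined over the decomposition field. w, w' = the roots of X^2 - X + l^3 (Ω is algebraically closed): w + w' = 1, w w' = l^3 has value < 1; both have value ≤ 1 (if V w > 1 then V w' = V (1 - w) = V w > 1), not both < 1; let V w < 1 = V w' (exchange them), V w = V l^3.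
Q = pt (l/w) (-1/w): y^2 + y = (1 - w)/w^2 = w'/w^2 = l^3/w^3 = x^3. V (xc Q) = V l / V l^3 > 1: Kr. tt Q = -(l/w)/(-1/w) = l. B = adjoin F {w}, finite (IntermediateField.adjoin.finiteDimensional). s with Dec V s: s w is a root of X^2 - X + l^3 with value < 1 (Dec.lt_one), so s w = w, and s fixes B (adjoin_simple). -/
theorem local_pt {l : ℕ} (hl : l.Prime) (hV : V.valuation (l : Ω) < 1) :
    ∃ (Q : P27 Ω) (B : IntermediateField F Ω), FiniteDimensional F B ∧
      (∀ s : Ω ≃ₐ[F] Ω, Dec V s → s ∈ B.fixingSubgroup) ∧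
      (∀ s ∈ B.fixingSubgroup, ac W27 s Q = Q) ∧ Kr V Q ∧
      V.valuation (tt Q) = V.valuation (l : Ω) := by
  have hal : Algebra.IsAlgebraic F Ω := IsAlgClosure.isAlgebraic
  have hch : CharZero Ω := charZero_of_injective_algebraMap (algebraMap F Ω).injective
  obtain ⟨w, w', h1, h2, h3, h4⟩ := lp_root hl hV
  have hl0 : (l : Ω) ≠ 0 := Nat.cast_ne_zero.2 hl.ne_zero
  have hw0 : w ≠ 0 := by
    rintro rfl
    rw [zero_mul] at h2
    exact pow_ne_zero 3 hl0 h2.symm
  have hw' : w' = 1 - w := by linear_combination h1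
  have heq : (-1 / w) ^ 2 + (-1 / w) = ((l : Ω) / w) ^ 3 := by
    rw [hw'] at h2
    field_simp
    linear_combination h2
  have hlV : 0 < V.valuation (l : Ω) := zero_lt_iff.2 ((Valuation.ne_zero_iff _).2 hl0)
  have hVw : V.valuation w = V.valuation (l : Ω) ^ 3 := by
    rw [← map_pow, ← h2, map_mul, h4, mul_one]
  have hsw : ∀ s : Ω ≃ₐ[F] Ω, Dec V s → s w = w := by
    intro s hs
    have h5 : s w ^ 2 - s w + (l : Ω) ^ 3 = 0 := by
      have h6 : w ^ 2 - w + (l : Ω) ^ 3 = 0 := by
        rw [← h2, hw']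
        ring
      have h7 := congrArg s h6
      rwa [map_add, map_sub, map_pow, map_pow, map_natCast, map_zero] at h7
    have h6 : (s w - w) * (s w - w') = 0 := by
      linear_combination h5 + h2 - s w * h1
    rcases mul_eq_zero.1 h6 with h7 | h7
    · exact sub_eq_zero.1 h7
    · exfalso
      have h8 := (Dec.lt_one hs w).2 h3
      rw [sub_eq_zero.1 h7, h4] at h8
      exact lt_irrefl _ h8
  refine ⟨pt ((l : Ω) / w) (-1 / w) heq, IntermediateField.adjoin F {w},
    IntermediateField.adjoin.finiteDimensional (hal.isAlgebraic w).isIntegral, ?_, ?_, ?_, ?_⟩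
  · intro s hs
    refine lp_adjoin s _ ?_
    intro x hx
    rw [Set.mem_singleton_iff] at hx
    rw [hx]
    exact hsw s hs
  · intro s hs
    rw [IntermediateField.mem_fixingSubgroup_iff] at hs
    have h5 : s w = w := hs w (IntermediateField.mem_adjoin_simple_self F w)
    refine lp_fix s ?_ ?_
    · rw [xc_pt, map_div₀, map_natCast, h5]
    · rw [yc_pt, map_div₀, map_neg, map_one, h5]
  · right
    rw [xc_pt, map_div₀, hVw]
    rw [lt_div_iff₀ (pow_pos hlV 3), one_mul]
    exact pow_lt_self_of_lt_one₀ hlV hV (by norm_num)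
  · have h5 : tt (pt ((l : Ω) / w) (-1 / w) heq) = (l : Ω) := by
      unfold tt
      rw [xc_pt, yc_pt]
      field_simp
    rw [h5]

/-- Chunk LP2 (M). act_div: act β P = Q. P in Kr V: otherwise P ≠ 0 and V (xc P) ≤ 1, kr_kron: V (xc Q) ≤ 1, Q ≠ 0 (tt Q ≠ 0), against Kr V Q. q = Nm β, τ = V (tt R) for R ≠ 0 in Tor β, τ^(q-1) = V β (kr_tor_ram). The points P + R are in Kr V (kr_add, kr_tor_ram). kr_prod: the product of the V (tt (P + R)) over R in Tor β (q points) is V (tt Q) = V β.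
If V (tt P) > τ: V (tt (P + R)) = V (tt P) for all R (kr_tt_add with c = V (tt P) < 1: c^2 < c), so V (tt P)^q = V β. If V (tt P) ≤ τ: V (tt (P + R)) ≤ τ for all R (kr_tt_add, c = τ), so V β ≤ τ^q = V β * τ < V β: contradiction. -/
theorem div_pt {β : O} (hβ : Prime β) (h3 : Prim β) (hN : 4 ≤ Nm β) (hV : vo V β < 1) {Q : P27 Ω}
    (hQ : Kr V Q) (hv : V.valuation (tt Q) = vo V β) :
    ∃ P : P27 Ω, H28G.act β P = Q ∧ Kr V P ∧ V.valuation (tt P) ^ Nm β = vo V β := by
  have hβ0 : vo V β ≠ 0 := by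
    have h1 : algebraMap F Ω (β : F) ≠ 0 := by
      intro h
      have h2 : (β : F) = 0 := (map_eq_zero _).1 h
      exact hβ.ne_zero (by exact_mod_cast h2)
    simpa [vo] using h1
  obtain ⟨P, hP⟩ := act_div hβ.ne_zero Q
  have hQ0 : Q ≠ 0 := by
    rintro rfl
    rw [gia_tt0, map_zero] at hv
    exact hβ0 hv.symm
  have hK : Kr V P := by
    by_contra hK
    have hP0 : P ≠ 0 := fun h => hK (Or.inl h)
    have hx : V.valuation (xc P) ≤ 1 := not_lt.1 fun h => hK (Or.inr h)
    obtain ⟨h1, h2, -, -⟩ := kr_kron β hβ h3 V hV hP0 hx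
    rw [hP] at h1 h2
    rcases hQ with h | h
    · exact h1 h
    · exact absurd h (not_lt.2 h2)
  refine ⟨P, hP, hK, ?_⟩
  have hcard : Nat.card (Tor β Ω) = Nm β := (gi_gen β hβ h3).1
  have hfin : Finite (Tor β Ω) := Nat.finite_of_card_ne_zero (by rw [hcard]; omega)
  have hfi : Fintype (Tor β Ω) := Fintype.ofFinite _
  have hcard' : (Finset.univ : Finset (Tor β Ω)).card = Nm β := by
    rw [Finset.card_univ, ← Nat.card_eq_fintype_card, hcard]
  have hprod := kr_prod β hβ h3 V hV hK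
  rw [hP, hv, finprod_eq_prod_of_fintype] at hprod
  have hKR : ∀ R : Tor β Ω, Kr V (R : P27 Ω) := by
    intro R
    by_cases h0 : (R : P27 Ω) = 0
    · exact Or.inl h0
    · exact (kr_tor_ram β hβ h3 V hV R.2 h0).1
  have hP0 : P ≠ 0 := by
    rintro rfl
    rw [map_zero] at hP
    exact hQ0 hP.symm
  have htP : tt P ≠ 0 := fun h => hP0 ((kr_tt_zero V hK).1 h)
  have hc0 : 0 < V.valuation (tt P) := zero_lt_iff.2 ((Valuation.ne_zero_iff _).2 htP)
  have hc1 : V.valuation (tt P) < 1 := kr_tt_lt V hK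
  by_cases hcase : ∀ R : Tor β Ω, V.valuation (tt (R : P27 Ω)) < V.valuation (tt P)
  · have h1 : ∀ R ∈ (Finset.univ : Finset (Tor β Ω)), V.valuation (tt (P + (R : P27 Ω))) = V.valuation (tt P) := by
      intro R _
      have h2 := kr_tt_add V hK (hKR R) (V.valuation (tt P)) le_rfl (hcase R).le
      have h4 : V.valuation (tt P) ^ 2 < V.valuation (tt P) := pow_lt_self_of_lt_one₀ hc0 hc1 (by norm_num)
      have e : tt (P + (R : P27 Ω)) = ((tt (P + (R : P27 Ω)) - tt P - tt (R : P27 Ω)) + tt (R : P27 Ω)) + tt P := by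
        ring
      rw [e]
      refine V.valuation.map_add_eq_of_lt_right ?_
      exact lt_of_le_of_lt (V.valuation.map_add _ _) (max_lt (lt_of_le_of_lt h2 h4) (hcase R))
    rw [Finset.prod_congr rfl h1, Finset.prod_const, hcard'] at hprod
    exact hprod
  · exfalso
    rw [not_forall] at hcase
    obtain ⟨R₀, hR₀⟩ := hcase
    rw [not_lt] at hR₀
    have h0 : (R₀ : P27 Ω) ≠ 0 := by
      intro h
      rw [h, gia_tt0, map_zero] at hR₀
      exact absurd hR₀ (not_le.2 hc0)
    obtain ⟨-, hτ⟩ := kr_tor_ram β hβ h3 V hV R₀.2 h0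
    have hτ1 : V.valuation (tt (R₀ : P27 Ω)) < 1 := kr_tt_lt V (hKR R₀)
    have hRle : ∀ R : Tor β Ω, V.valuation (tt (R : P27 Ω)) ≤ V.valuation (tt (R₀ : P27 Ω)) := by
      intro R
      by_cases hR : (R : P27 Ω) = 0
      · rw [hR, gia_tt0, map_zero]
        exact zero_le
      · obtain ⟨-, h5⟩ := kr_tor_ram β hβ h3 V hV R.2 hR
        by_contra hlt
        rw [not_le] at hlt
        have hn : Nm β - 1 ≠ 0 := by omega
        have h6 := pow_lt_pow_left₀ hlt zero_le hn
        rw [hτ, h5] at h6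
        exact lt_irrefl _ h6
    have h1 : ∀ R ∈ (Finset.univ : Finset (Tor β Ω)), V.valuation (tt (P + (R : P27 Ω))) ≤
        V.valuation (tt (R₀ : P27 Ω)) := by
      intro R _
      have h2 := kr_tt_add V hK (hKR R) (V.valuation (tt (R₀ : P27 Ω))) hR₀ (hRle R)
      have h4 : V.valuation (tt (R₀ : P27 Ω)) ^ 2 ≤ V.valuation (tt (R₀ : P27 Ω)) :=
        pow_le_of_le_one zero_le hτ1.le (by norm_num)
      have e : tt (P + (R : P27 Ω)) = ((tt (P + (R : P27 Ω)) - tt P - tt (R : P27 Ω)) + tt (R : P27 Ω)) + tt P := by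
        ring
      rw [e]
      exact (V.valuation.map_add _ _).trans (max_le ((V.valuation.map_add _ _).trans
        (max_le (h2.trans h4) (hRle R))) hR₀)
    have h2 := Finset.prod_le_pow_card _ _ _ h1
    rw [hprod, hcard'] at h2
    have h5 : V.valuation (tt (R₀ : P27 Ω)) ^ Nm β = vo V β * V.valuation (tt (R₀ : P27 Ω)) := by
      rw [← hτ, ← pow_succ]
      congr 1
      omega
    rw [h5] at h2
    have h6 : vo V β * V.valuation (tt (R₀ : P27 Ω)) < vo V β * 1 :=
      mul_lt_mul_of_pos_left hτ1 (zero_lt_iff.2 hβ0)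
    rw [mul_one] at h6
    exact absurd h2 (not_le.2 h6)

/-- Chunk LP3 (S). s → s P - P is a cocycle with values in Tor (cj π) on the group of B if act (cj π) P is fixed by it. Continuous: N = adjoin F {xc P, yc P}. -/
theorem cc_pt {π : O} {B : IntermediateField F Ω} {P : P27 Ω}
    (hP : ∀ s ∈ B.fixingSubgroup, ac W27 s (H28G.act (cj π) P) = H28G.act (cj π) P) :
    Cc π B fun s => ac W27 s P - P := by
  refine ⟨fun s _ t _ => ?_, ?_, fun s hs => ?_⟩
  · rw [ac_mul, map_sub]
    abel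
  · refine ⟨IntermediateField.adjoin F {xc P, yc P}, lp_fin P, fun s _ hs => ?_⟩
    rw [lp_adj s P hs, sub_self]
  · rw [mem_Tor, map_sub, ← ac_act, hP s hs, sub_self]

end H13Z
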