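import Mathlib
import Pool.Agent.Lib.H13Z.LA1
import Pool.Agent.Lib.H13Z.LK
import Pool.Agent.Lib.H13Z.LC3
import Pool.Agent.Lib.H13Z.LC4
import Pool.Agent.Lib.H13Z.LC5
import Pool.Agent.Lib.H13Z.LI
import Pool.Agent.Lib.H13Z.LCB
import Pool.Agent.Lib.H13Z.LP
import Pool.Agent.Lib.H13Z.LV
import Pool.Agent.Lib.H13Z.KB

open NumberField IsDedekindDomain

namespace H13Z

open H55P H28G H55B H13S

variable {Ω : Type} [Field Ω] [DecidableEq Ω] [Algebra F Ω] [IsAlgClosure F Ω]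

theorem LL1_prime_cj {π : O} (h : Prime π) : Prime (cj π) :=
  (MulEquiv.prime_iff cj.toMulEquiv).2 h

theorem LL1_prim_cj {x : O} (h : Prim x) : Prim (cj x) := by
  obtain ⟨y, hy⟩ := h
  refine ⟨cj y, ?_⟩
  have h1 := congrArg cj hy
  rw [map_sub, map_one, map_mul, map_ofNat] at h1
  exact h1

theorem LL1_nm {π : O} {l : ℕ} (D : Dat π l) : 4 ≤ Nm π ∧ 4 ≤ Nm (cj π) := by
  have h7 : l ∣ Nm π := CO2_Nm D.hl D.pr D.dvd
  have h8 : Nm π ≠ 0 := fun h => D.pr.ne_zero (Nm_eq_zero.1 h)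
  have h9 := Nat.le_of_dvd (Nat.pos_of_ne_zero h8) h7
  have := D.five
  rw [CO2_Nm_cj]
  omega

variable {π : O} {l : ℕ} {V : ValuationSubring Ω} {t : Ω} {e0 : ℕ} {e : P27 Ω → P27 Ω → Ω}

/-- Chunk LL1a (S/M). The local point and its Kummer generators, for π with vo V (cj π) < 1 (so V l < 1 and V l = vo V (cj π): D and Nm: V l = vo V (cj π) is a hypothesis). local_pt: Q, B; div_pt with β = cj π: P (act (cj π) P = Q); cc_pt: Cc; exists_TB: L; exists_kumB: y₁ T for T in Tor π (choose; 1 otherwise);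
dc_of_cc, ks_of_kum. -/
theorem exists_pt (D : Dat π l) (he : Pairing π l e) (hV : vo V (cj π) < 1)
    (hl : V.valuation (l : Ω) = vo V (cj π)) : ∃ (P : P27 Ω) (B L : IntermediateField F Ω) (y₁ : P27 Ω → Ω),
      Kr V P ∧ V.valuation (tt P) ^ Nm (cj π) = vo V (cj π) ∧ (∀ s, Dec V s → s ∈ B.fixingSubgroup) ∧
      Cc π B (fun s => ac W27 s P - P) ∧ IsTB π B L ∧
      (∀ T ∈ Tor π Ω, Kum L e (fun s => ac W27 s P - P) T (y₁ T)) ∧
      Dc π V (fun s => ac W27 s P - P) ∧ KS π V e (fun s => ac W27 s P - P) y₁ := by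
  classical
  have hVl : V.valuation (l : Ω) < 1 := by rw [hl]; exact hV
  obtain ⟨Q, B, hfd, hB, hQ, hQK, hQt⟩ := local_pt (V := V) D.hl hVl
  rw [hl] at hQt
  obtain ⟨P, hPQ, hPK, hPt⟩ := div_pt (LL1_prime_cj D.pr) (LL1_prim_cj D.prim) (LL1_nm D).2 hV
    hQK hQt
  have C : Cc π B fun s => ac W27 s P - P := cc_pt (fun s hs => by
    rw [hPQ]
    exact hQ s hs)
  obtain ⟨L, hL⟩ := exists_TB π D.pr D.prim B
  let y₁ : P27 Ω → Ω := fun T => if hT : T ∈ Tor π Ω then (exists_kumB D C he hL hT).choose else 1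
  have hy₁ : ∀ T ∈ Tor π Ω, Kum L e (fun s => ac W27 s P - P) T (y₁ T) := by
    intro T hT
    have h1 : y₁ T = (exists_kumB D C he hL hT).choose := dif_pos hT
    rw [h1]
    exact (exists_kumB D C he hL hT).choose_spec
  exact ⟨P, B, L, y₁, hPK, hPt, hB, C, hL, hy₁, dc_of_cc C hB, ks_of_kum hL hB hy₁⟩

/-- Chunk LL1b (M). The local condition in the inert case. m T = (y T)^l, m₁ T = (y₁ T)^l (exists_pt; cj π = π), both Sys (sys_of); levels (n = l^2 + l - 1) for m (h2) and m₁ (level_pt). T₀ = the point of R. co_exists: a, a₁ at T₀. π does not divide a₁: otherwise lin, co_cong, co_zero: level l^2 + l = l e0 for all m₁ T (T = act x T₀: PA1_gen), RV.top: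
y₁ T fixed by all s in JV, c_zero: s P - P = 0 for s in JV, cob_inert: against pt_nontriv (β = π). compare: b. y T / y₁ (act b T) has the l-th power m T / m₁ (act b T): RV.top, ks_sub, c_zero: c' s = c s - act (cj b) (s P - P) = 0 on JV. cob_inert: X, Dc.sub_cob, moved_ram, cob_dec_ram: c' s = ac s X - X on Dec V. The point act (cj b) P + X. -/
theorem loc_inert (R : RV π l V t e0) (hin : cj π = π) (hq : Nm π = l ^ 2) (he : PairA π l e)
    {c : (Ω ≃ₐ[F] Ω) → P27 Ω} (hc : Dc π V c) {y : P27 Ω → Ω} (hy : KS π V e c y)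
    (h2 : ∀ T ∈ Tor π Ω, Lv π l V (V.valuation t ^ 2) (y T ^ l)) :
    ∃ P : P27 Ω, ∀ s, Dec V s → c s = ac W27 s P - P := by
  have D := R.D
  have hl5 := D.five
  have hV : vo V (cj π) < 1 := by
    rw [hin]
    exact R.above
  have hvl : V.valuation (l : Ω) = vo V (cj π) := by
    rw [hin]
    exact R.val_l.1
  have he0 : l * e0 = l ^ 2 + l := by
    rcases R.val_l.2.2.2.2.2 with h | h
    · exfalso
      have h1 := h.1
      rw [hq] at h1
      nlinarith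
    · rw [h.2.1]
      ring
  have hi1 : 1 ≤ l ^ 2 + l - 1 := by
    have : 1 ≤ l ^ 2 := Nat.one_le_pow _ _ (by omega)
    omega
  have hi2 : l ^ 2 + l - 1 + 1 = l ^ 2 + l := by omega
  have hact : ∀ (a : O) (T : P27 Ω), T ∈ Tor π Ω → H28G.act a T ∈ Tor π Ω := by
    intro a T hT
    rw [mem_Tor] at hT ⊢
    rw [← act_mul, mul_comm, act_mul, hT, map_zero]
  have hm := sys_of D he.pair hc hy
  have hlev := R.levels hm (Or.inr ⟨hq, rfl⟩) h2
  obtain ⟨P, B, L, y₁, hPK, hPt, hB, C, hL, hkum, hc₁, hy₁⟩ := exists_pt D he.pair hV hvl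
  have hm₁ := sys_of D he.pair hc₁ hy₁
  have hfd := hL.fin
  have hnf : NumberField L := NumberField.of_module_finite F L
  rw [hin] at hPt
  have hlev₁ := R.levels hm₁ (Or.inr ⟨hq, rfl⟩) (fun T hT =>
    level_pt R hin hq he.pair hL hB hPK hPt C T hT (y₁ T) (hkum T hT))
  obtain ⟨T₁, hT₁, hT₁0, -⟩ := R.pt
  obtain ⟨-, T₀, hT₀, hgen, hz⟩ := gi_gen (Ω := Ω) π D.pr D.prim
  have hT₀0 : T₀ ≠ 0 := by
    intro h
    have h1 := (hz 1).1 (by rw [act_one, h])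
    exact D.pr.not_isUnit (isUnit_of_dvd_one h1)
  obtain ⟨a, ha⟩ := R.co_exists (hm.fx T₀ hT₀) (hlev T₀ hT₀)
  obtain ⟨a₁, ha₁⟩ := R.co_exists (hm₁.fx T₀ hT₀) (hlev₁ T₀ hT₀)
  have hna : ¬ π ∣ a₁ := by
    intro hd
    have hcz : ∀ s, JV π V s → ac W27 s P - P = 0 := by
      intro s hs
      refine c_zero D he.pair hc₁ hy₁ ⟨H13S.git_dec V s hs.1, hs.2.1⟩ fun T hT => ?_
      refine R.top (hm₁.fx T hT) rfl ?_ hs.1 hs.2.1
      obtain ⟨x, rfl⟩ := hgen T hT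
      have h3 := R.co_zero (R.lin hm₁ hT₀ hi1 ha₁ x) (hd.mul_right _)
      rw [he0, ← hi2]
      exact h3
    obtain ⟨X, hX, hcX⟩ := cob_inert D hc₁ hcz
    rw [hin] at hX
    exact pt_nontriv D.pr D.prim (LL1_nm D).1 R.above hPK hPt ⟨X, hX, hcX⟩
  obtain ⟨b, hb⟩ := R.compare hq hm hm₁ hT₀ hT₀0 ha ha₁ hna
  obtain ⟨hc', hy'⟩ := ks_sub D he hc hy hc₁ hy₁ b
  have hcz' : ∀ s, JV π V s → c s - H28G.act (cj b) (ac W27 s P - P) = 0 := by
    intro s hs
    refine c_zero D he.pair hc' hy' ⟨H13S.git_dec V s hs.1, hs.2.1⟩ fun T hT => ?_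
    refine R.top (m := y T ^ l / y₁ (H28G.act b T) ^ l)
      (Hx.div (hm.fx T hT) (hm₁.fx _ (hact b T hT))) (div_pow _ _ _) ?_ hs.1 hs.2.1
    rw [he0]
    exact hb T hT
  obtain ⟨X, hX, hcX⟩ := cob_inert D hc' hcz'
  have h5 := cob_dec_ram (hc'.sub_cob hX) (fun s hs => by
      show c s - H28G.act (cj b) (ac W27 s P - P) - (ac W27 s X - X) = 0
      rw [← hcX s hs, sub_self])
    (moved_ram (LL1_prime_cj D.pr) (LL1_prim_cj D.prim) (LL1_nm D).2 hV)
  refine ⟨H28G.act (cj b) P + X, fun s hs => ?_⟩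
  have h6 : c s - H28G.act (cj b) (ac W27 s P - P) - (ac W27 s X - X) = 0 := h5 s hs
  rw [map_add, ac_act]
  rw [map_sub] at h6
  have h7 : c s = (H28G.act (cj b) (ac W27 s P) - H28G.act (cj b) P) + (ac W27 s X - X) := by
    rw [sub_sub, sub_eq_zero] at h6
    exact h6
  rw [h7]
  abel

end H13Z
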