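import Mathlib
import Pool.Agent.Lib.H13Z.LK
import Pool.Agent.Lib.H13Z.LC3
import Pool.Agent.Lib.H13Z.LC5
import Pool.Agent.Lib.H13Z.LI
import Pool.Agent.Lib.H13Z.LCB
import Pool.Agent.Lib.H13Z.LE
import Pool.Agent.Lib.H13S.DC
import Pool.Agent.Lib.H13S.FR
import Pool.Agent.Lib.H13S.GIF
import Pool.Agent.Lib.H13S.LV

open NumberField IsDedekindDomain

namespace H13Z

open H55P H28G H55B H13S

variable {Ω : Type} [Field Ω] [DecidableEq Ω] [Algebra F Ω] [IsAlgClosure F Ω]

theorem LL2_prime_cj {π : O} (h : Prime π) : Prime (cj π) :=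
  (MulEquiv.prime_iff cj.toMulEquiv).2 h

theorem LL2_three (V : ValuationSubring Ω) {π : O} (h3 : Prim π) (hV : vo V π < 1) :
    V.valuation (3 : Ω) = 1 := by
  have h := lv_unit (lv_coprime h3) hV
  have h2 : algebraMap F Ω ((3 : O) : F) = (3 : Ω) := by
    have e : ((3 : O) : F) = 3 := rfl
    rw [e, map_ofNat]
  unfold vo at h
  rwa [h2] at h

theorem LL2_cop {π x : O} (hπ : Prime π) (h : ¬ π ∣ x) : IsCoprime π x :=
  (hπ.irreducible.coprime_iff_not_dvd).2 h

variable {π : O} {l : ℕ} {V : ValuationSubring Ω} {t : Ω} {e0 : ℕ} {e : P27 Ω → P27 Ω → Ω}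
  {c : (Ω ≃ₐ[F] Ω) → P27 Ω} {y : P27 Ω → Ω}

/-- Chunk LL2 (S/M). The split case above π. m T = (y T)^l is a Sys, levels with n = l = l * e0: RV.top: y T is fixed by inertia elements fixing Tor π; c_zero: c s = 0 on JV; cob_inert: X, c s = ac s X - X for Inert V s; inert_tors with a = cj π (vo V (cj π) = 1 and V 3 = 1: LV.lean, Prim.coprime): = 0. Frobenius: exists_frob for v = span {π} (as in DC.lean dec_conj),
gi_frob with γ = π, β = cj π: ac φ T = act π T on Tor (cj π), no fixed points because cj π does not divide π - 1 (conjugate of the last part of dichotomy; no_fix or Bezout). cob_frob. -/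
theorem loc_split (R : RV π l V t e0) (hq : Nm π = l) (he : Pairing π l e) (hc : Dc π V c)
    (hy : KS π V e c y) (h2 : ∀ T ∈ Tor π Ω, Lv π l V (V.valuation t ^ 2) (y T ^ l)) :
    ∃ X ∈ Tor (cj π) Ω, ∀ s, Dec V s → c s = ac W27 s X - X := by
  have D := R.D
  have hl5 := D.five
  have hm := sys_of D he hc hy
  have hlev := R.levels hm (Or.inl ⟨hq, rfl⟩) h2
  have he0 : e0 = 1 := by
    have h1 := R.e0
    rw [hq] at h1
    have h3 : 0 < l - 1 := by omega
    exact Nat.eq_of_mul_eq_mul_right h3 (by rw [h1, one_mul])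
  have hnd : ¬ π ∣ cj π ∧ ¬ π ∣ cj π - 1 := by
    rcases dichotomy π l D.hl D.five D.pr D.prim D.dvd with h | h
    · exfalso
      have h1 := h.2
      rw [hq] at h1
      nlinarith
    · exact ⟨h.1, h.2.2⟩
  have hcz : ∀ s, JV π V s → c s = 0 := by
    intro s hs
    refine c_zero D he hc hy ⟨H13S.git_dec V s hs.1, hs.2.1⟩ fun T hT => ?_
    refine R.top (hm.fx T hT) rfl ?_ hs.1 hs.2.1
    rw [he0, mul_one]
    exact hlev T hT
  have hpc := LL2_prime_cj D.pr
  have h3c := dc_prim_cj D.prim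
  obtain ⟨X, hX, hcX⟩ := cob_inert D hc hcz
  have hcj1 : vo V (cj π) = 1 := lv_unit (LL2_cop D.pr hnd.1) R.above
  have hV3 := LL2_three V D.prim R.above
  have hci : ∀ s, Inert V s → c s = 0 := by
    intro s hs
    rw [hcX s hs, inert_tors hV3 hcj1 hs hX, sub_self]
  let v : HeightOneSpectrum O := ⟨Ideal.span {π}, (Ideal.span_singleton_prime D.pr.ne_zero).2 D.pr, by
    rw [Ne, Ideal.span_singleton_eq_bot]
    exact D.pr.ne_zero⟩
  obtain ⟨φ, hφ1, hφ2⟩ := exists_frob v V (by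
    intro a ha
    obtain ⟨b, rfl⟩ := Ideal.mem_span_singleton.1 ha
    have h4 := lv_mul V π b
    unfold vo at h4
    rw [h4]
    exact mul_lt_one_of_lt_of_le R.above (lv_le V b))
  refine cob_frob D hc hci hφ1 hφ2 fun T hT hfix => ?_
  have h4 := gi_frob (cj π) π hpc h3c D.pr D.prim hnd.1 V R.above φ hφ2 T hT
  rw [hfix] at h4
  have h5 : ¬ cj π ∣ π - 1 := by
    intro h
    apply hnd.2
    have h6 := map_dvd cj h
    rwa [cj_cj, map_sub, map_one] at h6
  obtain ⟨a, b, hab⟩ := LL2_cop hpc h5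
  rw [mem_Tor] at hT
  have h7 : act (π - 1) T = 0 := by
    rw [act_sub, ← h4, act_one, sub_self]
  have h8 : act (a * cj π + b * (π - 1)) T = 0 := by
    rw [act_add, act_mul, act_mul, hT, h7, map_zero, map_zero, add_zero]
  rw [hab, act_one] at h8
  exact h8

/-- Chunk LL3 (S). Above 3: cob_inert, Dc.sub_cob, moved_three for cj π (cj π does not divide 2: l ≥ 5), cob_dec_ram. -/
theorem loc_three (D : Dat π l) (h3 : V.valuation (3 : Ω) < 1) (hc : Dc π V c)
    (h : ∀ s, JV π V s → c s = 0) : ∃ X ∈ Tor (cj π) Ω, ∀ s, Dec V s → c s = ac W27 s X - X := by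
  obtain ⟨X, hX, hcX⟩ := cob_inert D hc h
  refine ⟨X, hX, fun s hs => ?_⟩
  have h2 : ¬ cj π ∣ 2 := by
    intro h4
    obtain ⟨y, hy⟩ := h4
    have h5 : Nm (cj π) * Nm y = 4 := by
      have h6 := dc_Nm_nat 2
      rw [← Nm_mul, ← hy]
      exact_mod_cast h6
    have h7 : l ∣ Nm π := CO2_Nm D.hl D.pr D.dvd
    have h8 : l ∣ 4 := by
      rw [← h5, dc_Nm_cj]
      exact h7.mul_right _
    have h9 := Nat.le_of_dvd (by norm_num) h8
    have := D.five
    omega
  have h5 := cob_dec_ram (hc.sub_cob hX) (fun s hs => by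
      show c s - (ac W27 s X - X) = 0
      rw [hcX s hs, sub_self])
    (moved_three (LL2_prime_cj D.pr) (dc_prim_cj D.prim) h2 h3) s hs
  exact sub_eq_zero.1 h5

end H13Z
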