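import Mathlib
import Pool.Agent.Lib.H13Z.LG
import Pool.Agent.Lib.H13Z.LE
import Pool.Agent.Lib.H13S.DC
import Pool.Agent.Lib.H13S.FR
import Pool.Agent.Lib.H13S.GIF
import Pool.Agent.Lib.H13S.IN4
import Pool.Agent.Lib.H13S.LV
import Pool.Agent.Lib.H13S.QV

open NumberField IsDedekindDomain

namespace H13Z

open H55P H28G H55B H13S

variable {Ω : Type} [Field Ω] [DecidableEq Ω] [Algebra F Ω] [IsAlgClosure F Ω]

/-- The unramified case: π does not divide cj π and V lies above cj π. n is an integer congruent to cj π modulo π, φ a Frobenius element. -/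
structure UV (π : O) (l : ℕ) (V : ValuationSubring Ω) (φ : Ω ≃ₐ[F] Ω) (n : ℕ) : Prop where
  D : Dat π l
  nd : ¬ π ∣ cj π
  above : vo V (cj π) < 1
  dec : Dec V φ
  frob : ∀ x ∈ V, V.valuation (φ x - x ^ l) < 1
  act : ∀ T ∈ Tor π Ω, ac W27 φ T = n • T
  n1 : ¬ l ∣ n
  n2 : ¬ (l : ℤ) ∣ (n : ℤ) - 1

theorem LQ1_int {β : O} (hN : (H55B.Nm β).Prime) (c : O) : ∃ n : ℤ, β ∣ c - n := by
  have hf : Fact (H55B.Nm β).Prime := ⟨hN⟩
  have hcard : Nat.card (O ⧸ Ideal.span {β}) = H55B.Nm β := by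
    unfold H55B.Nm
    rw [Ideal.absNorm_apply, Submodule.cardQuot_apply]
  have h1 : (1 : O ⧸ Ideal.span {β}) ≠ 0 := by
    intro h0
    have hs : Subsingleton (O ⧸ Ideal.span {β}) := subsingleton_of_zero_eq_one h0.symm
    rw [Nat.card_of_subsingleton (0 : O ⧸ Ideal.span {β})] at hcard
    rw [← hcard] at hN
    exact Nat.not_prime_one hN
  have h2 := mem_zmultiples_of_prime_card hcard h1 (g' := Ideal.Quotient.mk (Ideal.span {β}) c)
  obtain ⟨n, hn⟩ := AddSubgroup.mem_zmultiples_iff.1 h2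
  refine ⟨n, ?_⟩
  rw [← Ideal.mem_span_singleton, ← Ideal.Quotient.eq, ← hn, map_intCast, zsmul_eq_mul, mul_one]

theorem LQ1_cop {π x : O} (hπ : Prime π) (h : ¬ π ∣ x) : IsCoprime π x :=
  (hπ.irreducible.coprime_iff_not_dvd).2 h

theorem LQ1_nd {π : O} (hs : ¬ π ∣ cj π) : ¬ cj π ∣ π := by
  intro h
  apply hs
  have h1 := map_dvd cj h
  rwa [cj_cj] at h1

theorem LQ1_prime_cj {π : O} (h : Prime π) : Prime (cj π) :=
  (MulEquiv.prime_iff cj.toMulEquiv).2 h

theorem LQ1_three (V : ValuationSubring Ω) {π : O} (h3 : Prim π) (hV : vo V π < 1) :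
    V.valuation (3 : Ω) = 1 := by
  have h := lv_unit (lv_coprime h3) hV
  have h2 : algebraMap F Ω ((3 : O) : F) = (3 : Ω) := by
    have e : ((3 : O) : F) = 3 := rfl
    rw [e, map_ofNat]
  unfold vo at h
  rwa [h2] at h

theorem LQ1_pow {R : Type} [CommRing R] (y : R) (n : ℕ) : ∃ c : R,
    (1 + y) ^ n = 1 + n * y + y ^ 2 * c := by
  induction n with
  | zero => exact ⟨0, by simp⟩
  | succ n ih =>
    obtain ⟨c, hc⟩ := ih
    refine ⟨n + c + c * y, ?_⟩
    rw [pow_succ, hc]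
    push_cast
    ring

/-- Chunk LQ1 (S/M). Existence: exists_frob for v = span {cj π} (absNorm = Nm (cj π) = Nm π = l: dichotomy, CO2_Nm_cj), gi_frob with γ = cj π, β = π: ac φ T = act (cj π) T. O/π has l elements, so cj π is congruent to an integer n ≥ 1 modulo π (H28G.K11_int; add a multiple of l to make it a natural number), act (cj π) T = act n T = n • T.
l | n would give π | cj π, l | n - 1 would give π | cj π - 1 (dichotomy). -/
theorem exists_UV {π : O} {l : ℕ} {V : ValuationSubring Ω} (D : Dat π l) (hs : ¬ π ∣ cj π)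
    (hV : vo V (cj π) < 1) : ∃ (φ : Ω ≃ₐ[F] Ω) (n : ℕ), UV π l V φ n := by
  have hc := LQ1_prime_cj D.pr
  have hne := LQ1_nd hs
  have hdi : Nm π = l ∧ ¬ π ∣ cj π - 1 := by
    rcases dichotomy π l D.hl D.five D.pr D.prim D.dvd with h | h
    · exact absurd (by rw [h.1]) hs
    · exact h.2
  let v : HeightOneSpectrum O := ⟨Ideal.span {cj π}, (Ideal.span_singleton_prime hc.ne_zero).2 hc, by
    rw [Ne, Ideal.span_singleton_eq_bot]
    exact hc.ne_zero⟩
  obtain ⟨φ, hφ1, hφ2⟩ := exists_frob v V (by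
    intro a ha
    obtain ⟨b, rfl⟩ := Ideal.mem_span_singleton.1 ha
    have h4 := lv_mul V (cj π) b
    unfold vo at h4
    rw [h4]
    exact mul_lt_one_of_lt_of_le hV (lv_le V b))
  have hNv : Ideal.absNorm v.asIdeal = l := by
    show Nm (cj π) = l
    rw [dc_Nm_cj, hdi.1]
  have hlp : (Nm π).Prime := by
    rw [hdi.1]
    exact D.hl
  obtain ⟨z, hz⟩ := LQ1_int hlp (cj π)
  have hl0 : (l : ℤ) ≠ 0 := by exact_mod_cast D.hl.ne_zero
  obtain ⟨n, hn⟩ : ∃ n : ℕ, (n : ℤ) = z % l := ⟨(z % l).toNat, Int.toNat_of_nonneg (Int.emod_nonneg z hl0)⟩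
  have hzn : (z : O) = (n : O) + (l : O) * ((z / l : ℤ) : O) := by
    have h5 := Int.emod_add_mul_ediv z l
    rw [← hn] at h5
    have h6 := congrArg (Int.cast : ℤ → O) h5
    push_cast at h6
    exact h6.symm
  have hcn : π ∣ cj π - (n : O) := by
    have e : cj π - (n : O) = (cj π - (z : O)) + (l : O) * ((z / l : ℤ) : O) := by
      rw [hzn]
      ring
    rw [e]
    exact dvd_add hz (D.dvd.mul_right _)
  refine ⟨φ, n, D, hs, hV, hφ1, ?_, ?_, ?_, ?_⟩
  · intro x hx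
    have h6 := hφ2 x hx
    rwa [hNv] at h6
  · intro T hT
    rw [gi_frob π (cj π) D.pr D.prim hc (dc_prim_cj D.prim) hne V hV φ hφ2 T hT]
    obtain ⟨w, hw⟩ := hcn
    have e : cj π = (n : O) + w * π := by linear_combination hw
    have h7 : act (cj π) T = act ((n : O) + w * π) T := by rw [← e]
    rw [h7, act_add, act_mul, mem_Tor.1 hT, map_zero, add_zero, act_nat]
  · intro h
    apply hs
    have h8 : π ∣ (n : O) := by
      obtain ⟨w, rfl⟩ := h
      rw [Nat.cast_mul]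
      exact D.dvd.mul_right _
    have h9 := dvd_add hcn h8
    rwa [sub_add_cancel] at h9
  · rintro ⟨w, hw⟩
    apply hdi.2
    have h8 : π ∣ (n : O) - 1 := by
      have h9 := congrArg (Int.cast : ℤ → O) hw
      push_cast at h9
      rw [h9]
      exact D.dvd.mul_right _
    have h9 := dvd_add hcn h8
    have e : cj π - (n : O) + ((n : O) - 1) = cj π - 1 := by ring
    rwa [e] at h9

variable {π : O} {l : ℕ} {V : ValuationSubring Ω} {φ : Ω ≃ₐ[F] Ω} {n : ℕ}

/-- V l = V (cj π) < 1 (l is a unit times π cj π), V π = 1, V 3 = 1 (lv_coprime, lv_unit). -/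
theorem UV.val_l (U : UV π l V φ n) : V.valuation (l : Ω) = vo V (cj π) ∧ vo V π = 1 ∧
    V.valuation (3 : Ω) = 1 ∧ V.valuation (l : Ω) ≠ 0 ∧ V.valuation (l : Ω) < 1 := by
  have hp1 : vo V π = 1 := lv_unit (LQ1_cop (LQ1_prime_cj U.D.pr) (LQ1_nd U.nd)) U.above
  have hdi : Nm π = l := by
    rcases dichotomy π l U.D.hl U.D.five U.D.pr U.D.prim U.D.dvd with h | h
    · exact absurd (by rw [h.1]) U.nd
    · exact h.2.1
  have h1 : V.valuation (l : Ω) = vo V (cj π) := by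
    have h2 : π * cj π = (l : O) := by rw [mul_cj, hdi]
    have h3 := lv_mul V π (cj π)
    rw [h2, hp1, one_mul] at h3
    rw [← h3]
    have e : ((l : O) : F) = (l : F) := map_natCast (algebraMap O F) l
    show V.valuation (l : Ω) = V.valuation (algebraMap F Ω ((l : O) : F))
    rw [e, map_natCast (algebraMap F Ω)]
  refine ⟨h1, hp1, LQ1_three V (dc_prim_cj U.D.prim) U.above, ?_, ?_⟩
  · rw [h1]
    exact qv_pos V (LQ1_prime_cj U.D.pr).ne_zero
  · rw [h1]
    exact U.above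

/-- Inertia elements fix Tor π (inert_tors), so they are in DT: value_fixed for K = ⊥, qv_intpow for cj π. -/
theorem UV.values (U : UV π l V φ n) {x : Ω} (hx : Hx π V x) (h0 : x ≠ 0) :
    ∃ k : ℤ, V.valuation x = V.valuation (l : Ω) ^ k := by
  obtain ⟨h1, h2, h3, -, -⟩ := U.val_l
  have hNF : NumberField (⊥ : IntermediateField F Ω) := NumberField.of_module_finite F _
  have hfix : ∀ s ∈ (⊥ : IntermediateField F Ω).fixingSubgroup, Inert V s → s x = x := by
    intro s _ hs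
    exact hx s ⟨H13S.git_dec V s hs, fun T hT => inert_tors h3 h2 hs hT⟩
  obtain ⟨a, ha, hva⟩ := value_fixed (⊥ : IntermediateField F Ω) V _ h0 hfix
  obtain ⟨a', ha'⟩ := IntermediateField.mem_bot.1 a.2
  have ha'0 : a' ≠ 0 := by
    rintro rfl
    rw [map_zero] at ha'
    exact ha (Subtype.ext ha'.symm)
  obtain ⟨k, hk⟩ := qv_intpow V (LQ1_prime_cj U.D.pr) U.above a' ha'0
  rw [ha'] at hk
  exact ⟨k, by rw [hva, hk, h1]⟩

theorem UV.step (U : UV π l V φ n) {x : Ω} (hx : Hx π V x) (h : V.valuation x < 1) :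
    V.valuation x ≤ V.valuation (l : Ω) := by
  obtain ⟨-, -, -, h4, h5⟩ := U.val_l
  by_cases h0 : x = 0
  · rw [h0, map_zero]
    exact zero_le
  obtain ⟨k, hk⟩ := U.values hx h0
  have h6 : 0 < V.valuation (l : Ω) := zero_lt_iff.2 h4
  rw [hk] at h ⊢
  have hk1 : 1 ≤ k := by
    by_contra hcon
    push Not at hcon
    have h7 : k ≤ 0 := by omega
    have h8 : 1 ≤ V.valuation (l : Ω) ^ k := by
      have h9 := zpow_le_zpow_right_of_le_one₀ h6 h5.le h7
      rwa [zpow_zero] at h9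
    exact absurd h (not_lt.2 h8)
  have h9 := zpow_le_zpow_right_of_le_one₀ h6 h5.le hk1
  rwa [zpow_one] at h9

theorem LQ1_nsmul {m : P27 Ω → Ω} (hm : Sys π l V m) {T : P27 Ω}
    (hT : T ∈ Tor π Ω) (k : ℕ) : ∃ z : Ω, Hx π V z ∧ z ≠ 0 ∧ m (k • T) = m T ^ k * z ^ l := by
  induction k with
  | zero =>
    obtain ⟨z, hz, hz0, he⟩ := hm.add 0 (zero_mem _) 0 (zero_mem _)
    have h0 := hm.ne 0 (zero_mem _)
    refine ⟨z⁻¹, hz.inv, inv_ne_zero hz0, ?_⟩
    rw [add_zero] at he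
    have h1 : m 0 * z ^ l = 1 := by
      apply mul_left_cancel₀ h0
      rw [mul_one, ← mul_assoc]
      exact he.symm
    rw [zero_smul, pow_zero, one_mul, inv_pow]
    exact eq_inv_of_mul_eq_one_left h1
  | succ k ih =>
    obtain ⟨z₁, hz₁, hz₁0, he₁⟩ := ih
    have hk : k • T ∈ Tor π Ω := nsmul_mem hT k
    obtain ⟨z, hz, hz0, he⟩ := hm.add _ hk _ hT
    refine ⟨z₁ * z, hz₁.mul hz, mul_ne_zero hz₁0 hz0, ?_⟩
    rw [succ_nsmul, he, he₁]
    ring

/-- estimates for powers of elements of the valuation ring -/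
theorem LQ1_est {y : Ω} (hy : V.valuation y ≤ 1) (n : ℕ) :
    V.valuation ((1 + y) ^ n - 1 - n * y) ≤ V.valuation y ^ 2 := by
  have hyV : y ∈ V := (V.valuation_le_one_iff y).1 hy
  obtain ⟨c, hc⟩ := LQ1_pow (⟨y, hyV⟩ : V) n
  have hc' := congrArg (fun z : V => (z : Ω)) hc
  push_cast at hc'
  have e : (1 + y) ^ n - 1 - n * y = y ^ 2 * (c : Ω) := by
    rw [hc']
    ring
  rw [e, map_mul, map_pow]
  exact mul_le_of_le_one_right' ((V.valuation_le_one_iff _).2 c.2)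

theorem LQ1_root (hl : l.Prime) (h5 : 5 ≤ l) (hVl : V.valuation (l : Ω) < 1) {z : Ω}
    (hz : V.valuation z ≤ 1) (h : V.valuation (z ^ l - 1) < 1) : V.valuation (z - 1) < 1 := by
  have hzV : z ∈ V := (V.valuation_le_one_iff z).1 hz
  obtain ⟨r, hr⟩ := exists_add_pow_prime_eq hl (⟨z, hzV⟩ : V) (-1)
  have hr' := congrArg (fun z : V => (z : Ω)) hr
  push_cast at hr'
  have hodd : Odd l := hl.odd_of_ne_two (by omega)
  rw [hodd.neg_one_pow] at hr'
  have e : (z - 1) ^ l = (z ^ l - 1) + (l : Ω) * ((-⟨z, hzV⟩ * r : V) : Ω) := by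
    rw [sub_eq_add_neg z 1, hr']
    push_cast
    ring
  have h2 : V.valuation ((z - 1) ^ l) < 1 := by
    rw [e]
    refine Valuation.map_add_lt _ h ?_
    rw [map_mul]
    exact mul_lt_one_of_lt_of_le hVl ((V.valuation_le_one_iff _).2 (-⟨z, hzV⟩ * r : V).2)
  rw [map_pow] at h2
  by_contra hcon
  push Not at hcon
  exact absurd h2 (not_lt.2 (one_le_pow₀ hcon))

/-- if z - 1 is divisible by l then z^l - 1 is divisible by l^2 -/
theorem LQ1_up {z : Ω} (h : V.valuation (z - 1) ≤ V.valuation (l : Ω)) (hVl : V.valuation (l : Ω) < 1) :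
    V.valuation (z ^ l - 1) ≤ V.valuation (l : Ω) ^ 2 := by
  have h1 := LQ1_est (V := V) (y := z - 1) (h.trans hVl.le) l
  have e1 : 1 + (z - 1) = z := by ring
  rw [e1] at h1
  have e : z ^ l - 1 = (z ^ l - 1 - l * (z - 1)) + l * (z - 1) := by ring
  rw [e]
  refine Valuation.map_add_le _ (h1.trans (pow_le_pow_left₀ zero_le h 2)) ?_
  rw [map_mul, sq]
  exact mul_le_mul' le_rfl h

/-- Chunk LQ2 (M). The coefficient. m 0 is an l-th power (m (0+0)), m (k • T) = (m T)^k z^l (induction); m (n • T) = m (ac φ T) = φ (m T) z^l. So φ (m T) = (m T)^n z^l with z in Hx. V (φ (m T)) = V (m T) (Dec.val), V (m T) = V l^r (values): l | r (n - 1), so l | r: u = m T/(l^(r/l))^l has value 1. b = φ⁻¹ u (Hx.dec for φ⁻¹): V (u - b^l) < 1, V b = 1.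
x = (u/b^l - 1)/l: Hx, V (u/b^l - 1) < 1, so V x ≤ 1 (step). With w = l^(r/l) b: m T = w^l (1 + l x). φ (1 + l x) = 1 + l φ x = (1 + l x)^n z'^l, z' in Hx; V (z'^l - 1) ≤ V l < 1, V (z' - 1) < 1, so ≤ V l (step), so V (z'^l - 1) ≤ V l^2. So V (l (φ x - n x)) ≤ V l^2, V (φ x - n x) ≤ V l < 1, and V (φ x - x^l) < 1. -/
theorem UV.coef (U : UV π l V φ n) {m : P27 Ω → Ω} (hm : Sys π l V m) {T : P27 Ω} (hT : T ∈ Tor π Ω) :
    ∃ z x : Ω, Hx π V z ∧ z ≠ 0 ∧ Hx π V x ∧ V.valuation x ≤ 1 ∧ m T = z ^ l * (1 + l * x) ∧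
      V.valuation (x ^ l - n * x) < 1 := by
  have halg : Algebra.IsAlgebraic F Ω := IsAlgClosure.isAlgebraic
  obtain ⟨-, -, -, h4, h5⟩ := U.val_l
  have hl := U.D.hl
  have hl5 := U.D.five
  have hL0 : (l : Ω) ≠ 0 := (Valuation.ne_zero_iff _).1 h4
  have hLp : 0 < V.valuation (l : Ω) := zero_lt_iff.2 h4
  have hM0 := hm.ne T hT
  have hMx := hm.fx T hT
  obtain ⟨M, hMd⟩ : ∃ M : Ω, M = m T := ⟨_, rfl⟩
  rw [← hMd] at hM0 hMx ⊢
  -- the equation φ M = M^n z^l
  have hφM : ∃ z : Ω, Hx π V z ∧ z ≠ 0 ∧ φ M = M ^ n * z ^ l := by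
    obtain ⟨z₁, hz₁, hz₁0, he₁⟩ := LQ1_nsmul hm hT n
    obtain ⟨z₂, hz₂, hz₂0, he₂⟩ := hm.act φ U.dec T hT
    rw [U.act T hT, he₁] at he₂
    refine ⟨z₁ / z₂, hz₁.div hz₂, div_ne_zero hz₁0 hz₂0, ?_⟩
    rw [hMd, div_pow]
    field_simp
    exact he₂.symm
  obtain ⟨z, hz, hz0, hφ⟩ := hφM
  obtain ⟨r, hr⟩ := U.values hMx hM0
  obtain ⟨s, hs⟩ := U.values hz hz0
  have hrs : r = r * n + s * l := by
    have h6 := Dec.val U.dec M
    rw [hφ, map_mul, map_pow, map_pow, hr, hs, ← zpow_natCast, ← zpow_natCast, ← zpow_mul,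
      ← zpow_mul, ← zpow_add₀ h4] at h6
    exact (zpow_right_injective₀ hLp h5.ne h6).symm
  have hdr : (l : ℤ) ∣ r := by
    have h7 : (l : ℤ) ∣ ((n : ℤ) - 1) * r := ⟨-s, by linear_combination -hrs⟩
    exact ((Nat.prime_iff_prime_int.1 hl).dvd_or_dvd h7).resolve_left U.n2
  obtain ⟨r', hr'⟩ := hdr
  have hLx : Hx π V ((l : Ω) ^ r') := (Hx.nat l).zpow r'
  have hLr0 : (l : Ω) ^ r' ≠ 0 := zpow_ne_zero _ hL0
  obtain ⟨u, hud⟩ : ∃ u : Ω, u = M / ((l : Ω) ^ r') ^ l := ⟨_, rfl⟩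
  have hux : Hx π V u := by
    rw [hud]
    exact hMx.div (hLx.pow l)
  have hu1 : V.valuation u = 1 := by
    rw [hud, map_div₀, map_pow, map_zpow₀, hr, hr', ← zpow_natCast, ← zpow_mul, mul_comm r' (l : ℤ)]
    exact div_self (zpow_ne_zero _ h4)
  obtain ⟨b, hbd⟩ : ∃ b : Ω, b = φ⁻¹ u := ⟨_, rfl⟩
  have hbx : Hx π V b := by
    rw [hbd]
    exact hux.dec (Dec.inv' U.dec)
  have hφb : φ b = u := by
    rw [hbd, ← AlgEquiv.mul_apply, mul_inv_cancel]
    rfl
  have hb1 : V.valuation b = 1 := by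
    rw [← Dec.val U.dec b, hφb, hu1]
  have hb0 : b ≠ 0 := by
    rintro rfl
    rw [map_zero] at hb1
    exact zero_ne_one hb1
  have hub : V.valuation (u - b ^ l) < 1 := by
    have h8 := U.frob b ((V.valuation_le_one_iff b).1 hb1.le)
    rwa [hφb] at h8
  obtain ⟨y, hyd⟩ : ∃ y : Ω, y = u / b ^ l - 1 := ⟨_, rfl⟩
  have hyx : Hx π V y := by
    rw [hyd]
    exact (hux.div (hbx.pow l)).sub Hx.one
  have hy1 : V.valuation y < 1 := by
    have e : y = (u - b ^ l) / b ^ l := by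
      rw [hyd]
      field_simp
    rw [e, map_div₀, map_pow, hb1, one_pow, div_one]
    exact hub
  have hyl := U.step hyx hy1
  obtain ⟨x, hxd⟩ : ∃ x : Ω, x = y / l := ⟨_, rfl⟩
  have hxx : Hx π V x := by
    rw [hxd]
    exact hyx.div (Hx.nat l)
  have hyx' : y = l * x := by
    rw [hxd]
    field_simp
  have hx1 : V.valuation x ≤ 1 := by
    rw [hxd, map_div₀]
    exact div_le_one_of_le₀ hyl zero_le
  have hub' : u = b ^ l * (1 + l * x) := by
    rw [← hyx', hyd]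
    field_simp
    ring
  have hMw : M = ((l : Ω) ^ r' * b) ^ l * (1 + l * x) := by
    have h9 : M = ((l : Ω) ^ r') ^ l * u := by
      rw [hud]
      field_simp
    rw [h9, hub', mul_pow]
    ring
  refine ⟨(l : Ω) ^ r' * b, x, hLx.mul hbx, mul_ne_zero hLr0 hb0, hxx, hx1, hMw, ?_⟩
  -- the congruence
  obtain ⟨w, hwd⟩ : ∃ w : Ω, w = (l : Ω) ^ r' * b := ⟨_, rfl⟩
  rw [← hwd] at hMw
  have hwx : Hx π V w := by
    rw [hwd]
    exact hLx.mul hbx
  have hw0 : w ≠ 0 := by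
    rw [hwd]
    exact mul_ne_zero hLr0 hb0
  have hφw0 : φ w ≠ 0 := (map_ne_zero φ).2 hw0
  have hφl : φ (l : Ω) = l := map_natCast φ l
  have hφx1 : V.valuation (φ x) ≤ 1 := by
    rw [Dec.val U.dec x]
    exact hx1
  obtain ⟨z', hz'd⟩ : ∃ z' : Ω, z' = w ^ n * z / φ w := ⟨_, rfl⟩
  have hz'x : Hx π V z' := by
    rw [hz'd]
    exact ((hwx.pow n).mul hz).div (hwx.dec U.dec)
  have hkey : 1 + l * φ x = (1 + l * x) ^ n * z' ^ l := by
    have h10 : φ M = (φ w) ^ l * (1 + l * φ x) := by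
      rw [hMw, map_mul, map_pow, map_add, map_mul, hφl, map_one]
    rw [hφ, hMw] at h10
    rw [hz'd, div_pow, mul_pow]
    have h11 : (φ w) ^ l ≠ 0 := pow_ne_zero _ hφw0
    field_simp
    have h12 : (w ^ l * (1 + l * x)) ^ n = (w ^ n) ^ l * (1 + l * x) ^ n := by
      rw [mul_pow, ← pow_mul, ← pow_mul, mul_comm l n]
    rw [mul_comm, ← h10, h12]
    ring
  have hlx1 : V.valuation ((l : Ω) * x) ≤ V.valuation (l : Ω) := by
    rw [map_mul]
    exact mul_le_of_le_one_right' hx1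
  have hlx2 : V.valuation ((l : Ω) * φ x) ≤ V.valuation (l : Ω) := by
    rw [map_mul]
    exact mul_le_of_le_one_right' hφx1
  have hu2 : V.valuation (1 + (l : Ω) * x) = 1 := by
    have h13 : V.valuation ((l : Ω) * x) < V.valuation (1 : Ω) := by
      rw [map_one]
      exact lt_of_le_of_lt hlx1 h5
    have h14 := V.valuation.map_add_eq_of_lt_left h13
    rwa [map_one] at h14
  have hest := LQ1_est (V := V) (y := (l : Ω) * x) (hlx1.trans h5.le) n
  have hest' : V.valuation ((1 + (l : Ω) * x) ^ n - 1 - n * (l * x)) ≤ V.valuation (l : Ω) ^ 2 :=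
    hest.trans (pow_le_pow_left₀ zero_le hlx1 2)
  have hnl : V.valuation ((n : Ω) * (l * x)) ≤ V.valuation (l : Ω) := by
    rw [map_mul]
    exact (mul_le_of_le_one_left' ((V.valuation_le_one_iff _).2 (natCast_mem V n))).trans hlx1
  have hl2 : V.valuation (l : Ω) ^ 2 ≤ V.valuation (l : Ω) := by
    rw [sq]
    exact mul_le_of_le_one_right' h5.le
  have hz1 : V.valuation (z' ^ l - 1) ≤ V.valuation (l : Ω) := by
    have e : (1 + l * x) ^ n * (z' ^ l - 1) =
        l * φ x - (((1 + (l : Ω) * x) ^ n - 1 - n * (l * x)) + n * (l * x)) := by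
      linear_combination -hkey
    have h15 : V.valuation ((1 + l * x) ^ n * (z' ^ l - 1)) ≤ V.valuation (l : Ω) := by
      rw [e]
      refine Valuation.map_sub_le _ hlx2 (Valuation.map_add_le _ (hest'.trans hl2) hnl)
    rwa [map_mul, map_pow, hu2, one_pow, one_mul] at h15
  have hz'1 : V.valuation z' ≤ 1 := by
    have h16 : V.valuation (z' ^ l) ≤ 1 := by
      have e : z' ^ l = (z' ^ l - 1) + 1 := by ring
      rw [e]
      refine Valuation.map_add_le _ (hz1.trans h5.le) ?_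
      rw [map_one]
    rw [map_pow] at h16
    exact (pow_le_one_iff_of_nonneg zero_le hl.ne_zero).1 h16
  have hz2 := LQ1_root hl hl5 h5 hz'1 (lt_of_le_of_lt hz1 h5)
  have hz3 := U.step (hz'x.sub Hx.one) hz2
  have hz4 := LQ1_up hz3 h5
  have hfin : V.valuation ((l : Ω) * (φ x - n * x)) ≤ V.valuation (l : Ω) ^ 2 := by
    have e : (l : Ω) * (φ x - n * x) = ((1 + (l : Ω) * x) ^ n - 1 - n * (l * x)) +
        (1 + l * x) ^ n * (z' ^ l - 1) := by
      linear_combination hkey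
    rw [e]
    refine Valuation.map_add_le _ hest' ?_
    rw [map_mul, map_pow, hu2, one_pow, one_mul]
    exact hz4
  rw [map_mul, sq] at hfin
  have hfin2 : V.valuation (φ x - n * x) ≤ V.valuation (l : Ω) := le_of_mul_le_mul_left hfin hLp
  have hfr := U.frob x ((V.valuation_le_one_iff x).1 hx1)
  have e : x ^ l - n * x = (φ x - n * x) - (φ x - x ^ l) := by ring
  rw [e]
  exact Valuation.map_sub_lt _ (lt_of_le_of_lt hfin2 h5) hfr

end H13Z
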