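import Mathlib
import Pool.Agent.Lib.H13Z.LQ1
import Pool.Agent.Lib.H13Z.LL1
import Pool.Agent.Lib.H13Z.LF2

open NumberField IsDedekindDomain

namespace H13Z

open H55P H28G H55B H13S

theorem LQ3_nat {Ω : Type} [Field Ω] (V : ValuationSubring Ω) (n : ℕ) : V.valuation (n : Ω) ≤ 1 :=
  (V.valuation_le_one_iff _).2 (natCast_mem V n)

theorem LQ3_int {Ω : Type} [Field Ω] (V : ValuationSubring Ω) (n : ℤ) : V.valuation (n : Ω) ≤ 1 :=
  (V.valuation_le_one_iff _).2 (intCast_mem V n)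

/-- Numbers prime to l are units. -/
theorem LQ3_unit {Ω : Type} [Field Ω] (V : ValuationSubring Ω) {l : ℕ} (hl : l.Prime)
    (hV : V.valuation (l : Ω) < 1) {n : ℕ} (hn : ¬ l ∣ n) : V.valuation (n : Ω) = 1 := by
  refine le_antisymm (LQ3_nat V n) (not_lt.1 fun h => ?_)
  have hc : IsCoprime (l : ℤ) (n : ℤ) :=
    Nat.isCoprime_iff_coprime.2 ((Nat.Prime.coprime_iff_not_dvd hl).2 hn)
  obtain ⟨a, b, hab⟩ := hc
  have h1 : (a : Ω) * (l : Ω) + (b : Ω) * (n : Ω) = 1 := by exact_mod_cast congrArg (Int.cast : ℤ → Ω) hab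
  have h2 : V.valuation ((a : Ω) * (l : Ω) + (b : Ω) * (n : Ω)) < 1 := by
    refine V.valuation.map_add_lt ?_ ?_
    · rw [map_mul]
      exact lt_of_le_of_lt (mul_le_of_le_one_left' (LQ3_int V a)) hV
    · rw [map_mul]
      exact lt_of_le_of_lt (mul_le_of_le_one_left' (LQ3_int V b)) h
  rw [h1, map_one] at h2
  exact lt_irrefl _ h2

/-- Elements of the prime field of the residue field. -/
theorem LQ3_res {Ω : Type} [Field Ω] (V : ValuationSubring Ω) {l : ℕ} (hl : l.Prime)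
    (hV : V.valuation (l : Ω) < 1) {ρ : Ω} (hρ : V.valuation ρ ≤ 1) (h : V.valuation (ρ ^ l - ρ) < 1) :
    ∃ j : ℕ, V.valuation (ρ - j) < 1 := by
  have hρV : ρ ∈ V := (V.valuation_le_one_iff _).1 hρ
  obtain ⟨r, hr⟩ : ∃ r : V, r = ⟨ρ, hρV⟩ := ⟨_, rfl⟩
  have hrρ : (r : Ω) = ρ := by rw [hr]
  have hf : Fact l.Prime := ⟨hl⟩
  have hres : ∀ a : V, IsLocalRing.residue V a = 0 ↔ V.valuation (a : Ω) < 1 := by
    intro a
    rw [IsLocalRing.residue_eq_zero_iff]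
    exact V.valuation_lt_one_iff a
  have hchar : CharP (IsLocalRing.ResidueField V) l := by
    rw [CharP.charP_iff_prime_eq_zero hl]
    have h1 := (hres (l : V)).2 (by
      have : ((l : V) : Ω) = (l : Ω) := by norm_cast
      rw [this]
      exact hV)
    rw [map_natCast] at h1
    exact h1
  have h1 : (IsLocalRing.residue V r) ^ l = IsLocalRing.residue V r := by
    rw [← sub_eq_zero, ← map_pow, ← map_sub, hres]
    have : ((r ^ l - r : V) : Ω) = ρ ^ l - ρ := by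
      rw [← hrρ]
      rfl
    rw [this]
    exact h
  have h2 := (Subfield.mem_bot_iff_pow_eq_self (IsLocalRing.ResidueField V) l).2 h1
  obtain ⟨n, hn⟩ := (mem_bot_iff_intCast l (IsLocalRing.ResidueField V)).1 h2
  have h3 : 0 ≤ n + |n| * (l : ℤ) := by
    have h4 : (1 : ℤ) ≤ l := by exact_mod_cast hl.one_le
    have h5 := neg_abs_le n
    have h6 : |n| * 1 ≤ |n| * (l : ℤ) := mul_le_mul_of_nonneg_left h4 (abs_nonneg n)
    linarith
  obtain ⟨j, hj⟩ := Int.eq_ofNat_of_zero_le h3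
  refine ⟨j, ?_⟩
  have h4 : IsLocalRing.residue V (r - (j : V)) = 0 := by
    have h5 : ((j : ℕ) : IsLocalRing.ResidueField V) = (n : IsLocalRing.ResidueField V) := by
      have h6 := congrArg (Int.cast : ℤ → IsLocalRing.ResidueField V) hj
      push_cast at h6
      rw [CharP.cast_eq_zero, mul_zero, add_zero] at h6
      exact h6.symm
    rw [map_sub, map_natCast, h5, hn, sub_self]
  rw [hres] at h4
  have h5 : ((r - (j : V) : V) : Ω) = ρ - j := by
    rw [← hrρ]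
    norm_cast
  rw [h5] at h4
  exact h4

/-- (1 + a)^j is congruent to 1 + j a modulo a^2. -/
theorem LQ3_bin {Ω : Type} [Field Ω] (V : ValuationSubring Ω) {a : Ω} (ha : V.valuation a ≤ 1) (j : ℕ) :
    V.valuation ((1 + a) ^ j - 1 - j * a) ≤ V.valuation a ^ 2 := by
  have h1a : V.valuation (1 + a) ≤ 1 := V.valuation.map_add_le (by rw [map_one]) ha
  induction j with
  | zero =>
    have e : (1 + a) ^ 0 - 1 - ((0 : ℕ) : Ω) * a = 0 := by
      rw [Nat.cast_zero]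
      ring
    rw [e, map_zero]
    exact zero_le
  | succ j ih =>
    have e : (1 + a) ^ (j + 1) - 1 - ((j + 1 : ℕ) : Ω) * a =
        ((1 + a) ^ j - 1 - j * a) * (1 + a) + j * a ^ 2 := by
      push_cast
      ring
    rw [e]
    refine V.valuation.map_add_le ?_ ?_
    · rw [map_mul]
      exact (mul_le_of_le_one_right' h1a).trans ih
    · rw [map_mul, map_pow]
      exact mul_le_of_le_one_left' (LQ3_nat V j)

/-- Chunk LQ3 (S). ρ = x/x₁: V (ρ^l - ρ) < 1 (x^l = n x, x₁^l = n x₁, V n = 1 because l does not divide n and V l < 1). X^l - X = product of the X - j (0 ≤ j < l) modulo l: as polynomials over ZMod l (FiniteField / ZMod: prod (X - C a) = X^l - X), so the product over j < l of ρ - j has value < 1 (V ρ ≤ 1), hence one factor. -/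
theorem ratio {Ω : Type} [Field Ω] (V : ValuationSubring Ω) {l : ℕ} (hl : l.Prime)
    (hV : V.valuation (l : Ω) < 1) {n : ℕ} (hn : ¬ l ∣ n) {x x₁ : Ω} (hx : V.valuation x ≤ 1)
    (h : V.valuation (x ^ l - n * x) < 1) (hx₁ : V.valuation x₁ = 1)
    (h₁ : V.valuation (x₁ ^ l - n * x₁) < 1) : ∃ j : ℕ, V.valuation (x - j * x₁) < 1 := by
  have hn1 := LQ3_unit V hl hV hn
  have hx0 : x₁ ≠ 0 := by
    rintro rfl
    rw [map_zero] at hx₁
    exact zero_ne_one hx₁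
  have hl1 : l = (l - 1) + 1 := by
    have := hl.one_le
    omega
  have h2 : V.valuation (x₁ ^ (l - 1) - n) < 1 := by
    have e : x₁ ^ l - n * x₁ = (x₁ ^ (l - 1) - n) * x₁ := by
      have : x₁ ^ l = x₁ ^ (l - 1) * x₁ := by
        conv_lhs => rw [hl1]
        rw [pow_succ]
      rw [this]
      ring
    rw [e, map_mul, hx₁, mul_one] at h₁
    exact h₁
  have h3 : V.valuation ((x / x₁) ^ l - x / x₁) < 1 := by
    have e : (x / x₁) ^ l - x / x₁ = ((x ^ l - n * x) - x * (x₁ ^ (l - 1) - n)) / x₁ ^ l := by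
      have h4 : x₁ ^ l ≠ 0 := pow_ne_zero _ hx0
      rw [eq_div_iff h4, sub_mul, div_pow, div_mul_cancel₀ _ h4]
      have : x₁ ^ l = x₁ ^ (l - 1) * x₁ := by
        conv_lhs => rw [hl1]
        rw [pow_succ]
      rw [this]
      field_simp
      ring
    rw [e, map_div₀, map_pow, hx₁, one_pow, div_one]
    refine lt_of_le_of_lt (V.valuation.map_sub _ _) (max_lt h ?_)
    rw [map_mul]
    exact lt_of_le_of_lt (mul_le_of_le_one_left' hx) h2
  obtain ⟨j, hj⟩ := LQ3_res V hl hV (ρ := x / x₁) (by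
    rw [map_div₀, hx₁, div_one]
    exact hx) h3
  refine ⟨j, ?_⟩
  have e : x - j * x₁ = (x / x₁ - j) * x₁ := by
    rw [sub_mul, div_mul_cancel₀ _ hx0]
  rw [e, map_mul, hx₁, mul_one]
  exact hj

variable {Ω : Type} [Field Ω] [DecidableEq Ω] [Algebra F Ω] [IsAlgClosure F Ω]

variable {π : O} {l : ℕ} {V : ValuationSubring Ω} {e : P27 Ω → P27 Ω → Ω} {φ : Ω ≃ₐ[F] Ω} {n : ℕ}

theorem LQ3_zero (U : UV π l V φ n) (he : Pairing π l e) {X : P27 Ω} (hX : X ∈ Tor (cj π) Ω) :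
    e X 0 = 1 := by
  have h1 := he.add_right X hX 0 (zero_mem _) 0 (zero_mem _)
  rw [add_zero] at h1
  have h2 := lk_ne U.D he hX (zero_mem (Tor π Ω))
  exact (left_eq_mul₀ h2).1 h1

theorem LQ3_nsmul (U : UV π l V φ n) (he : Pairing π l e) {X T : P27 Ω} (hX : X ∈ Tor (cj π) Ω)
    (hT : T ∈ Tor π Ω) (j : ℕ) : e (j • X) T = e X T ^ j := by
  induction j with
  | zero =>
    rw [zero_nsmul, pow_zero]
    have h1 := he.add_left 0 (zero_mem _) 0 (zero_mem _) T hT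
    rw [add_zero] at h1
    have h2 := lk_ne U.D he (zero_mem (Tor (cj π) Ω)) hT
    exact (left_eq_mul₀ h2).1 h1
  | succ j ih =>
    rw [succ_nsmul, he.add_left _ (nsmul_mem hX j) X hX T hT, ih, pow_succ]

/-- Chunk LQ4 (S/M). An element T₀ ≠ 0 of Tor π generates it additively (Nm π = l elements), so c s = 0 if e (c s) T₀ = 1. Let y^l = z^l v with V (v - 1) ≤ V l^2, v and z in Hx: fix_strict for y/z: s in JV fixes the l-th roots of unity (JV.mu), z and v (JV in DT), so s y = y. -/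
theorem UV.fix (U : UV π l V φ n) (he : Pairing π l e) {y z v : Ω} (hz : Hx π V z) (h0 : z ≠ 0)
    (hv : Hx π V v) (h : y ^ l = z ^ l * v) (h1 : V.valuation (v - 1) ≤ V.valuation (l : Ω) ^ 2)
    {s : Ω ≃ₐ[F] Ω} (hs : JV π V s) : s y = y := by
  have hΩ : IsAlgClosed Ω := IsAlgClosure.isAlgClosed F
  have hc0 : CharZero Ω := char0
  have hD : Dec V s := Inert.dec hs.1
  have hDT : DT π V s := ⟨hD, hs.2.1⟩
  obtain ⟨_, _, _, _, hl1⟩ := U.val_l
  have h2 : (y / z) ^ l = v := by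
    rw [div_pow, h, mul_div_cancel_left₀ _ (pow_ne_zero l h0)]
  have h3 := fix_strict V U.D.hl (by
    have := U.D.five
    omega) hl1 h2 h1 hD (fun ζ hζ => JV.mu U.D he hs ζ hζ) (hv s hDT)
  rw [map_div₀ s, hz s hDT] at h3
  exact (div_left_inj' h0).1 h3

theorem UV.zero (U : UV π l V φ n) (he : Pairing π l e) {T₀ : P27 Ω} (hT : T₀ ∈ Tor π Ω) (h0 : T₀ ≠ 0)
    {X : P27 Ω} (hX : X ∈ Tor (cj π) Ω) (h : e X T₀ = 1) : X = 0 := by
  refine he.nondeg X hX fun T hTT => ?_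
  have hcard : Nat.card (Tor π Ω) = l := by
    obtain ⟨h1, _⟩ := gi_gen (Ω := Ω) π U.D.pr U.D.prim
    rw [h1]
    rcases dichotomy π l U.D.hl U.D.five U.D.pr U.D.prim U.D.dvd with h2 | h2
    · exact absurd (by rw [h2.1]) U.nd
    · exact h2.2.1
  have hf : Fact (Nat.card (Tor π Ω)).Prime := ⟨by rw [hcard]; exact U.D.hl⟩
  let H : AddSubgroup (Tor π Ω) :=
    { carrier := {S | e X S = 1}
      zero_mem' := LQ3_zero U he hX
      add_mem' := by
        intro S S' hS hS'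
        show e X ((S + S' : Tor π Ω) : P27 Ω) = 1
        have h1 : ((S + S' : Tor π Ω) : P27 Ω) = (S : P27 Ω) + S' := rfl
        rw [h1, he.add_right X hX S S.2 S' S'.2]
        have h2 : e X S = 1 := hS
        have h3 : e X S' = 1 := hS'
        rw [h2, h3, one_mul]
      neg_mem' := by
        intro S hS
        show e X ((-S : Tor π Ω) : P27 Ω) = 1
        have h1 := he.add_right X hX S S.2 ((-S : Tor π Ω) : P27 Ω) (-S : Tor π Ω).2
        have h2 : e X S = 1 := hS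
        have h3 : (S : P27 Ω) + ((-S : Tor π Ω) : P27 Ω) = 0 := by
          have : ((-S : Tor π Ω) : P27 Ω) = -(S : P27 Ω) := rfl
          rw [this, add_neg_cancel]
        rw [h3, LQ3_zero U he hX, h2, one_mul] at h1
        exact h1.symm }
  rcases AddSubgroup.eq_bot_or_eq_top_of_prime_card H with h1 | h1
  · exfalso
    have h2 : (⟨T₀, hT⟩ : Tor π Ω) ∈ H := h
    rw [h1, AddSubgroup.mem_bot] at h2
    exact h0 (congrArg Subtype.val h2)
  · have h2 : (⟨T, hTT⟩ : Tor π Ω) ∈ H := by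
      rw [h1]
      trivial
    exact h2

/-- Chunk LQ5 (M). The local condition above cj π in the split case. T₀ ≠ 0 in Tor π. exists_pt: P, y₁ (V l = vo V (cj π): UV.val_l). UV.coef for m T = y T^l and m₁ T = y₁ T^l at T₀: z, x, z₁, x₁. V x₁ = 1: otherwise V x₁ ≤ V l (step), V (l x₁) ≤ V l^2, UV.fix: s (y₁ T₀) = y₁ T₀ for s in JV, so e (s P - P) T₀ = 1, UV.zero: s P - P = 0 on JV, cob_inert, against pt_nontriv (β = cj π).
ratio: j, V (x - j x₁) < 1, so ≤ V l (step). y T₀/(y₁ T₀)^j has the l-th power (z/z₁^j)^l v, v = (1 + l x)/(1 + l x₁)^j, V (v - 1) ≤ V l^2: fixed by JV (UV.fix). So e (c s - j • (s P - P)) T₀ = 1 and c s = j • (s P - P) on JV (UV.zero). c' s = c s - j • (s P - P) is in Dc; cob_inert, Dc.sub_cob, moved_ram (β = cj π), cob_dec_ram. The point j • P + X. -/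
theorem loc_conj (U : UV π l V φ n) (he : Pairing π l e) {c : (Ω ≃ₐ[F] Ω) → P27 Ω} (hc : Dc π V c)
    {y : P27 Ω → Ω} (hy : KS π V e c y) : ∃ P : P27 Ω, ∀ s, Dec V s → c s = ac W27 s P - P := by
  have hΩ : IsAlgClosed Ω := IsAlgClosure.isAlgClosed F
  have hc0 : CharZero Ω := char0
  have D := U.D
  obtain ⟨hl0, _, _, hl00, hl1⟩ := U.val_l
  have hβ : Prime (cj π) := CO2_cj_prime D.pr
  have hβ3 : Prim (cj π) := CO2_cj_prim D.prim
  have hN : 4 ≤ Nm (cj π) := by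
    rw [CO2_Nm_cj]
    rcases dichotomy π l D.hl D.five D.pr D.prim D.dvd with h2 | h2
    · exact absurd (by rw [h2.1]) U.nd
    · rw [h2.2.1]
      have := D.five
      omega
  obtain ⟨_, T₀, hT₀, _, hz0⟩ := gi_gen (Ω := Ω) π D.pr D.prim
  have hT00 : T₀ ≠ 0 := by
    intro h
    have h1 := (hz0 1).1 (by rw [act_one, h])
    exact D.pr.not_isUnit (isUnit_of_dvd_one h1)
  obtain ⟨P, B, L, y₁, hP, hPv, hB, C, hL, hK, hc₁, hy₁⟩ := exists_pt D he U.above hl0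
  obtain ⟨c₁, hc1⟩ : ∃ c₁ : (Ω ≃ₐ[F] Ω) → P27 Ω, c₁ = fun s => ac W27 s P - P := ⟨_, rfl⟩
  rw [← hc1] at hc₁ hy₁
  have hm := sys_of D he hc hy
  have hm₁ := sys_of D he hc₁ hy₁
  obtain ⟨z, x, hz, hzn, hx, hx1, hmz, hxe⟩ := U.coef hm hT₀
  obtain ⟨z₁, x₁, hz₁, hzn₁, hx₁, hx1₁, hmz₁, hxe₁⟩ := U.coef hm₁ hT₀
  have hHx1 : ∀ {x : Ω}, Hx π V x → Hx π V (1 + (l : Ω) * x) := fun h =>
    Hx.add Hx.one (Hx.mul (Hx.nat l) h)
  have hyn : y T₀ ≠ 0 := hy.ne T₀ hT₀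
  have hyn₁ : y₁ T₀ ≠ 0 := hy₁.ne T₀ hT₀
  have hJD : ∀ s : Ω ≃ₐ[F] Ω, JV π V s → DT π V s := fun s hs => ⟨Inert.dec hs.1, hs.2.1⟩
  have hval : ∀ s : Ω ≃ₐ[F] Ω, JV π V s → c s ∈ Tor (cj π) Ω := fun s hs => hc.val s (hJD s hs).1
  have hval₁ : ∀ s : Ω ≃ₐ[F] Ω, JV π V s → c₁ s ∈ Tor (cj π) Ω := fun s hs => hc₁.val s (hJD s hs).1
  have hvx₁ : V.valuation x₁ = 1 := by
    refine le_antisymm hx1₁ (not_lt.1 fun hlt => ?_)
    have h1 := U.step hx₁ hlt
    have h2 : ∀ s, JV π V s → c₁ s = 0 := by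
      intro s hs
      have h3 := U.fix he hz₁ hzn₁ (hHx1 hx₁) hmz₁ (by
        have : 1 + (l : Ω) * x₁ - 1 = l * x₁ := by ring
        rw [this, map_mul, sq]
        exact mul_le_mul_right h1 _) hs
      have h4 := hy₁.act T₀ hT₀ s (hJD s hs)
      rw [h3] at h4
      exact U.zero he hT₀ hT00 (hval₁ s hs) ((right_eq_mul₀ hyn₁).1 h4)
    obtain ⟨X, hX, hX1⟩ := cob_inert D hc₁ h2
    refine pt_nontriv hβ hβ3 hN U.above hP hPv ⟨X, hX, fun s hs => ?_⟩
    have h5 := hX1 s hs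
    rw [hc1] at h5
    exact h5
  obtain ⟨j, hj⟩ := ratio V D.hl hl1 U.n1 hx1 hxe hvx₁ hxe₁
  have hj1 := U.step (Hx.sub hx (Hx.mul (Hx.nat j) hx₁)) hj
  -- the quotient
  have hlx₁ : V.valuation ((l : Ω) * x₁) = V.valuation (l : Ω) := by rw [map_mul, hvx₁, mul_one]
  have hu₁ : V.valuation (1 + (l : Ω) * x₁) = 1 := by
    apply Valuation.map_one_add_of_lt
    rw [hlx₁]
    exact hl1
  have hun₁ : 1 + (l : Ω) * x₁ ≠ 0 := by
    intro h
    rw [h, map_zero] at hu₁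
    exact zero_ne_one hu₁
  obtain ⟨v, hv⟩ : ∃ v, v = (1 + (l : Ω) * x) / (1 + (l : Ω) * x₁) ^ j := ⟨_, rfl⟩
  have hvH : Hx π V v := by
    rw [hv]
    exact Hx.div (hHx1 hx) (Hx.pow (hHx1 hx₁) j)
  have hv1 : V.valuation (v - 1) ≤ V.valuation (l : Ω) ^ 2 := by
    have e : v - 1 = ((l : Ω) * (x - j * x₁) - ((1 + (l : Ω) * x₁) ^ j - 1 - j * ((l : Ω) * x₁))) /
        (1 + (l : Ω) * x₁) ^ j := by
      rw [hv, div_sub_one (pow_ne_zero j hun₁)]
      congr 1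
      ring
    rw [e, map_div₀, map_pow, hu₁, one_pow, div_one]
    refine V.valuation.map_sub_le ?_ ?_
    · rw [map_mul, sq]
      exact mul_le_mul_right hj1 _
    · have h3 := LQ3_bin V (a := (l : Ω) * x₁) (by
        rw [hlx₁]
        exact hl1.le) j
      rw [hlx₁] at h3
      exact h3
  have hq : (y T₀ / y₁ T₀ ^ j) ^ l = (z / z₁ ^ j) ^ l * v := by
    have h3 : y T₀ ^ l = z ^ l * (1 + l * x) := hmz
    have h4 : y₁ T₀ ^ l = z₁ ^ l * (1 + l * x₁) := hmz₁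
    rw [div_pow, ← pow_mul, mul_comm j l, pow_mul, h3, h4, hv, div_pow, ← pow_mul z₁, mul_comm j l,
      pow_mul z₁, mul_pow]
    field_simp
  have hcj : ∀ s, JV π V s → c s - j • c₁ s = 0 := by
    intro s hs
    have h3 := U.fix he (Hx.div hz (Hx.pow hz₁ j)) (div_ne_zero hzn (pow_ne_zero j hzn₁)) hvH hq hv1 hs
    rw [map_div₀ s, map_pow, hy.act T₀ hT₀ s (hJD s hs), hy₁.act T₀ hT₀ s (hJD s hs)] at h3
    have h4 : e (c s) T₀ / e (c₁ s) T₀ ^ j = 1 := by
      have h5 := lk_ne D he (hval₁ s hs) hT₀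
      rw [mul_pow] at h3
      field_simp at h3 ⊢
      exact h3
    apply U.zero he hT₀ hT00 (sub_mem (hval s hs) (nsmul_mem (hval₁ s hs) j))
    rw [lk_sub D he (hval s hs) (nsmul_mem (hval₁ s hs) j) hT₀, LQ3_nsmul U he (hval₁ s hs) hT₀]
    exact h4
  have hc' : Dc π V (fun s => c s - j • c₁ s) := by
    refine ⟨fun s hs t ht => ?_, fun s hs => sub_mem (hc.val s hs) (nsmul_mem (hc₁.val s hs) j)⟩
    show c (s * t) - j • c₁ (s * t) = (c s - j • c₁ s) + ac W27 s (c t - j • c₁ t)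
    rw [hc.mul s hs t ht, hc₁.mul s hs t ht, map_sub, map_nsmul, nsmul_add]
    abel
  obtain ⟨X, hX, hX1⟩ := cob_inert D hc' hcj
  have hc'' := Dc.sub_cob hc' hX
  have hz := cob_dec_ram hc'' (fun s hs => sub_eq_zero.2 (hX1 s hs)) (moved_ram hβ hβ3 hN U.above)
  refine ⟨j • P + X, fun s hs => ?_⟩
  have h1 : c s - j • c₁ s - (ac W27 s X - X) = 0 := hz s hs
  rw [hc1] at h1
  have h2 : c s = j • (ac W27 s P - P) + (ac W27 s X - X) := by
    have h3 := sub_eq_zero.1 h1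
    exact sub_eq_iff_eq_add'.1 h3
  rw [h2, map_add, map_nsmul, nsmul_sub]
  abel

end H13Z
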