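import Mathlib
import Pool.Agent.Lib.H28G.K13

open NumberField IsDedekindDomain WeierstrassCurve

namespace H13Z

open H28G H55B H55R H99B

/-- The geometric input of the base case, from the proof of H28G.geo_main. -/
theorem geo_data {l : ℕ} [Fact l.Prime] (h5 : 5 ≤ l) {π : O} (hp : Prime π) (hπ : Prim π)
    (hd : π ∣ (l : O)) {L : Type} [Field L] [NumberField L] [DecidableEq L] [Algebra F L]
    (hL : TFld F L π) {k : Type} [Field k] [Fintype k] [DecidableEq k] [CharP k l] (q : O →+* k)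
    (hq : Function.Surjective q) (hk : ∀ x, q x = 0 ↔ π ∣ x) (χ : Gal(L/F) →* kˣ)
    (hχ : ∀ (σ : Gal(L/F)) (c : O), q c = χ σ → ∀ R ∈ Tor π L, sp σ R = act c R) (w : Pl L)
    (hw : algebraMap O (𝓞 L) π ∈ w.asIdeal) (ρ : k →+ ZMod l) (hρ : IsRho l ρ) :
    Function.Bijective χ ∧ (∀ θ : Pl L → k, IsTh χ θ → ∀ v, θ v = 0) ∧
      ∃ (t ξ : Lˣ) (r : 𝓞 L →+* k), Loc χ w t r ∧ (∀ v : Pl L, ord v ξ = 0) ∧
        ∀ a : k, a ≠ 0 → ¬ Lev l w (eta χ ρ a ξ) := by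
  have hgal : IsGalois F L := hL.gal
  obtain ⟨hN2, hcop, hnt, hnf⟩ := arith h5 hp hπ hd
  obtain ⟨T, hT, h0⟩ := exists_tor hp hL.full
  obtain ⟨v, hv, hwv⟩ := below hp w hw
  have hvv : v.valuation F (ak F π) = WithZero.exp (-1 : ℤ) := val_gen v hv
  have htot := tot_ram hp hπ hL v hvv
  have hχb : Function.Bijective χ := chi_bij hp hL htot.deg q hq hk χ hχ
  have hval := htot.val w hwv T hT h0
  have ht0 : tt T ≠ 0 := by
    intro h
    have h1 := hval.2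
    rw [h, map_zero] at h1
    exact WithZero.exp_ne_zero h1.symm
  obtain ⟨r, hloc, hr⟩ := exists_loc hp hπ hL hN2 q hq hk χ hχ v hv w hwv T hT h0
    (Units.mk0 (tt T) ht0) rfl
  obtain ⟨ξ, hξ, hξ0⟩ := exists_xi hπ hcop hT h0
  have hcard : 2 < Fintype.card k := card_k hp q hq hk hN2
  have hw3 : (3 : 𝓞 L) ∉ w.asIdeal := not_three hπ w hw
  have hE : E1 (w.valuation L) T := Or.inr hval.1
  have hexp := xi_exp (w.valuation L) (val_three w hw3) hE
  rw [hval.2] at hexp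
  have hlev' : ∀ a : k, a ≠ 0 → ¬ Lev l w (eta χ ρ a ξ) := by
    intro a ha
    refine lev_eta hcard hχb ρ hρ hloc ξ (-1) (by norm_num) (-4 * (2 * om + 1)) ?_ ?_ a ha
    · rw [hr, Ne, hk]
      exact hnf
    · rw [hξ]
      have h1 : (xi T) / algebraMap F L (-1) - 1 -
          algebraMap F L ((-4 * (2 * om + 1) : O) : F) * ((Units.mk0 (tt T) ht0 : Lˣ) : L) =
          -(xi T + 1 + 12 / (2 * ok L + 1) * tt T) := xi_form
      rw [h1, Valuation.map_neg]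
      refine hexp.trans (le_of_eq ?_)
      rw [← WithZero.exp_nsmul]
      rfl
  refine ⟨hχb, fun θ hθ v => ?_, Units.mk0 (tt T) ht0, ξ, r, hloc, hξ0, hlev'⟩
  refine no_theta (by omega) hχb ρ hρ (fun v hv3 => stab_three hp hL hcop v hv3) w ξ
    (hlev' 1 one_ne_zero)
    ({v : Pl L | (3 : 𝓞 L) ∈ v.asIdeal} ∪ {v : Pl L | algebraMap O (𝓞 L) π ∈ v.asIdeal})
    ((three_finite L).union (pi_finite hp)) ?_ θ hθ v
  intro Q hQ1 hQ2 hQ3 hQ4
  exact exists_aux hπ hL hT ξ hξ Q (fun h => hQ1 (Or.inl h)) (fun h => hQ1 (Or.inr h)) hQ2 hQ4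

end H13Z
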