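import Mathlib
import Pool.Agent.Lib.H99B.C2

open NumberField IsDedekindDomain

namespace H13Z

open H55B H55R H99B

section ga2

variable (L : Type) [Field L] [NumberField L] (l : ℕ)

/-- The principal divisors plus the multiples of l. -/
noncomputable def ga2_S : AddSubgroup (Pl L →₀ ℤ) :=
  (divF (L := L)).range ⊔ (zsmulAddGroupHom (l : ℤ) : (Pl L →₀ ℤ) →+ (Pl L →₀ ℤ)).range

theorem ga2_div (x : Lˣ) : divF (Additive.ofMul x) ∈ ga2_S L l :=
  AddSubgroup.mem_sup_left ⟨_, rfl⟩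

theorem ga2_mul (E : Pl L →₀ ℤ) : (l : ℤ) • E ∈ ga2_S L l :=
  AddSubgroup.mem_sup_right ⟨E, rfl⟩

theorem ga2_fin : Finite ((Pl L →₀ ℤ) ⧸ ga2_S L l) := by
  have h1 : Finite ((Pl L →₀ ℤ) ⧸ (divF (L := L)).range) := fin_class
  have h2 : (divF (L := L)).range.FiniteIndex := AddSubgroup.finiteIndex_of_finite_quotient
  have h3 : (ga2_S L l).FiniteIndex := AddSubgroup.finiteIndex_of_le le_sup_left
  infer_instance

theorem ga2_dvd (E : Pl L →₀ ℤ) (h : ∀ v, (l : ℤ) ∣ E v) : E ∈ ga2_S L l := by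
  have h1 : E = (l : ℤ) • E.mapRange (fun n => n / (l : ℤ)) (by simp) := by
    ext v
    rw [Finsupp.smul_apply, Finsupp.mapRange_apply, smul_eq_mul, Int.mul_ediv_cancel' (h v)]
  rw [h1]
  exact ga2_mul L l _

variable [Algebra F L]

theorem ga2_le (σ : Gal(L/F)) : ga2_S L l ≤ (ga2_S L l).comap (gD σ) := by
  refine sup_le ?_ ?_
  · rintro _ ⟨x, rfl⟩
    show gD σ (divF x) ∈ ga2_S L l
    have h := gD_div σ x.toMul
    rw [ofMul_toMul] at h
    rw [h]
    exact ga2_div L l _
  · rintro _ ⟨x, rfl⟩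
    show gD σ ((l : ℤ) • x) ∈ ga2_S L l
    rw [map_zsmul]
    exact ga2_mul L l _

/-- The action on the class group modulo l. -/
noncomputable def ga2_ac : Gal(L/F) →* AddMonoid.End ((Pl L →₀ ℤ) ⧸ ga2_S L l) where
  toFun σ := QuotientAddGroup.map _ _ (gD σ) (ga2_le L l σ)
  map_one' := by
    ext x
    induction x using QuotientAddGroup.induction_on with
    | H x =>
      have h : (gD (1 : Gal(L/F))) x = x := by
        rw [map_one]
        rfl
      exact congrArg (QuotientAddGroup.mk (s := ga2_S L l)) h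
  map_mul' σ τ := by
    ext x
    induction x using QuotientAddGroup.induction_on with
    | H x =>
      have h : (gD (σ * τ)) x = gD σ (gD τ x) := by
        rw [map_mul]
        rfl
      exact congrArg (QuotientAddGroup.mk (s := ga2_S L l)) h

theorem ga2_ac_mk (σ : Gal(L/F)) (D : Pl L →₀ ℤ) :
    ga2_ac L l σ (QuotientAddGroup.mk' _ D) = QuotientAddGroup.mk' _ (gD σ D) := rfl

end ga2

/-- Chunk GA2 (M). Divisors with the right symmetry are principal modulo l. Let Cq = (Pl L →₀ ℤ) modulo the range of divF (finite: H99B.fin_class), C = Cq modulo l Cq, with the action of Gal(L/F) (gD, gD_div; see the proof of class_step in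
C2.lean). a -> class of D a is a homomorphism m : k →+ C (hadd), equivariant (heq, gD_apply). If D 1 is not in the range of divF plus l times all divisors then m 1 ≠ 0, and H99B.dual_hom (A5) gives an equivariant θ : C →+ k, not 0;
v -> θ (class of single v 1) is in IsTh χ (as in C2.lean) and not identically 0 (the single v 1 generate), contradiction to hθ. So D 1 = divF x + l E. -/
theorem div_exists {L : Type} [Field L] [NumberField L] [Algebra F L] {l : ℕ} [Fact l.Prime]
    {k : Type} [Field k] [Fintype k] [DecidableEq k] [CharP k l] {χ : Gal(L/F) →* kˣ}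
    (hχ : Function.Bijective χ) (ρ : k →+ ZMod l) (hρ : IsRho l ρ)
    (hθ : ∀ θ : Pl L → k, IsTh χ θ → ∀ v, θ v = 0) (D : k → Pl L →₀ ℤ)
    (hadd : ∀ (a b : k) (v : Pl L), (l : ℤ) ∣ D (a + b) v - D a v - D b v)
    (heq : ∀ (σ : Gal(L/F)) (a : k) (v : Pl L), (l : ℤ) ∣ D (χ σ * a) (smulP σ v) - D a v) :
    ∃ x : Lˣ, ∀ v : Pl L, (l : ℤ) ∣ ord v x - D 1 v := by
  classical
  have hfin := ga2_fin L l
  set mkq : (Pl L →₀ ℤ) →+ (Pl L →₀ ℤ) ⧸ ga2_S L l := QuotientAddGroup.mk' _ with hmkq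
  have hmk0 : ∀ E : Pl L →₀ ℤ, mkq E = 0 ↔ E ∈ ga2_S L l := fun E => QuotientAddGroup.eq_zero_iff _
  have hmkdvd : ∀ E E' : Pl L →₀ ℤ, (∀ v, (l : ℤ) ∣ E v - E' v) → mkq E = mkq E' := by
    intro E E' h
    rw [← sub_eq_zero, ← map_sub, hmk0]
    exact ga2_dvd L l _ fun v => by
      rw [Finsupp.sub_apply]
      exact h v
  have hMadd : ∀ a b, mkq (D (a + b)) = mkq (D a) + mkq (D b) := by
    intro a b
    rw [← map_add]
    refine hmkdvd _ _ fun v => ?_
    rw [Finsupp.add_apply, ← sub_sub]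
    exact hadd a b v
  set M : k →+ (Pl L →₀ ℤ) ⧸ ga2_S L l := AddMonoidHom.mk' (fun a => mkq (D a)) hMadd with hM
  have hMeq : ∀ (σ : Gal(L/F)) (a : k), M (χ σ * a) = ga2_ac L l σ (M a) := by
    intro σ a
    change mkq (D (χ σ * a)) = ga2_ac L l σ (mkq (D a))
    rw [hmkq, ga2_ac_mk, ← hmkq]
    refine hmkdvd _ _ fun v => ?_
    have h1 : v = smulP σ (smulP σ⁻¹ v) := by rw [← smulP_mul, mul_inv_cancel, smulP_one]
    rw [h1, gD_apply]
    exact heq σ a _
  by_cases hM0 : ∃ a, M a ≠ 0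
  · exfalso
    obtain ⟨θ0, hθ1, x0, hx0⟩ := dual_hom (ga2_ac L l) χ hχ ρ hρ M hMeq hM0
    set Φ : (Pl L →₀ ℤ) →+ k := θ0.comp mkq with hΦ
    have hΦs : ∀ v n, Φ (Finsupp.single v n) = (n : k) * Φ (Finsupp.single v 1) := by
      intro v n
      have : Finsupp.single v n = n • Finsupp.single v (1 : ℤ) := by
        rw [Finsupp.smul_single, smul_eq_mul, mul_one]
      rw [this, map_zsmul, zsmul_eq_mul]
    have hΦD : ∀ E : Pl L →₀ ℤ, Φ E = ∑ v ∈ E.support, (E v : k) * Φ (Finsupp.single v 1) := by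
      intro E
      conv_lhs => rw [← Finsupp.sum_single E]
      rw [Finsupp.sum, map_sum]
      exact Finset.sum_congr rfl fun v _ => hΦs v (E v)
    have hIs : IsTh χ fun v => Φ (Finsupp.single v 1) := by
      refine ⟨fun σ v => ?_, fun x => ?_⟩
      · rw [← gD_single]
        change θ0 (mkq (gD σ (Finsupp.single v 1))) = _
        rw [hmkq, ← ga2_ac_mk, hθ1]
        rfl
      · have h1 : Φ (divF (Additive.ofMul x)) = 0 := by
          change θ0 (mkq _) = 0
          rw [(hmk0 _).2 (ga2_div L l x), map_zero]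
        rw [hΦD] at h1
        rw [← h1]
        refine finsum_eq_sum_of_support_subset _ fun v hv => ?_
        rw [Finset.mem_coe, Finsupp.mem_support_iff]
        intro h0
        apply hv
        have h2 : ord v x = 0 := h0
        simp only [h2, Int.cast_zero, zero_mul]
    have hcon := hθ _ hIs
    apply hx0
    obtain ⟨E, rfl⟩ := QuotientAddGroup.mk'_surjective _ x0
    change Φ E = 0
    rw [hΦD]
    exact Finset.sum_eq_zero fun v _ => by rw [hcon v, mul_zero]
  · push Not at hM0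
    have h1 : D 1 ∈ ga2_S L l := (hmk0 _).1 (hM0 1)
    rw [ga2_S, AddSubgroup.mem_sup] at h1
    obtain ⟨_, ⟨x, rfl⟩, _, ⟨E, rfl⟩, hE⟩ := h1
    refine ⟨x.toMul, fun v => ?_⟩
    rw [← hE, Finsupp.add_apply]
    have h2 : (divF x) v = ord v x.toMul := rfl
    have h3 : ((zsmulAddGroupHom (l : ℤ) : (Pl L →₀ ℤ) →+ (Pl L →₀ ℤ)) E) v = (l : ℤ) * E v := rfl
    rw [h2, h3]
    exact ⟨-E v, by ring⟩

end H13Z
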