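import Mathlib
import Pool.Agent.Lib.H99B.B5

open NumberField IsDedekindDomain

namespace H13Z

open H55B H55R H99B

/-- Chunk GA3 (S/M). The maps a -> eta χ ρ a x. Additive: (ρ(u+v)).val = (ρ u).val + (ρ v).val modulo l. Equivariant: eta χ ρ (χ σ a) x = product over δ of (gu δ x)^(cf (χ σ a) δ), cf χ ρ (χ σ * a) (σ δ) = cf χ ρ a δ (substitution δ -> σ δ; gu (σ δ) x = gu σ (gu δ x)).
(Look for existing lemmas in B5.lean.) -/
theorem eta_hom {L : Type} [Field L] [NumberField L] [Algebra F L] {l : ℕ} [Fact l.Prime]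
    {k : Type} [Field k] [Fintype k] [DecidableEq k] [CharP k l] (χ : Gal(L/F) →* kˣ)
    (ρ : k →+ ZMod l) (x : Lˣ) : EqHom l χ fun a => eta χ ρ a x :=
  H99B.eta_hom ρ x

theorem ga3_ord_gu {L : Type} [Field L] [NumberField L] [Algebra F L] (v : Pl L) (σ : Gal(L/F))
    (x : Lˣ) : ord v (gu σ x) = ord (smulP σ⁻¹ v) x := by
  have h := ord_smul σ (smulP σ⁻¹ v) x
  rw [← smulP_mul, mul_inv_cancel, smulP_one] at h
  exact h

theorem ga3_ord_prod {L : Type} [Field L] [NumberField L] (v : Pl L) {ι : Type} (s : Finset ι)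
    (f : ι → Lˣ) : ord v (∏ i ∈ s, f i) = ∑ i ∈ s, ord v (f i) := by
  classical
  induction s using Finset.induction_on with
  | empty => exact ord_one v
  | insert a s ha ih =>
    rw [Finset.prod_insert ha, ord_mul, ih, Finset.sum_insert ha]

/-- The divisor of eta (-a) x: ord v (eta χ ρ (-a) x) = sum over δ of (ρ(-a/χ δ)).val ord v (gu δ x), ord v (gu δ x) = ord (smulP δ⁻¹ v) x (H55R.ord_smul), congruent to D 1 (smulP δ⁻¹ v), congruent to D (χ δ) v (heq with v replaced by smulP δ⁻¹ v).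
D is additive modulo l, so the sum is congruent to D (sum over δ of (ρ(-a/χ δ)).val χ δ) v = D (- (-a)) v (IsRho.sum, hχ; D is additive modulo l also for natural multiples and D 0 = 0 modulo l). -/
theorem eta_div {L : Type} [Field L] [NumberField L] [Algebra F L] {l : ℕ} [Fact l.Prime]
    {k : Type} [Field k] [Fintype k] [DecidableEq k] [CharP k l] {χ : Gal(L/F) →* kˣ}
    (hχ : Function.Bijective χ) (ρ : k →+ ZMod l) (hρ : IsRho l ρ) (D : k → Pl L →₀ ℤ)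
    (hadd : ∀ (a b : k) (v : Pl L), (l : ℤ) ∣ D (a + b) v - D a v - D b v)
    (heq : ∀ (σ : Gal(L/F)) (a : k) (v : Pl L), (l : ℤ) ∣ D (χ σ * a) (smulP σ v) - D a v)
    (x : Lˣ) (hx : ∀ v : Pl L, (l : ℤ) ∣ ord v x - D 1 v) (a : k) (v : Pl L) :
    (l : ℤ) ∣ ord v (eta χ ρ (-a) x) - D a v := by
  classical
  have hz : ∀ A B : ℤ, (l : ℤ) ∣ A - B ↔ (A : ZMod l) = (B : ZMod l) := by
    intro A B
    rw [← ZMod.intCast_zmod_eq_zero_iff_dvd, Int.cast_sub, sub_eq_zero]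
  let f : k →+ ZMod l := AddMonoidHom.mk' (fun b => ((D b v : ℤ) : ZMod l)) (by
    intro b c
    have h := hadd b c v
    rw [sub_sub, hz, Int.cast_add] at h
    exact h)
  have hf : ∀ b, f b = ((D b v : ℤ) : ZMod l) := fun b => rfl
  rw [hz, ← hf]
  have h1 : ∀ δ : Gal(L/F), ((ord v (gu δ x) : ℤ) : ZMod l) = f (χ δ) := by
    intro δ
    rw [ga3_ord_gu, hf]
    have h2 := (hz _ _).1 (hx (smulP δ⁻¹ v))
    have h3 := (hz _ _).1 (heq δ 1 (smulP δ⁻¹ v))
    rw [← smulP_mul, mul_inv_cancel, smulP_one, mul_one] at h3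
    rw [h2, h3]
  have h2 : ord v (eta χ ρ (-a) x) = ∑ δ : Gal(L/F), cf χ ρ (-a) δ * ord v (gu δ x) := by
    unfold eta pw
    rw [ga3_ord_prod]
    exact Finset.sum_congr rfl fun δ _ => ord_zpow v _ _
  rw [h2, Int.cast_sum]
  have h3 : ∀ δ : Gal(L/F), ((cf χ ρ (-a) δ * ord v (gu δ x) : ℤ) : ZMod l) =
      f (((ρ (-a * (((χ δ)⁻¹ : kˣ) : k))).val : k) * (χ δ : k)) := by
    intro δ
    rw [Int.cast_mul, h1, ← nsmul_eq_mul, map_nsmul, nsmul_eq_mul]
    unfold cf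
    rw [Int.cast_natCast]
  rw [Finset.sum_congr rfl fun δ _ => h3 δ, ← map_sum]
  have h4 : ∑ δ : Gal(L/F), ((ρ (-a * (((χ δ)⁻¹ : kˣ) : k))).val : k) * (χ δ : k) =
      ∑ c : kˣ, ((ρ (-a * ((c⁻¹ : kˣ) : k))).val : k) * (c : k) :=
    Fintype.sum_bijective χ hχ _ _ fun δ => rfl
  rw [h4, hρ.sum, neg_neg]

end H13Z
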