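import Mathlib
import Pool.Agent.Lib.H13Z.GA3
import Pool.Agent.Lib.H13Z.GA4

open NumberField IsDedekindDomain

namespace H13Z

open H55B H55R H99B

theorem ga5_ord_gu {L : Type} [Field L] [NumberField L] [Algebra F L] (v : Pl L) (σ : Gal(L/F)) (x : Lˣ) :
    ord v (gu σ x) = ord (smulP σ⁻¹ v) x := by
  have h := ord_smul σ (smulP σ⁻¹ v) x
  rw [← smulP_mul, mul_inv_cancel, smulP_one] at h
  exact h

theorem ga5_ord_prod {L : Type} [Field L] [NumberField L] (v : Pl L) {ι : Type} (s : Finset ι) (f : ι → Lˣ)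
    (h : ∀ i ∈ s, ord v (f i) = 0) : ord v (∏ i ∈ s, f i) = 0 := by
  classical
  induction s using Finset.induction_on with
  | empty => exact ord_one v
  | insert a s ha ih =>
    rw [Finset.prod_insert ha, ord_mul, h a (Finset.mem_insert_self a s),
      ih fun i hi => h i (Finset.mem_insert_of_mem hi), add_zero]

theorem ga5_ord_pw {L : Type} [Field L] [NumberField L] [Algebra F L] (v : Pl L) (α : Gal(L/F) → ℤ) (x : Lˣ)
    (hx : ∀ v : Pl L, ord v x = 0) : ord v (pw gu α x) = 0 := by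
  unfold pw
  refine ga5_ord_prod v _ _ fun σ _ => ?_
  rw [ord_zpow, ga5_ord_gu, hx, mul_zero]

theorem ga5_grp {A : Type} [CommGroup A] (x y z w : A) (l : ℕ) :
    x * y * ((z * w) ^ l)⁻¹ = (x * (z ^ l)⁻¹) * (y * (w ^ l)⁻¹) := by
  rw [mul_pow, mul_inv]
  exact mul_mul_mul_comm x y _ _

theorem ga5_grp2 {A : Type} [CommGroup A] (a b c a' b' c' : A) (l : ℕ) :
    a * b * c ^ l * (a' * b' * c' ^ l) = a * a' * (b * b') * (c * c') ^ l := by
  rw [mul_pow, mul_mul_mul_comm (a * b), mul_mul_mul_comm a]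

/-- Chunk GA5 (S/M). Correction by the elliptic unit. f = the constant of m, g = the constant of a -> eta χ ρ a ξ (lev_linear, eta_hom; ord w (eta ..) = 0 as ξ is a unit: ord of gu δ ξ is 0, H55R.ord_smul). g ≠ 0: otherwise eta χ ρ 1 ξ has level c with r c = 0 (lev_exists), w.valuation (c t) ≤ exp(-2), so Lev,
against hlev 1. b = -f/g: the level of m a * eta (b a) ξ is f a + g b a = 0 (e1_mul), so it is Lev (the product of the z's). -/
theorem adjust {L : Type} [Field L] [NumberField L] [Algebra F L] {l : ℕ} [Fact l.Prime]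
    {k : Type} [Field k] [Fintype k] [DecidableEq k] [CharP k l] {χ : Gal(L/F) →* kˣ}
    (hχ : Function.Bijective χ) (ρ : k →+ ZMod l) {w : Pl L} {t : Lˣ}
    {r : 𝓞 L →+* k} (hloc : Loc χ w t r) (ξ : Lˣ) (hξ : ∀ v : Pl L, ord v ξ = 0)
    (hlev : ∀ a : k, a ≠ 0 → ¬ Lev l w (eta χ ρ a ξ)) {m : k → Lˣ} (hm : EqHom l χ m)
    (hw : ∀ a, (l : ℤ) ∣ ord w (m a)) :
    ∃ b : k, EqHom l χ (fun a => m a * eta χ ρ (b * a) ξ) ∧ (∀ a, Lev l w (m a * eta χ ρ (b * a) ξ)) ∧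
      ∀ (a : k) (v : Pl L), ord v (m a * eta χ ρ (b * a) ξ) = ord v (m a) := by
  classical
  have hord : ∀ (v : Pl L) (a : k), ord v (eta χ ρ a ξ) = 0 := fun v a => ga5_ord_pw v _ ξ hξ
  have heta : EqHom l χ fun a => eta χ ρ a ξ := eta_hom χ ρ ξ
  have hwe : ∀ a, (l : ℤ) ∣ ord w (eta χ ρ a ξ) := fun a => by
    rw [hord]
    exact dvd_zero _
  obtain ⟨f, hf⟩ := lev_linear hχ hloc hm hw
  obtain ⟨g, hg⟩ := lev_linear hχ hloc heta hwe
  have ht : w.valuation L (t : L) = WithZero.exp (-1 : ℤ) := by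
    rw [BF1_val, hloc.unif]
  have h11 : WithZero.exp (-1 : ℤ) ≤ (1 : WithZero (Multiplicative ℤ)) := by
    rw [← WithZero.exp_zero, WithZero.exp_le_exp]
    norm_num
  -- an element whose level is zero is Lev
  have hzero : ∀ (x z : Lˣ) (e : L), w.valuation L e ≤ WithZero.exp (-2 : ℤ) →
      w.valuation L (((x * (z ^ l)⁻¹ : Lˣ) : L) - 1 - e * (t : L)) ≤ WithZero.exp (-2 : ℤ) → Lev l w x := by
    intro x z e he hx
    refine ⟨z, ?_⟩
    have e1 : ((x * (z ^ l)⁻¹ : Lˣ) : L) - 1 = (((x * (z ^ l)⁻¹ : Lˣ) : L) - 1 - e * (t : L)) + e * (t : L) := by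
      ring
    rw [e1]
    refine Valuation.map_add_le _ hx ?_
    rw [map_mul]
    calc w.valuation L e * w.valuation L (t : L) ≤ WithZero.exp (-2 : ℤ) * 1 :=
          mul_le_mul' he (ht.le.trans h11)
      _ = _ := mul_one _
  have hg0 : g ≠ 0 := by
    intro h0
    obtain ⟨c, z, hc⟩ := lev_exists hloc (eta χ ρ 1 ξ) (hwe 1)
    have h1 := hg 1 c z hc
    rw [h0, zero_mul] at h1
    exact hlev 1 one_ne_zero (hzero _ z _ (hloc.ram c h1) hc)
  refine ⟨-(f / g), ⟨?_, ?_⟩, ?_, ?_⟩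
  · intro a b
    obtain ⟨z, hz⟩ := hm.add a b
    obtain ⟨z', hz'⟩ := heta.add (-(f / g) * a) (-(f / g) * b)
    refine ⟨z * z', ?_⟩
    rw [mul_add, hz, hz']
    exact ga5_grp2 _ _ _ _ _ _ _
  · intro σ a
    obtain ⟨z, hz⟩ := hm.equiv σ a
    obtain ⟨z', hz'⟩ := heta.equiv σ (-(f / g) * a)
    refine ⟨z * z', ?_⟩
    rw [mul_left_comm, hz, hz', map_mul, mul_pow]
    exact mul_mul_mul_comm _ _ _ _
  · intro a
    obtain ⟨c1, z1, hc1⟩ := lev_exists hloc (m a) (hw a)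
    obtain ⟨c2, z2, hc2⟩ := lev_exists hloc (eta χ ρ (-(f / g) * a) ξ) (hwe _)
    have r1 := hf a c1 z1 hc1
    have r2 := hg _ c2 z2 hc2
    have h1 := e1_mul (w.valuation L) ht.le (e1_val hloc c1).1 (e1_val hloc c2).1 hc1 hc2
    have e1 : algebraMap F L (c1 : F) + algebraMap F L (c2 : F) = algebraMap F L ((c1 + c2 : 𝓞 F) : F) := by
      rw [← map_add]
      rfl
    have r3 : r (algebraMap (𝓞 F) (𝓞 L) (c1 + c2)) = 0 := by
      rw [map_add, map_add, r1, r2]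
      field_simp
      ring
    rw [e1, ← Units.val_mul, ← ga5_grp] at h1
    exact hzero _ _ _ (hloc.ram _ r3) h1
  · intro a v
    rw [ord_mul, hord, add_zero]

end H13Z
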