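import Mathlib
import Pool.Agent.Lib.H28G.K13
import Pool.Agent.Lib.H28G.K9
import Pool.Agent.Lib.H28G.K8
import Pool.Agent.Lib.H28G.K6
import Pool.Agent.Lib.H28G.K1
import Pool.Agent.Lib.H55R.X7

open NumberField IsDedekindDomain WeierstrassCurve

namespace H13Z

open H28G H55B H55R H99B

theorem ga6_down {L B : Type} [Field L] [NumberField L] [Field B] [NumberField B] [Algebra L B]
    (Q : Pl L) (W : Pl B) (hW : W.under (𝓞 L) = Q) (x : L)
    (h : W.valuation B (algebraMap L B x) < 1) : Q.valuation L x < 1 := by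
  have hl : W.asIdeal.LiesOver Q.asIdeal := (BF2_mem Q W hW).2
  by_contra hcon
  rw [not_lt] at hcon
  rw [← HeightOneSpectrum.valuation_liesOver B Q W x] at h
  exact absurd (one_le_pow_of_one_le' hcon _) (not_le.2 h)

theorem ga6_under {L : Type} [Field L] [NumberField L] [Algebra F L] {γ : O} (hγ : Prime γ)
    (Q : Pl L) (hQ : algebraMap O (𝓞 L) γ ∈ Q.asIdeal) :
    (Q.under (𝓞 F)).asIdeal = Ideal.span {γ} := by
  have h1 : Ideal.span {γ} ≤ (Q.under (𝓞 F)).asIdeal := by
    rw [Ideal.span_singleton_le_iff_mem, K8_under]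
    exact hQ
  have h2 : (Ideal.span {γ}).IsPrime := (Ideal.span_singleton_prime hγ.ne_zero).2 hγ
  have h3 : (Ideal.span {γ}).IsMaximal := h2.isMaximal (by
    rw [Ne, Ideal.span_singleton_eq_bot]
    exact hγ.ne_zero)
  exact (h3.eq_of_le (Q.under (𝓞 F)).isPrime.ne_top h1).symm

/-- Chunk GA6 (M). The primes of L = F(E[pi]) above gamma, if gamma = 1 modulo pi, gamma does not divide 3 pi. Frobenius: let σ0 in Gal(L/F) be a Frobenius element at Q (σ0 x = x^(Nm γ) modulo Q for x in 𝓞 L: Mathlib IsArithFrobAt / exists_arithFrobAt, Nm γ = absNorm of Q ∩ O). For T ≠ 0 in Tor π L: Q-integral (H28G.tor_int),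
sp σ0 T is congruent to (xc T^(Nm γ), yc T^(Nm γ)), H28G.kron for γ: so is act γ T; fix_of_cong: sp σ0 T = act γ T = T because π divides γ - 1. So σ0 = 1 (hL.gen), x^(Nm γ) = x modulo Q for all x: fs F L v = 1; es F L v = 1 (H28G.unram). The stabilizer of Q has es * fs elements
(H55R: card_stab in BF1/BF2/D5/HB1, used in H28G.K3, K5). (Full γ L may fail: kron needs Full γ: pass to a bigger number field N with Full γ N (exists_TFld L γ), a prime W of N above Q, points mp.) -/
theorem stab_gamma {L : Type} [Field L] [NumberField L] [DecidableEq L] [Algebra F L] {π γ : O}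
    (hp : Prime π) (hL : TFld F L π) (hγ : Prime γ) (hγ3 : Prim γ) (h1 : π ∣ γ - 1) (Q : Pl L)
    (hQ : algebraMap O (𝓞 L) γ ∈ Q.asIdeal) (σ : Gal(L/F)) (hσ : smulP σ Q = Q) : σ = 1 := by
  have hgal : IsGalois F L := hL.gal
  obtain ⟨v, hv⟩ : ∃ v : Pl F, Q.under (𝓞 F) = v := ⟨_, rfl⟩
  have hvγ : v.asIdeal = Ideal.span {γ} := by
    rw [← hv]
    exact ga6_under hγ Q hQ
  have h3v : (3 : O) ∉ v.asIdeal := by
    rw [hvγ, Ideal.mem_span_singleton]
    intro h
    obtain ⟨c, hc⟩ := hγ3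
    apply hγ.not_unit
    apply isUnit_of_dvd_one
    have e : (1 : O) = γ - 3 * c := by rw [← hc]; ring
    rw [e]
    exact dvd_sub dvd_rfl (h.mul_right c)
  have hπv : π ∉ v.asIdeal := by
    rw [hvγ, Ideal.mem_span_singleton]
    intro h
    apply hγ.not_unit
    apply isUnit_of_dvd_one
    have e : (1 : O) = γ - (γ - 1) := by ring
    rw [e]
    exact dvd_sub dvd_rfl (h.trans h1)
  have h3Q : (3 : 𝓞 L) ∉ Q.asIdeal := by
    intro h
    apply h3v
    rw [← hv, K8_under, map_ofNat]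
    exact h
  have hπQ : algebraMap O (𝓞 L) π ∉ Q.asIdeal := by
    intro h
    apply hπv
    rw [← hv, K8_under]
    exact h
  have hes : es F L v = 1 := unram (K := F) hL v h3v hπv
  have hNm : Nm γ = Ideal.absNorm v.asIdeal := by
    rw [hvγ]
    rfl
  obtain ⟨g, hg⟩ := K6_frob (K := F) Q
  have hg1 : g = 1 := by
    apply hL.gen
    intro R hR
    by_cases h0 : R = 0
    · rw [h0, map_zero]
    obtain ⟨B, _, _, _, _, _, _, hB⟩ := exists_TFld L γ hγ.ne_zero
    obtain ⟨W, hW⟩ := under_exists (L := B) Q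
    obtain ⟨j⟩ := exists_emb (N := B)
    let i : L →ₐ[F] B := IsScalarTower.toAlgHom F L B
    have hi : ∀ x : L, i x = algebraMap L B x := fun x => rfl
    have hak : ∀ c : O, ak B c = algebraMap L B (ak L c) := fun c =>
      IsScalarTower.algebraMap_apply F L B (c : F)
    have hT0 : mp i R ≠ 0 := mp_ne i h0
    have hx : Q.valuation L (xc R) ≤ 1 := tor_int Q hπQ hR h0
    have hy : Q.valuation L (yc R) ≤ 1 := int_y (Q.valuation L) hx
    have hint : W.valuation B (xc (mp i R)) ≤ 1 := by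
      rw [xc_mp, hi]
      exact lift_le Q W hW _ hx
    have hvγ1 : Q.valuation L (ak L γ) < 1 := by
      rw [ak_int]
      exact (HeightOneSpectrum.valuation_lt_one_iff_mem (K := L) Q _).2 hQ
    have hv' : W.valuation B (ak B γ) < 1 := by
      rw [hak]
      exact lift_lt Q W hW _ hvγ1
    obtain ⟨k1, k2, k3, k4⟩ := kron (W.valuation B) j hγ hγ3 hB.full hv' hT0 hint
    have hact : act γ R = R := by
      have h2 : act (γ - 1) R = 0 := (act_eq_zero hp hR h0 _).2 h1
      rw [act_sub, act_one, sub_eq_zero] at h2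
      exact h2
    rw [← mp_act, hact, xc_mp, hi, ← map_pow, ← map_sub] at k3
    rw [← mp_act, hact, yc_mp, hi, ← map_pow, ← map_sub] at k4
    have k3' := ga6_down Q W hW _ k3
    have k4' := ga6_down Q W hW _ k4
    have f1 := K6_frob_val Q v hv g hg (xc R) hx
    have f2 := K6_frob_val Q v hv g hg (yc R) hy
    rw [← hNm] at f1 f2
    refine fix_of_cong Q h3Q hπQ ((sp_mem g π R).2 hR) hR (sp_ne g h0) h0 ?_ ?_
    · rw [xc_sp]
      have e : g (xc R) - xc R = (g (xc R) - xc R ^ Nm γ) - (xc R - xc R ^ Nm γ) := by ring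
      rw [e]
      exact Valuation.map_sub_lt _ f1 k3'
    · rw [yc_sp]
      have e : g (yc R) - yc R = (g (yc R) - yc R ^ Nm γ) - (yc R - yc R ^ Nm γ) := by ring
      rw [e]
      exact Valuation.map_sub_lt _ f2 k4'
  have hl : Q.asIdeal.LiesOver v.asIdeal := (BF2_mem v Q hv).2
  have hcomm := BF1_comm (K := F) (L := L)
  obtain ⟨n, hn⟩ := X7_pow v hes Q g hg σ (congrArg HeightOneSpectrum.asIdeal hσ)
  rw [hn, hg1, one_pow]

/-- The primes above γ are the conjugates of Q (the Galois group is transitive on the primes above the prime span {γ} of O: H55R, see the proof of H28G.aux_prime), and there is one. -/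
theorem conj_gamma {L : Type} [Field L] [NumberField L] [Algebra F L] [IsGalois F L] {γ : O}
    (hγ : Prime γ) : ∃ Q : Pl L, algebraMap O (𝓞 L) γ ∈ Q.asIdeal ∧
      ∀ v : Pl L, algebraMap O (𝓞 L) γ ∈ v.asIdeal ↔ ∃ σ : Gal(L/F), v = smulP σ Q := by
  obtain ⟨u, hu⟩ : ∃ u : Pl F, u.asIdeal = Ideal.span {γ} :=
    ⟨⟨Ideal.span {γ}, (Ideal.span_singleton_prime hγ.ne_zero).2 hγ, by
      rw [Ne, Ideal.span_singleton_eq_bot]
      exact hγ.ne_zero⟩, rfl⟩
  obtain ⟨Q, hQ⟩ := under_exists (L := L) u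
  have hγQ : algebraMap O (𝓞 L) γ ∈ Q.asIdeal := by
    rw [← K8_under, hQ, hu]
    exact Ideal.mem_span_singleton_self _
  refine ⟨Q, hγQ, fun v' => ⟨fun h => ?_, ?_⟩⟩
  · have h2 : Q.under (𝓞 F) = v'.under (𝓞 F) :=
      HeightOneSpectrum.ext ((ga6_under hγ Q hγQ).trans (ga6_under hγ v' h).symm)
    obtain ⟨σ, hσ⟩ := smulP_trans (K := F) Q v' h2
    exact ⟨σ, hσ.symm⟩
  · rintro ⟨σ, rfl⟩
    rw [← K8_under, under_smulP, hQ, hu]
    exact Ideal.mem_span_singleton_self _

end H13Z
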