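import Mathlib
import Pool.Agent.Lib.H13Z.GA1
import Pool.Agent.Lib.H13Z.GA2
import Pool.Agent.Lib.H13Z.GA3
import Pool.Agent.Lib.H13Z.GA5
import Pool.Agent.Lib.H13Z.GA6

open NumberField IsDedekindDomain WeierstrassCurve

namespace H13Z

open H28G H55B H55R H99B

theorem ga7_val {l : ℕ} [Fact l.Prime] (u : ZMod l) : ((u.val : ℤ) : ZMod l) = u := by
  rw [Int.cast_natCast]
  exact ZMod.natCast_zmod_val u

theorem ga7_add {l : ℕ} [Fact l.Prime] {k : Type} [Field k] {D : Type} [Group D] (χ : D →* kˣ)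
    (ρ : k →+ ZMod l) (a b : k) (d : D) :
    (l : ℤ) ∣ cf χ ρ (a + b) d - cf χ ρ a d - cf χ ρ b d := by
  rw [← ZMod.intCast_zmod_eq_zero_iff_dvd]
  unfold cf
  rw [Int.cast_sub, Int.cast_sub, ga7_val, ga7_val, ga7_val, add_mul, map_add]
  ring

theorem ga7_eq {l : ℕ} {k : Type} [Field k] {D : Type} [Group D] (χ : D →* kˣ)
    (ρ : k →+ ZMod l) (a : k) (s d : D) : cf χ ρ (χ s * a) (s * d) = cf χ ρ a d := by
  unfold cf
  have e : (χ s : k) * a * (((χ (s * d))⁻¹ : kˣ) : k) = a * (((χ d)⁻¹ : kˣ) : k) := by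
    rw [map_mul, mul_inv, Units.val_mul]
    have h : (χ s : k) * (((χ s)⁻¹ : kˣ) : k) = 1 := Units.mul_inv _
    linear_combination (a * (((χ d)⁻¹ : kˣ) : k)) * h
  rw [e]

/-- The divisor. -/
noncomputable def ga7_D {L : Type} [Field L] [NumberField L] [Algebra F L] {l : ℕ} {k : Type} [Field k]
    (χ : Gal(L/F) →* kˣ) (ρ : k →+ ZMod l) (Q : Pl L) (a : k) : Pl L →₀ ℤ :=
  ∑ δ : Gal(L/F), Finsupp.single (smulP δ Q) (cf χ ρ a δ)

theorem ga7_D1 {L : Type} [Field L] [NumberField L] [Algebra F L] {l : ℕ} {k : Type} [Field k]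
    (χ : Gal(L/F) →* kˣ) (ρ : k →+ ZMod l) (Q : Pl L) (a : k)
    (hst : ∀ σ : Gal(L/F), smulP σ Q = Q → σ = 1) (σ : Gal(L/F)) :
    ga7_D χ ρ Q a (smulP σ Q) = cf χ ρ a σ := by
  classical
  unfold ga7_D
  rw [Finsupp.finsetSum_apply, Finset.sum_eq_single σ]
  · rw [Finsupp.single_eq_same]
  · intro δ _ hδ
    rw [Finsupp.single_apply, if_neg]
    intro h
    apply hδ
    have h1 : smulP (σ⁻¹ * δ) Q = Q := by
      rw [smulP_mul, h, ← smulP_mul, inv_mul_cancel, smulP_one]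
    exact (inv_mul_eq_one.1 (hst _ h1)).symm
  · intro h
    exact absurd (Finset.mem_univ _) h

theorem ga7_D2 {L : Type} [Field L] [NumberField L] [Algebra F L] {l : ℕ} {k : Type} [Field k]
    (χ : Gal(L/F) →* kˣ) (ρ : k →+ ZMod l) (Q : Pl L) (a : k) (v : Pl L)
    (hv : ∀ σ : Gal(L/F), v ≠ smulP σ Q) : ga7_D χ ρ Q a v = 0 := by
  classical
  unfold ga7_D
  rw [Finsupp.finsetSum_apply]
  refine Finset.sum_eq_zero fun δ _ => ?_
  rw [Finsupp.single_apply, if_neg]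
  exact fun h => hv δ h.symm

/-- Chunk GA7 (M). The global element, abstract form. geo_data (ρ from H99B.exists_rho), conj_gamma: Q. D a = sum over δ of single (smulP δ Q) (ρ(a/χ δ)).val as a Finsupp; by stab_gamma the smulP δ Q are different, so D a (smulP δ Q) = (ρ(a/χ δ)).val and D a v = 0 for v not above γ (conj_gamma). Additive and
equivariant modulo l (D (χ σ a) (smulP σ (smulP δ Q)) = D (χ σ a) (smulP (σ δ) Q) = (ρ(χ σ a/χ(σ δ))).val). div_exists: x; m₀ a = eta χ ρ (-a) x, eta_hom (with a -> -a), eta_div. adjust (w is not above γ because π and γ are coprime: π divides γ - 1). The last clause: v = smulP δ Q, a = χ δ b with ρ b ≠ 0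
(H99B.rho_ne): (ρ b).val is not divisible by l. -/
theorem glob {l : ℕ} [Fact l.Prime] (h5 : 5 ≤ l) {π : O} (hp : Prime π) (hπ : Prim π)
    (hd : π ∣ (l : O)) {γ : O} (hγ : Prime γ) (hγ3 : Prim γ) (h1 : π ∣ γ - 1) {L : Type} [Field L]
    [NumberField L] [DecidableEq L] [Algebra F L]
    (hL : TFld F L π) {k : Type} [Field k] [Fintype k] [DecidableEq k] [CharP k l] (q : O →+* k)
    (hq : Function.Surjective q) (hk : ∀ x, q x = 0 ↔ π ∣ x) (χ : Gal(L/F) →* kˣ)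
    (hχ : ∀ (σ : Gal(L/F)) (c : O), q c = χ σ → ∀ R ∈ Tor π L, sp σ R = act c R) (w : Pl L)
    (hw : algebraMap O (𝓞 L) π ∈ w.asIdeal) : ∃ m : k → Lˣ, EqHom l χ m ∧
      (∀ (a : k) (v : Pl L), algebraMap O (𝓞 L) γ ∉ v.asIdeal → (l : ℤ) ∣ ord v (m a)) ∧
      (∀ a, Lev l w (m a)) ∧
      ∀ v : Pl L, algebraMap O (𝓞 L) γ ∈ v.asIdeal → ∃ a : k, ¬ (l : ℤ) ∣ ord v (m a) := by
  have hgal : IsGalois F L := hL.gal
  obtain ⟨ρ, hρ⟩ := exists_rho l k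
  obtain ⟨hχb, hθ, t, ξ, r, hloc, hξ0, hlev⟩ := geo_data h5 hp hπ hd hL q hq hk χ hχ w hw ρ hρ
  obtain ⟨Q, hγQ, hQ⟩ := conj_gamma (L := L) hγ
  have hst : ∀ σ : Gal(L/F), smulP σ Q = Q → σ = 1 := fun σ hσ =>
    stab_gamma hp hL hγ hγ3 h1 Q hγQ σ hσ
  have hnot : ∀ v : Pl L, algebraMap O (𝓞 L) γ ∉ v.asIdeal → ∀ σ : Gal(L/F), v ≠ smulP σ Q :=
    fun v hv σ hσ => hv ((hQ v).2 ⟨σ, hσ⟩)
  obtain ⟨D, hD⟩ : ∃ D : k → Pl L →₀ ℤ, D = ga7_D χ ρ Q := ⟨_, rfl⟩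
  have hD1 : ∀ (a : k) (σ : Gal(L/F)), D a (smulP σ Q) = cf χ ρ a σ := by
    intro a σ
    rw [hD]
    exact ga7_D1 χ ρ Q a hst σ
  have hD2 : ∀ (a : k) (v : Pl L), algebraMap O (𝓞 L) γ ∉ v.asIdeal → D a v = 0 := by
    intro a v hv
    rw [hD]
    exact ga7_D2 χ ρ Q a v (hnot v hv)
  have hadd : ∀ (a b : k) (v : Pl L), (l : ℤ) ∣ D (a + b) v - D a v - D b v := by
    intro a b v
    by_cases hv : algebraMap O (𝓞 L) γ ∈ v.asIdeal
    · obtain ⟨σ, rfl⟩ := (hQ v).1 hv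
      rw [hD1, hD1, hD1]
      exact ga7_add χ ρ a b σ
    · rw [hD2 _ v hv, hD2 _ v hv, hD2 _ v hv]
      norm_num
  have heq : ∀ (σ : Gal(L/F)) (a : k) (v : Pl L), (l : ℤ) ∣ D (χ σ * a) (smulP σ v) - D a v := by
    intro σ a v
    by_cases hv : algebraMap O (𝓞 L) γ ∈ v.asIdeal
    · obtain ⟨δ, rfl⟩ := (hQ v).1 hv
      rw [← smulP_mul, hD1, hD1, ga7_eq, sub_self]
      exact dvd_zero _
    · have hv' : algebraMap O (𝓞 L) γ ∉ (smulP σ v).asIdeal := by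
        intro h
        obtain ⟨δ, hδ⟩ := (hQ _).1 h
        apply hv
        refine (hQ v).2 ⟨σ⁻¹ * δ, ?_⟩
        rw [smulP_mul, ← hδ, ← smulP_mul, inv_mul_cancel, smulP_one]
      rw [hD2 _ v hv, hD2 _ _ hv', sub_self]
      exact dvd_zero _
  obtain ⟨x, hx⟩ := div_exists hχb ρ hρ hθ D hadd heq
  have hdiv := eta_div hχb ρ hρ D hadd heq x hx
  have hE := eta_hom χ ρ x
  obtain ⟨m₀, hm₀⟩ : ∃ m₀ : k → Lˣ, m₀ = fun a => eta χ ρ (-a) x := ⟨_, rfl⟩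
  have hm₀a : ∀ a, m₀ a = eta χ ρ (-a) x := fun a => by rw [hm₀]
  have hE0 : EqHom l χ m₀ := by
    refine ⟨fun a b => ?_, fun σ a => ?_⟩
    · obtain ⟨z, hz⟩ := hE.add (-a) (-b)
      refine ⟨z, ?_⟩
      rw [hm₀a, hm₀a, hm₀a, neg_add]
      exact hz
    · obtain ⟨z, hz⟩ := hE.equiv σ (-a)
      refine ⟨z, ?_⟩
      rw [hm₀a, hm₀a, ← mul_neg]
      exact hz
  have hord : ∀ (a : k) (v : Pl L), (l : ℤ) ∣ ord v (m₀ a) - D a v := by
    intro a v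
    rw [hm₀a]
    exact hdiv a v
  have hw' : algebraMap O (𝓞 L) γ ∉ w.asIdeal := by
    intro h
    obtain ⟨c, hc⟩ := h1
    have hwp := w.isPrime
    apply hwp.ne_top
    rw [Ideal.eq_top_iff_one]
    have e : (1 : 𝓞 L) = algebraMap O (𝓞 L) γ - algebraMap O (𝓞 L) π * algebraMap O (𝓞 L) c := by
      rw [← map_mul, ← hc, map_sub, map_one]
      ring
    rw [e]
    exact sub_mem h (Ideal.mul_mem_right _ _ hw)
  obtain ⟨b, hb1, hb2, hb3⟩ := adjust hχb ρ hloc ξ hξ0 hlev hE0 (fun a => by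
    have h2 := hord a w
    rw [hD2 a w hw', sub_zero] at h2
    exact h2)
  refine ⟨fun a => m₀ a * eta χ ρ (b * a) ξ, hb1, ?_, hb2, ?_⟩
  · intro a v hv
    rw [hb3]
    have h2 := hord a v
    rw [hD2 a v hv, sub_zero] at h2
    exact h2
  · intro v hv
    obtain ⟨δ, rfl⟩ := (hQ v).1 hv
    obtain ⟨c, hc⟩ : ∃ c : k, ρ c ≠ 0 := by
      by_contra hcon
      push Not at hcon
      exact rho_ne hρ (AddMonoidHom.ext hcon)
    refine ⟨χ δ * c, fun hcon => ?_⟩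
    rw [hb3] at hcon
    have h2 := hord (χ δ * c) (smulP δ Q)
    rw [hD1] at h2
    have h3 : cf χ ρ (χ δ * c) δ = cf χ ρ c 1 := by
      have h4 := ga7_eq χ ρ c δ 1
      rwa [mul_one] at h4
    rw [h3] at h2
    have h5 : (l : ℤ) ∣ cf χ ρ c 1 := by
      have h6 := dvd_sub hcon h2
      rwa [sub_sub_cancel] at h6
    rw [← ZMod.intCast_zmod_eq_zero_iff_dvd] at h5
    apply hc
    unfold cf at h5
    rw [ga7_val, map_one, inv_one, Units.val_one, mul_one] at h5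
    exact h5

end H13Z
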