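import Mathlib
import Pool.Agent.Lib.H13Z.GA7
import Pool.Agent.Lib.H99B.Geom

open NumberField IsDedekindDomain WeierstrassCurve

namespace H13Z

open H28G H55B H55R H99B H13S H55P

/-- Chunk GA8 (M). The global element in terms of points over Ω: the converse of the translation in H99B.geom_main (Geom.lean, copy its setup: L = TF F Ω π, TF_TFld, exists_residue, H28G.exists_chi, exists_tor T₀, o = section of q, P a = mp (act (o a) T₀), the map a -> P a is a bijection from k to Tor π Ω). m T = m₀ (q c) if T = mp (act c T₀).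
There is only one prime w of TF F Ω π above π (tot_ram, TotRam.one), so Lev holds at every such w. The action: for σ in Gal(Ω/F), its restriction to TF F Ω π (normal) and hm.equiv. -/
theorem glob_pts {Ω : Type} [Field Ω] [DecidableEq Ω] [Algebra F Ω] [IsAlgClosure F Ω] {l : ℕ}
    (hl : l.Prime) (h5 : 5 ≤ l) {π : O} (hp : Prime π) (hπ : Prim π) (hd : π ∣ (l : O)) {γ : O}
    (hγ : Prime γ) (hγ3 : Prim γ) (h1 : π ∣ γ - 1) [NumberField (TF F Ω π)] :
    ∃ m : P27 Ω → (TF F Ω π)ˣ,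
      (∀ T ∈ Tor π Ω, ∀ T' ∈ Tor π Ω, ∃ z : (TF F Ω π)ˣ, m (T + T') = m T * m T' * z ^ l) ∧
      (∀ σ : Ω ≃ₐ[F] Ω, ∀ T ∈ Tor π Ω, ∃ z : (TF F Ω π)ˣ,
        ((m (ac W27 σ T) : TF F Ω π) : Ω) = σ ((m T : TF F Ω π) : Ω) * ((z : TF F Ω π) : Ω) ^ l) ∧
      (∀ T ∈ Tor π Ω, ∀ w : Pl (TF F Ω π),
        w.valuation (TF F Ω π) (algebraMap F (TF F Ω π) (γ : F)) = 1 → (l : ℤ) ∣ ord w (m T)) ∧
      (∀ T ∈ Tor π Ω, ∀ w : Pl (TF F Ω π),
        w.valuation (TF F Ω π) (algebraMap F (TF F Ω π) (π : F)) < 1 → ∃ z : (TF F Ω π)ˣ,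
          w.valuation (TF F Ω π) (((m T * (z ^ l)⁻¹ : (TF F Ω π)ˣ) : TF F Ω π) - 1) ≤
            WithZero.exp (-2 : ℤ)) ∧
      ∀ w : Pl (TF F Ω π), w.valuation (TF F Ω π) (algebraMap F (TF F Ω π) (γ : F)) < 1 →
        ∃ T ∈ Tor π Ω, ¬ (l : ℤ) ∣ ord w (m T) := by
  classical
  have : Fact l.Prime := ⟨hl⟩
  have halg : IsAlgClosed Ω := IsAlgClosure.isAlgClosed F
  have hint : Algebra.IsAlgebraic F Ω := IsAlgClosure.isAlgebraic
  have hL : TFld F (TF F Ω π) π := TF_TFld F Ω π hp.ne_zero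
  have hgal : IsGalois F (TF F Ω π) := hL.gal
  obtain ⟨k, i1, i2, i3, q, hq, hk⟩ := exists_residue hl hp hd
  obtain ⟨χ, hχi, hχ⟩ := exists_chi hp hL q hq hk
  obtain ⟨T₀, hT₀, h0⟩ := exists_tor hp hL.full
  -- the prime above π
  obtain ⟨w, hw⟩ : ∃ w : Pl (TF F Ω π), algebraMap O (𝓞 (TF F Ω π)) π ∈ w.asIdeal := by
    have hb : Ideal.span {π} ≠ ⊥ := by
      rw [Ne, Ideal.span_singleton_eq_bot]
      exact hp.ne_zero
    have hpr : (Ideal.span {π}).IsPrime := (Ideal.span_singleton_prime hp.ne_zero).2 hp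
    obtain ⟨w, hw⟩ := under_exists (L := TF F Ω π) (⟨Ideal.span {π}, hpr, hb⟩ : Pl F)
    refine ⟨w, ?_⟩
    have h1 : (π : O) ∈ (w.under (𝓞 F)).asIdeal := by
      rw [hw]
      exact Ideal.mem_span_singleton_self π
    exact h1
  have hmem : ∀ (c : O) (v : Pl (TF F Ω π)), v.valuation (TF F Ω π) (algebraMap F (TF F Ω π) (c : F)) < 1 →
      algebraMap O (𝓞 (TF F Ω π)) c ∈ v.asIdeal := by
    intro c v hv
    have h1 : algebraMap F (TF F Ω π) (c : F) =
        algebraMap (𝓞 (TF F Ω π)) (TF F Ω π) (algebraMap O (𝓞 (TF F Ω π)) c) := rfl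
    rw [h1, HeightOneSpectrum.valuation_lt_one_iff_mem] at hv
    exact hv
  have hnmem : ∀ (c : O) (v : Pl (TF F Ω π)), v.valuation (TF F Ω π) (algebraMap F (TF F Ω π) (c : F)) = 1 →
      algebraMap O (𝓞 (TF F Ω π)) c ∉ v.asIdeal := by
    intro c v hv hc
    have h1 : algebraMap F (TF F Ω π) (c : F) =
        algebraMap (𝓞 (TF F Ω π)) (TF F Ω π) (algebraMap O (𝓞 (TF F Ω π)) c) := rfl
    rw [h1] at hv
    have h2 := (HeightOneSpectrum.valuation_lt_one_iff_mem (K := TF F Ω π) v _).2 hc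
    exact absurd hv (ne_of_lt h2)
  have huniq : ∀ v : Pl (TF F Ω π), algebraMap O (𝓞 (TF F Ω π)) π ∈ v.asIdeal → v = w := by
    intro v hv
    obtain ⟨u, hu, hwu⟩ := below hp w hw
    obtain ⟨u', hu', hvu'⟩ := below hp v hv
    have huu : u = u' := HeightOneSpectrum.ext (hu.trans hu'.symm)
    subst huu
    exact (tot_ram hp hπ hL u (val_gen u hu)).one v w hvu' hwu
  obtain ⟨m₀, hm, hm1, hm2, hm3⟩ := glob h5 hp hπ hd hγ hγ3 h1 hL q hq hk χ hχ w hw
  have hact0 : ∀ c c' : O, act c T₀ = act c' T₀ → q c = q c' := by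
    intro c c' h
    have h1 : act (c - c') T₀ = 0 := by rw [act_sub, h, sub_self]
    rw [act_eq_zero hp hT₀ h0, ← hk, map_sub, sub_eq_zero] at h1
    exact h1
  have hex : ∀ T : P27 Ω, ∃ c : O, T ∈ Tor π Ω → mp (TF F Ω π).val (act c T₀) = T := by
    intro T
    by_cases hT : T ∈ Tor π Ω
    · obtain ⟨R, hR, rfl⟩ := lift_pt hT
      obtain ⟨c, hc⟩ := tor_gen hp hL.full hT₀ hR h0
      exact ⟨c, fun _ => by rw [hc]⟩
    · exact ⟨0, fun h => absurd h hT⟩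
  choose cc hcc using hex
  have hinj := mp_inj (TF F Ω π).val
  have hPt : ∀ c : O, act c T₀ ∈ Tor π (TF F Ω π) := fun c => by
    rw [mem_Tor, ← act_mul, mul_comm, act_mul, mem_Tor.1 hT₀, map_zero]
  have hP : ∀ c : O, mp (TF F Ω π).val (act c T₀) ∈ Tor π Ω := fun c => (mp_mem_Tor _ _ _).2 (hPt c)
  have hdet : ∀ (c : O), q (cc (mp (TF F Ω π).val (act c T₀))) = q c := by
    intro c
    exact hact0 _ _ (hinj (hcc _ (hP c)))
  refine ⟨fun T => m₀ (q (cc T)), ?_, ?_, ?_, ?_, ?_⟩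
  · intro T hT T' hT'
    have h2 : q (cc (T + T')) = q (cc T) + q (cc T') := by
      rw [← map_add, ← hdet (cc T + cc T')]
      congr 2
      rw [act_add, map_add, hcc T hT, hcc T' hT']
    show ∃ z, m₀ (q (cc (T + T'))) = _
    rw [h2]
    exact hm.add _ _
  · intro σ T hT
    have hnorm : Normal F (TF F Ω π) := hgal.to_normal
    obtain ⟨s, hs⟩ : ∃ s : Gal((TF F Ω π)/F), ∀ x : TF F Ω π, ((s x : TF F Ω π) : Ω) = σ (x : Ω) :=
      ⟨σ.restrictNormal (TF F Ω π), fun x => σ.restrictNormal_commutes (TF F Ω π) x⟩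
    obtain ⟨c, hc⟩ := hq (χ s : k)
    have h2 : ac W27 σ T = mp (TF F Ω π).val (act (c * cc T) T₀) := by
      rw [act_mul, ← hχ s c hc _ (hPt (cc T))]
      conv_lhs => rw [← hcc T hT]
      rw [ac_eq]
      have hR := hPt (cc T)
      generalize act (cc T) T₀ = R at hR
      by_cases hR0 : R = 0
      · rw [hR0]
        simp only [map_zero]
      · refine pt_ext (mp_ne _ (mp_ne _ hR0)) (mp_ne _ (sp_ne s hR0)) ?_ ?_
        · rw [xc_mp, xc_mp, xc_mp, xc_sp]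
          exact (hs _).symm
        · rw [yc_mp, yc_mp, yc_mp, yc_sp]
          exact (hs _).symm
    have h3 : q (cc (ac W27 σ T)) = χ s * q (cc T) := by
      rw [h2, hdet, map_mul, hc]
    obtain ⟨z, hz⟩ := hm.equiv s (q (cc T))
    refine ⟨z, ?_⟩
    show ((m₀ (q (cc (ac W27 σ T))) : TF F Ω π) : Ω) = _
    rw [h3, hz, ← hs]
    rfl
  · intro T hT v hv
    exact hm1 _ v (hnmem γ v hv)
  · intro T hT v hv
    have h2 := huniq v (hmem π v hv)
    subst h2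
    exact hm2 _
  · intro v hv
    obtain ⟨a, ha⟩ := hm3 v (hmem γ v hv)
    obtain ⟨c, hc⟩ := hq a
    refine ⟨mp (TF F Ω π).val (act c T₀), hP c, ?_⟩
    show ¬ (l : ℤ) ∣ ord v (m₀ (q (cc (mp (TF F Ω π).val (act c T₀)))))
    rw [hdet, hc]
    exact ha

end H13Z
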