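import Mathlib
import Pool.Agent.Lib.H13Z.LDefs
import Pool.Agent.Lib.H13Z.GA8
import Pool.Agent.Lib.H13Z.CZ5
import Pool.Agent.Lib.H13S.VW
import Pool.Agent.Lib.H99B.Base

open NumberField IsDedekindDomain

namespace H13Z

open H55P H28G H55B H13S H55R H99B

variable {Ω : Type} [Field Ω] [DecidableEq Ω] [Algebra F Ω] [IsAlgClosure F Ω]

/-- The global class: c is a cocycle of the whole group with Kummer generators y T over L = F(E[pi]); the values of the y T are values of elements of L outside γ, not all of them at the places above γ, and the level above pi is at least 2. -/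
structure Gl (π γ : O) (l : ℕ) (e : P27 Ω → P27 Ω → Ω) (L : IntermediateField F Ω)
    (c : (Ω ≃ₐ[F] Ω) → P27 Ω) (y : P27 Ω → Ω) : Prop where
  D : Dat π l
  g : Prime γ
  gp : Prim γ
  one : π ∣ γ - 1
  tb : IsTB π ⊥ L
  cc : Cc π ⊥ c
  kum : ∀ T ∈ Tor π Ω, Kum L e c T (y T)
  out : ∀ V : ValuationSubring Ω, vo V γ = 1 → ∀ T ∈ Tor π Ω, ∃ x ∈ L, x ≠ 0 ∧
    V.valuation (y T) = V.valuation x
  lev : ∀ V : ValuationSubring Ω, vo V π < 1 → ∀ T ∈ Tor π Ω, ∀ T₀ ∈ Tor π Ω, T₀ ≠ 0 →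
    ∃ z ∈ L, z ≠ 0 ∧ V.valuation (y T ^ l / z ^ l - 1) ≤ V.valuation (tt T₀) ^ 2
  ram : ∀ V : ValuationSubring Ω, vo V γ < 1 → ∃ T ∈ Tor π Ω, ∀ x ∈ L,
    V.valuation (y T) ≠ V.valuation x

/-- l-th roots in the value group. -/
theorem fz1_pow {Γ : Type*} [LinearOrderedCommGroupWithZero Γ] {a b : Γ} {n : ℕ} (hn : n ≠ 0)
    (h : a ^ n = b ^ n) : a = b := by
  rcases lt_trichotomy a b with h1 | h1 | h1
  · exact absurd h (ne_of_lt (pow_lt_pow_left₀ h1 zero_le hn))
  · exact h1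
  · exact absurd h.symm (ne_of_lt (pow_lt_pow_left₀ h1 zero_le hn))

omit [DecidableEq Ω] [IsAlgClosure F Ω] in
/-- Equality of values below and above. -/
theorem fz1_eq {K : IntermediateField F Ω} [NumberField K] {V : ValuationSubring Ω}
    {w : HeightOneSpectrum (𝓞 K)} (h : Abv K V w) (x y : K) :
    V.valuation (x : Ω) = V.valuation (y : Ω) ↔ w.valuation K x = w.valuation K y := by
  constructor
  · intro h1
    exact le_antisymm ((h.le x y).1 h1.le) ((h.le y x).1 h1.ge)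
  · intro h1
    exact le_antisymm ((h.le x y).2 h1.le) ((h.le y x).2 h1.ge)

omit [DecidableEq Ω] [IsAlgClosure F Ω] in
/-- If V contains the field then all values are trivial. -/
theorem fz1_triv {K : IntermediateField F Ω} {V : ValuationSubring Ω} (h : ∀ x : K, (x : Ω) ∈ V) {x : K}
    (hx : x ≠ 0) : V.valuation (x : Ω) = 1 := by
  have h1 : V.valuation (x : Ω) ≤ 1 := (V.valuation_le_one_iff _).2 (h x)
  have h2 : V.valuation ((x⁻¹ : K) : Ω) ≤ 1 := (V.valuation_le_one_iff _).2 (h x⁻¹)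
  have h3 : V.valuation ((x⁻¹ : K) : Ω) * V.valuation (x : Ω) = 1 := by
    rw [← map_mul]
    have : ((x⁻¹ : K) : Ω) * (x : Ω) = 1 := by
      have h4 : ((x⁻¹ * x : K) : Ω) = 1 := by rw [inv_mul_cancel₀ hx]; rfl
      exact h4
    rw [this, map_one]
  refine le_antisymm h1 ?_
  calc (1 : V.ValueGroup) = V.valuation ((x⁻¹ : K) : Ω) * V.valuation (x : Ω) := h3.symm
    _ ≤ 1 * V.valuation (x : Ω) := mul_le_mul_left h2 _
    _ = _ := one_mul _

/-- Chunk FZ1 (M). N = TF F Ω π (number field: TF_fin), m from glob_pts, IsTF π N (as in H99B/Geom or PS: adjoin of the coordinates). cocycle_of_m: c, y T (choose; 1 outside Tor π) with y^l = m T * z^l. If V contains N then V = ⊤ (Ω is algebraic over N, V integrally closed), all values of nonzero elements are 1: out clear; vo V π < 1, vo V γ < 1 impossible.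
Otherwise w = the prime of N below V (exists_below, Abv). out: w γ = 1 (Abv.le), l | ord w (m T), so w (m T) = w x^l with x in N (a power of a uniformizer), V (y T)^l = V (x z)^l, V (y T) = V (x z). lev: w (tt T₀') = exp(-1) (tot_ram, TotRam.val; T₀ comes from N: the coordinates of T₀ lie in N), exp(-2) = w (tt T₀'^2), Abv.le. ram: if V (y T) = V x, x in N, then
V (m T) = V (x/z)^l, w (m T) = w (x/z)^l, so l | ord w (m T); glob_pts gives T for which this fails. -/
theorem exists_gl {π γ : O} {l : ℕ} (D : Dat π l) (hγ : Prime γ) (hγ3 : Prim γ) (h1 : π ∣ γ - 1)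
    {e : P27 Ω → P27 Ω → Ω} (he : Pairing π l e) :
    ∃ (L : IntermediateField F Ω) (c : (Ω ≃ₐ[F] Ω) → P27 Ω) (y : P27 Ω → Ω), Gl π γ l e L c y := by
  classical
  have halg : IsAlgClosed Ω := IsAlgClosure.isAlgClosed F
  have hint : Algebra.IsAlgebraic F Ω := IsAlgClosure.isAlgebraic
  have hTF : IsTF π (TF F Ω π) := is_tf D.pr
  have hfd : FiniteDimensional F (TF F Ω π) := hTF.1
  have hnf : NumberField (TF F Ω π) := NumberField.of_module_finite F _
  have hL : TFld F (TF F Ω π) π := TF_TFld F Ω π D.pr.ne_zero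
  have hl0 : l ≠ 0 := D.hl.ne_zero
  obtain ⟨m, hadd, hact, hord, hlev, hram⟩ := glob_pts (Ω := Ω) D.hl D.five D.pr D.prim D.dvd hγ hγ3 h1
  obtain ⟨c, hc, hy⟩ := cocycle_of_m D he hTF m hadd hact
  have hy' : ∀ T : P27 Ω, ∃ y : Ω, T ∈ Tor π Ω → Kum (TF F Ω π) e c T y ∧
      ∃ z : (TF F Ω π)ˣ, y ^ l = ((m T * z ^ l : (TF F Ω π)ˣ) : TF F Ω π) := by
    intro T
    by_cases hT : T ∈ Tor π Ω
    · obtain ⟨y, h2, h3⟩ := hy T hT
      exact ⟨y, fun _ => ⟨h2, h3⟩⟩
    · exact ⟨1, fun h => absurd h hT⟩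
  choose y hyy using hy'
  -- elements of F in L
  have hF : ∀ (V : ValuationSubring Ω) (a : O), vo V a = V.valuation ((algebraMap F (TF F Ω π) (a : F) : TF F Ω π) : Ω) :=
    fun V a => rfl
  have hFne : ∀ a : O, a ≠ 0 → algebraMap F (TF F Ω π) (a : F) ≠ 0 := by
    intro a ha
    rw [Ne, map_eq_zero]
    intro h2
    apply ha
    exact_mod_cast h2
  refine ⟨TF F Ω π, c, y, D, hγ, hγ3, h1, ⟨hTF.1, bot_le, fun s => ?_⟩, hc, fun T hT => (hyy T hT).1, ?_, ?_, ?_⟩
  · rw [hTF.2]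
    exact ⟨fun h => ⟨fix_bot s, h⟩, fun h => h.2⟩
  · intro V hV T hT
    obtain ⟨hk, z, hz⟩ := hyy T hT
    by_cases hc : ∀ x : TF F Ω π, (x : Ω) ∈ V
    · refine ⟨1, one_mem _, one_ne_zero, ?_⟩
      apply fz1_pow hl0
      rw [← map_pow, hz, fz1_triv hc (Units.ne_zero _), map_one, one_pow]
    · push Not at hc
      obtain ⟨w, hw⟩ := exists_below (TF F Ω π) V hc
      have hwγ : w.valuation (TF F Ω π) (algebraMap F (TF F Ω π) (γ : F)) = 1 := by
        have h2 := (fz1_eq hw (algebraMap F (TF F Ω π) (γ : F)) 1).1 (by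
          rw [← hF, hV]
          exact (map_one V.valuation).symm)
        rw [h2, map_one]
      obtain ⟨k, hk'⟩ := hord T hT w hwγ
      obtain ⟨ϖ, hϖ⟩ := w.valuation_exists_uniformizer (TF F Ω π)
      have hϖ0 : ϖ ≠ 0 := by
        intro h0
        rw [h0, map_zero] at hϖ
        exact WithZero.exp_ne_zero hϖ.symm
      have hwm : w.valuation (TF F Ω π) ((m T : (TF F Ω π)ˣ) : TF F Ω π) =
          w.valuation (TF F Ω π) ((ϖ ^ k) ^ l) := by
        rw [BF1_val, hk', map_pow, map_zpow₀, hϖ, ← WithZero.exp_zsmul, ← WithZero.exp_nsmul]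
        congr 1
        rw [smul_eq_mul, nsmul_eq_mul]
        ring
      refine ⟨((ϖ ^ k * (z : TF F Ω π) : TF F Ω π) : Ω), SetLike.coe_mem _, ?_, ?_⟩
      · have : (ϖ ^ k * (z : TF F Ω π) : TF F Ω π) ≠ 0 := mul_ne_zero (zpow_ne_zero _ hϖ0) (Units.ne_zero z)
        intro h0
        exact this (Subtype.ext h0)
      · apply fz1_pow hl0
        rw [← map_pow, hz, ← map_pow]
        have h3 := (fz1_eq hw _ _).2 hwm
        have h4 : (((m T * z ^ l : (TF F Ω π)ˣ) : TF F Ω π) : Ω) =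
            (((m T : (TF F Ω π)ˣ) : TF F Ω π) : Ω) * (((z : (TF F Ω π)ˣ) : TF F Ω π) : Ω) ^ l := by
          push_cast
          rfl
        have h5 : (((ϖ ^ k * (z : TF F Ω π) : TF F Ω π) : Ω)) ^ l =
            ((((ϖ ^ k) ^ l : TF F Ω π)) : Ω) * (((z : (TF F Ω π)ˣ) : TF F Ω π) : Ω) ^ l := by
          push_cast
          ring
        rw [h4, h5, map_mul, map_mul, h3]
  · intro V hV T hT T₀ hT₀ hT₀0
    obtain ⟨hk, z, hz⟩ := hyy T hT
    have hex : ∃ x : TF F Ω π, (x : Ω) ∉ V := by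
      by_contra hcon
      push Not at hcon
      have h2 := fz1_triv hcon (hFne π D.pr.ne_zero)
      rw [← hF] at h2
      rw [h2] at hV
      exact lt_irrefl _ hV
    obtain ⟨w, hw⟩ := exists_below (TF F Ω π) V hex
    have hwπ : w.valuation (TF F Ω π) (algebraMap F (TF F Ω π) (π : F)) < 1 := by
      rw [← hw.lt, ← hF]
      exact hV
    obtain ⟨z', hz'⟩ := hlev T hT w hwπ
    obtain ⟨S₀, hS₀, hS₀T⟩ := lift_pt hT₀
    have hS₀0 : S₀ ≠ 0 := by
      rintro rfl
      rw [map_zero] at hS₀T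
      exact hT₀0 hS₀T.symm
    have hmem : algebraMap O (𝓞 (TF F Ω π)) π ∈ w.asIdeal := by
      have h2 : algebraMap F (TF F Ω π) (π : F) =
          algebraMap (𝓞 (TF F Ω π)) (TF F Ω π) (algebraMap O (𝓞 (TF F Ω π)) π) := rfl
      rw [h2, HeightOneSpectrum.valuation_lt_one_iff_mem] at hwπ
      exact hwπ
    obtain ⟨u, hu, hwu⟩ := below D.pr w hmem
    have hval := ((tot_ram D.pr D.prim hL u (val_gen u hu)).val w hwu S₀ hS₀ hS₀0).2
    have htt : ((tt S₀ : TF F Ω π) : Ω) = tt T₀ := by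
      rw [← hS₀T, tt_mp]
      rfl
    refine ⟨(((z' * z : (TF F Ω π)ˣ) : TF F Ω π) : Ω), SetLike.coe_mem _, ?_, ?_⟩
    · intro h0
      exact (Units.ne_zero (z' * z)) (Subtype.ext h0)
    · have h3 : w.valuation (TF F Ω π) (((m T * (z' ^ l)⁻¹ : (TF F Ω π)ˣ) : TF F Ω π) - 1) ≤
          w.valuation (TF F Ω π) ((tt S₀) ^ 2) := by
        rw [map_pow, hval, ← WithZero.exp_nsmul]
        exact hz'
      have h4 := (hw.le _ _).2 h3
      have h5 : ((((m T * (z' ^ l)⁻¹ : (TF F Ω π)ˣ) : TF F Ω π) - 1 : TF F Ω π) : Ω) =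
          y T ^ l / (((z' * z : (TF F Ω π)ˣ) : TF F Ω π) : Ω) ^ l - 1 := by
        rw [hz]
        have hz0 : (((z : (TF F Ω π)ˣ) : TF F Ω π) : Ω) ≠ 0 := fun h0 => Units.ne_zero z (Subtype.ext h0)
        have hz0' : (((z' : (TF F Ω π)ˣ) : TF F Ω π) : Ω) ≠ 0 := fun h0 => Units.ne_zero z' (Subtype.ext h0)
        push_cast
        field_simp
        rw [mul_pow]
        ring
      rw [h5] at h4
      refine h4.trans (le_of_eq ?_)
      rw [← map_pow, ← htt]
      rfl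
  · intro V hV
    have hex : ∃ x : TF F Ω π, (x : Ω) ∉ V := by
      by_contra hcon
      push Not at hcon
      have h2 := fz1_triv hcon (hFne γ hγ.ne_zero)
      rw [← hF] at h2
      rw [h2] at hV
      exact lt_irrefl _ hV
    obtain ⟨w, hw⟩ := exists_below (TF F Ω π) V hex
    have hwγ : w.valuation (TF F Ω π) (algebraMap F (TF F Ω π) (γ : F)) < 1 := by
      rw [← hw.lt, ← hF]
      exact hV
    obtain ⟨T, hT, hnd⟩ := hram w hwγ
    refine ⟨T, hT, fun x hx hxy => hnd ?_⟩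
    obtain ⟨hk, z, hz⟩ := hyy T hT
    have hx0 : x ≠ 0 := by
      rintro rfl
      rw [map_zero, map_eq_zero] at hxy
      exact hk.1 hxy
    obtain ⟨x', hx'⟩ : ∃ x' : (TF F Ω π)ˣ, ((x' : TF F Ω π) : Ω) = x :=
      ⟨Units.mk0 ⟨x, hx⟩ (fun h0 => hx0 (congrArg Subtype.val h0)), rfl⟩
    have h2 : V.valuation (((m T * z ^ l : (TF F Ω π)ˣ) : TF F Ω π) : Ω) =
        V.valuation (((x' ^ l : (TF F Ω π)ˣ) : TF F Ω π) : Ω) := by
      rw [← hz, map_pow, hxy, ← hx', ← map_pow]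
      push_cast
      rfl
    have h3 := (fz1_eq hw _ _).1 h2
    rw [BF1_val, BF1_val, WithZero.exp_inj] at h3
    rw [ord_mul] at h3
    have hpow : ∀ u : (TF F Ω π)ˣ, ord w (u ^ l) = l * ord w u := by
      intro u
      have h6 := BF1_val w (u ^ l)
      rw [Units.val_pow_eq_pow_val, map_pow, BF1_val, ← WithZero.exp_nsmul, WithZero.exp_inj, nsmul_eq_mul] at h6
      linarith
    rw [hpow, hpow] at h3
    exact ⟨ord w x' - ord w z, by linarith⟩

end H13Z
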