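import Mathlib
import Pool.Agent.Lib.H13Z.FZ1
import Pool.Agent.Lib.H13Z.LCB
import Pool.Agent.Lib.H13Z.LE
import Pool.Agent.Lib.H13Z.LF3
import Pool.Agent.Lib.H13Z.LI
import Pool.Agent.Lib.H13S.CO2
import Pool.Agent.Lib.H13S.DC
import Pool.Agent.Lib.H13S.LD3
import Pool.Agent.Lib.H13S.EXV

open NumberField IsDedekindDomain

namespace H13Z

open H55P H28G H55B H13S

variable {Ω : Type} [Field Ω] [DecidableEq Ω] [Algebra F Ω] [IsAlgClosure F Ω]

variable {π γ : O} {l : ℕ} {e : P27 Ω → P27 Ω → Ω} {L : IntermediateField F Ω}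
  {c : (Ω ≃ₐ[F] Ω) → P27 Ω} {y : P27 Ω → Ω} {V : ValuationSubring Ω}

omit [IsAlgClosure F Ω] in
/-- Chunk FZ2 (S/M). If s in L.fixingSubgroup (that is: s fixes Tor π) fixes all y T then c s = 0: e (c s) T = 1, he.nondeg. -/
theorem Gl.zero (G : Gl π γ l e L c y) (he : Pairing π l e) {s : Ω ≃ₐ[F] Ω}
    (hs : ∀ T ∈ Tor π Ω, ac W27 s T = T) (h : ∀ T ∈ Tor π Ω, s (y T) = y T) : c s = 0 := by
  have hsL : s ∈ L.fixingSubgroup := (G.tb.fix s).2 ⟨fix_bot s, hs⟩
  refine he.nondeg _ (G.cc.val s (fix_bot s)) fun T hT => ?_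
  obtain ⟨h0, h1⟩ := G.kum T hT
  have h2 := h1 s hsL
  rw [h T hT] at h2
  exact mul_right_cancel₀ h0 (by rw [one_mul]; exact h2.symm)

omit [IsAlgClosure F Ω] in
/-- the l-th power of y T is fixed by the automorphisms which fix the points killed by π -/
theorem FZ2_pow (G : Gl π γ l e L c y) (he : Pairing π l e) {s : Ω ≃ₐ[F] Ω}
    (hs : ∀ T ∈ Tor π Ω, ac W27 s T = T) {T : P27 Ω} (hT : T ∈ Tor π Ω) : s (y T ^ l) = y T ^ l := by
  have hsL : s ∈ L.fixingSubgroup := (G.tb.fix s).2 ⟨fix_bot s, hs⟩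
  rw [map_pow, (G.kum T hT).2 s hsL, mul_pow, he.root _ (G.cc.val s (fix_bot s)) T hT, one_mul]

omit [IsAlgClosure F Ω] in
/-- Outside l and γ: for s inertial fixing Tor π, x in L from Gl.out is fixed by s, y T^l is in L (fixed by L.fixingSubgroup: s (y T^l) = e^l y T^l = y T^l), unr_val. -/
theorem Gl.inert (G : Gl π γ l e L c y) (he : Pairing π l e) (hl : V.valuation (l : Ω) = 1)
    (hγ : vo V γ = 1) {s : Ω ≃ₐ[F] Ω} (hs : Inert V s) (hT : ∀ T ∈ Tor π Ω, ac W27 s T = T) :
    c s = 0 := by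
  have hsL : s ∈ L.fixingSubgroup := (G.tb.fix s).2 ⟨fix_bot s, hT⟩
  have hchar : CharZero Ω := charZero_of_injective_algebraMap (algebraMap F Ω).injective
  refine G.zero he hT fun T hT' => ?_
  obtain ⟨x, hxL, hx0, hx⟩ := G.out V hγ T hT'
  exact unr_val V G.D.hl hl (G.kum T hT').1 hx hs
    ((IntermediateField.mem_fixingSubgroup_iff L s).1 hsL x hxL) (FZ2_pow G he hT hT')

omit [IsAlgClosure F Ω] in
/-- the primes π and γ are different -/
theorem FZ2_ne (G : Gl π γ l e L c y) : ¬ γ ∣ π := by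
  intro h
  have h1 : Associated γ π := G.g.irreducible.associated_of_dvd G.D.pr.irreducible h
  have h2 : π ∣ 1 := by
    have h3 : π ∣ γ - (γ - 1) := dvd_sub h1.symm.dvd G.one
    rwa [sub_sub_cancel] at h3
  exact G.D.pr.not_isUnit (isUnit_of_dvd_one h2)

/-- Above γ over K: V 3 = 1, V l = 1, V π = 1 (γ does not divide 3 l), so inertia fixes Tor π (inert_tors). y T^l is fixed by inertia: value_fixed for K = ⊥ and qv_intpow: V (y T)^l = V γ^n = V x'^(l n), so V (y T) = V (x'^n); x' in K is fixed by s. unr_val, Gl.zero. -/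
theorem Gl.kill (G : Gl π γ l e L c y) (he : Pairing π l e) (hV : vo V γ < 1)
    (h3 : V.valuation (3 : Ω) = 1) (hl : V.valuation (l : Ω) = 1) {K : IntermediateField F Ω} {x' : Ω}
    (hx : x' ∈ K) (hxv : V.valuation x' ^ l = vo V γ) {s : Ω ≃ₐ[F] Ω} (hs : s ∈ K.fixingSubgroup)
    (hi : Inert V s) : c s = 0 := by
  have hchar : CharZero Ω := charZero_of_injective_algebraMap (algebraMap F Ω).injective
  have hπ : vo V π = 1 := qv_unit V G.g hV (FZ2_ne G)
  have htor : ∀ t : Ω ≃ₐ[F] Ω, Inert V t → ∀ T ∈ Tor π Ω, ac W27 t T = T :=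
    fun t ht T hT => inert_tors h3 hπ ht hT
  refine G.zero he (htor s hi) fun T hT => ?_
  have hy0 : y T ≠ 0 := (G.kum T hT).1
  have hfix : ∀ t ∈ (⊥ : IntermediateField F Ω).fixingSubgroup, Inert V t → t (y T ^ l) = y T ^ l :=
    fun t _ ht => FZ2_pow G he (htor t ht) hT
  have hnf : NumberField (⊥ : IntermediateField F Ω) := NumberField.of_module_finite F _
  obtain ⟨a, ha0, ha⟩ := value_fixed (⊥ : IntermediateField F Ω) V (y T ^ l) (pow_ne_zero l hy0) hfix
  obtain ⟨b, hb⟩ := IntermediateField.mem_bot.1 a.2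
  have hb0 : b ≠ 0 := by
    rintro rfl
    rw [map_zero] at hb
    exact ha0 (Subtype.ext hb.symm)
  rw [← hb] at ha
  obtain ⟨k, hk⟩ := qv_intpow V G.g hV b hb0
  rw [hk, ← hxv, ← zpow_natCast (V.valuation x') l, ← zpow_mul, mul_comm, zpow_mul, zpow_natCast,
    map_pow] at ha
  have hxy : V.valuation (y T) = V.valuation (x' ^ k) := by
    rw [map_zpow₀]
    exact (pow_left_inj₀ zero_le zero_le G.D.hl.ne_zero).1 ha
  refine unr_val V G.D.hl hl hy0 hxy hi ?_ (FZ2_pow G he (htor s hi) hT)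
  rw [map_zpow₀, (IntermediateField.mem_fixingSubgroup_iff K s).1 hs x' hx]

/-- there is a valuation ring above every prime element -/
theorem FZ2_exists_V (Ω : Type) [Field Ω] [Algebra F Ω] {β : O} (hβ : Prime β) :
    ∃ V : ValuationSubring Ω, vo V β < 1 := by
  have hnf : NumberField (⊥ : IntermediateField F Ω) := NumberField.of_module_finite F _
  let eb : F ≃+* (⊥ : IntermediateField F Ω) := (IntermediateField.botEquiv F Ω).symm.toRingEquiv
  let ee : O ≃+* 𝓞 (⊥ : IntermediateField F Ω) := RingOfIntegers.mapRingEquiv eb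
  have hb : (((ee β : 𝓞 (⊥ : IntermediateField F Ω)) : (⊥ : IntermediateField F Ω)) : Ω) =
      algebraMap F Ω (β : F) := rfl
  have hbu : ¬ IsUnit (ee β) := fun h => hβ.not_isUnit ((MulEquiv.isUnit_map ee).1 h)
  have hb0 : ee β ≠ 0 := fun h => hβ.ne_zero ((map_eq_zero_iff ee ee.injective).1 h)
  obtain ⟨M, hM, hbM⟩ := exists_max_ideal_of_mem_nonunits hbu
  let w : HeightOneSpectrum (𝓞 (⊥ : IntermediateField F Ω)) :=
    ⟨M, hM.isPrime, fun h => hb0 (by rw [h] at hbM; exact hbM)⟩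
  obtain ⟨V, hV⟩ := exists_above (⊥ : IntermediateField F Ω) w
  refine ⟨V, ?_⟩
  have h1 := (Abv.lt hV ((ee β : 𝓞 (⊥ : IntermediateField F Ω)) : (⊥ : IntermediateField F Ω))).2
    ((w.valuation_lt_one_iff_mem (ee β)).2 hbM)
  rw [hb] at h1
  exact h1

/-- no point of Tor β is fixed by a normal subgroup of l-power index -/
theorem FZ2_nofix {β : O} (hl : l.Prime) (h5 : 5 ≤ l) (hβ : Prime β) (hp : Prim β) (hN : l ∣ Nm β)
    {K : IntermediateField F Ω} [FiniteDimensional F K] (hd : ∃ k : ℕ, Module.finrank F K = l ^ k)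
    {R : P27 Ω} (hR : R ∈ Tor β Ω) (hf : ∀ s ∈ K.fixingSubgroup, ac W27 s R = R) : R = 0 := by
  have hN0 : Nm β ≠ 0 := fun h => hβ.ne_zero (Nm_eq_zero.1 h)
  have hN4 : 4 ≤ Nm β := by
    have := Nat.le_of_dvd (Nat.pos_of_ne_zero hN0) hN
    omega
  have hgal : IsGalois F Ω := by
    have hnorm : Normal F Ω := IsAlgClosure.normal F Ω
    exact ⟨⟩
  by_cases hm : ∃ s ∈ K.fixingSubgroup, ∃ T ∈ Tor β Ω, ac W27 s T ≠ T
  · obtain ⟨s, hs, hT⟩ := hm
    exact no_fix hβ hp hT hR (hf s hs)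
  · exfalso
    push Not at hm
    obtain ⟨N, hN1, hN2, hN3, hN4'⟩ := stab_index (Ω := Ω) β hβ hp
    have hle : K.fixingSubgroup ≤ N := fun s hs => (hN1 s).2 (hm s hs)
    have hidx : N.index ∣ K.fixingSubgroup.index := Subgroup.index_dvd_of_le hle
    obtain ⟨k, hk⟩ := hd
    rw [← IntermediateField.finrank_eq_fixingSubgroup_index, hk] at hidx
    have hcop : (l ^ k).Coprime N.index := (CO2_cop hl hN hN0 hN3).pow_left k
    have h1 : N.index = 1 := Nat.Coprime.eq_one_of_dvd hcop.symm hidx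
    have htop : N = ⊤ := Subgroup.index_eq_one.1 h1
    obtain ⟨V, hV⟩ := FZ2_exists_V Ω hβ
    obtain ⟨s, -, hs⟩ := moved_ram (Ω := Ω) hβ hp hN4 hV
    obtain ⟨-, T, hT, -, hT0⟩ := gi_gen (Ω := Ω) β hβ hp
    have hT' : T = 0 := hs T hT ((hN1 s).1 (by rw [htop]; exact Subgroup.mem_top s) T hT)
    apply hβ.not_isUnit
    rw [isUnit_iff_dvd_one]
    apply (hT0 1).1
    rw [hT', map_zero]

/-- no point killed by l is fixed by a normal subgroup of l-power index -/
theorem FZ2_nofix_l (D : Dat π l) {K : IntermediateField F Ω} [FiniteDimensional F K]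
    (hd : ∃ k : ℕ, Module.finrank F K = l ^ k) {R : P27 Ω} (hR : act (l : O) R = 0)
    (hf : ∀ s ∈ K.fixingSubgroup, ac W27 s R = R) : R = 0 := by
  have hNl : l ∣ Nm π := CO2_Nm D.hl D.pr D.dvd
  have hA : ∀ R : P27 Ω, R ∈ Tor π Ω → (∀ s ∈ K.fixingSubgroup, ac W27 s R = R) → R = 0 :=
    fun R hR hf => FZ2_nofix D.hl D.five D.pr D.prim hNl hd hR hf
  have hB : ∀ R : P27 Ω, R ∈ Tor (cj π) Ω → (∀ s ∈ K.fixingSubgroup, ac W27 s R = R) → R = 0 :=
    fun R hR hf => FZ2_nofix D.hl D.five (CO2_cj_prime D.pr) (CO2_cj_prim D.prim)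
      (by rw [CO2_Nm_cj]; exact hNl) hd hR hf
  rcases dichotomy π l D.hl D.five D.pr D.prim D.dvd with ⟨h1, h2⟩ | ⟨h1, h2, -⟩
  · -- l is a unit times π
    obtain ⟨u, hu⟩ := D.dvd
    have hu1 : Nm u = 1 := by
      have h4 : Nm (l : O) = l ^ 2 := dc_Nm_nat l
      rw [hu, Nm_mul, h2] at h4
      exact (mul_eq_left₀ (pow_ne_zero 2 D.hl.ne_zero)).1 h4
    obtain ⟨v, hv⟩ := (Nm_eq_one.1 hu1).exists_left_inv
    refine hA R ?_ hf
    rw [mem_Tor]
    have h5 : π = v * (l : O) := by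
      rw [hu]
      linear_combination (-π) * hv
    rw [h5, act_mul, hR, map_zero]
  · have hcop : IsCoprime π (cj π) := (D.pr.irreducible.coprime_iff_not_dvd).2 h1
    obtain ⟨u, v, huv⟩ := hcop
    have hll : π * cj π = (l : O) := by rw [mul_cj, h2]
    have hR1 : act (u * π) R = 0 := by
      refine hB _ ?_ ?_
      · rw [mem_Tor, ← act_mul]
        have h6 : cj π * (u * π) = u * (l : O) := by rw [← hll]; ring
        rw [h6, act_mul, hR, map_zero]
      · intro s hs
        rw [ac_act, hf s hs]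
    have hR2 : act (v * cj π) R = 0 := by
      refine hA _ ?_ ?_
      · rw [mem_Tor, ← act_mul]
        have h6 : π * (v * cj π) = v * (l : O) := by rw [← hll]; ring
        rw [h6, act_mul, hR, map_zero]
      · intro s hs
        rw [ac_act, hf s hs]
    have h7 : act (u * π + v * cj π) R = 0 := by rw [act_add, hR1, hR2, add_zero]
    rw [huv, act_one] at h7
    exact h7

/-- Chunk FZ3 (M). c is not a coboundary over K. Suppose c s = ac s T - T on K.fixingSubgroup, l • T = 0. d s = c s - (ac s T - T) is a cocycle of the whole group, zero on the normal subgroup K.fixingSubgroup (hn); for g and s in K.fixingSubgroup: d (s g) = ac s (d g), d (s g) = d (g (g⁻¹ s g)) = d g: d g is killed by l and fixed by K.fixingSubgroup.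
Such points are 0: the group acts on Tor π and on Tor (cj π) through characters with values in (O/π)^*, (O/cj π)^* (exists_chi), not trivial (moved_ram or: some s moves a point), of order prime to l; K.fixingSubgroup has index l^k, so some s in it moves a point (if χ were trivial on it then the order of χ would divide l^k), no_fix;
a point R killed by l and fixed: if cj π = π then l is a unit times π: R in Tor π; otherwise R = R₁ + R₂, R₁ in Tor π, R₂ in Tor (cj π), both fixed (act of elements of O commutes with ac). So d = 0: c s = ac s T - T for all s. Take V above γ (exists_above, or any V with vo V γ < 1), s inertial: inert_tors with a = l: ac s T = T, c s = 0. So s (y R) = e 0 R * y R = y R for all R in Tor π and all inertial s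
(inertia fixes Tor π, so it is in L.fixingSubgroup: Kum), value_fixed for K = L: V (y R) is the value of an element of L, against Gl.ram. -/
theorem Gl.not_cob (G : Gl π γ l e L c y) (he : Pairing π l e) (h3 : ¬ γ ∣ 3) (hl : ¬ γ ∣ (l : O))
    {K : IntermediateField F Ω} [FiniteDimensional F K] (hn : ∀ s : Ω ≃ₐ[F] Ω, ∀ x ∈ K, s x ∈ K)
    (hd : ∃ k : ℕ, Module.finrank F K = l ^ k) :
    ¬ ∃ T : P27 Ω, l • T = 0 ∧ ∀ s ∈ K.fixingSubgroup, c s = ac W27 s T - T := by
  rintro ⟨T, hT, hc⟩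
  have hmul : ∀ s t, c (s * t) = c s + ac W27 s (c t) := fun s t =>
    G.cc.mul s (fix_bot s) t (fix_bot t)
  have hlT : act (l : O) T = 0 := by rw [act_nat, hT]
  have hlc : ∀ s, act (l : O) (c s) = 0 := by
    intro s
    have h1 := G.cc.val s (fix_bot s)
    obtain ⟨u, hu⟩ := G.D.dvd
    have h2 : (l : O) = cj u * cj π := by
      have h4 := congrArg cj hu
      rw [map_natCast, map_mul, mul_comm] at h4
      exact h4
    rw [h2, act_mul, mem_Tor.1 h1, map_zero]
  have hall : ∀ g, c g = ac W27 g T - T := by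
    intro g
    have hR : act (l : O) (c g - (ac W27 g T - T)) = 0 := by
      rw [map_sub, map_sub, hlc, ← ac_act, hlT, map_zero, sub_zero, sub_zero]
    have hfix : ∀ s ∈ K.fixingSubgroup, ac W27 s (c g - (ac W27 g T - T)) = c g - (ac W27 g T - T) := by
      intro s hs
      have hs' : g⁻¹ * s * g ∈ K.fixingSubgroup := by
        rw [IntermediateField.mem_fixingSubgroup_iff]
        intro x hx
        have h5 : (g⁻¹ * s * g) x = g⁻¹ (s (g x)) := rfl
        rw [h5, (IntermediateField.mem_fixingSubgroup_iff K s).1 hs _ (hn g x hx)]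
        exact g.symm_apply_apply x
      have h6 : s * g = g * (g⁻¹ * s * g) := by group
      have h7 := hmul s g
      have h8 := hmul g (g⁻¹ * s * g)
      rw [← h6, h7, hc s hs, hc _ hs', map_sub, ← ac_mul, ← h6, ac_mul] at h8
      rw [map_sub, map_sub]
      have h9 : ac W27 s (c g) = c g + (ac W27 s (ac W27 g T) - ac W27 g T) - (ac W27 s T - T) := by
        rw [← h8]
        abel
      rw [h9]
      abel
    exact sub_eq_zero.1 (FZ2_nofix_l G.D hd hR hfix)
  obtain ⟨V, hV⟩ := FZ2_exists_V Ω G.g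
  have hV3 : V.valuation (3 : Ω) = 1 := by
    have h1 := qv_unit V G.g hV h3
    have h2 : algebraMap F Ω ((3 : O) : F) = (3 : Ω) := by
      have e : ((3 : O) : F) = 3 := rfl
      rw [e]
      exact map_ofNat _ 3
    rw [← h2]
    exact h1
  have hπ : vo V π = 1 := qv_unit V G.g hV (FZ2_ne G)
  have hlV : vo V (l : O) = 1 := qv_unit V G.g hV hl
  obtain ⟨R, hR, hram⟩ := G.ram V hV
  have hfin := G.tb.fin
  have hnf : NumberField L := NumberField.of_module_finite F _
  have hfixR : ∀ s ∈ L.fixingSubgroup, Inert V s → s (y R) = y R := by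
    intro s hs hi
    have h1 : c s = 0 := by
      rw [hall s, inert_tors hV3 hlV hi (mem_Tor.2 hlT), sub_self]
    rw [(G.kum R hR).2 s hs, h1, ld3_e0 G.D.hl.ne_zero he hR, one_mul]
  obtain ⟨a, ha0, ha⟩ := value_fixed L V (y R) (G.kum R hR).1 hfixR
  exact hram a a.2 ha

end H13Z
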