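import Mathlib
import Pool.Agent.Lib.H13Z.LDG
import Pool.Agent.Lib.H13Z.LE

open NumberField IsDedekindDomain

namespace H13Z

open H55P H28G H55B H13S

variable {Ω : Type} [Field Ω] [DecidableEq Ω] [Algebra F Ω] [IsAlgClosure F Ω]

theorem lfg_fix (s : Ω ≃ₐ[F] Ω) {P : P27 Ω} (hx : s (xc P) = xc P) (hy : s (yc P) = yc P) : ac W27 s P = P := by
  by_cases hP : P = 0
  · rw [hP, map_zero]
  · refine pt_ext (IZ_ne s hP) hP ?_ ?_
    · rw [IZ_xc, hx]
    · rw [IZ_yc, hy]

theorem lfg_adj (s : Ω ≃ₐ[F] Ω) (P : P27 Ω)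
    (hs : s ∈ (IntermediateField.adjoin F {xc P, yc P}).fixingSubgroup) : ac W27 s P = P := by
  rw [IntermediateField.mem_fixingSubgroup_iff] at hs
  refine lfg_fix s (hs _ ?_) (hs _ ?_)
  · exact IntermediateField.subset_adjoin F _ (by simp)
  · exact IntermediateField.subset_adjoin F _ (by simp)

theorem lfg_fin (P : P27 Ω) : FiniteDimensional F (IntermediateField.adjoin F {xc P, yc P}) := by
  have hal : Algebra.IsAlgebraic F Ω := IsAlgClosure.isAlgebraic
  have hfin : Finite ({xc P, yc P} : Set Ω) := Set.Finite.to_subtype (Set.toFinite _)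
  exact IntermediateField.finiteDimensional_adjoin fun x _ => (hal.isAlgebraic x).isIntegral

theorem lfg_mul (V : ValuationSubring Ω) (a b : O) : vo V (a * b) = vo V a * vo V b := by
  rw [← vo_eq, ← vo_eq, ← vo_eq, map_mul, map_mul]

/-- Chunk LFG (S/M). At the places of good reduction prime to β a cocycle which vanishes on inertia is a coboundary of a torsion point. w below V (exists_below: K is not contained in V because γ⁻¹ is not), f from norm_above, φ from exists_frobK. a = γ^f - 1: vo V a = 1 (vo V γ < 1), a ≠ 0. act_div: act a P = c φ; so P in Tor (β * a), vo V (β * a) = 1.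
frob_tors: ac φ P = act (γ^f) P, so ac φ P - P = act a P = c φ. inert_tors: ac s P = P for Inert V s. d s = c s - (ac s P - P); hc for d: N and the coordinates of P (adjoin F {xc P, yc P} is finite over F). dec_gen. -/
theorem loc_good {K : IntermediateField F Ω} [NumberField K] {V : ValuationSubring Ω} {γ β : O}
    (hγ : Prime γ) (hγ3 : Prim γ) (hV : vo V γ < 1) (h3 : V.valuation (3 : Ω) = 1) (hβ : vo V β = 1)
    {c : (Ω ≃ₐ[F] Ω) → P27 Ω}
    (hm : ∀ s ∈ K.fixingSubgroup, ∀ t ∈ K.fixingSubgroup, c (s * t) = c s + ac W27 s (c t))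
    (hc : ∃ N : IntermediateField F Ω, FiniteDimensional F N ∧
      ∀ s ∈ K.fixingSubgroup, s ∈ N.fixingSubgroup → c s = 0)
    (hv : ∀ s ∈ K.fixingSubgroup, c s ∈ Tor β Ω)
    (hI : ∀ s ∈ K.fixingSubgroup, Inert V s → c s = 0) :
    ∃ P : P27 Ω, ∀ s ∈ K.fixingSubgroup, Dec V s → c s = ac W27 s P - P := by
  have hγ0 : algebraMap F Ω (γ : F) ≠ 0 := by
    intro h
    have h2 : (γ : F) = 0 := (map_eq_zero _).1 h
    exact hγ.ne_zero (by exact_mod_cast h2)
  have hex : ∃ x : K, (x : Ω) ∉ V := by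
    refine ⟨algebraMap F K (γ : F)⁻¹, ?_⟩
    have h1 : ((algebraMap F K (γ : F)⁻¹ : K) : Ω) = (algebraMap F Ω (γ : F))⁻¹ :=
      map_inv₀ (algebraMap F Ω) (γ : F)
    rw [h1, ← V.valuation_le_one_iff, map_inv₀, not_le]
    exact (one_lt_inv₀ (zero_lt_iff.2 ((Valuation.ne_zero_iff _).2 hγ0))).2 hV
  obtain ⟨w, hw⟩ := exists_below K V hex
  obtain ⟨f, hf0, hf⟩ := norm_above K hw hγ hV
  obtain ⟨φ, hφ, hφD, hφF⟩ := exists_frobK K hw
  have ha : vo V (γ ^ f - 1) = 1 := by
    have h1 : V.valuation (ak Ω (γ ^ f)) < 1 := by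
      rw [map_pow, map_pow]
      exact pow_lt_one₀ zero_le hV hf0.ne'
    rw [← vo_eq, map_sub, map_one, Valuation.map_sub_swap]
    exact Valuation.map_one_sub_of_lt _ h1
  have ha0 : γ ^ f - 1 ≠ 0 := by
    intro h
    rw [h] at ha
    unfold vo at ha
    simp at ha
  obtain ⟨P, hP⟩ := act_div ha0 (c φ)
  have hPT : P ∈ Tor (β * (γ ^ f - 1)) Ω := by
    rw [mem_Tor, act_mul, hP]
    exact hv φ hφ
  have hβa : vo V (β * (γ ^ f - 1)) = 1 := by
    rw [lfg_mul, hβ, ha, one_mul]
  have hφP : ac W27 φ P - P = c φ := by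
    rw [frob_tors h3 hγ hγ3 hV hβa (f := f) (s := φ) (by rw [← hf]; exact hφF) hPT, ← hP, act_sub, act_one]
  have hIP : ∀ s : Ω ≃ₐ[F] Ω, Inert V s → ac W27 s P = P := fun s hs => inert_tors h3 hβa hs hPT
  refine ⟨P, fun s hs hsD => ?_⟩
  have hd : ∀ s ∈ K.fixingSubgroup, Dec V s → ∀ t ∈ K.fixingSubgroup, Dec V t →
      (fun s => c s - (ac W27 s P - P)) (s * t) = (fun s => c s - (ac W27 s P - P)) s +
        ac W27 s ((fun s => c s - (ac W27 s P - P)) t) := by
    intro s hs _ t ht _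
    simp only
    rw [hm s hs t ht, ac_mul, map_sub, map_sub]
    abel
  have hc' : ∃ N : IntermediateField F Ω, FiniteDimensional F N ∧
      ∀ s ∈ K.fixingSubgroup, s ∈ N.fixingSubgroup → Dec V s → (fun s => c s - (ac W27 s P - P)) s = 0 := by
    obtain ⟨N, hN, h1⟩ := hc
    have hfin := lfg_fin P
    refine ⟨N ⊔ IntermediateField.adjoin F {xc P, yc P}, IntermediateField.finiteDimensional_sup _ _, ?_⟩
    intro s hs hsN _
    simp only
    rw [IntermediateField.mem_fixingSubgroup_iff] at hsN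
    have h2 : s ∈ N.fixingSubgroup := by
      rw [IntermediateField.mem_fixingSubgroup_iff]
      exact fun x hx => hsN x ((le_sup_left : N ≤ _) hx)
    have h3 : s ∈ (IntermediateField.adjoin F {xc P, yc P}).fixingSubgroup := by
      rw [IntermediateField.mem_fixingSubgroup_iff]
      exact fun x hx => hsN x ((le_sup_right : IntermediateField.adjoin F {xc P, yc P} ≤ _) hx)
    rw [h1 s hs h2, lfg_adj s P h3, sub_self, sub_zero]
  have hI' : ∀ s ∈ K.fixingSubgroup, Inert V s → (fun s => c s - (ac W27 s P - P)) s = 0 := by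
    intro s hs hsI
    simp only
    rw [hI s hs hsI, hIP s hsI, sub_self, sub_zero]
  have h0 : (fun s => c s - (ac W27 s P - P)) φ = 0 := by
    simp only
    rw [hφP, sub_self]
  have h1 := dec_gen hw hd hc' hI' hφ hφD hφF h0 hs hsD
  exact sub_eq_zero.1 h1

end H13Z
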