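import Mathlib
import Pool.Agent.Lib.H13Z.FZ2
import Pool.Agent.Lib.H13Z.LL1
import Pool.Agent.Lib.H13Z.LL2
import Pool.Agent.Lib.H13Z.LQ3
import Pool.Agent.Lib.H13Z.LFG
import Pool.Agent.Lib.H13Z.LA1
import Pool.Agent.Lib.H13S.S0

open NumberField IsDedekindDomain

namespace H13Z

open H55P H28G H55B H13S

variable {Ω : Type} [Field Ω] [DecidableEq Ω] [Algebra F Ω] [IsAlgClosure F Ω]

variable {π γ : O} {l : ℕ} {e : P27 Ω → P27 Ω → Ω} {L : IntermediateField F Ω}
  {c : (Ω ≃ₐ[F] Ω) → P27 Ω} {y : P27 Ω → Ω} {V : ValuationSubring Ω}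

theorem fz4_nat (V : ValuationSubring Ω) (n : ℕ) : vo V (n : O) = V.valuation (n : Ω) := by
  unfold vo
  congr 1
  simp

theorem fz4_three (V : ValuationSubring Ω) : vo V (3 : O) = V.valuation (3 : Ω) := by
  have h := fz4_nat V 3
  push_cast at h
  exact h

theorem fz4_add (V : ValuationSubring Ω) {a b : O} (ha : vo V a < 1) (hb : vo V b < 1) : vo V (a + b) < 1 := by
  have h : vo V (a + b) = V.valuation (algebraMap F Ω (a : F) + algebraMap F Ω (b : F)) := by
    rw [← map_add]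
    rfl
  rw [h]
  exact V.valuation.map_add_lt ha hb

theorem fz4_one (V : ValuationSubring Ω) : vo V (1 : O) = 1 := by
  have h := fz4_nat V 1
  rw [Nat.cast_one, Nat.cast_one, map_one] at h
  exact h

/-- The prime ideal of O below V. -/
def fz4I (V : ValuationSubring Ω) : Ideal O where
  carrier := {a | vo V a < 1}
  zero_mem' := by
    show vo V (0 : O) < 1
    have h := fz4_nat V 0
    rw [Nat.cast_zero, Nat.cast_zero, map_zero] at h
    rw [h]
    exact zero_lt_one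
  add_mem' := fun ha hb => fz4_add V ha hb
  smul_mem' := by
    intro a b hb
    show vo V (a * b) < 1
    rw [lv_mul]
    exact lt_of_le_of_lt (mul_le_of_le_one_left' (lv_le V a)) hb

/-- A primary prime element below V. -/
theorem fz4_below (hV : V ≠ ⊤) (h3 : V.valuation (3 : Ω) = 1) : ∃ δ : O, Prime δ ∧ Prim δ ∧ vo V δ < 1 := by
  have halg : IsAlgClosed Ω := IsAlgClosure.isAlgClosed F
  have hint : Algebra.IsAlgebraic F Ω := IsAlgClosure.isAlgebraic
  have hchar : CharZero Ω := charZero_of_injective_algebraMap (algebraMap F Ω).injective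
  obtain ⟨q, hq, hqV⟩ := in1_char (F₀ := F) V hV
  have hprime : (fz4I V).IsPrime := by
    refine Ideal.isPrime_iff.2 ⟨?_, ?_⟩
    · intro h1
      have h2 : (1 : O) ∈ fz4I V := by rw [h1]; trivial
      have h3 : vo V (1 : O) < 1 := h2
      rw [fz4_one] at h3
      exact lt_irrefl _ h3
    · intro x y hxy
      by_contra hc
      rw [not_or] at hc
      have h1 : vo V (x * y) < 1 := hxy
      have hx : vo V x = 1 := le_antisymm (lv_le V x) (not_lt.1 hc.1)
      have hy : vo V y = 1 := le_antisymm (lv_le V y) (not_lt.1 hc.2)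
      rw [lv_mul, hx, hy, one_mul] at h1
      exact lt_irrefl _ h1
  have hne : fz4I V ≠ ⊥ := by
    intro h0
    have h1 : (q : O) ∈ fz4I V := by
      show vo V (q : O) < 1
      rw [fz4_nat]
      exact hqV
    rw [h0, Ideal.mem_bot, Nat.cast_eq_zero] at h1
    exact hq.ne_zero h1
  let v : HeightOneSpectrum O := ⟨fz4I V, hprime, hne⟩
  have h3v : (3 : O) ∉ v.asIdeal := by
    intro h
    have h1 : vo V (3 : O) < 1 := h
    rw [fz4_three, h3] at h1
    exact lt_irrefl _ h1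
  obtain ⟨hg, hgp⟩ := gen_spec v h3v
  have hgm : gen v ∈ v.asIdeal := by
    rw [hg]
    exact Ideal.mem_span_singleton_self _
  refine ⟨gen v, ?_, hgp, hgm⟩
  have hg0 : gen v ≠ 0 := by
    intro h0
    apply v.ne_bot
    rw [hg, h0, Ideal.span_singleton_eq_bot]
  rw [← Ideal.span_singleton_prime hg0, ← hg]
  exact v.isPrime

theorem fz4_dvd (V : ValuationSubring Ω) {a b : O} (h : a ∣ b) (hb : vo V b = 1) : vo V a = 1 := by
  obtain ⟨c, rfl⟩ := h
  rw [lv_mul] at hb
  refine le_antisymm (lv_le V a) ?_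
  rw [← hb]
  exact mul_le_of_le_one_right' (lv_le V c)

theorem Gl.dc (G : Gl π γ l e L c y) : Dc π V c := dc_of_cc G.cc fun s _ => fix_bot s

theorem Gl.ks (G : Gl π γ l e L c y) : KS π V e c y := ks_of_kum G.tb (fun s _ => fix_bot s) G.kum

/-- Chunk FZ4a (S/M). Above l the class is locally a coboundary. V π < 1: RV π l V (tt T₀) e0 with T₀ ≠ 0 in Tor π, e0 = (Nm π - 1)/(l - 1) (= 1 or l + 1, dichotomy); Dc and KS from dc_of_cc, ks_of_kum with B = ⊥ (fix_bot); Lv from Gl.lev (elements of L are in Hx). dichotomy: loc_inert or loc_split.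
Otherwise V (cj π) < 1 (l divides a multiple of π cj π) and π does not divide cj π: exists_UV, loc_conj. -/
theorem Gl.above (G : Gl π γ l e L c y) (he : PairA π l e) (hV : V.valuation (l : Ω) < 1) :
    ∃ P : P27 Ω, ∀ s, Dec V s → c s = ac W27 s P - P := by
  have hdc : Dc π V c := G.dc
  have hks : KS π V e c y := G.ks
  have hlV : vo V (l : O) < 1 := by rw [fz4_nat]; exact hV
  by_cases hπ : vo V π < 1
  · obtain ⟨-, T₀, hT₀, -, hT₀a⟩ := gi_gen (Ω := Ω) π G.D.pr G.D.prim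
    have hT₀0 : T₀ ≠ 0 := by
      rintro rfl
      have h1 := (hT₀a 1).1 (map_zero _)
      exact G.D.pr.not_isUnit (isUnit_of_dvd_one h1)
    have hlev : ∀ T ∈ Tor π Ω, Lv π l V (V.valuation (tt T₀) ^ 2) (y T ^ l) := by
      intro T hT
      obtain ⟨z, hz, hz0, hz1⟩ := G.lev V hπ T hT T₀ hT₀ hT₀0
      refine ⟨z, fun s hs => ?_, hz0, hz1⟩
      have h1 : s ∈ L.fixingSubgroup := (G.tb.fix s).2 ⟨fix_bot s, hs.2⟩
      exact (IntermediateField.mem_fixingSubgroup_iff L s).1 h1 z hz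
    have hl5 := G.D.five
    rcases dichotomy π l G.D.hl G.D.five G.D.pr G.D.prim G.D.dvd with ⟨hin, hq⟩ | ⟨hnd, hq, _⟩
    · have R : RV π l V (tt T₀) (l + 1) := ⟨G.D, hπ, ⟨T₀, hT₀, hT₀0, rfl⟩, by
        rw [hq]
        obtain ⟨k, rfl⟩ : ∃ k, l = k + 1 := ⟨l - 1, by omega⟩
        rw [Nat.add_sub_cancel]
        have : (k + 1) ^ 2 = (k + 1 + 1) * k + 1 := by ring
        omega⟩
      exact loc_inert R hin hq he hdc hks hlev
    · have R : RV π l V (tt T₀) 1 := ⟨G.D, hπ, ⟨T₀, hT₀, hT₀0, rfl⟩, by rw [hq, one_mul]⟩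
      obtain ⟨X, -, hX⟩ := loc_split R hq he.pair hdc hks hlev
      exact ⟨X, hX⟩
  · have hπ1 : vo V π = 1 := le_antisymm (lv_le V π) (not_lt.1 hπ)
    have hcj : vo V (cj π) < 1 := by
      have h1 : vo V (π * cj π) < 1 := by
        rw [mul_cj, fz4_nat]
        obtain ⟨k, hk⟩ := CO2_Nm G.D.hl G.D.pr G.D.dvd
        rw [hk]
        have h2 : vo V ((l : O) * (k : O)) < 1 := by
          rw [lv_mul]
          exact lt_of_le_of_lt (mul_le_of_le_one_right' (lv_le V _)) hlV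
        rw [← Nat.cast_mul, fz4_nat] at h2
        exact h2
      rwa [lv_mul, hπ1, one_mul] at h1
    have hnd : ¬ π ∣ cj π := by
      intro hd
      rcases dichotomy π l G.D.hl G.D.five G.D.pr G.D.prim G.D.dvd with ⟨hin, _⟩ | ⟨h1, _⟩
      · rw [hin] at hcj
        exact hπ hcj
      · exact h1 hd
    obtain ⟨φ, n, U⟩ := exists_UV G.D hnd hcj
    exact loc_conj U he.pair hdc hks

/-- Chunk FZ4b (S/M). All places. V ≠ ⊤ lies above a prime number (in1_char); if V 3 < 1: Gl.inert (JV elements; V l = 1, vo V γ = 1), loc_three. If V l < 1: Gl.above. Otherwise V 3 = 1 and V l = 1; δ = the primary generator of the prime of O below V (H55B.gen_spec; V contains F⁻¹.. exists_below for ⊥, or: the prime ideal of O below V is generated by a prime element prime to 3, exists_unit_prim). vo V δ < 1, vo V (cj π) = 1.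
If vo V γ < 1: loc_good for K and γ, hI from Gl.kill (x' from hK). Otherwise vo V γ = 1: loc_good for K and δ, hI from Gl.inert and inert_tors. -/
theorem Gl.local (G : Gl π γ l e L c y) (he : PairA π l e) (h3 : ¬ γ ∣ 3) (hl : ¬ γ ∣ (l : O))
    {K : IntermediateField F Ω} [NumberField K]
    (hK : ∀ V : ValuationSubring Ω, vo V γ < 1 → ∃ x ∈ K, V.valuation x ^ l = vo V γ)
    (hV : V ≠ ⊤) : ∃ P : P27 Ω, ∀ s ∈ K.fixingSubgroup, Dec V s → c s = ac W27 s P - P := by
  by_cases h3V : V.valuation (3 : Ω) < 1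
  · have hv3 : vo V (3 : O) < 1 := by rw [fz4_three]; exact h3V
    have hγ1 : vo V γ = 1 := lv_unit (lv_coprime G.gp).symm hv3
    have hl1 : V.valuation (l : Ω) = 1 := by
      rw [← fz4_nat]
      exact lv_unit (s0_coprime l G.D.hl G.D.five).symm hv3
    obtain ⟨X, -, hX⟩ := loc_three G.D h3V G.dc fun s hs => G.inert he.pair hl1 hγ1 hs.1 hs.2.1
    exact ⟨X, fun s _ hs => hX s hs⟩
  · have h3V1 : V.valuation (3 : Ω) = 1 := by
      rw [← fz4_three] at h3V ⊢
      exact le_antisymm (lv_le V 3) (not_lt.1 h3V)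
    by_cases hlV : V.valuation (l : Ω) < 1
    · obtain ⟨P, hP⟩ := G.above he hlV
      exact ⟨P, fun s _ hs => hP s hs⟩
    · have hlV1 : V.valuation (l : Ω) = 1 := by
        rw [← fz4_nat] at hlV ⊢
        exact le_antisymm (lv_le V _) (not_lt.1 hlV)
      have hlv : vo V (l : O) = 1 := by rw [fz4_nat]; exact hlV1
      have hcj : vo V (cj π) = 1 := fz4_dvd V (s0_dvd G.D.dvd) hlv
      have hπ1 : vo V π = 1 := fz4_dvd V G.D.dvd hlv
      have hm : ∀ s ∈ K.fixingSubgroup, ∀ t ∈ K.fixingSubgroup, c (s * t) = c s + ac W27 s (c t) :=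
        fun s _ t _ => G.cc.mul s (fix_bot s) t (fix_bot t)
      have hcont : ∃ N : IntermediateField F Ω, FiniteDimensional F N ∧
          ∀ s ∈ K.fixingSubgroup, s ∈ N.fixingSubgroup → c s = 0 := by
        obtain ⟨N, hN, h1⟩ := G.cc.cont
        exact ⟨N, hN, fun s _ hs => h1 s (fix_bot s) hs⟩
      have hval : ∀ s ∈ K.fixingSubgroup, c s ∈ Tor (cj π) Ω := fun s _ => G.cc.val s (fix_bot s)
      by_cases hγ : vo V γ < 1
      · obtain ⟨x, hx, hxv⟩ := hK V hγ
        exact loc_good G.g G.gp hγ h3V1 hcj hm hcont hval fun s hs hi =>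
          G.kill he.pair hγ h3V1 hlV1 hx hxv hs hi
      · have hγ1 : vo V γ = 1 := le_antisymm (lv_le V γ) (not_lt.1 hγ)
        obtain ⟨δ, hδ, hδp, hδV⟩ := fz4_below hV h3V1
        exact loc_good hδ hδp hδV h3V1 hcj hm hcont hval fun s hs hi =>
          G.inert he.pair hlV1 hγ1 hi fun T hT => inert_tors h3V1 hπ1 hi hT

/-- THE ALGEBRAIC HALF. A nonzero class in the classical l-Selmer group over K. (l • c s = 0: cj π divides l.) -/
theorem sel_nonzero (D : Dat π l) (hγ : Prime γ) (hγ3 : Prim γ) (h1 : π ∣ γ - 1) (h3 : ¬ γ ∣ 3)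
    (hl : ¬ γ ∣ (l : O)) {K : IntermediateField F Ω} [NumberField K]
    (hn : ∀ s : Ω ≃ₐ[F] Ω, ∀ x ∈ K, s x ∈ K) (hd : ∃ k : ℕ, Module.finrank F K = l ^ k)
    (hK : ∀ V : ValuationSubring Ω, vo V γ < 1 → ∃ x ∈ K, V.valuation x ^ l = vo V γ) :
    ∃ c : (Ω ≃ₐ[F] Ω) → P27 Ω, Coc W27 K c ∧ (∀ s ∈ K.fixingSubgroup, l • c s = 0) ∧
      (∀ V : ValuationSubring Ω, V ≠ ⊤ → ∃ P : P27 Ω, ∀ s ∈ K.fixingSubgroup, Dec V s →
        c s = ac W27 s P - P) ∧
      ¬ ∃ T : P27 Ω, l • T = 0 ∧ ∀ s ∈ K.fixingSubgroup, c s = ac W27 s T - T := by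
  obtain ⟨e, he⟩ := exists_pairA (Ω := Ω) π l D
  obtain ⟨L, c, y, G⟩ := exists_gl D hγ hγ3 h1 he.pair
  have hfin : FiniteDimensional F K := FiniteDimensional.right ℚ F K
  refine ⟨c, ⟨fun s _ t _ => G.cc.mul s (fix_bot s) t (fix_bot t), ?_⟩, ?_, ?_, ?_⟩
  · obtain ⟨N, hN, h2⟩ := G.cc.cont
    exact ⟨N, hN, fun s _ hs => h2 s (fix_bot s) hs⟩
  · intro s _
    have h2 : H28G.act (cj π) (c s) = 0 := G.cc.val s (fix_bot s)
    obtain ⟨u, hu⟩ := s0_dvd D.dvd
    rw [← act_nat, hu, mul_comm, act_mul, h2, map_zero]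
  · intro V hV
    exact G.local he h3 hl hK hV
  · exact G.not_cob he.pair h3 hl hn hd

end H13Z
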