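import Mathlib
import Pool.Agent.Lib.H13Z.Defs
import Pool.Agent.Lib.H13S.VW
import Pool.Agent.Lib.H13S.S0
import Pool.Agent.Lib.H55P.Z10
import Pool.Agent.Lib.H55P.Z5
import Pool.Agent.Lib.H55P.I4

open NumberField IsDedekindDomain

namespace H13Z

open H55P H28G H55B H13S

/-- Chunk FZ5 (S/M). K/F is Galois (PExt with bottom field ⊥: normal, characteristic 0) of degree l^k, so the ramification index e of v₀ (the same for all primes above it: ramificationIdxIn, H55R.es) divides l^k; RamF gives a prime W (not ⊥) above v₀ with index ≥ 2: l | e. V: w = the prime of K below V (exists_below: γ⁻¹ is not in V), γ in w,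
so w is above v₀, w γ = exp(-e) (v₀ γ = exp(-1): K5_ord or K14 val_gen). x = u^(e/l), u a uniformizer of w: w (x^l) = w γ, so V (x^l) = V γ (Abv.le twice). -/
theorem ram_val {Ω : Type} [Field Ω] [DecidableEq Ω] [Algebra F Ω] [IsAlgClosure F Ω] {l : ℕ} (hl : l.Prime)
    {γ : O} (hγ : Prime γ) (v₀ : HeightOneSpectrum O) (hv : v₀.asIdeal = Ideal.span {γ})
    (K : IntermediateField F Ω) [NumberField K] (hK : PExt l ⊥ K) (hr : RamF K v₀.asIdeal)
    (V : ValuationSubring Ω) (hV : vo V γ < 1) : ∃ x ∈ K, V.valuation x ^ l = vo V γ := by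
  have hfd : FiniteDimensional F K := hK.fin
  have hal : Algebra.IsAlgebraic F Ω := IsAlgClosure.isAlgebraic
  have hcl : IsAlgClosed Ω := IsAlgClosure.isAlgClosed F
  have hnoΩ : Normal F Ω := IsAlgClosure.normal F Ω
  have hno : Normal F K := by
    rw [IntermediateField.normal_iff_forall_map_le']
    intro σ x hx
    obtain ⟨y, hy, rfl⟩ := (IntermediateField.mem_map _).1 hx
    exact hK.norm σ (fix_bot σ) y hy
  have hsep : Algebra.IsSeparable F K := inferInstance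
  have hgal : IsGalois F K := isGalois_iff.2 ⟨hsep, hno⟩
  have hγ0 : (ak F γ : F) ≠ 0 := by
    intro h
    apply hγ.ne_zero
    apply RingOfIntegers.ext
    exact h
  -- the prime of K below V
  obtain ⟨w, hw⟩ := exists_below K V ⟨algebraMap F K ((ak F γ : F)⁻¹ : F), by
    intro h
    rw [← ValuationSubring.valuation_le_one_iff] at h
    have e : ((algebraMap F K ((ak F γ : F)⁻¹ : F) : K) : Ω) = (algebraMap F Ω (γ : F))⁻¹ := by
      rw [← map_inv₀ (algebraMap F Ω)]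
      rfl
    rw [e, map_inv₀] at h
    have h0 : V.valuation (algebraMap F Ω (γ : F)) ≠ 0 := by
      rw [Ne, map_eq_zero, map_eq_zero]
      exact hγ0
    have h1 : (1 : V.ValueGroup) < (V.valuation (algebraMap F Ω (γ : F)))⁻¹ :=
      (one_lt_inv₀ (zero_lt_iff.2 h0)).2 hV
    exact absurd h (not_le.2 h1)⟩
  have hV' : V.valuation ((algebraMap F K (ak F γ) : K) : Ω) < 1 := hV
  have hw1 := (hw.lt _).1 hV'
  have hmem : algebraMap O (𝓞 K) γ ∈ w.asIdeal := by
    have e : algebraMap F K (ak F γ) = algebraMap (𝓞 K) K (algebraMap O (𝓞 K) γ) := rfl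
    rw [e, HeightOneSpectrum.valuation_of_algebraMap, HeightOneSpectrum.intValuation_lt_one_iff_mem] at hw1
    exact hw1
  have hund : ∀ w : H55R.Pl K, algebraMap O (𝓞 K) γ ∈ w.asIdeal → w.asIdeal.LiesOver v₀.asIdeal := by
    intro w hw
    refine ⟨v₀.isMaximal.eq_of_le (w.under (𝓞 F)).isPrime.ne_top ?_⟩
    rw [hv, Ideal.span_singleton_le_iff_mem]
    exact hw
  have hvg : v₀.valuation F (ak F γ) = WithZero.exp (-1 : ℤ) := by
    have h1 : ak F γ = algebraMap (𝓞 F) F γ := rfl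
    rw [h1, HeightOneSpectrum.valuation_of_algebraMap]
    exact HeightOneSpectrum.intValuation_singleton v₀ hγ.ne_zero hv
  have hval : ∀ w : H55R.Pl K, algebraMap O (𝓞 K) γ ∈ w.asIdeal →
      w.valuation K (algebraMap F K (ak F γ)) = WithZero.exp (-1 : ℤ) ^ (H55R.es F K v₀) := by
    intro w hw
    have hl' := hund w hw
    have hp := v₀.isPrime
    have hW := w.isPrime
    have h1 := HeightOneSpectrum.valuation_liesOver K v₀ w (ak F γ)
    rw [Ideal.ramificationIdx'_eq_ramificationIdx v₀.asIdeal w.asIdeal v₀.ne_bot,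
      ← Ideal.ramificationIdxIn_eq_ramificationIdx v₀.asIdeal w.asIdeal Gal(K/F), hvg] at h1
    exact h1.symm
  -- the index is a power of l
  have hdvd : ∃ k : ℕ, H55R.es F K v₀ ∣ l ^ k := by
    obtain ⟨k, hk⟩ := hK.deg
    rw [IntermediateField.finrank_bot, one_mul] at hk
    refine ⟨k, ?_⟩
    have h1 := H55R.card_above (L := K) v₀ (H55R.above_finite (L := K) v₀).toFinset (by
      intro W
      rw [Set.Finite.mem_toFinset]
      rfl)
    rw [← hk, ← h1]
    exact Dvd.dvd.mul_left (dvd_mul_right _ _) _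
  have h2 : 2 ≤ H55R.es F K v₀ := by
    obtain ⟨W, hW, hle⟩ := hr
    have hγW2 : algebraMap O (𝓞 K) γ ∈ W ^ 2 := by
      apply hle
      apply Ideal.mem_map_of_mem
      rw [hv]
      exact Ideal.mem_span_singleton_self _
    have hγW : algebraMap O (𝓞 K) γ ∈ W := Ideal.pow_le_self two_ne_zero hγW2
    have hWb : W ≠ ⊥ := by
      rintro rfl
      rw [Ideal.mem_bot] at hγW
      have h3 : algebraMap F K (ak F γ) = 0 := congrArg (algebraMap (𝓞 K) K) hγW
      rw [map_eq_zero] at h3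
      exact hγ0 h3
    have h3 := hval ⟨W, hW, hWb⟩ hγW
    have e : algebraMap F K (ak F γ) = algebraMap (𝓞 K) K (algebraMap O (𝓞 K) γ) := rfl
    rw [e, HeightOneSpectrum.valuation_of_algebraMap] at h3
    have h4 := (HeightOneSpectrum.intValuation_le_pow_iff_mem ⟨W, hW, hWb⟩ (algebraMap O (𝓞 K) γ) 2).2 hγW2
    rw [h3, ← WithZero.exp_nsmul, WithZero.exp_le_exp] at h4
    rw [nsmul_eq_mul] at h4
    push_cast at h4
    omega
  have hle : l ∣ H55R.es F K v₀ := by
    obtain ⟨k, hk⟩ := hdvd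
    obtain ⟨j, -, hj⟩ := (Nat.dvd_prime_pow hl).1 hk
    rw [hj]
    apply dvd_pow_self
    rintro rfl
    rw [hj, pow_zero] at h2
    omega
  obtain ⟨m, hm⟩ := hle
  obtain ⟨u, hu⟩ := w.valuation_exists_uniformizer K
  have hx : w.valuation K ((u ^ m) ^ l) = w.valuation K (algebraMap F K (ak F γ)) := by
    rw [hval w hmem, hm, map_pow, map_pow, hu, ← pow_mul, mul_comm l m]
  refine ⟨((u ^ m : K) : Ω), (u ^ m : K).2, ?_⟩
  have e1 : V.valuation ((u ^ m : K) : Ω) ^ l = V.valuation (((u ^ m) ^ l : K) : Ω) := by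
    rw [← map_pow]
    rfl
  have e2 : vo V γ = V.valuation ((algebraMap F K (ak F γ) : K) : Ω) := rfl
  rw [e1, e2]
  exact le_antisymm ((hw.le _ _).2 hx.le) ((hw.le _ _).2 hx.ge)

theorem FZ5_gen (K : Type) [Field K] [NumberField K] [Algebra F K] (h1 : Module.finrank F K = 1)
    (v : HeightOneSpectrum (𝓞 K)) (h3 : (3 : 𝓞 K) ∉ v.asIdeal) (u : HeightOneSpectrum O)
    (h3' : (3 : O) ∉ u.asIdeal) (hu : u.asIdeal = v.asIdeal.under O) :
    Nat.card {p : (𝓞 K ⧸ v.asIdeal) × (𝓞 K ⧸ v.asIdeal) // p.2 ^ 2 + p.2 = p.1 ^ 3} + 1 =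
      H55B.Nm (gen u - 1) := by
  have hf : v.asIdeal.inertiaDeg O = 1 := by
    obtain ⟨ε, hε⟩ := H55N.T2_equiv K h1
    have hlies : v.asIdeal.LiesOver u.asIdeal := ⟨hu⟩
    have := v.isMaximal
    have := u.isMaximal
    have h6 := Ideal.relNorm_eq_pow_of_isMaximal v.asIdeal u.asIdeal
    have h7 : v.asIdeal = (ε u.asIdeal) ^ (v.asIdeal.inertiaDeg O) := by
      obtain ⟨J, hJ⟩ := ε.surjective v.asIdeal
      obtain ⟨J', hJ'⟩ := ε.surjective ((ε u.asIdeal) ^ (v.asIdeal.inertiaDeg O))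
      have h8 := (hε J).1
      have h9 := (hε J').1
      rw [hJ, h6] at h8
      rw [hJ', map_pow, (hε _).1] at h9
      have h10 : J = J' := by rw [← h8, ← h9]
      exact hJ.symm.trans ((congrArg ε h10).trans hJ')
    have hirr := v.irreducible
    have hpos : 0 < v.asIdeal.inertiaDeg O := Ideal.inertiaDeg_pos v.asIdeal O
    obtain ⟨g, hg'⟩ : ∃ g, v.asIdeal.inertiaDeg O = g + 1 := ⟨_, (Nat.sub_add_cancel hpos).symm⟩
    rw [hg'] at h7
    rw [hg']
    have hnu : ¬ IsUnit (ε u.asIdeal) := by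
      intro h
      apply hirr.not_isUnit
      rw [h7]
      exact h.pow _
    rw [h7, pow_succ] at hirr
    rcases hirr.isUnit_or_isUnit rfl with h | h
    · rcases Nat.eq_zero_or_pos g with h0 | h0
      · rw [h0]
      · exact absurd ((isUnit_pow_iff h0.ne').1 h) hnu
    · exact absurd h hnu
  have c2 := cardE K v h3
  rw [PZ5_card K v h3, H55N.Psi_prime v u hu, H55N.psiF_prime u h3', hf, pow_one,
    Complex.conj_conj] at c2
  have c3 := congrArg e (mul_cj (gen u - 1))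
  rw [map_mul, e_cj, map_sub, map_one, map_sub, map_one, map_natCast] at c3
  have c4 : ((Nat.card {p : (𝓞 K ⧸ v.asIdeal) × (𝓞 K ⧸ v.asIdeal) // p.2 ^ 2 + p.2 = p.1 ^ 3} + 1 : ℕ) : ℂ) =
      (H55B.Nm (gen u - 1) : ℂ) := by
    rw [← c3, c2]
    ring
  exact_mod_cast c4

/-- Chunk FZ6 (S/M). A bad prime gives π. γ = gen v₀ (gen_spec: generates v₀, Prim; Prime because v₀ is a prime ideal, not 0). cardE for K = F (H55P/Z5.lean; Psi F v₀ = conjugate or value of e γ: see its definition, or adm_card) : Nat.card = Nm (γ - 1) (as complex numbers (1 - γ)(1 - conj γ)). s0_prime: π₀ primary prime dividing p, p | Nm (γ - 1) = (γ - 1) cj (γ - 1) (mul_cj),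
so π₀ divides γ - 1 (π = π₀) or cj (γ - 1), and then π = cj π₀ (CO2_cj_prime, CO2_cj_prim, s0_dvd) divides γ - 1. γ does not divide 3, p: hypotheses. -/
theorem bad_pi (p : ℕ) (hp : p.Prime) (h5 : 5 ≤ p) (v₀ : HeightOneSpectrum O) (h3 : (3 : O) ∉ v₀.asIdeal)
    (hpv : (p : O) ∉ v₀.asIdeal)
    (hd : p ∣ Nat.card ((W27O.baseChange (O ⧸ v₀.asIdeal)).toAffine.Point)) :
    ∃ π γ : O, Dat π p ∧ Prime γ ∧ Prim γ ∧ v₀.asIdeal = Ideal.span {γ} ∧ π ∣ γ - 1 ∧ ¬ γ ∣ 3 ∧
      ¬ γ ∣ (p : O) := by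
  obtain ⟨hg1, hg2⟩ := gen_spec v₀ h3
  have hγ : Prime (gen v₀) := by
    rw [← Ideal.span_singleton_prime hg2.ne_zero, ← hg1]
    exact v₀.isPrime
  have c1 := PZ5_card F v₀ h3
  have c2 := FZ5_gen F (Module.finrank_self F) v₀ h3 v₀ h3 (by
    ext x
    rw [Ideal.under_def, Ideal.mem_comap]
    rfl)
  rw [← c1] at c2
  have c5 : Nat.card ((W27O.baseChange (O ⧸ v₀.asIdeal)).toAffine.Point) = H55B.Nm (gen v₀ - 1) := c2
  rw [c5] at hd
  obtain ⟨π, h6, h7, h8⟩ := s0_prime p hp h5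
  have h9 : π ∣ (gen v₀ - 1) * cj (gen v₀ - 1) := by
    rw [mul_cj]
    exact h8.trans (by exact_mod_cast (Nat.cast_dvd_cast (α := O) hd))
  have h10 : ¬ gen v₀ ∣ 3 := by
    rw [← Ideal.mem_span_singleton, ← hg1]
    exact h3
  have h11 : ¬ gen v₀ ∣ (p : O) := by
    rw [← Ideal.mem_span_singleton, ← hg1]
    exact hpv
  rcases h6.dvd_or_dvd h9 with h | h
  · exact ⟨π, gen v₀, ⟨hp, h5, h6, h7, h8⟩, hγ, hg2, hg1, h, h10, h11⟩
  · exact ⟨cj π, gen v₀, ⟨hp, h5, (MulEquiv.prime_iff cj).2 h6, s0_prim h7, s0_dvd h8⟩, hγ, hg2, hg1, by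
      have h12 := map_dvd cj h
      rw [cj_cj] at h12
      exact h12, h10, h11⟩

end H13Z
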