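import Mathlib
import Pool.Agent.Lib.H13Z.FZ4
import Pool.Agent.Lib.H13Z.FZ5
import Pool.Agent.Lib.H13Z.TR
import Pool.Agent.Lib.H55P.I6
import Pool.Agent.Lib.H55P.Fin

open NumberField IsDedekindDomain WeierstrassCurve

namespace H13Z

open H55P H28G H13S
open H55B (F O E27)

/-- Chunk FZ8a (S/M). K/F Galois of degree p^k, unramified above p, a ramified prime v₀ which is not good: v₀ is not above 3 and not above p (as in crit_K, H55P/I6.lean: bot_conv', ram_norm, three_norm), so p divides the number of points: bad_pi, exists_pairA is used inside sel_nonzero, ram_val. -/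
theorem alg_half (p : ℕ) (hp : p.Prime) (h5 : 5 ≤ p) (K : IntermediateField F FB) [NumberField K]
    (hK : PExt p ⊥ K) (hU : UnrP p K) (v₀ : HeightOneSpectrum O) (hr : RamF K v₀.asIdeal)
    (hb : ¬ GoodP p v₀) : SelNon W27 p K := by
  have hbn : NumberField (⊥ : IntermediateField F FB) := H16C.FR_numberField _
  obtain ⟨v, h1, h2, h3⟩ := bot_conv' W27O K v₀
  have hram := h2 hr
  have hn := ram_norm p hp ⊥ K hK K bot_le le_rfl hU v hram
  have hv3 : (3 : 𝓞 (⊥ : IntermediateField F FB)) ∉ v.asIdeal := fun h => three_norm p hp h5 v h hn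
  have hpv : (p : 𝓞 (⊥ : IntermediateField F FB)) ∉ v.asIdeal := by
    intro hm
    have h4 : Ideal.absNorm v.asIdeal ∣ p ^ Module.finrank ℚ (⊥ : IntermediateField F FB) := by
      rw [← pt8_norm]
      apply map_dvd
      rw [Ideal.dvd_iff_le, Ideal.span_singleton_le_iff_mem]
      exact hm
    obtain ⟨k, hk, hk'⟩ := (Nat.dvd_prime_pow hp).1 h4
    have hne : k ≠ 0 := by
      rintro rfl
      rw [pow_zero, Ideal.absNorm_eq_one_iff] at hk'
      exact v.isPrime.ne_top hk'
    have h6 : p ∣ Ideal.absNorm v.asIdeal := by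
      rw [hk']
      exact dvd_pow_self p hne
    have h7 : 1 ≤ Ideal.absNorm v.asIdeal := by
      refine Nat.one_le_iff_ne_zero.2 ?_
      rw [Ne, Ideal.absNorm_eq_zero_iff]
      exact v.ne_bot
    have h8 : p ∣ 1 := (Nat.dvd_sub_iff_right h7 h6).1 hn
    exact hp.one_lt.ne' (Nat.dvd_one.1 h8)
  have g3 : (3 : O) ∉ v₀.asIdeal := fun h => hv3 (by
    have := (h1 3).1 h
    rwa [map_ofNat] at this)
  have gp : (p : O) ∉ v₀.asIdeal := fun h => hpv (by
    have := (h1 p).1 h
    rwa [map_natCast] at this)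
  have gd : p ∣ Nat.card ((W27O.baseChange (O ⧸ v₀.asIdeal)).toAffine.Point) := by
    by_contra h
    exact hb ⟨g3, gp, h⟩
  obtain ⟨π, γ, hD, hγ, hγ3, hv, hd, h3', hl⟩ := bad_pi p hp h5 v₀ g3 gp gd
  have hdeg : ∃ k : ℕ, Module.finrank F K = p ^ k := by
    obtain ⟨k, hk⟩ := hK.deg
    rw [finrank_bot', one_mul] at hk
    exact ⟨k, hk⟩
  exact sel_nonzero hD hγ hγ3 hd h3' hl
    (fun s x hx => hK.norm s (fix_bot s) x hx) hdeg
    (fun V hV => ram_val hp hγ v₀ hv K hK hr V hV)

private theorem fz8_ram {F : Type} [Field F] [NumberField F] {Ω : Type} [Field Ω] [Algebra F Ω]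
    (L : Type) [Field L] [NumberField L] [Algebra F L] (j : L →ₐ[F] Ω)
    (v : HeightOneSpectrum (𝓞 F)) (W : HeightOneSpectrum (𝓞 L)) (hv : v.asIdeal = W.asIdeal.under (𝓞 F))
    (he : W.asIdeal.ramificationIdx (𝓞 F) ≠ 1) : RamF j.fieldRange v.asIdeal := by
  obtain ⟨θ, hθ⟩ : ∃ θ : 𝓞 L ≃+* 𝓞 j.fieldRange, ∀ x : 𝓞 F,
      θ (algebraMap (𝓞 F) (𝓞 L) x) = algebraMap (𝓞 F) (𝓞 j.fieldRange) x := by
    let e : L ≃ₐ[F] j.fieldRange := AlgEquiv.ofInjectiveField j
    refine ⟨RingOfIntegers.mapRingEquiv e, fun x => ?_⟩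
    apply RingOfIntegers.coe_injective
    show e (algebraMap F L (x : F)) = algebraMap F j.fieldRange (x : F)
    exact e.commutes _
  have hmap : (v.asIdeal.map (algebraMap (𝓞 F) (𝓞 L))).map (θ : 𝓞 L →+* 𝓞 j.fieldRange) =
      v.asIdeal.map (algebraMap (𝓞 F) (𝓞 j.fieldRange)) := by
    rw [Ideal.map_map]
    congr 1
    exact RingHom.ext fun x => hθ x
  have hl : W.asIdeal.LiesOver v.asIdeal := ⟨hv⟩
  have hWp := W.isPrime
  have h1 : v.asIdeal.map (algebraMap (𝓞 F) (𝓞 L)) ≤ W.asIdeal ^ 2 := by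
    rw [Ideal.map_le_iff_le_comap]
    intro x hx
    exact s13_le_sq v.asIdeal v.ne_bot W.asIdeal he x hx
  refine ⟨W.asIdeal.map (θ : 𝓞 L →+* 𝓞 j.fieldRange), Ideal.map_isPrime_of_equiv θ, ?_⟩
  rw [← hmap, ← Ideal.map_pow]
  exact Ideal.map_mono h1

/-- Chunk FZ8b (S/M). THE ALGEBRAIC HALF OF THE EXACT CRITERION. j : K → FB over F, pext_range; UnrP transported to j.fieldRange (isomorphic rings of integers); W, v with v = W.under, v not good, ramificationIdx ≠ 1: RamF j.fieldRange v (converse of ramF_range in H55P/Z13.lean; s13_le_sq as in extP_clos, I7.lean). alg_half, non_transport for k = F, W27⁄K = E27.baseChange K (E27_base, E27 and W27 have the same coefficients). -/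
theorem crit_alg (p : ℕ) (hp : p.Prime) (h5 : 5 ≤ p) (K : Type) [Field K] [NumberField K] [Algebra F K]
    (hK : ExtU p K) (hn : ¬ SelNonT (E27.baseChange K) p) : ExtP p K := by
  obtain ⟨hG, ⟨k, hk⟩, hU⟩ := hK
  have hfL : FiniteDimensional F K := Module.finite_of_finrank_pos (by rw [hk]; exact pow_pos hp.pos k)
  refine ⟨hG, ⟨k, hk⟩, fun W v hv hb => ?_⟩
  by_contra he
  apply hn
  obtain ⟨j, -⟩ : ∃ j : K →ₐ[F] FB, True := ⟨IsAlgClosed.lift, trivial⟩
  have hL : PExt p ⊥ j.fieldRange := pext_range p hp K hG k hk j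
  have hLf : FiniteDimensional F j.fieldRange := hL.fin
  have hLn : NumberField j.fieldRange := H16C.FR_numberField _
  have hUL : UnrP p j.fieldRange := by
    letI : Algebra j.fieldRange K :=
      (AlgEquiv.ofInjectiveField j).symm.toRingEquiv.toRingHom.toAlgebra
    exact UnrP.down j.fieldRange K p hp hU
  have hr : RamF j.fieldRange v.asIdeal := fz8_ram K j v W hv he
  have hS := alg_half p hp h5 j.fieldRange hL hUL v hr hb
  have h1 := non_transport W27 p K j hS
  have h2 : (W27⁄K) = E27.baseChange K := by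
    ext <;> simp [W27, E27]
  rw [← h2]
  exact h1

end H13Z
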